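import Pool.Agent.H33.NFT.Img
import Pool.Agent.H89.TGT.TubS

/-!
# The activity of the windows with new lines

`ImA F v f c₀ κ k₁ A`: in the window with new lines the velocity of the coordinate `κ` is the
velocity of the coordinate `c₀`; the exact point and the first digits of the velocities are
determined up to few values by the point and the digits of the velocities of the family and by the
side information of the window. `ff_winI`: the total activity of the windows with new lines is the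
total activity of the class minus the number of bits of the record. `act_winI`: a subclass whose
windows with new lines have activity numbers with positive total between two scales.
-/

set_option autoImplicit false

namespace Pool.NFT33

open Finset Real MeasureTheory
open Pool.Agent.H49.Ent Pool.Agent.H32.Dense Pool.STK Pool.KA Pool.KSAT Pool.K2S Pool.PB Pool.S6C
open Pool.GEN Pool.REX Pool.REX83 Pool.OWN72 Pool.TGT Pool.FRX
open Pool.SUPA (SA FF)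

variable {m n J : ℕ}

/-- The digits of the window with new lines, from the digits of the family. -/
structure ImA (F : Fam m J) (v : Vz m) (f : Nw v n) (c₀ : Fin m) (κ : Fin n) (k₁ : ℕ)
    (A : F.Ω → Prop) : Prop where
  act : ∀ ω, A ω → (winI v f F).d ω κ = F.d ω c₀
  nX : ∀ ω ω', A ω → A ω' → (v.win F).Z ω = (v.win F).Z ω' → F.T ω = F.T ω' →
    F.X J ω = F.X J ω' → ∀ i, |(winI v f F).X (J - v.B J) ω i - (winI v f F).X (J - v.B J) ω' i| ≤ 49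
  nD : ∀ ω ω', A ω → A ω' → (v.win F).Z ω = (v.win F).Z ω' → F.T ω = F.T ω' →
    F.X J ω = F.X J ω' → ∀ k ≤ k₁, F.D k ω = F.D k ω' →
      ∀ i, |(winI v f F).D k ω i - (winI v f F).D k ω' i| ≤ 49

theorem ImA.sub {F : Fam m J} {v : Vz m} {f : Nw v n} {c₀ : Fin m} {κ : Fin n} {k₁ : ℕ}
    {A B : F.Ω → Prop} (h : ImA F v f c₀ κ k₁ A) (hB : Sub B A) : ImA F v f c₀ κ k₁ B :=
  ⟨fun ω hω => h.act ω (hB ω hω), fun ω ω' h1 h2 => h.nX ω ω' (hB ω h1) (hB ω' h2),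
    fun ω ω' h1 h2 => h.nD ω ω' (hB ω h1) (hB ω' h2)⟩

/-- The law on an event lives on the event. -/
theorem of_condp {Ω : Type} [Fintype Ω] {p : Ω → ℝ} {A : Ω → Prop} {ω : Ω}
    (h : 0 < Pool.Agent.H49.Ent.cond p A True ω) : A ω := by
  unfold Pool.Agent.H49.Ent.cond at h
  by_contra hcon
  have h1 : ¬ A ω = True := fun h2 => hcon (by rw [h2]; trivial)
  rw [if_neg h1] at h
  exact absurd h (lt_irrefl _)

/-- **The blocks of the windows with new lines**, with the telescoping loss. -/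
theorem blk_winI {F : Fam m J} {v : Vz m} {f : Nw v n} {c₀ : Fin m} {κ : Fin n} {k₁ : ℕ}
    {A : F.Ω → Prop} (hI : ImA F v f c₀ κ k₁ A) (hA : 0 < Pe F.p A) {k l : ℕ} (hkl : k ≤ l)
    (hk : k ≤ k₁) :
    blk F {c₀} A k l ≤ blk (winI v f F) {κ} A k l +
      (CH (Pool.Agent.H49.Ent.cond F.p A True) (v.y J F) (fun ω => (F.D k ω, (F.X J ω, F.W ω))) -
      CH (Pool.Agent.H49.Ent.cond F.p A True) (v.y J F) (fun ω => (F.D l ω, (F.X J ω, F.W ω)))) +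
      (m * k99 + (n * k99 + n * k99)) := by
  have hq := isLaw_cond F.isLaw hA
  have h0 := hq.nonneg
  have hB : v.B J ≤ J := (v.floor_le J).1
  have h1 := CH_bayes h0 (fun ω => prjK {c₀} (F.D l ω))
    (fun ω => (v.y J F ω, fl (v.B J) (F.x1 (v.B J) ω))) (fun ω => (F.D k ω, (F.X J ω, F.W ω)))
  have h2 := CH_subadd h0 (v.y J F) (fun ω => fl (v.B J) (F.x1 (v.B J) ω))
    (fun ω => (F.D k ω, (F.X J ω, F.W ω)))
  have h3 : CH (Pool.Agent.H49.Ent.cond F.p A True) (fun ω => fl (v.B J) (F.x1 (v.B J) ω))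
      (fun ω => (F.D k ω, (F.X J ω, F.W ω))) ≤ m * k99 := by
    refine le_trans (CH_mono_cond h0 fun ω ω' _ _ e => ?_) (x1_few F hB hq)
    have e1 := Prod.ext_iff.1 (Prod.ext_iff.1 e).2
    exact Prod.ext e1.1 (Prod.ext_iff.1 e1.2).1
  have h3' : CH (Pool.Agent.H49.Ent.cond F.p A True) (v.y J F)
      (fun ω => (F.D l ω, (F.X J ω, F.W ω))) ≤
      CH (Pool.Agent.H49.Ent.cond F.p A True)
        (fun ω => (v.y J F ω, fl (v.B J) (F.x1 (v.B J) ω)))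
        (fun ω => (prjK {c₀} (F.D l ω), (F.D k ω, (F.X J ω, F.W ω)))) := by
    refine le_trans (CH_mono_cond h0 (W' := fun ω => (F.D l ω, (F.X J ω, F.W ω)))
      (W := fun ω => (prjK {c₀} (F.D l ω), (F.D k ω, (F.X J ω, F.W ω)))) fun ω ω' _ _ e => ?_)
      (CH_mono_left h0 fun ω ω' _ _ e => ?_)
    · have e1 := Prod.ext_iff.1 e
      have e2 : F.D l ω = F.D l ω' := e1.1
      refine Prod.ext ?_ (Prod.ext (Pool.STK.B58.fl_fine hkl e1.1) e1.2)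
      show prjK {c₀} (F.D l ω) = prjK {c₀} (F.D l ω')
      rw [e2]
    · exact (Prod.ext_iff.1 (Prod.ext_iff.1 e).1).1
  -- the digits of the new lines
  have h4 : CH (Pool.Agent.H49.Ent.cond F.p A True) (fun ω => prjK {c₀} (F.D l ω))
      (fun ω => ((v.y J F ω, fl (v.B J) (F.x1 (v.B J) ω)), (F.D k ω, (F.X J ω, F.W ω)))) ≤
      CH (Pool.Agent.H49.Ent.cond F.p A True)
        (fun ω => prjK {κ} ((winI v f F).D l ω))
      (fun ω => ((v.y J F ω, fl (v.B J) (F.x1 (v.B J) ω)), (F.D k ω, (F.X J ω, F.W ω)))) := by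
    refine CH_mono_left h0 fun ω ω' hω hω' e => ?_
    have e1 := congrFun (Prod.ext_iff.1 e).1 κ
    have e3 : (winI v f F).D l ω κ = (winI v f F).D l ω' κ := by
      unfold prjK at e1
      simpa using e1
    have e2 : F.D l ω c₀ = F.D l ω' c₀ := by
      have a1 : (winI v f F).D l ω κ = ⌊(2 : ℝ) ^ l * (winI v f F).d ω κ⌋ := rfl
      have a2 : (winI v f F).D l ω' κ = ⌊(2 : ℝ) ^ l * (winI v f F).d ω' κ⌋ := rfl
      rw [a1, a2, hI.act ω (of_condp hω), hI.act ω' (of_condp hω')] at e3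
      exact e3
    funext i
    show prjK {c₀} (F.D l ω) i = prjK {c₀} (F.D l ω') i
    unfold prjK
    by_cases hi : i = c₀
    · rw [hi, e2]
    · have : i ∉ ({c₀} : Finset (Fin m)) := by simpa using hi
      rw [if_neg this, if_neg this]
  -- the conditions
  obtain ⟨W₁, hW₁⟩ : ∃ W₁ : F.Ω → _, W₁ = fun ω =>
    ((v.y J F ω, fl (v.B J) (F.x1 (v.B J) ω)), (F.D k ω, (F.X J ω, F.W ω))) := ⟨_, rfl⟩
  have hW₁d : ∀ ω ω', W₁ ω = W₁ ω' → (v.win F).Z ω = (v.win F).Z ω' ∧ F.T ω = F.T ω' ∧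
      F.X J ω = F.X J ω' ∧ F.D k ω = F.D k ω' := by
    intro ω ω' e
    rw [hW₁] at e
    have e1 := Prod.ext_iff.1 e
    have e2 := Prod.ext_iff.1 e1.1
    have e3 := Prod.ext_iff.1 e1.2
    have e4 := Prod.ext_iff.1 e3.2
    have hW : F.W ω = F.W ω' := e4.2
    have hT : F.T ω = F.T ω' := (Prod.ext_iff.1 hW).1
    have hZ : F.Z ω = F.Z ω' := (Prod.ext_iff.1 hW).2
    have hx : fl (v.B J) (F.x1 (v.B J) ω) = fl (v.B J) (F.x1 (v.B J) ω') := e2.2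
    refine ⟨Prod.ext e2.1 ?_, hT, e4.1, e3.1⟩
    show F.c (v.B J) ω = F.c (v.B J) ω'
    unfold Fam.c
    have c1 : F.T1 (v.B J) ω = F.T1 (v.B J) ω' := by
      unfold Fam.T1
      rw [hT]
    rw [c1, hx, hZ]
  have h5 : CH (Pool.Agent.H49.Ent.cond F.p A True)
        (fun ω => prjK {κ} ((winI v f F).D l ω)) W₁ ≤
      blk (winI v f F) {κ} A k l + (n * k99 + n * k99) := by
    have k1 := CH_le_add h0 (fun ω => prjK {κ} ((winI v f F).D l ω))
      (fun ω => ((winI v f F).D k ω, (winI v f F).X (J - v.B J) ω)) W₁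
    have k2 := CH_subadd h0 ((winI v f F).D k) ((winI v f F).X (J - v.B J)) W₁
    have k3 : CH (Pool.Agent.H49.Ent.cond F.p A True) ((winI v f F).D k) W₁ ≤ n * k99 := by
      have h5 := CH_le_vec h0 hq.sum_one ((winI v f F).D k) W₁
        (fun _ => 49) (fun ω ω' hω hω' h i => by
          obtain ⟨b1, b2, b3, b4⟩ := hW₁d ω ω' h
          exact_mod_cast hI.nD ω ω' (of_condp hω) (of_condp hω') b1 b2 b3 k hk b4 i)
      rwa [Ex_const hq.sum_one] at h5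
    have k4 : CH (Pool.Agent.H49.Ent.cond F.p A True) ((winI v f F).X (J - v.B J)) W₁ ≤
        n * k99 := by
      have h5 := CH_le_vec h0 hq.sum_one ((winI v f F).X (J - v.B J)) W₁
        (fun _ => 49) (fun ω ω' hω hω' h i => by
          obtain ⟨b1, b2, b3, b4⟩ := hW₁d ω ω' h
          exact_mod_cast hI.nX ω ω' (of_condp hω) (of_condp hω') b1 b2 b3 i)
      rwa [Ex_const hq.sum_one] at h5
    have k5 : CH (Pool.Agent.H49.Ent.cond F.p A True) (fun ω => prjK {κ} ((winI v f F).D l ω))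
        (fun ω => (((winI v f F).D k ω, (winI v f F).X (J - v.B J) ω), W₁ ω)) ≤
        blk (winI v f F) {κ} A k l := by
      refine CH_mono_cond h0 fun ω ω' _ _ e => ?_
      have e1 := Prod.ext_iff.1 e
      have e2 := Prod.ext_iff.1 e1.1
      obtain ⟨b1, b2, -, -⟩ := hW₁d ω ω' e1.2
      refine Prod.ext e2.1 (Prod.ext e2.2 (Prod.ext ?_ b1))
      show F.T ω % 2 ^ (J - v.B J) = F.T ω' % 2 ^ (J - v.B J)
      rw [b2]
    linarith
  rw [hW₁] at h5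
  have h6 := h4.trans h5
  unfold blk at h6 ⊢
  linarith

/-- The numbers of the windows with new lines. -/
theorem nbr_winI {S : PCl m} {v : Vz m} {f : Nw v n}
    {N : Finset (Fin n) → ℝ → ℝ → ℝ} (hN : ActN (WyI S v f) N) (κ : Fin n)
    {x y : ℝ} (hx0 : 0 ≤ x) (hx1 : x ≤ 1) (hy0 : 0 ≤ y) (hy : y ≤ 1) :
    Nbr S (fun J F A => blk (winI v f F) {κ} A ⌊x * ((J - v.B J : ℕ) : ℝ)⌋₊
      ⌊y * ((J - v.B J : ℕ) : ℝ)⌋₊) ((1 - v.b) * (N {κ} x y * Real.log 2)) := by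
  have hb0 := v.b0
  have hb1 := v.b1
  intro h hh
  have k1 := bas_wyi.1 (hN.num {κ} x y hx0 hx1 hy0 hy (h / 2) (half_pos hh))
  obtain ⟨a, ha⟩ : ∃ a : ℝ, a = N {κ} x y * Real.log 2 := ⟨_, rfl⟩
  rw [← ha] at k1 ⊢
  obtain ⟨J₁, hJ₁⟩ := exists_nat_ge (2 * |a| / h)
  refine Bas.mono J₁ k1 fun J hJ F A hA => ?_
  have hJ0 : (0 : ℝ) ≤ J := Nat.cast_nonneg J
  have e1 : ((J - v.B J : ℕ) : ℝ) = J - v.B J := by rw [Nat.cast_sub (v.floor_le J).1]
  have e2 : (v.B J : ℝ) ≤ v.b * J := Nat.floor_le (mul_nonneg hb0 hJ0)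
  have e3 : v.b * J - 1 < (v.B J : ℝ) := Nat.sub_one_lt_floor _
  have e4 : 2 * |a| ≤ h * J := by
    have h3 : (J₁ : ℝ) ≤ J := by exact_mod_cast hJ
    have h4 := hJ₁.trans h3
    rw [div_le_iff₀ hh] at h4
    linarith
  show |blk (winI v f F) {κ} A ⌊x * ((J - v.B J : ℕ) : ℝ)⌋₊ ⌊y * ((J - v.B J : ℕ) : ℝ)⌋₊ -
    (1 - v.b) * a * J| ≤ h * J
  have hA' : |blk (winI v f F) {κ} A ⌊x * ((J - v.B J : ℕ) : ℝ)⌋₊
    ⌊y * ((J - v.B J : ℕ) : ℝ)⌋₊ - a * ((J - v.B J : ℕ) : ℝ)| ≤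
      h / 2 * ((J - v.B J : ℕ) : ℝ) := hA
  have e5 : |a * ((J - v.B J : ℕ) : ℝ) - (1 - v.b) * a * J| ≤ |a| := by
    rw [e1]
    have e6 : a * (J - v.B J) - (1 - v.b) * a * J = a * (v.b * J - v.B J) := by ring
    rw [e6, abs_mul]
    have : |v.b * J - v.B J| ≤ 1 := by
      rw [abs_le]
      constructor <;> linarith
    calc |a| * |v.b * J - v.B J| ≤ |a| * 1 := mul_le_mul_of_nonneg_left this (abs_nonneg _)
      _ = |a| := mul_one _
  have e7 : ((J - v.B J : ℕ) : ℝ) ≤ J := by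
    rw [e1]
    have : (0 : ℝ) ≤ v.B J := Nat.cast_nonneg _
    linarith
  have e8 := abs_sub_le (blk (winI v f F) {κ} A ⌊x * ((J - v.B J : ℕ) : ℝ)⌋₊
    ⌊y * ((J - v.B J : ℕ) : ℝ)⌋₊) (a * ((J - v.B J : ℕ) : ℝ)) ((1 - v.b) * a * J)
  have e9 : h / 2 * ((J - v.B J : ℕ) : ℝ) ≤ h / 2 * J :=
    mul_le_mul_of_nonneg_left e7 (by linarith)
  linarith

/-- **The mesh sums of the windows with new lines behind the record.** -/
theorem num_winI {S : PCl m} (hne : S.Ne) (hpos : Bas S (fun _ F A => 0 < Pe F.p A))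
    {Ns : Finset (Fin m) → ℝ → ℝ → ℝ} (hNs : ActN S Ns) (v : Vz m) (f : Nw v n) (c₀ : Fin m)
    {N : Finset (Fin n) → ℝ → ℝ → ℝ} (hN : ActN (WyI S v f) N) (κ : Fin n) {P₀ h k₁ : ℝ}
    (hrec : Bas S (fun J F A =>
      CH (Pool.Agent.H49.Ent.cond F.p A True) (v.y J F)
        (fun ω => (F.D ⌊P₀ * J⌋₊ ω, (F.X J ω, F.W ω))) ≤ h * J))
    (hI : Bas S (fun J F A => ImA F v f c₀ κ ⌊k₁ * J⌋₊ A))
    (M : ℕ) {x : ℕ → ℝ} (hx : Monotone x) (hx0 : 0 ≤ x 0) (hP₀ : P₀ ≤ (1 - v.b) * x 0)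
    (hxM : x M ≤ 1) (hxk : (1 - v.b) * x M ≤ k₁) :
    ∑ i ∈ range M, Ns {c₀} ((1 - v.b) * x i) ((1 - v.b) * x (i + 1)) ≤
      (1 - v.b) * ∑ i ∈ range M, N {κ} (x i) (x (i + 1)) + h / Real.log 2 := by
  have hl2 : 0 < Real.log 2 := Real.log_pos one_lt_two
  have hb0 := v.b0
  have hb1 := v.b1
  have hc : 0 < 1 - v.b := by linarith
  have hxi0 : ∀ i, 0 ≤ x i := fun i => hx0.trans (hx (Nat.zero_le i))
  have hxi1 : ∀ i ≤ M, x i ≤ 1 := fun i hi => (hx hi).trans hxM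
  have h1 : Nbr S (fun J F A => ∑ i ∈ range M, blk F {c₀} A ⌊(1 - v.b) * x i * J⌋₊
      ⌊(1 - v.b) * x (i + 1) * J⌋₊)
      (∑ i ∈ range M, Ns {c₀} ((1 - v.b) * x i) ((1 - v.b) * x (i + 1)) * Real.log 2) :=
    Nbr.sum _ fun i hi => by
      have hiM := Finset.mem_range.1 hi
      refine hNs.num {c₀} ((1 - v.b) * x i) ((1 - v.b) * x (i + 1))
        (mul_nonneg hc.le (hxi0 i)) ?_ (mul_nonneg hc.le (hxi0 _)) ?_
      · exact mul_le_one₀ (by linarith) (hxi0 i) (hxi1 i (by omega))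
      · exact mul_le_one₀ (by linarith) (hxi0 _) (hxi1 _ (by omega))
  have h2 : Nbr S (fun J F A => ∑ i ∈ range M, blk (winI v f F) {κ} A
      ⌊x i * ((J - v.B J : ℕ) : ℝ)⌋₊ ⌊x (i + 1) * ((J - v.B J : ℕ) : ℝ)⌋₊)
      (∑ i ∈ range M, (1 - v.b) * (N {κ} (x i) (x (i + 1)) * Real.log 2)) :=
    Nbr.sum _ fun i hi => by
      have hiM := Finset.mem_range.1 hi
      exact nbr_winI hN κ (hxi0 i) (hxi1 i (by omega)) (hxi0 _) (hxi1 _ (by omega))
  have key := Nbr.le hne h1 h2 (c := h)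
    (C := M * (m * k99 + (n * k99 + n * k99) + n * Real.log 2 * 4)) (by
    refine Bas.mono 0 ((hrec.and hpos).and hI) ?_
    rintro J - F A ⟨⟨h3, hA⟩, hI'⟩
    have hq := isLaw_cond F.isLaw hA
    have hJ0 : (0 : ℝ) ≤ J := Nat.cast_nonneg J
    have e1 : ((J - v.B J : ℕ) : ℝ) = J - v.B J := by rw [Nat.cast_sub (v.floor_le J).1]
    have e2 : (v.B J : ℝ) ≤ v.b * J := Nat.floor_le (mul_nonneg hb0 hJ0)
    have e3 : v.b * J - 1 < (v.B J : ℝ) := Nat.sub_one_lt_floor _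
    have near : ∀ z : ℝ, 0 ≤ z → z ≤ 1 → |((⌊(1 - v.b) * z * J⌋₊ : ℕ) : ℝ) -
        (⌊z * ((J - v.B J : ℕ) : ℝ)⌋₊ : ℕ)| ≤ 2 := by
      intro z hz0 hz1
      have a1 : (⌊(1 - v.b) * z * J⌋₊ : ℝ) ≤ (1 - v.b) * z * J := Nat.floor_le (by positivity)
      have a2 : (1 - v.b) * z * J - 1 < (⌊(1 - v.b) * z * J⌋₊ : ℝ) := Nat.sub_one_lt_floor _
      have a3 : (⌊z * ((J - v.B J : ℕ) : ℝ)⌋₊ : ℝ) ≤ z * ((J - v.B J : ℕ) : ℝ) :=
        Nat.floor_le (by positivity)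
      have a4 : z * ((J - v.B J : ℕ) : ℝ) - 1 < (⌊z * ((J - v.B J : ℕ) : ℝ)⌋₊ : ℝ) :=
        Nat.sub_one_lt_floor _
      rw [e1] at a3 a4 ⊢
      have a5 : 0 ≤ z * (v.b * J - v.B J) := mul_nonneg hz0 (by linarith)
      have a6 : z * (v.b * J - v.B J) ≤ 1 := mul_le_one₀ hz1 (by linarith) (by linarith)
      rw [abs_le]
      constructor <;> nlinarith
    obtain ⟨φ, hφ⟩ : ∃ φ : ℕ → ℝ, φ = fun i => CH (Pool.Agent.H49.Ent.cond F.p A True) (v.y J F)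
        (fun ω => (F.D ⌊(1 - v.b) * x i * J⌋₊ ω, (F.X J ω, F.W ω))) := ⟨_, rfl⟩
    have hone : ∀ i ∈ range M, blk F {c₀} A ⌊(1 - v.b) * x i * J⌋₊
        ⌊(1 - v.b) * x (i + 1) * J⌋₊ ≤ blk (winI v f F) {κ} A
        ⌊x i * ((J - v.B J : ℕ) : ℝ)⌋₊ ⌊x (i + 1) * ((J - v.B J : ℕ) : ℝ)⌋₊ +
        (φ i - φ (i + 1)) + (m * k99 + (n * k99 + n * k99) + n * Real.log 2 * 4) := by
      intro i hi
      have hiM := Finset.mem_range.1 hi
      have k0 : ⌊(1 - v.b) * x i * J⌋₊ ≤ ⌊(1 - v.b) * x (i + 1) * J⌋₊ :=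
        Nat.floor_le_floor (mul_le_mul_of_nonneg_right
          (mul_le_mul_of_nonneg_left (hx (Nat.le_succ i)) hc.le) hJ0)
      have k00 : ⌊(1 - v.b) * x i * J⌋₊ ≤ ⌊k₁ * J⌋₊ :=
        Nat.floor_le_floor (mul_le_mul_of_nonneg_right
          ((mul_le_mul_of_nonneg_left (hx (by omega : i ≤ M)) hc.le).trans hxk) hJ0)
      have k1 := blk_winI hI' hA k0 k00
      have k2 := blk_near (F := winI v f F) hA {κ}
        ⌊(1 - v.b) * x i * J⌋₊ ⌊x i * ((J - v.B J : ℕ) : ℝ)⌋₊ ⌊(1 - v.b) * x (i + 1) * J⌋₊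
        ⌊x (i + 1) * ((J - v.B J : ℕ) : ℝ)⌋₊
      have k4 : (n : ℝ) * Real.log 2 * (|((⌊(1 - v.b) * x i * J⌋₊ : ℕ) : ℝ) -
          (⌊x i * ((J - v.B J : ℕ) : ℝ)⌋₊ : ℕ)| + |((⌊(1 - v.b) * x (i + 1) * J⌋₊ : ℕ) : ℝ) -
          (⌊x (i + 1) * ((J - v.B J : ℕ) : ℝ)⌋₊ : ℕ)|) ≤ n * Real.log 2 * 4 := by
        refine mul_le_mul_of_nonneg_left ?_ (by positivity)
        linarith [near (x i) (hxi0 i) (hxi1 i (by omega)),
          near (x (i + 1)) (hxi0 _) (hxi1 _ (by omega))]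
      rw [hφ]
      linarith
    have h5 := Finset.sum_le_sum hone
    rw [Finset.sum_add_distrib, Finset.sum_add_distrib, Finset.sum_range_sub', Finset.sum_const,
      Finset.card_range, nsmul_eq_mul] at h5
    have h6 : φ 0 ≤ h * J := by
      rw [hφ]
      refine le_trans (CH_mono_cond hq.nonneg fun ω ω' _ _ e => ?_) h3
      have e' := Prod.ext_iff.1 e
      refine Prod.ext (Pool.STK.B58.fl_fine (Nat.floor_le_floor ?_) e'.1) e'.2
      exact mul_le_mul_of_nonneg_right hP₀ hJ0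
    have h7 : 0 ≤ φ M := by
      rw [hφ]
      exact CH_nonneg hq.nonneg _ _
    show ∑ i ∈ range M, blk F {c₀} A ⌊(1 - v.b) * x i * J⌋₊ ⌊(1 - v.b) * x (i + 1) * J⌋₊ ≤
      ∑ i ∈ range M, blk (winI v f F) {κ} A
        ⌊x i * ((J - v.B J : ℕ) : ℝ)⌋₊ ⌊x (i + 1) * ((J - v.B J : ℕ) : ℝ)⌋₊ + h * J +
        M * (m * k99 + (n * k99 + n * k99) + n * Real.log 2 * 4)
    linarith)
  rw [← Finset.sum_mul, ← Finset.mul_sum, ← Finset.sum_mul] at key
  refine le_of_mul_le_mul_right ?_ hl2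
  rw [add_mul, div_mul_cancel₀ _ hl2.ne']
  linarith

/-- **The total activity of the windows with new lines behind the record.** -/
theorem ff_winI {S : PCl m} (hne : S.Ne) (hpos : Bas S (fun _ F A => 0 < Pe F.p A))
    {Ns : Finset (Fin m) → ℝ → ℝ → ℝ} (hNs : ActN S Ns) (v : Vz m) (f : Nw v n) (c₀ : Fin m)
    {N : Finset (Fin n) → ℝ → ℝ → ℝ} (hN : ActN (WyI S v f) N) (κ : Fin n) {P₀ h k₁ : ℝ}
    (hrec : Bas S (fun J F A =>
      CH (Pool.Agent.H49.Ent.cond F.p A True) (v.y J F)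
        (fun ω => (F.D ⌊P₀ * J⌋₊ ω, (F.X J ω, F.W ω))) ≤ h * J))
    (hI : Bas S (fun J F A => ImA F v f c₀ κ ⌊k₁ * J⌋₊ A))
    {P Q : ℝ} (hP0 : 0 ≤ P) (hP₀ : P₀ ≤ (1 - v.b) * P) (hPQ : P ≤ Q) (hQ : Q ≤ 1)
    (hQk : (1 - v.b) * Q ≤ k₁) :
    FF (Ns {c₀}) ((1 - v.b) * Q) - FF (Ns {c₀}) ((1 - v.b) * P) ≤
      (1 - v.b) * (FF (N {κ}) Q - FF (N {κ}) P) + h / Real.log 2 := by
  have hb0 := v.b0
  have hb1 := v.b1
  have hc : 0 < 1 - v.b := by linarith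
  refine le_of_forall_pos_le_add fun e he => ?_
  obtain ⟨d₁, hd₁, k₁'⟩ := ff_mesh (hNs.sa {c₀}) (half_pos he)
  obtain ⟨d₂, hd₂, k₂⟩ := ff_mesh (hN.sa {κ}) (half_pos he)
  obtain ⟨M, hM⟩ := exists_nat_gt ((Q - P) / min d₁ d₂)
  have hd0 : 0 < min d₁ d₂ := lt_min hd₁ hd₂
  have hM0 : (0 : ℝ) < M := lt_of_le_of_lt (by
    have : 0 ≤ Q - P := by linarith
    positivity) hM
  rw [div_lt_iff₀ hd0] at hM
  obtain ⟨x, hx⟩ : ∃ x : ℕ → ℝ, x = fun l : ℕ => P + l * ((Q - P) / M) := ⟨_, rfl⟩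
  have hst : (Q - P) / M ≤ min d₁ d₂ := by
    rw [div_le_iff₀ hM0]
    linarith
  have hst0 : 0 ≤ (Q - P) / M := div_nonneg (by linarith) hM0.le
  have hxm : Monotone x := by
    intro l l' hll
    have h1 : (l : ℝ) ≤ l' := by exact_mod_cast hll
    rw [hx]
    have := mul_le_mul_of_nonneg_right h1 hst0
    show P + l * ((Q - P) / M) ≤ P + l' * ((Q - P) / M)
    linarith
  have hx0 : x 0 = P := by rw [hx]; simp
  have hxM : x M = Q := by
    rw [hx]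
    show P + M * ((Q - P) / M) = Q
    field_simp
    ring
  have hstep : ∀ i, x (i + 1) - x i = (Q - P) / M := by
    intro i
    rw [hx]
    show P + ((i + 1 : ℕ) : ℝ) * ((Q - P) / M) - (P + i * ((Q - P) / M)) = _
    push_cast
    ring
  have h1 := num_winI hne hpos hNs v f c₀ hN κ hrec hI M hxm (by rw [hx0]; exact hP0)
    (by rw [hx0]; exact hP₀) (by rw [hxM]; exact hQ) (by rw [hxM]; exact hQk)
  have h2 := k₂ M x hxm (by rw [hx0]; exact hP0) (by rw [hxM]; exact hQ) (fun i _ => by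
    rw [hstep]
    exact hst.trans (min_le_right _ _))
  have h3 := k₁' M (fun i => (1 - v.b) * x i) (fun i j hij => mul_le_mul_of_nonneg_left (hxm hij)
    hc.le) (mul_nonneg hc.le (by rw [hx0]; exact hP0)) (by
      show (1 - v.b) * x M ≤ 1
      rw [hxM]
      exact mul_le_one₀ (by linarith) (hP0.trans hPQ) hQ) (fun i _ => by
        show (1 - v.b) * x (i + 1) - (1 - v.b) * x i ≤ d₁
        rw [← mul_sub, hstep]
        have h4 : (1 - v.b) * ((Q - P) / M) ≤ 1 * ((Q - P) / M) :=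
          mul_le_mul_of_nonneg_right (by linarith) hst0
        have h5 := hst.trans (min_le_left _ _)
        linarith)
  rw [hx0, hxM] at h2 h3
  rw [abs_le] at h2 h3
  have h4 : (1 - v.b) * (∑ i ∈ range M, N {κ} (x i) (x (i + 1))) ≤
      (1 - v.b) * (FF (N {κ}) Q - FF (N {κ}) P) + e / 2 := by
    have h5 : (1 - v.b) * (∑ i ∈ range M, N {κ} (x i) (x (i + 1))) ≤
        (1 - v.b) * (FF (N {κ}) Q - FF (N {κ}) P + e / 2) :=
      mul_le_mul_of_nonneg_left (by linarith [h2.2]) hc.le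
    nlinarith
  linarith [h3.1]

/-- **The activity of the windows with new lines**, in a subclass. -/
theorem act_winI {S : PCl m} (hS : S.Ne)
    (hpos : ∀ (τ : ℝ) (J : ℕ) (F : Fam m J) (A : F.Ω → Prop), S.St τ J F A → 0 < Pe F.p A)
    {Ns : Finset (Fin m) → ℝ → ℝ → ℝ} (hNs : ActN S Ns) (v : Vz m) (f : Nw v n) (c₀ : Fin m)
    (κ : Fin n) {P₀ h P Q k₁ : ℝ}
    (hrec : Bas S (fun J F A =>
      CH (Pool.Agent.H49.Ent.cond F.p A True) (v.y J F)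
        (fun ω => (F.D ⌊P₀ * J⌋₊ ω, (F.X J ω, F.W ω))) ≤ h * J))
    (hI : Bas S (fun J F A => ImA F v f c₀ κ ⌊k₁ * J⌋₊ A))
    (hP0 : 0 ≤ P₀) (hPP : P₀ ≤ P) (hPQ : P < Q) (hQ : Q < 1 - v.b) (hQk : Q ≤ k₁)
    (hact : h / Real.log 2 < FF (Ns {c₀}) Q - FF (Ns {c₀}) P) :
    ∃ (S₁ : PCl m) (N : Finset (Fin n) → ℝ → ℝ → ℝ), S₁.Ne ∧
      (∀ (τ : ℝ) (J : ℕ) (F : Fam m J) (A : F.Ω → Prop), S₁.St τ J F A → S.St τ J F A) ∧
      ActN (WyI S₁ v f) N ∧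
      0 < FF (N {κ}) (Q / (1 - v.b)) - FF (N {κ}) (P / (1 - v.b)) := by
  obtain ⟨S₁, N, hne₁, hsub₁, hN⟩ := act_all hS hpos (ι := Unit) (fun _ => n)
    (fun _ => wyiZ v f)
  have hpos₁ : ∀ (τ : ℝ) (J : ℕ) (F : Fam m J) (A : F.Ω → Prop), S₁.St τ J F A →
      0 < Pe F.p A := fun τ J F A h => hpos τ J F A (hsub₁ τ J F A h)
  have hposB₁ : Bas S₁ (fun _ F A => 0 < Pe F.p A) :=
    ⟨1, one_pos, 0, fun J _ F A hA => hpos₁ 1 J F A hA⟩
  have hb : ∀ Φ : Stat m, Bas S Φ → Bas S₁ Φ := fun Φ h => Bas.sub hsub₁ h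
  have hNs₁ : ActN S₁ Ns := actN_of_bas hb hNs
  refine ⟨S₁, N (), hne₁, hsub₁, hN (), ?_⟩
  have hb1 := v.b1
  have hc : 0 < 1 - v.b := by linarith
  have hP0i : 0 ≤ P := hP0.trans hPP
  have e1 : ∀ z : ℝ, (1 - v.b) * (z / (1 - v.b)) = z := fun z => by field_simp
  have hPd : 0 ≤ P / (1 - v.b) := div_nonneg hP0i hc.le
  have hPQd : P / (1 - v.b) < Q / (1 - v.b) := div_lt_div_of_pos_right hPQ hc
  have hQd : Q / (1 - v.b) ≤ 1 := by
    rw [div_le_one hc]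
    exact hQ.le
  have hNi : ActN (WyI S₁ v f) (N ()) := hN ()
  have h1 := ff_winI hne₁ hposB₁ hNs₁ v f c₀ hNi κ
    (hb _ hrec) (hb _ hI) hPd (by rw [e1]; exact hPP) hPQd.le hQd (by rw [e1]; exact hQk)
  rw [e1, e1] at h1
  by_contra hcon
  push Not at hcon
  have := mul_nonpos_of_nonneg_of_nonpos hc.le hcon
  linarith

end Pool.NFT33
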