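import Pool.Agent.H33.NFT.Zmx
import Pool.Agent.H89.IMG.NotI
import Pool.Agent.H89.IMG.Zmd
import Pool.Agent.H5.K2.Exh

/-!
# Flat and steep directions

`ChI.imN`: the data `ImN` (helper89) of a chart with a flat direction. `alt_cls`: a class has a
subclass in which the directions are flat, or a subclass in which they are steep. `not_chart`: there
are no closed labels of the last coordinate of the image class.
-/

set_option autoImplicit false

namespace Pool.NFT33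

open Finset Real MvPolynomial
open Pool.Agent.H49.Ent Pool.Agent.H32.Dense Pool.STK Pool.KA Pool.KSAT Pool.K2S Pool.PB Pool.GEN
open Pool.S6C Pool.GRD Pool.GRW Pool.TGT Pool.REX Pool.REX83 Pool.MIC6
open Pool.ORD65
open Pool.OWN17 (root_fix)
open Pool.STAT.CLO (Inj)

variable {m n J : ℕ}

/-- **The data of a chart with a flat direction.** -/
theorem ChI.imN {F : Fam m J} {v : Vz m} {c : ℕ → Fin m} {n₀ k K t ρ₁ ρ k₁ θ : ℕ} {g : ℕ → ℕ}
    {d : CD F v} {A : F.Ω → Prop} {f : Nw v n₀} {idx : ℕ → Fin n₀}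
    (h : ChI F v c n₀ k g K t ρ₁ d A)
    (him : ImH F v f (c 0) (idx 0) K ρ k₁ (fun y i => d.Pi c g k y i) A) (hn₀ : 2 ≤ n₀)
    (hK : 1 ≤ K) (hkn : k < n₀) (hidx : ∀ l < n₀, (idx l : ℕ) = l)
    (hfl : ∀ ω, A ω → |d.ka ((v.win F).Z ω) n₀| ≤ 2 ^ θ) :
    ImN F v f (c 0) (idx 0) (idx (n₀ - 1)) (c n₀) ((range n₀).image c)
      ((range (n₀ - 1)).image idx) K ρ k₁ (2 ^ g n₀ / 2 ^ θ) (fun y i => d.Pi c g k y i)
      (fun y => 2 ^ g n₀ / d.mx y n₀)
      (fun y => d.Q y n₀ + MvPolynomial.C (d.ka y n₀ * 2 ^ g k / 2 ^ g n₀) *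
        (MvPolynomial.X (some (c k)) - d.Q y k)) A := by
  have hlast : dl k ((idx (n₀ - 1) : Fin n₀) : ℕ) = n₀ := by
    rw [hidx _ (by omega)]
    exact dl_last hkn
  have hQ : ∀ y, ∀ l ≤ n₀, ∀ b b' : Option (Fin m) → ℝ, b none = b' none →
      (∀ i ∈ (range n₀).image c, b (some i) = b' (some i)) →
      eval b (d.Q y l) = eval b' (d.Q y l) := fun y l hl b b' h0 h1 =>
    h.dep y l b b' h0 fun j hj => h1 _ (Finset.mem_image_of_mem c (mem_range.2 (by omega)))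
  refine ⟨him, fun ω hω => ?_, fun y => ?_, fun y => ?_, fun y b b' h0 h1 => ?_,
    fun y i hi hik b b' h0 h1 => ?_⟩
  · have h1 := hfl ω hω
    have h2 := d.mx_pos ((v.win F).Z ω) n₀
    have h3 : d.mx ((v.win F).Z ω) n₀ ≤ 2 ^ θ := max_le (one_le_pow₀ (by norm_num)) h1
    rw [abs_of_pos (div_pos (by positivity) h2)]
    exact div_le_div_of_nonneg_left (by positivity) h2 h3
  · rw [d.Pi_last, hlast]
  · refine (MvPolynomial.totalDegree_add _ _).trans (max_le (h.deg y _) ?_)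
    refine (MvPolynomial.totalDegree_mul _ _).trans ?_
    rw [MvPolynomial.totalDegree_C, zero_add]
    refine (MvPolynomial.totalDegree_sub _ _).trans (max_le ?_ (h.deg y k))
    rw [MvPolynomial.totalDegree_X]
    exact hK
  · rw [map_add, map_add, map_mul, map_mul, map_sub, map_sub, eval_C, eval_C, eval_X, eval_X,
      hQ y n₀ le_rfl b b' h0 h1, hQ y k hkn.le b b' h0 h1,
      h1 _ (Finset.mem_image_of_mem c (mem_range.2 hkn))]
  · obtain ⟨l, hl, rfl⟩ := Finset.mem_image.1 hi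
    have hl' := mem_range.1 hl
    have e1 : ((idx l : Fin n₀) : ℕ) = l := hidx l (by omega)
    have e2 : dl k ((idx l : Fin n₀) : ℕ) < n₀ := by
      rw [e1]
      exact dl_lt (by omega)
    show eval b (d.Pi c g k y (idx l)) = eval b' (d.Pi c g k y (idx l))
    rw [d.eval_Pi, d.eval_Pi, hQ y _ e2.le b b' h0 h1, hQ y k hkn.le b b' h0 h1,
      h1 _ (Finset.mem_image_of_mem c (mem_range.2 hkn)),
      h1 _ (Finset.mem_image_of_mem c (mem_range.2 e2))]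

/-- **Flat or steep.** -/
theorem alt_cls {S : PCl m} (hne : S.Ne) (hpos : ∀ (τ : ℝ) (J : ℕ) (F : Fam m J) (A : F.Ω → Prop),
    S.St τ J F A → 0 < Pe F.p A) (a : ∀ (J : ℕ) (F : Fam m J), F.Ω → ℝ) (θ : ℕ → ℝ) :
    ∃ S' : PCl m, S'.Ne ∧
      (∀ (τ : ℝ) (J : ℕ) (F : Fam m J) (A : F.Ω → Prop), S'.St τ J F A → S.St τ J F A) ∧
      (Bas S' (fun J F A => ∀ ω, A ω → a J F ω ≤ θ J) ∨
        Bas S' (fun J F A => ∀ ω, A ω → θ J ≤ a J F ω)) := by
  classical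
  obtain ⟨S₁, β, hne₁, hsub₁, hV⟩ := root_fix (Δ := fun _ _ => Bool) hne
    (fun J F β A => (β = true → ∀ ω, A ω → a J F ω ≤ θ J) ∧
      (β = false → ∀ ω, A ω → θ J ≤ a J F ω))
    (fun J F β A B h hB => ⟨fun e ω hω => h.1 e ω (hB ω hω), fun e ω hω => h.2 e ω (hB ω hω)⟩)
    (C := 2) ⟨1, one_pos, 0, fun J _ F A hA => by
      have h1 : Pe F.p A = Pe F.p (fun ω => A ω ∧ a J F ω ≤ θ J) +
          Pe F.p (fun ω => A ω ∧ ¬ (A ω ∧ a J F ω ≤ θ J)) :=
        Pool.K2S.Pe_split F.p (fun ω hω => hω.1)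
      have h2 := hpos 1 J F A hA
      rcases le_total (Pe F.p (fun ω => A ω ∧ ¬ (A ω ∧ a J F ω ≤ θ J)))
        (Pe F.p (fun ω => A ω ∧ a J F ω ≤ θ J)) with h3 | h3
      · exact ⟨true, fun ω => A ω ∧ a J F ω ≤ θ J, fun ω hω => hω.1, by linarith,
          fun _ ω hω => hω.2, fun e => absurd e (by decide)⟩
      · exact ⟨false, fun ω => A ω ∧ ¬ (A ω ∧ a J F ω ≤ θ J), fun ω hω => hω.1, by linarith,
          fun e => absurd e (by decide), fun _ ω hω =>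
            (not_le.1 fun h4 => hω.2 ⟨hω.1, h4⟩).le⟩⟩
  by_cases hne₂ : (S₁.sl ⟨fun _ J F _ => β J F = true, fun _ h => h, fun _ h _ _ => h⟩).Ne
  · exact ⟨_, hne₂, fun τ J F A hA => hsub₁ τ J F A hA.1, Or.inl ⟨1, one_pos, 0,
      fun J _ F A hA => (hV 1 J F A hA.1).1 hA.2⟩⟩
  · refine ⟨S₁.sl ⟨fun _ J F _ => β J F = false, fun _ h => h, fun _ h _ _ => h⟩, ?_,
      fun τ J F A hA => hsub₁ τ J F A hA.1, Or.inr ⟨1, one_pos, 0,
      fun J _ F A hA => (hV 1 J F A hA.1).2 hA.2⟩⟩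
    unfold PCl.Ne at hne₂
    push Not at hne₂
    obtain ⟨τ₀, hτ₀, J₀, hno⟩ := hne₂
    intro τ hτ J₁
    obtain ⟨J, hJ, F, A, hA⟩ := hne₁ (min τ τ₀) (lt_min hτ hτ₀) (max J₀ J₁)
    refine ⟨J, (le_max_right _ _).trans hJ, F, A, S₁.mono (min_le_left _ _) hA, ?_⟩
    have h1 := hno J ((le_max_left _ _).trans hJ) F A
    show β J F = false
    by_contra hβ
    rw [Bool.not_eq_false] at hβ
    exact h1 ⟨S₁.mono (min_le_right _ _) hA, hβ⟩

end Pool.NFT33
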