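import Pool.Agent.H65.ORD.Zpl
import Pool.Agent.H65.NFC.Fld

/-!
# Exactness and rates of a class with small coordinates

`SzI`: all coordinates but one are small, this one is known to `β₀ J` digits given the side
information: labels on balls (`blp_sz`, `ylg_sz`).
`sz_total`: the entropy of the exact point, from exactness of the base behind closed values (`ZmX`)
and from the absence of closed labels of the last coordinate (`NoT`), with the side information of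
the families as the label of the place.
-/

set_option autoImplicit false

namespace Pool.NFT33

open Finset Real MvPolynomial
open Pool.Agent.H49.Ent Pool.Agent.H32.Dense Pool.STK Pool.KA Pool.KSAT Pool.K2S Pool.PB Pool.GEN
open Pool.S6C Pool.GRD Pool.GRW Pool.TGT Pool.REX Pool.REX83 Pool.FRX Pool.SHF33 Pool.MIC6
open Pool.ORD65
open Pool.SUPA (SA FF)
open Pool.STAT.CLO (Inj)

variable {m n J : ℕ}

/-- **All coordinates but `κ` are small**, and `κ` is known to `β₀ J` digits given the side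
information. -/
def SzI (S : PCl n) (κ : Fin n) (β₀ β : ℝ) : Prop :=
  ∃ C : ℝ, 1 ≤ C ∧ Bas S (fun J F A => (∀ ω ω', A ω → A ω' → F.Z ω = F.Z ω' → F.T ω = F.T ω' →
    |F.x ω κ - F.x ω' κ| ≤ C / 2 ^ ⌊β₀ * J⌋₊) ∧
    ∀ ω, A ω → ∀ i, i ≠ κ → |F.x ω i| ≤ C / 2 ^ ⌊β * J⌋₊)

theorem SzI.sub {S S' : PCl n} {κ : Fin n} {β₀ β : ℝ} (h : SzI S κ β₀ β)
    (hs : ∀ (τ : ℝ) (J : ℕ) (F : Fam n J) (A : F.Ω → Prop), S'.St τ J F A → S.St τ J F A) :
    SzI S' κ β₀ β := by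
  obtain ⟨C, h1, h2⟩ := h
  exact ⟨C, h1, h2.sub hs⟩

theorem blp_sz {S : PCl n} {κ : Fin n} {β₀ β : ℝ} (h : SzI S κ β₀ β) {c : ℕ → Fin n} {N : ℕ}
    (h0 : c 0 = κ) (hc : ∀ l, 1 ≤ l → l < N → c l ≠ κ) (ρR : ℝ) :
    BlP S c N (fun _ F => F.Z) ρR (fun l => if l = 0 then β₀ else β) := by
  obtain ⟨C, hC, hB⟩ := h
  refine ⟨2 * C, by linarith, hB.mono 0 ?_⟩
  intro J _ F A h ω ω' hω hω' hZ hT l hl _
  by_cases hl0 : l = 0
  · subst hl0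
    have h1 := h.1 ω ω' hω hω' hZ hT
    rw [h0]
    simp only [if_true]
    have e1 : 2 * C / 2 ^ ⌊β₀ * J⌋₊ = 2 * (C / 2 ^ ⌊β₀ * J⌋₊) := by ring
    have h4 : 0 ≤ C / 2 ^ ⌊β₀ * J⌋₊ := by positivity
    rw [e1]
    linarith
  · show |F.x ω (c l) - F.x ω' (c l)| ≤ 2 * C / 2 ^ ⌊(if l = 0 then β₀ else β) * (J : ℝ)⌋₊
    rw [if_neg hl0]
    have h1 := h.2 ω hω (c l) (hc l (by omega) hl)
    have h2 := h.2 ω' hω' (c l) (hc l (by omega) hl)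
    have h3 := abs_sub (F.x ω (c l)) (F.x ω' (c l))
    have e1 : 2 * C / 2 ^ ⌊β * J⌋₊ = 2 * (C / 2 ^ ⌊β * J⌋₊) := by ring
    rw [e1]
    linarith

theorem ylg_sz {S : PCl n} {κ : Fin n} {β₀ β : ℝ} (h : SzI S κ β₀ β) (v : Vz n) {k : ℕ}
    {ε : Fin k → Fin n} (I : Finset (Fin k)) {i : Fin k} (hi : ε i ≠ κ) (ρ : ℝ) :
    YLg S v ε I i β ρ := by
  obtain ⟨C, hC, hB⟩ := h
  refine ⟨0, C, by linarith, hB.mono 0 ?_⟩
  intro J _ F A h
  refine ⟨fun _ => 0, fun _ => by rw [MvPolynomial.totalDegree_zero], fun _ _ _ _ _ => rfl,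
    fun ω hω => ?_, fun ω hω j => ?_⟩
  · rw [map_zero, sub_zero]
    exact h.2 ω hω _ hi
  · rw [map_zero, map_zero, abs_zero]
    positivity

/-- **The entropy of the exact point.** -/
theorem sz_total {N : ℕ} (hN : 1 ≤ N) (hFZ : FZX N) {x : ℝ} (hFq : FZQ (N + 1) x)
    {S : PCl (N + 1)} (hne : S.Ne) {C₀ : ℝ} (hC₀ : 0 ≤ C₀) (htm : TmC S C₀)
    {idx : ℕ → Fin (N + 1)} (hidx : ∀ l, l < N + 1 → (idx l : ℕ) = l) {β₀ β : ℝ}
    (hsz : SzI S (idx 0) β₀ β) {X₀ w₁ qm : ℝ} (hzm : ZmX S idx N (fun J F => F.Z) X₀ 0 w₁ qm)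
    {Ns : Finset (Fin (N + 1)) → ℝ → ℝ → ℝ} (hNs : ActN S Ns) {P Q : ℝ} (hP : 0 < P)
    (hPQ : P < Q) (hQm : Q < qm) (hQ2 : Q < (1 - w₁) / 2)
    (hact : 0 < FF (Ns {idx 0}) Q - FF (Ns {idx 0}) P) {PN : ℝ}
    (hno : NoT S idx N (fun J F => F.Z) PN 0 w₁ qm) (hww : 0 < w₁) (hw1 : w₁ < 1) {sN R₀ : ℝ}
    (hs0 : 0 ≤ sN) (hβ0 : 0 ≤ β) (hβ₀ : β₀ ≤ β) (hβ1 : β + sN ≤ 1) (hroom : w₁ + Q < β + sN)
    (hnum : (1 - β₀) + ((N : ℝ) - 1) * (1 - β) - sN < X₀) (hPN0 : 0 ≤ PN) (hPN : PN < R₀)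
    (hR : R₀ ≤ 1 - sN) :
    ∃ S' : PCl (N + 1), S'.Ne ∧
      (∀ (τ : ℝ) (J : ℕ) (F : Fam (N + 1) J) (A : F.Ω → Prop), S'.St τ J F A → S.St τ J F A) ∧
      ∀ ρ : ℝ, 0 < ρ → Bas S' (fun J F A =>
        (X₀ + (1 - x) * (1 - sN - R₀) - ρ) * Real.log 2 * J ≤
          CH (Pool.Agent.H49.Ent.cond F.p A True) (F.X J) (fun ω => (F.Z ω, F.T ω))) := by
  have hinj : Inj idx (N + 1) := by
    intro i hi j hj h
    rw [← hidx i hi, ← hidx j hj, h]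
  have hcne : ∀ l, 1 ≤ l → l < N + 1 → idx l ≠ idx 0 := by
    intro l h1 h2 h
    have := hinj l h2 0 (by omega) h
    omega
  have hpos : Bas S (fun _ F A => 0 < Pe F.p A) :=
    ⟨1, one_pos, 0, fun J _ F A hA => (htm 1 J F A one_pos hA).1⟩
  have hbit : Bas S (fun J F A => CH (Pool.Agent.H49.Ent.cond F.p A True) F.Z
      (fun ω => (F.D ⌊P * J⌋₊ ω, (F.X J ω, F.W ω))) ≤ 0 * J) := by
    refine hpos.mono 0 fun J _ F A h => ?_
    rw [zero_mul]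
    refine le_of_eq (CH_eq_zero (isLaw_cond F.isLaw h).nonneg ?_)
    intro ω ω' _ _ e
    exact (Prod.ext_iff.1 (Prod.ext_iff.1 (Prod.ext_iff.1 e).2).2).2
  have hNr : ((N : ℝ) - 1) = ((N - 1 : ℕ) : ℝ) := by
    rw [Nat.cast_sub hN, Nat.cast_one]
  obtain ⟨S₁, hne₁, hsub₁, hZ⟩ := zms_core hFZ hne hC₀ htm hinj
    (lab := fun J (F : Fam (N + 1) J) => F.Z) (wJ := fun _ => 0) (w := 0) (C₁ := 0)
    (fun J => by simp) (fun J F _ ω ω' h => (Prod.ext_iff.1 (Prod.ext_iff.1 h).2).1)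
    (ρR := β) (bN := β) (b := fun l => if l = 0 then β₀ else β)
    (blp_sz hsz rfl (fun l h1 h2 => hcne l h1 (by omega)) _)
    (fun S' hs v _ => ylg_sz (hsz.sub hs) v _ (by
      show idx ((Fin.last N : Fin (N + 1)) : ℕ) ≠ idx 0
      exact hcne _ hN (by
        show N < N + 1
        omega)) _)
    hzm hNs ⟨0, hN⟩ hbit hP le_rfl hPQ hQm hQ2 (by
      rw [zero_div]
      exact hact) hno le_rfl hww hw1 (sN := sN) (y := 1) (R' := 1 - sN) (R₀ := R₀) hs0 hβ0 hβ0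
    (by linarith) (fun l _ => by
      by_cases hl : l = 0
      · rw [if_pos hl]
        exact hβ₀
      · rw [if_neg hl]) (by linarith) hβ1 hroom (by
      have h1 : ∑ l ∈ range N, (β - (if l = 0 then β₀ else β)) = β - β₀ := by
        have h2 : ∀ l ∈ range N, (β - (if l = 0 then β₀ else β)) =
            if l = 0 then β - β₀ else 0 := by
          intro l _
          split_ifs <;> ring
        rw [Finset.sum_congr rfl h2, Finset.sum_ite_eq' (range N) 0, if_pos (mem_range.2 hN)]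
      rw [h1]
      linarith) hPN0 hPN (by linarith) le_rfl
  have htm₁ : TmC S₁ C₀ := fun τ J F A hτ h => htm τ J F A hτ (hsub₁ τ J F A h)
  have hq0 : 0 < qm := by linarith
  obtain ⟨S₂, hne₂, hsub₂, hX⟩ := hzm S₁ hne₁ hsub₁ (w₁ / 2) (by linarith) (by linarith) (qm / 2)
    (by linarith) (by linarith) (fun _ _ => Unit) (fun _ _ _ _ _ => ()) (fun _ _ _ => ())
    (fun _ _ _ _ _ _ _ => rfl)
  refine ⟨S₂, hne₂, fun τ J F A h => hsub₁ τ J F A (hsub₂ τ J F A h), fun ρ hρ => ?_⟩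
  have k1 := hX (ρ / 2) (by linarith)
  have k2 := Bas.sub hsub₂ (hZ.rate le_rfl (hPN0.trans hPN.le) hne₁ hC₀ htm₁ hFq (R₁ := R₀)
    (R₂ := 1 - sN) le_rfl hR le_rfl (ρ := ρ / 2) (by linarith))
  have hpos₂ : Bas S₂ (fun _ F A => 0 < Pe F.p A) :=
    Bas.sub (fun τ J F A h => hsub₁ τ J F A (hsub₂ τ J F A h)) hpos
  refine ((k1.and k2).and hpos₂).mono 0 ?_
  rintro J _ F A ⟨⟨h1, h2⟩, h3⟩
  have hq := isLaw_cond F.isLaw h3
  obtain ⟨q, hqd⟩ : ∃ q, q = Pool.Agent.H49.Ent.cond F.p A True := ⟨_, rfl⟩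
  rw [← hqd] at h1 h2 hq ⊢
  have hq0' : ∀ ω, 0 ≤ q ω := hq.nonneg
  have e0 : N + 1 - 1 = N := by omega
  obtain ⟨XN, hXN⟩ : ∃ XN : F.Ω → ℤ, XN = fun ω => F.X ⌊(1 - sN) * J⌋₊ ω (idx N) := ⟨_, rfl⟩
  obtain ⟨XB, hXB⟩ : ∃ XB : F.Ω → Fin N → ℤ, XB = fun ω (l : Fin N) =>
    F.X J ω (idx l) := ⟨_, rfl⟩
  obtain ⟨Y, hY⟩ : ∃ Y : F.Ω → F.ζ × ℕ, Y = fun ω => (F.Z ω, F.T ω) := ⟨_, rfl⟩
  have h4 : (X₀ - ρ / 2) * Real.log 2 * J ≤ CH q XB Y := by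
    refine h1.trans ?_
    rw [hXB]
    refine CH_mono_cond hq0' fun ω ω' _ _ e => ?_
    have e1 := Prod.ext_iff.1 e
    have e2 := Prod.ext_iff.1 e1.2
    have e3 := Prod.ext_iff.1 e2.2
    rw [hY]
    exact Prod.ext e1.1 e3.2
  have h5 : ((1 - x) * (1 - sN - R₀) - ρ / 2) * Real.log 2 * J ≤
      CH q XN (fun ω => (XB ω, Y ω)) := by
    refine h2.trans ?_
    rw [hXN]
    refine CH_mono_cond hq0' fun ω ω' _ _ e => ?_
    have e1 := Prod.ext_iff.1 e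
    have e2 := Prod.ext_iff.1 e1.2
    rw [hXB, hY]
    refine Prod.ext (funext fun l => ?_) e2.2
    have e3 : F.X ⌊1 * (J : ℝ)⌋₊ ω (idx l) = F.X ⌊1 * (J : ℝ)⌋₊ ω' (idx l) :=
      congrFun e2.1 (⟨l, by omega⟩ : Fin (N + 1 - 1))
    rw [one_mul, Nat.floor_natCast] at e3
    exact e3
  have h6 : CH q (fun ω => (XN ω, XB ω)) Y = CH q XB Y + CH q XN (fun ω => (XB ω, Y ω)) :=
    CH_chain hq0' _ _ _
  have h7 : CH q (fun ω => (XN ω, XB ω)) Y ≤ CH q (F.X J) Y := by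
    refine CH_mono_left hq0' fun ω ω' _ _ e => ?_
    have e1 := Prod.ext_iff.1 e
    have e2 : F.X J ω = F.X J ω' := e1.1
    refine Prod.ext ?_ ?_
    · rw [hXN]
      show F.X ⌊(1 - sN) * J⌋₊ ω (idx N) = F.X ⌊(1 - sN) * J⌋₊ ω' (idx N)
      refine Pool.NFC65.X_det F ?_ (idx N) (congrFun e2 (idx N))
      refine Nat.floor_le_of_le ?_
      have hJ0 : (0 : ℝ) ≤ J := Nat.cast_nonneg J
      have := mul_nonneg hs0 hJ0
      linarith
    · rw [hXB]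
      funext l
      exact congrFun e2 (idx l)
  rw [← hY]
  have h8 : (X₀ + (1 - x) * (1 - sN - R₀) - ρ) * Real.log 2 * J =
      (X₀ - ρ / 2) * Real.log 2 * J +
        ((1 - x) * (1 - sN - R₀) - ρ / 2) * Real.log 2 * J := by ring
  rw [h8]
  linarith

end Pool.NFT33
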