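import Pool.Agent.H33.NFT.Fld
import Pool.Agent.H33.EXC.Yre
import Pool.Agent.H78.MIC.ClsM

/-!
# Full entropy modulo the directions, on the boxes of a class

`NftE`: the statement `NftI` of helper78. It follows from the facts of the boxes, for the pivots which
are not the first coordinate: `nftE_of_supY`, `nftE_supY` (at most four coordinates), `nftE_supE`
(from the chains at the boxes).
-/

set_option autoImplicit false

namespace Pool.NFT33

open Finset Real MvPolynomial Filter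
open Pool.Agent.H49.Ent Pool.Agent.H32.Dense Pool.STK Pool.KA Pool.KSAT Pool.K2S Pool.PB
open Pool.PB.Trl Pool.STAT Pool.STAT.CLO Pool.GEN Pool.S6C Pool.GEN.N83 Pool.REX83 Pool.TGT
open Pool.STR (NfB Nw NumI Rle)
open Pool.ALL (RateOf)
open Pool.CHT (TmH bet)
open Pool.CHB (chsysB)
open Pool.LBT (ThrOf)
open Pool.EXC33 Pool.PKG Pool.STA Pool.ORD65
open Pool.SUPA (FF)
open Pool.OWN72 (RecExh)
open Pool.TOP (TopS)
open Pool.RTS (iso)

variable {n : ℕ} {hn : 2 ≤ n} {S : PCl n} {P : ℝ → ℝ → ℝ} {rr : ℝ → ℝ}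
  {P' : ℕ → List (Fin n) × Fin n → ℝ → ℝ → ℝ} {Λ : Finset (Fin n) → Fin n → ℝ → ℝ → ℝ}
  {PB : ℕ → List (Fin n) × Fin n → ℝ → ℝ → ℝ}
  (H : PkT hn S P rr P' Λ PB) {hTop : TopS n} {hF : FZX (n - 1)}
  {ρ' : ℝ → ℝ} {hρ : Rle rr ρ'}

/-- **Full entropy modulo the directions** in the coordinates `Tl`, on a family of boxes. -/
def NftE (p : ((H.nk hTop hF).chg hρ H.up).Par) (Tl : ℕ → Prop) (I : ℝ → BS p.cell → Prop) :
    Prop :=
  ∀ (K K' s₁ : ℕ) (sh : ℕ → ℕ), 1 ≤ K → 1 ≤ K' →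
    ∃ C₄ : ℝ, ∀ C₁ ≥ C₄, ∀ (M' K'' : ℕ) (κ : ℝ), 0 < κ → EvQ I fun N θ q =>
      (kitN H p K).kit.FldN S K' s₁ sh M' N θ q fun G J F D q' =>
        ((kitN H p K).kit.nd q N M' θ G F D).NFt Tl G.n J (up G.ϖ J) (up G.ζ J) G.M K'' C₁ κ q'

/-- **Full entropy modulo the directions**, on the boxes of a class, from the facts of the boxes. -/
theorem nftE_of_supY {p : ((H.nk hTop hF).chg hρ H.up).Par} {I : ℝ → BS p.cell → Prop}
    (hI : MonoI I) {c β h' Mr : ℝ} (hbs : ∀ ε q, I ε q → IsBS p.cell c β h' Mr ε q)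
    (hc : 0 < c) (hβ : 0 < β)
    (hpI : ∀ c (k : p.α × Od n) Q g ρ, p.Ad' c k Q g ρ → AdI hn S P P' c k.2 g ρ)
    (hR : RecExh n (n - 1)) (hFk : ∀ k ≤ n - 1, FZX k) {al : ℝ} {g₀ : ℝ → ℝ} (hal : 0 < al)
    (hg₀ : ∀ e, 0 < e → 0 < g₀ e) {be co : ℝ} (hbe : 0 < be) (hbe1 : be ≤ 1) (hco : 0 < co)
    (hs : SupY H p I al g₀ be co) {h : ℝ} (hh : 0 < h) (hh1 : h ≤ 1)
    (hrow : ∀ ε' : ℝ, 0 < ε' → EvP I fun q =>
      NfB rr h (ε' * q.r) (P q.g q.g - q.r) (P q.g q.g + 3 * q.r)) {Tl : ℕ → Prop}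
    (hTl : ¬ Tl 1) : NftE H p Tl I := by
  obtain ⟨c₀, hc₀, hnt⟩ := ntI_of_supY H hI hbs hc hβ hpI hR hFk hal hg₀ hbe hbe1 hco hs hh hh1 hrow
  intro K K' s₁ sh hK hK'
  have hT : 0 ≤ 1 / c + 1 := by positivity
  have hn0 : (0 : ℝ) < ((n - 1 : ℕ) : ℝ) + 1 := by positivity
  obtain ⟨x, hx⟩ : ∃ x : ℝ, x = min (be * min 1 1 / (16 * ((n - 1 : ℕ) + 1)))
    (min (1 / 8) c₀) := ⟨_, rfl⟩
  have hm1 : (0 : ℝ) < min 1 1 := lt_min one_pos one_pos
  have hx0 : 0 < x := by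
    rw [hx]
    exact lt_min (by positivity) (lt_min (by norm_num) hc₀)
  have hx1 : x ≤ be * min 1 1 / (16 * ((n - 1 : ℕ) + 1)) := by
    rw [hx]
    exact min_le_left _ _
  have hx2 : x ≤ 1 / 8 := by rw [hx]; exact (min_le_right _ _).trans (min_le_left _ _)
  have hx3 : x ≤ c₀ := by rw [hx]; exact (min_le_right _ _).trans (min_le_right _ _)
  obtain ⟨C₄, h1⟩ := nft_kit (S := S) hI H.tmh.1 (fun k _ hk => hFk k hk) (kitN H p K).kit
    (fun q => kit_inj H p K q.k) hT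
    (fun ε' hε' => (KitS.cel (Kt := kitN H p K) (M := Mr) (h := h') hc hβ
      (cls_hP H) (cls_hD H) (KitS.hlt_of hc (cls_hlt H hpI)) ε' hε').sub hbs)
    (s₁ := s₁) (sh := sh) hK' (ka := 1) le_rfl (fun M => by
      have q1 := zmIe_of_supY H hI hbs hR hFk hal hg₀ hbe hbe1 hco hs K K' s₁ sh hK hK'
        (show (0 : ℝ) < 1 by norm_num) M
      have q2 := labI_of_supY H hI hbs hco hs K K' s₁ sh hK hK' M (x := x / 4)
        (h₁ := al * x / 256) (by linarith) (by linarith) (by positivity)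
      have q3 := actI_of_supY H hI hbs hal hg₀ hs K M (x := x / 4) (h₁ := al * x / 256)
        (by linarith) (by linarith) (by
          have : 0 < al * x := by positivity
          linarith)
      have q4 : EvQ I fun N θ q => TmS S := by
        refine ⟨1, fun N hN => ⟨1, one_pos, fun θ _ _ =>
          (hs 1 1 one_pos one_pos N M hN).mono ?_⟩⟩
        intro q h1 S' hne hsub
        obtain ⟨S₁, C₀, L, Na, E, a1, a2, a3, a4, -⟩ := h1 S' hne hsub
        exact ⟨S₁, C₀, a1, a2, a3, a4⟩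
      have q6 := hnt K K' s₁ sh hK hK' M
      have q8 := EvQ.self I 1 (θ₀ := 1) (ε := fun _ _ => 1) one_pos (fun _ _ _ => one_pos)
      refine (((((q1.and hI q2).and hI q3).and hI q4).and hI q6).and hI q8).mono ?_
      rintro N θ q ⟨⟨⟨⟨⟨r1, r2⟩, r3⟩, r4⟩, r6⟩, hN, -, -, r8⟩
      have hqq := hbs _ _ r8
      have hr := hqq.r0
      have hg0 := hqq.g0
      have hg1 := hqq.g1
      have hNr : (1 : ℝ) ≤ N := by exact_mod_cast hN
      have hM0 : (0 : ℝ) ≤ M := Nat.cast_nonneg M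
      have hζ0 : 0 < msh q.r N M := by
        unfold msh
        positivity
      have hxm : x * msh q.r N M ≤ 1 * msh q.r N M :=
        mul_le_mul_of_nonneg_right (by linarith) hζ0.le
      have e1 : x / 4 * msh q.r N M = x * msh q.r N M / 4 := by ring
      have e2 : 2 * (x / 4) * msh q.r N M = x * msh q.r N M / 2 := by ring
      refine ⟨r4, x * msh q.r N M, by positivity, hxm.trans (one_mul _).le, ?_, fun b e hnear =>
        ⟨fun i hi j hj => ?_, fun i hi j hj => ?_, ⟨al * x / 256 * msh q.r N M,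
          fun i hi j hj => ⟨?_, ?_⟩⟩⟩⟩
      · show q.g + 2 * q.r + 2 * q.r < 1
        linarith
      · exact zmq_mono (r1 b e hnear i hi j hj) (mul_le_mul_of_nonneg_right hx1 hζ0.le)
      · exact ntq_mono (r6 b e hnear i hi j hj) (mul_le_mul_of_nonneg_right hx3 hζ0.le)
      · have := r2 b e hnear i hi j hj
        rw [e1] at this
        exact this
      · have := r3 i hi j hj
        rw [e1, e2] at this
        exact this) hTl
  exact ⟨C₄, h1⟩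

/-- **Full entropy modulo the directions**, from the facts of the boxes, at most four
coordinates. -/
theorem nftE_supY (hn4 : n ≤ 4) {p : ((H.nk hTop hF).chg hρ H.up).Par}
    {I : ℝ → BS p.cell → Prop} (hI : MonoI I) {c β h' Mr : ℝ}
    (hbs : ∀ ε q, I ε q → IsBS p.cell c β h' Mr ε q) (hc : 0 < c) (hβ : 0 < β)
    (hpI : ∀ c (k : p.α × Od n) Q g ρ, p.Ad' c k Q g ρ → AdI hn S P P' c k.2 g ρ)
    (hFk : ∀ k ≤ n - 1, FZX k) {al : ℝ} {g₀ : ℝ → ℝ} (hal : 0 < al)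
    (hg₀ : ∀ e, 0 < e → 0 < g₀ e) {be co : ℝ} (hbe : 0 < be) (hbe1 : be ≤ 1) (hco : 0 < co)
    (hs : SupY H p I al g₀ be co) {h : ℝ} (hh : 0 < h) (hh1 : h ≤ 1)
    (hrow : ∀ ε' : ℝ, 0 < ε' → EvP I fun q =>
      NfB rr h (ε' * q.r) (P q.g q.g - q.r) (P q.g q.g + 3 * q.r)) {Tl : ℕ → Prop}
    (hTl : ¬ Tl 1) : NftE H p Tl I :=
  nftE_of_supY H hI hbs hc hβ hpI (Pool.OWN72.rec_exh n (n - 1) (by omega) (by omega)) hFk hal hg₀
    hbe hbe1 hco hs hh hh1 hrow hTl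

/-- **Full entropy modulo the directions**, from the chains at the boxes, at most four
coordinates. -/
theorem nftE_supE (hn4 : n ≤ 4) {p : ((H.nk hTop hF).chg hρ H.up).Par}
    {I : ℝ → BS p.cell → Prop} (hI : MonoI I) {c β h' Mr : ℝ}
    (hbs : ∀ ε q, I ε q → IsBS p.cell c β h' Mr ε q) (hc : 0 < c) (hβ : 0 < β)
    (hpI : ∀ c (k : p.α × Od n) Q g ρ, p.Ad' c k Q g ρ → AdI hn S P P' c k.2 g ρ)
    (hFk : ∀ k ≤ n - 1, FZX k) {al : ℝ} {g₀ : ℝ → ℝ} (hal : 0 < al)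
    (hg₀ : ∀ e, 0 < e → 0 < g₀ e) {be co : ℝ} (hbe : 0 < be) (hbe1 : be ≤ 1) (hco : 0 < co)
    (hE : SupE H p I al g₀ be co) (hX : ExwB H p I) {h : ℝ} (hh : 0 < h) (hh1 : h ≤ 1)
    (hrow : ∀ ε' : ℝ, 0 < ε' → EvP I fun q =>
      NfB rr h (ε' * q.r) (P q.g q.g - q.r) (P q.g q.g + 3 * q.r)) {Tl : ℕ → Prop}
    (hTl : ¬ Tl 1) : NftE H p Tl I :=
  nftE_supY H hn4 hI hbs hc hβ hpI hFk hal hg₀ hbe hbe1 hco
    (supY_of_supE H hI hbs hbe hco hE hX) hh hh1 hrow hTl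

end Pool.NFT33
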