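import Pool.Agent.H33.NFT.Nft
import Pool.Agent.H78.TT.Stm
import Pool.Agent.H40.MIC.Grd2N
import Pool.Agent.H65.ORD.Zkt

/-!
# Charts of a cell, as charts in the windows of a family

`RawC`: the data of a chart with a direction of a cell. `cdR`: the same data, as functions of the
side information of the windows of a class. `RawV`: the data are valid on an event. `ch0_of`: the
conditions `Ch0`. `dg_le`: the entropy of the digits of the heights modulo the direction.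
-/

set_option autoImplicit false

namespace Pool.NFT33

open Finset Real MvPolynomial
open Pool.Agent.H49.Ent Pool.Agent.H32.Dense Pool.STK Pool.KA Pool.KSAT Pool.K2S Pool.PB Pool.S6C
open Pool.GEN Pool.REX Pool.REX83 Pool.STAT Pool.STAT.CLO
open Pool.P4 (rt t0)

variable {m J : ℕ}

/-- The data of a chart with a direction of a cell. -/
structure RawC (Γ Λ : Type) where
  Q : Γ × ℕ → ℕ → PN
  A : Λ × ℕ → ℕ → ℝ
  B : Λ × ℕ → ℕ → ℝ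
  ka : Γ × ℕ → ℕ → ℝ

instance (Γ Λ : Type) : Nonempty (RawC Γ Λ) :=
  ⟨⟨fun _ _ => 0, fun _ _ => 0, fun _ _ => 0, fun _ _ => 0⟩⟩

/-- The coordinates of a cell. -/
def nmc (c : ℕ → Fin m) (l : ℕ) : Option (Fin m) := if l = 0 then none else some (c (l - 1))

theorem nmc_zero (c : ℕ → Fin m) : nmc c 0 = none := if_pos rfl

theorem nmc_succ (c : ℕ → Fin m) (l : ℕ) : nmc c (l + 1) = some (c l) := by
  unfold nmc
  rw [if_neg (Nat.succ_ne_zero l), Nat.add_sub_cancel]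

theorem bt_nmc (F : Fam m J) (c : ℕ → Fin m) (ω : F.Ω) :
    (fun l => bt F ω (nmc c l)) = cx F (fun i => c (i - 1)) ω := by
  funext l
  cases l with
  | zero =>
    rw [nmc_zero]
    exact (if_pos rfl).symm
  | succ l =>
    rw [nmc_succ]
    refine Eq.trans ?_ (Pool.TGT.cx_succ F c ω l).symm
    rfl

open Classical in
/-- **The data of a chart in the windows of the families.** -/
noncomputable def cdR (F : Fam m J) (v : Vz m) {Γ Λ : Type} (R : RawC Γ Λ) (c : ℕ → Fin m)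
    (k w : ℕ) (cT : F.Ω → Γ × ℕ) (wn : F.Ω → Λ × ℕ) : CD F v where
  Q y l := if h : ∃ ω, (v.win F).Z ω = y then rename (nmc c) (R.Q (cT h.choose) (l + 1)) else 0
  ka y l := if h : ∃ ω, (v.win F).Z ω = y then R.ka (cT h.choose) (l + 1) else
    if l = k then 1 else 0
  a s l := if h : ∃ ω, ((v.win F).l ω, (v.win F).Z ω) = s then
    R.A (wn h.choose) (l + 1) + ((F.T1 (v.B J) h.choose : ℝ) / 2 ^ (v.B J - w) -
      F.T1 w h.choose) * R.B (wn h.choose) (l + 1) else 0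
  b s l := if h : ∃ ω, ((v.win F).l ω, (v.win F).Z ω) = s then
    R.B (wn h.choose) (l + 1) / 2 ^ (v.B J - w) else 0

theorem floor_det {r r' : ℕ} (h : r ≤ r') {a b : ℝ}
    (e : ⌊(2 : ℝ) ^ r' * a⌋ = ⌊(2 : ℝ) ^ r' * b⌋) : ⌊(2 : ℝ) ^ r * a⌋ = ⌊(2 : ℝ) ^ r * b⌋ := by
  obtain ⟨s, rfl⟩ := Nat.exists_eq_add_of_le h
  have e1 : ∀ a : ℝ, ⌊(2 : ℝ) ^ r * a⌋ = ⌊(2 : ℝ) ^ (r + s) * a⌋ / ((2 ^ s : ℕ) : ℤ) := by
    intro a
    rw [← Int.floor_div_natCast]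
    congr 1
    push_cast
    rw [pow_add]
    field_simp
  rw [e1, e1, e]

/-! ### The windows -/

section win

variable {F : Fam m J} {v : Vz m}

theorem win_T1 {ω ω' : F.Ω} (h : (v.win F).Z ω = (v.win F).Z ω') {w : ℕ} (hw : w ≤ v.B J) :
    F.T1 w ω = F.T1 w ω' := by
  have a2 : (v.y J F ω, F.c (v.B J) ω) = (v.y J F ω', F.c (v.B J) ω') := h
  have a3 : F.c (v.B J) ω = F.c (v.B J) ω' := congrArg Prod.snd a2
  have a4 : F.T1 (v.B J) ω = F.T1 (v.B J) ω' := congrArg (fun s => s.1.1) a3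
  have hB := (v.floor_le J).1
  have e : ∀ ω : F.Ω, F.T1 w ω = F.T1 (v.B J) ω / 2 ^ (v.B J - w) := by
    intro ω
    show F.T ω / 2 ^ (J - w) = F.T ω / 2 ^ (J - v.B J) / 2 ^ (v.B J - w)
    rw [Nat.div_div_eq_div_mul, ← pow_add]
    congr 2
    omega
  rw [e, e, a4]

theorem win_Z {ω ω' : F.Ω} (h : (v.win F).Z ω = (v.win F).Z ω') : F.Z ω = F.Z ω' := by
  have a2 : (v.y J F ω, F.c (v.B J) ω) = (v.y J F ω', F.c (v.B J) ω') := h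
  have a3 : F.c (v.B J) ω = F.c (v.B J) ω' := congrArg Prod.snd a2
  exact congrArg Prod.snd a3

theorem win_y {ω ω' : F.Ω} (h : (v.win F).Z ω = (v.win F).Z ω') : v.y J F ω = v.y J F ω' := by
  have a2 : (v.y J F ω, F.c (v.B J) ω) = (v.y J F ω', F.c (v.B J) ω') := h
  exact congrArg Prod.fst a2

/-- The line, from the line in the window. -/
theorem win_l {ω ω' : F.Ω} (h : ((v.win F).l ω, (v.win F).Z ω) = ((v.win F).l ω', (v.win F).Z ω')) :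
    F.l ω = F.l ω' := by
  have h1 : (v.win F).l ω = (v.win F).l ω' := congrArg Prod.fst h
  have h2 : (v.win F).Z ω = (v.win F).Z ω' := congrArg Prod.snd h
  have a2 : (v.y J F ω, F.c (v.B J) ω) = (v.y J F ω', F.c (v.B J) ω') := h2
  have a3 : F.c (v.B J) ω = F.c (v.B J) ω' := congrArg Prod.snd a2
  have a4 : F.T1 (v.B J) ω = F.T1 (v.B J) ω' := congrArg (fun s => s.1.1) a3
  have a5 : fl (v.B J) (F.x1 (v.B J) ω) = fl (v.B J) (F.x1 (v.B J) ω') :=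
    congrArg (fun s => s.1.2) a3
  have hd : F.d ω = F.d ω' := congrArg Prod.snd h1
  have hu : (fun i => Int.fract ((2 : ℝ) ^ v.B J * F.x1 (v.B J) ω i)) =
      fun i => Int.fract ((2 : ℝ) ^ v.B J * F.x1 (v.B J) ω' i) := congrArg Prod.fst h1
  refine Prod.ext (funext fun i => ?_) hd
  have e1 := congrFun hu i
  have e2 : ⌊(2 : ℝ) ^ v.B J * F.x1 (v.B J) ω i⌋ = ⌊(2 : ℝ) ^ v.B J * F.x1 (v.B J) ω' i⌋ :=
    congrFun a5 i
  have e3 : (2 : ℝ) ^ v.B J * F.x1 (v.B J) ω i = 2 ^ v.B J * F.x1 (v.B J) ω' i := by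
    rw [← Int.floor_add_fract ((2 : ℝ) ^ v.B J * F.x1 (v.B J) ω i), e2]
    have e1' : Int.fract ((2 : ℝ) ^ v.B J * F.x1 (v.B J) ω i) =
      Int.fract ((2 : ℝ) ^ v.B J * F.x1 (v.B J) ω' i) := e1
    rw [e1', Int.floor_add_fract]
  have e4 : F.x1 (v.B J) ω i = F.x1 (v.B J) ω' i :=
    mul_left_cancel₀ (by positivity : (2 : ℝ) ^ v.B J ≠ 0) e3
  show F.u ω i = F.u ω' i
  have e5 : F.x1 (v.B J) ω i = F.u ω i + (F.T1 (v.B J) ω : ℝ) / 2 ^ v.B J * F.d ω i := rfl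
  have e6 : F.x1 (v.B J) ω' i = F.u ω' i + (F.T1 (v.B J) ω' : ℝ) / 2 ^ v.B J * F.d ω' i := rfl
  rw [e5, e6, a4, hd] at e4
  linarith

/-- The time in the window. -/
theorem win_t (ω : F.Ω) : (v.win F).t ω = 2 ^ v.B J * F.t ω - F.T1 (v.B J) ω := by
  have hB := (v.floor_le J).1
  have h1 : (v.win F).t ω = ((F.T ω % 2 ^ (J - v.B J) : ℕ) : ℝ) / 2 ^ (J - v.B J) := rfl
  have h2 : F.T1 (v.B J) ω = F.T ω / 2 ^ (J - v.B J) := rfl
  have h3 : ((2 ^ (J - v.B J) * (F.T ω / 2 ^ (J - v.B J)) + F.T ω % 2 ^ (J - v.B J) : ℕ) : ℝ) =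
      F.T ω := by rw [Nat.div_add_mod]
  rw [h1, h2]
  have h4 : F.t ω = (F.T ω : ℝ) / 2 ^ J := rfl
  rw [h4, ← h3]
  push_cast
  have e6 : (2 : ℝ) ^ J = 2 ^ (J - v.B J) * 2 ^ v.B J := by
    rw [← pow_add, Nat.sub_add_cancel hB]
  rw [e6]
  field_simp
  ring

/-- The offset of the window. -/
theorem offs_le {w : ℕ} (hw : w ≤ v.B J) (ω : F.Ω) :
    |(F.T1 (v.B J) ω : ℝ) / 2 ^ (v.B J - w) - F.T1 w ω| ≤ 1 := by
  have hB := (v.floor_le J).1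
  have e : F.T1 w ω = F.T1 (v.B J) ω / 2 ^ (v.B J - w) := by
    show F.T ω / 2 ^ (J - w) = F.T ω / 2 ^ (J - v.B J) / 2 ^ (v.B J - w)
    rw [Nat.div_div_eq_div_mul, ← pow_add]
    congr 2
    omega
  rw [e]
  have h3 : ((2 ^ (v.B J - w) * (F.T1 (v.B J) ω / 2 ^ (v.B J - w)) +
      F.T1 (v.B J) ω % 2 ^ (v.B J - w) : ℕ) : ℝ) = F.T1 (v.B J) ω := by rw [Nat.div_add_mod]
  have h4 : (F.T1 (v.B J) ω % 2 ^ (v.B J - w) : ℕ) < 2 ^ (v.B J - w) := Nat.mod_lt _ (by positivity)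
  have h5 : ((F.T1 (v.B J) ω % 2 ^ (v.B J - w) : ℕ) : ℝ) ≤ 2 ^ (v.B J - w) := by
    exact_mod_cast h4.le
  have h6 : (F.T1 (v.B J) ω : ℝ) / 2 ^ (v.B J - w) - ((F.T1 (v.B J) ω / 2 ^ (v.B J - w) : ℕ) : ℝ) =
      ((F.T1 (v.B J) ω % 2 ^ (v.B J - w) : ℕ) : ℝ) / 2 ^ (v.B J - w) := by
    push_cast at h3
    obtain ⟨r, hr⟩ : ∃ r : ℝ, r = ((F.T1 (v.B J) ω % 2 ^ (v.B J - w) : ℕ) : ℝ) := ⟨_, rfl⟩
    obtain ⟨s, hs⟩ : ∃ s : ℝ, s = ((F.T1 (v.B J) ω / 2 ^ (v.B J - w) : ℕ) : ℝ) := ⟨_, rfl⟩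
    rw [← hr, ← hs] at h3 ⊢
    rw [← h3]
    field_simp
    ring
  rw [h6, abs_of_nonneg (by positivity), div_le_one (by positivity)]
  exact h5

end win

/-! ### The data -/

section dat

variable {F : Fam m J} {v : Vz m} {Γ Λ : Type} {R : RawC Γ Λ} {c : ℕ → Fin m} {k w : ℕ}
  {cT : F.Ω → Γ × ℕ} {wn : F.Ω → Λ × ℕ}

theorem cdR_Q (hc : ∀ ω ω', (v.win F).Z ω = (v.win F).Z ω' → cT ω = cT ω') (ω : F.Ω) (l : ℕ) :
    (cdR F v R c k w cT wn).Q ((v.win F).Z ω) l = rename (nmc c) (R.Q (cT ω) (l + 1)) := by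
  have h : ∃ ω', (v.win F).Z ω' = (v.win F).Z ω := ⟨ω, rfl⟩
  refine (dif_pos h).trans ?_
  rw [hc _ _ h.choose_spec]

theorem cdR_ka (hc : ∀ ω ω', (v.win F).Z ω = (v.win F).Z ω' → cT ω = cT ω') (ω : F.Ω) (l : ℕ) :
    (cdR F v R c k w cT wn).ka ((v.win F).Z ω) l = R.ka (cT ω) (l + 1) := by
  have h : ∃ ω', (v.win F).Z ω' = (v.win F).Z ω := ⟨ω, rfl⟩
  refine (dif_pos h).trans ?_
  rw [hc _ _ h.choose_spec]

theorem cdR_a (hw : w ≤ v.B J) (hn : ∀ ω ω', ((v.win F).l ω, (v.win F).Z ω) =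
    ((v.win F).l ω', (v.win F).Z ω') → wn ω = wn ω') (ω : F.Ω) (l : ℕ) :
    (cdR F v R c k w cT wn).a ((v.win F).l ω, (v.win F).Z ω) l = R.A (wn ω) (l + 1) +
      ((F.T1 (v.B J) ω : ℝ) / 2 ^ (v.B J - w) - F.T1 w ω) * R.B (wn ω) (l + 1) := by
  have h : ∃ ω', ((v.win F).l ω', (v.win F).Z ω') = ((v.win F).l ω, (v.win F).Z ω) := ⟨ω, rfl⟩
  refine (dif_pos h).trans ?_
  have h1 := h.choose_spec
  have h2 : (v.win F).Z h.choose = (v.win F).Z ω := congrArg Prod.snd h1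
  rw [hn _ _ h1, win_T1 h2 le_rfl, win_T1 h2 hw]

theorem cdR_b (hn : ∀ ω ω', ((v.win F).l ω, (v.win F).Z ω) =
    ((v.win F).l ω', (v.win F).Z ω') → wn ω = wn ω') (ω : F.Ω) (l : ℕ) :
    (cdR F v R c k w cT wn).b ((v.win F).l ω, (v.win F).Z ω) l =
      R.B (wn ω) (l + 1) / 2 ^ (v.B J - w) := by
  have h : ∃ ω', ((v.win F).l ω', (v.win F).Z ω') = ((v.win F).l ω, (v.win F).Z ω) := ⟨ω, rfl⟩
  refine (dif_pos h).trans ?_
  rw [hn _ _ h.choose_spec]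

theorem dg_le0 (D : CD F v) (g : ℕ → ℕ) {n₀ r r' : ℕ} (hr : r ≤ r')
    {q : F.Ω → ℝ} (hq : IsLaw q) (yc ka : F.Ω → ℕ → ℝ) (cc : F.Ω → Γ)
    {ya : F.Ω → Fin (n₀ + 1) → ℤ} {yn : F.Ω → ℤ}
    (hhg : ∀ (ω : F.Ω) l, D.hgt c g ω l = yc ω (l + 1))
    (hkk : ∀ (ω : F.Ω) l, D.ka ((v.win F).Z ω) l = ka ω (l + 1))
    (hk1 : ∀ (ω : F.Ω) l, l < n₀ + 1 → |ka ω l| ≤ 1)
    (hya : ∀ (ω : F.Ω) (l : Fin (n₀ + 1)), ya ω l = if 1 ≤ (l : ℕ) ∧ (l : ℕ) ≠ k + 1 then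
        ⌊(2 : ℝ) ^ r' * (yc ω l - ka ω l * yc ω (k + 1))⌋ else 0)
    (hyn : ∀ ω : F.Ω, yn ω = ⌊(2 : ℝ) ^ r' * (yc ω (n₀ + 1) - ka ω (n₀ + 1) *
        yc ω (k + 1)) / max 1 |ka ω (n₀ + 1)|⌋)
    (hcc : ∀ (ω ω' : F.Ω), (v.win F).Z ω = (v.win F).Z ω' → cc ω = cc ω') :
    CH q (D.dg c g k n₀ r) (fun ω : F.Ω => ((v.win F).Z ω, F.T ω)) ≤
    CH q (fun ω : F.Ω => (ya ω, yn ω)) (fun ω : F.Ω => (cc ω, F.T ω)) := by
  have hhm : ∀ (ω : F.Ω) l, D.hm c g k ω l =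
      (yc ω (l + 1) - ka ω (l + 1) * yc ω (k + 1)) / max 1 |ka ω (l + 1)| := fun ω l => by
    show (D.hgt c g ω l - D.ka ((v.win F).Z ω) l * D.hgt c g ω k) /
      max 1 |D.ka ((v.win F).Z ω) l| = _
    have e1 := hkk ω l
    rw [e1, hhg, hhg]
  have h2 : CH q (fun ω : F.Ω => (ya ω, yn ω)) (fun ω : F.Ω => ((v.win F).Z ω, F.T ω)) ≤
      CH q (fun ω : F.Ω => (ya ω, yn ω)) (fun ω : F.Ω => (cc ω, F.T ω)) := by
    refine CH_mono_cond hq.nonneg fun ω ω' _ _ e => ?_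
    have e1 := Prod.ext_iff.1 e
    exact Prod.ext (hcc ω ω' e1.1) e1.2
  have h1 : CH q (D.dg c g k n₀ r) (fun ω : F.Ω => ((v.win F).Z ω, F.T ω)) ≤
      CH q (fun ω : F.Ω => (ya ω, yn ω)) (fun ω : F.Ω => ((v.win F).Z ω, F.T ω)) := by
    refine CH_mono_left hq.nonneg fun ω ω' _ _ e => ?_
    have e1 := Prod.ext_iff.1 e
    have e2 := Prod.ext_iff.1 e1.1
    have ey : ya ω = ya ω' := e2.1
    have en : yn ω = yn ω' := e2.2
    have f1 : ∀ l : ℕ, l < n₀ → l ≠ k →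
        ⌊(2 : ℝ) ^ r * D.hm c g k ω l⌋ = ⌊(2 : ℝ) ^ r * D.hm c g k ω' l⌋ := by
      intro l hl hlk
      refine floor_det hr ?_
      have e3 := congrFun ey (⟨l + 1, by omega⟩ : Fin (n₀ + 1))
      rw [hya, hya] at e3
      have c1 : 1 ≤ l + 1 ∧ l + 1 ≠ k + 1 := ⟨by omega, by omega⟩
      rw [if_pos c1, if_pos c1] at e3
      rw [hhm, hhm, max_eq_left (hk1 ω _ (by omega)), max_eq_left (hk1 ω' _ (by omega)), div_one,
        div_one]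
      exact e3
    have f2 : ⌊(2 : ℝ) ^ r * D.hm c g k ω n₀⌋ = ⌊(2 : ℝ) ^ r * D.hm c g k ω' n₀⌋ := by
      refine floor_det hr ?_
      have e4 := (hyn ω).symm.trans (en.trans (hyn ω'))
      rw [hhm, hhm, ← mul_div_assoc, ← mul_div_assoc]
      exact e4
    unfold CD.dg
    refine Prod.ext (funext fun l => ?_) f2
    show (if (l : ℕ) ≠ k then ⌊(2 : ℝ) ^ r * D.hm c g k ω l⌋ else 0)
        = if (l : ℕ) ≠ k then ⌊(2 : ℝ) ^ r * D.hm c g k ω' l⌋ else 0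
    by_cases hlk : (l : ℕ) ≠ k
    · rw [if_pos hlk, if_pos hlk, f1 l l.2 hlk]
    · rw [if_neg hlk, if_neg hlk]
  exact h1.trans h2

end dat

/-! ### The cell -/

section cell

variable {F : Fam m J} {G : GDat F} {c : ℕ → Fin m} {n₀ : ℕ} {sh : ℕ → ℕ} {w₀ z M : ℕ}
  {g : ℕ → ℕ → ℕ → ℕ} {Rt : ℕ → ℕ → Type} {ρ : (i j : ℕ) → LnT F → Rt i j}
  {i j vv t U K k : ℕ}

/-- The heights of the cell. -/
theorem cell_yc (Q : (G.nd c (n₀ + 1) sh w₀ z M g ρ).Γ × ℕ → ℕ → PN) (ω : F.Ω) (l : ℕ) :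
    (G.nd c (n₀ + 1) sh w₀ z M g ρ).yc J w₀ z i j vv Q ω (l + 1) =
      2 ^ (g i j l - sh (l + 1)) * (F.x ω (c l) - eval (cx F (fun i => c (i - 1)) ω)
        (Q ((G.nd c (n₀ + 1) sh w₀ z M g ρ).cT J (w₀ + vv * z) i j ω) (l + 1))) := by
  have h1 : (G.nd c (n₀ + 1) sh w₀ z M g ρ).g i j (l + 1) = g i j l - sh (l + 1) :=
    CDat2.nd2_g _ _ _ _ _ _ _ (Nat.succ_le_succ (Nat.zero_le l))
  have h2 : (G.nd c (n₀ + 1) sh w₀ z M g ρ).X ω (l + 1) = F.x ω (c l) :=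
    Pool.TGT.cx_succ F c ω l
  unfold NDat2.yc
  rw [h1, h2]
  rfl

/-- **The data are valid on an event.** -/
structure RawV (G : GDat F) (c : ℕ → Fin m) (n₀ : ℕ) (sh : ℕ → ℕ) (w₀ z M : ℕ)
    (g : ℕ → ℕ → ℕ → ℕ) (ρ : (i j : ℕ) → LnT F → Rt i j) (i j vv t U K k : ℕ)
    (R : RawC (G.nd c (n₀ + 1) sh w₀ z M g ρ).Γ (G.nd c (n₀ + 1) sh w₀ z M g ρ).Λ)
    (A : F.Ω → Prop) : Prop where
  one : ∀ x, R.ka x k = 1
  le1 : ∀ x l, l < n₀ + 1 → |R.ka x l| ≤ 1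
  ka1 : ∀ x, R.ka x 1 = 0
  cht : (G.nd c (n₀ + 1) sh w₀ z M g ρ).Cht (n₀ + 1) K J w₀ z i j vv t U (fun _ => 1) A R.Q R.A R.B

theorem RawV.sub {R : RawC (G.nd c (n₀ + 1) sh w₀ z M g ρ).Γ (G.nd c (n₀ + 1) sh w₀ z M g ρ).Λ}
    {A A' : F.Ω → Prop} (h : RawV G c n₀ sh w₀ z M g ρ i j vv t U K k R A) (hA : Sub A' A) :
    RawV G c n₀ sh w₀ z M g ρ i j vv t U K k R A' :=
  ⟨h.one, h.le1, h.ka1, h.cht.sub hA⟩

variable {v : Vz m} {R : RawC (G.nd c (n₀ + 1) sh w₀ z M g ρ).Γ (G.nd c (n₀ + 1) sh w₀ z M g ρ).Λ}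
  {A : F.Ω → Prop}

/-- The chart in the windows. -/
noncomputable def cdG (F : Fam m J) (v : Vz m) (G : GDat F) (c : ℕ → Fin m) (n₀ : ℕ) (sh : ℕ → ℕ)
    (w₀ z M : ℕ) (g : ℕ → ℕ → ℕ → ℕ) (ρ : (i j : ℕ) → LnT F → Rt i j) (i j vv k : ℕ)
    (R : RawC (G.nd c (n₀ + 1) sh w₀ z M g ρ).Γ (G.nd c (n₀ + 1) sh w₀ z M g ρ).Λ) : CD F v :=
  cdR F v R c k (w₀ + vv * z) ((G.nd c (n₀ + 1) sh w₀ z M g ρ).cT J (w₀ + vv * z) i j)
    ((G.nd c (n₀ + 1) sh w₀ z M g ρ).wn J (w₀ + vv * z))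

/-- The line of the cell, from the line in the window. -/
theorem cell_wn (hw : w₀ + vv * z ≤ v.B J) {ω ω' : F.Ω}
    (h : ((v.win F).l ω, (v.win F).Z ω) = ((v.win F).l ω', (v.win F).Z ω')) :
    (G.nd c (n₀ + 1) sh w₀ z M g ρ).wn J (w₀ + vv * z) ω =
      (G.nd c (n₀ + 1) sh w₀ z M g ρ).wn J (w₀ + vv * z) ω' := by
  have h1 := win_l h
  have h2 : (v.win F).Z ω = (v.win F).Z ω' := congrArg Prod.snd h
  have h3 := win_Z h2
  have h4 := win_T1 h2 (w := w₀) (by omega)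
  have h5 := win_T1 h2 hw
  show ((F.l ω, F.Z ω, F.T1 w₀ ω), F.T1 (w₀ + vv * z) ω) =
    ((F.l ω', F.Z ω', F.T1 w₀ ω'), F.T1 (w₀ + vv * z) ω')
  rw [h1, h3, h4, h5]

theorem cdG_a (hw : w₀ + vv * z ≤ v.B J) (ω : F.Ω) (l : ℕ) :
    (cdG F v G c n₀ sh w₀ z M g ρ i j vv k R).a ((v.win F).l ω, (v.win F).Z ω) l =
      R.A ((G.nd c (n₀ + 1) sh w₀ z M g ρ).wn J (w₀ + vv * z) ω) (l + 1) +
      ((F.T1 (v.B J) ω : ℝ) / 2 ^ (v.B J - (w₀ + vv * z)) - F.T1 (w₀ + vv * z) ω) *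
        R.B ((G.nd c (n₀ + 1) sh w₀ z M g ρ).wn J (w₀ + vv * z) ω) (l + 1) :=
  cdR_a hw (fun _ _ h => cell_wn hw h) ω l

theorem cdG_b (hw : w₀ + vv * z ≤ v.B J) (ω : F.Ω) (l : ℕ) :
    (cdG F v G c n₀ sh w₀ z M g ρ i j vv k R).b ((v.win F).l ω, (v.win F).Z ω) l =
      R.B ((G.nd c (n₀ + 1) sh w₀ z M g ρ).wn J (w₀ + vv * z) ω) (l + 1) /
        2 ^ (v.B J - (w₀ + vv * z)) :=
  cdR_b (fun _ _ h => cell_wn hw h) ω l

theorem cdG_Q0 (y : (v.win F).ζ) (l : ℕ) : (∃ x : (G.nd c (n₀ + 1) sh w₀ z M g ρ).Γ × ℕ,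
    (cdG F v G c n₀ sh w₀ z M g ρ i j vv k R).Q y l = rename (nmc c) (R.Q x (l + 1))) ∨
    (cdG F v G c n₀ sh w₀ z M g ρ i j vv k R).Q y l = 0 := by
  by_cases h : ∃ ω, (v.win F).Z ω = y
  · exact Or.inl ⟨_, dif_pos h⟩
  · exact Or.inr (dif_neg h)

theorem cdG_ka0 (y : (v.win F).ζ) (l : ℕ) : (∃ x : (G.nd c (n₀ + 1) sh w₀ z M g ρ).Γ × ℕ,
    (cdG F v G c n₀ sh w₀ z M g ρ i j vv k R).ka y l = R.ka x (l + 1)) ∨
    (cdG F v G c n₀ sh w₀ z M g ρ i j vv k R).ka y l = if l = k then 1 else 0 := by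
  by_cases h : ∃ ω, (v.win F).Z ω = y
  · exact Or.inl ⟨_, dif_pos h⟩
  · exact Or.inr (dif_neg h)

section

variable (hc : ∀ ω ω' : F.Ω, (v.win F).Z ω = (v.win F).Z ω' →
  (G.nd c (n₀ + 1) sh w₀ z M g ρ).cT J (w₀ + vv * z) i j ω =
    (G.nd c (n₀ + 1) sh w₀ z M g ρ).cT J (w₀ + vv * z) i j ω')

include hc

theorem cdG_Q (ω : F.Ω) (l : ℕ) :
    (cdG F v G c n₀ sh w₀ z M g ρ i j vv k R).Q ((v.win F).Z ω) l =
      rename (nmc c) (R.Q ((G.nd c (n₀ + 1) sh w₀ z M g ρ).cT J (w₀ + vv * z) i j ω) (l + 1)) :=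
  cdR_Q hc ω l

/-- The heights in the windows are the heights of the cell. -/
theorem cdG_hgt (ω : F.Ω) (l : ℕ) :
    (cdG F v G c n₀ sh w₀ z M g ρ i j vv k R).hgt c (fun l => g i j l - sh (l + 1)) ω l =
      (G.nd c (n₀ + 1) sh w₀ z M g ρ).yc J w₀ z i j vv R.Q ω (l + 1) := by
  rw [cell_yc]
  unfold CD.hgt
  rw [cdG_Q hc, eval_rename, ← bt_nmc F c ω]
  rfl

theorem cdG_ka (ω : F.Ω) (l : ℕ) :
    (cdG F v G c n₀ sh w₀ z M g ρ i j vv k R).ka ((v.win F).Z ω) l =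
      R.ka ((G.nd c (n₀ + 1) sh w₀ z M g ρ).cT J (w₀ + vv * z) i j ω) (l + 1) :=
  cdR_ka hc ω l

/-- **The conditions `Ch0` of the chart in the windows.** -/
theorem ch0_of (h : RawV G c n₀ sh w₀ z M g ρ i j vv t U K (k + 1) R A) (hk : 1 ≤ k)
    (hw : w₀ + vv * z ≤ v.B J) :
    Ch0 F v c n₀ k (fun l => g i j l - sh (l + 1)) K (t * z + 1) (U * z)
      (cdG F v G c n₀ sh w₀ z M g ρ i j vv k R) A := by
  have hB := (v.floor_le J).1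
  have p0 : (0 : ℝ) < 2 ^ (t * z) := by positivity
  have p1 : (2 : ℝ) ^ (t * z + 1) = 2 * 2 ^ (t * z) := by rw [pow_succ]; ring
  refine ⟨fun y l => ?_, fun y l x x' hx0 hx => ?_, fun y => ?_, fun y l hl => ?_, fun y => ?_,
    fun ω hω l hl => ?_, fun ω hω l hl => ?_, fun ω hω l hl => ?_, fun ω hω l hl => ?_,
    fun ω hω l hl x hx0 hx => ?_⟩
  · rcases cdG_Q0 y l with ⟨x, h1⟩ | h1
    · rw [h1]
      exact (totalDegree_rename_le _ _).trans (h.cht.deg _ _)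
    · rw [h1, totalDegree_zero]
      exact Nat.zero_le _
  · rcases cdG_Q0 y l with ⟨x₁, h1⟩ | h1
    · rw [h1, eval_rename, eval_rename]
      refine eval₂Hom_congr' rfl (fun r hr _ => ?_) rfl
      have h2 := Finset.mem_range.1 (h.cht.var _ _ hr)
      show x (nmc c r) = x' (nmc c r)
      cases r with
      | zero => rw [nmc_zero, hx0]
      | succ r =>
        rw [nmc_succ]
        exact hx r (by omega)
    · rw [h1, map_zero, map_zero]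
  · rcases cdG_ka0 y k with ⟨x, h1⟩ | h1
    · rw [h1]
      exact h.one _
    · rw [h1, if_pos rfl]
  · rcases cdG_ka0 y l with ⟨x, h1⟩ | h1
    · rw [h1]
      exact h.le1 _ _ (by omega)
    · rw [h1]
      split_ifs <;> simp
  · rcases cdG_ka0 y 0 with ⟨x, h1⟩ | h1
    · rw [h1]
      exact h.ka1 _
    · rw [h1, if_neg (by omega)]
  · rw [cdG_hgt hc, p1]
    have := h.cht.nat ω one_pos hω (l + 1) (by omega) (by omega)
    linarith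
  · have h1 := h.cht.bdA ω one_pos hω (l + 1) (by omega) (by omega)
    have h2 := h.cht.bdB ω one_pos hω (l + 1) (by omega) (by omega)
    have h3 := offs_le hw ω
    rw [cdG_a hw, p1]
    refine (abs_add_le _ _).trans ?_
    rw [abs_mul]
    have h4 := mul_le_mul h3 h2 (abs_nonneg _) zero_le_one
    linarith
  · have h2 := h.cht.bdB ω one_pos hω (l + 1) (by omega) (by omega)
    rw [cdG_b hw, p1, abs_div, abs_of_pos (by positivity : (0 : ℝ) < 2 ^ (v.B J - (w₀ + vv * z)))]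
    have h3 : (1 : ℝ) ≤ 2 ^ (v.B J - (w₀ + vv * z)) := one_le_pow₀ (by norm_num)
    exact (div_le_self (abs_nonneg _) h3).trans (by linarith)
  · have h1 := h.cht.lin ω one_pos hω (l + 1) (by omega) (by omega)
    rw [cdG_hgt hc, cdG_a hw, cdG_b hw]
    have e1 : rt (G.nd c (n₀ + 1) sh w₀ z M g ρ) J (w₀ + vv * z) ω =
        2 ^ (w₀ + vv * z) * F.t ω - F.T1 (w₀ + vv * z) ω := by
      unfold rt t0
      have e2 : (G.nd c (n₀ + 1) sh w₀ z M g ρ).X ω 0 = F.t ω :=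
        Pool.TGT.cx_zero F (fun i => c (i - 1)) ω
      rw [e2]
      have e3 : (((G.nd c (n₀ + 1) sh w₀ z M g ρ).T ω / 2 ^ (J - (w₀ + vv * z)) *
          2 ^ (J - (w₀ + vv * z)) : ℕ) : ℝ) = (F.T1 (w₀ + vv * z) ω : ℝ) *
          2 ^ (J - (w₀ + vv * z)) := by
        push_cast
        rfl
      rw [e3]
      have e4 : (2 : ℝ) ^ J = 2 ^ (J - (w₀ + vv * z)) * 2 ^ (w₀ + vv * z) := by
        rw [← pow_add, Nat.sub_add_cancel (by omega)]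
      rw [e4]
      field_simp
    rw [e1] at h1
    rw [win_t]
    have e5 : (2 : ℝ) ^ v.B J = 2 ^ (v.B J - (w₀ + vv * z)) * 2 ^ (w₀ + vv * z) := by
      rw [← pow_add, Nat.sub_add_cancel hw]
    obtain ⟨a, ha⟩ : ∃ a, a = R.A ((G.nd c (n₀ + 1) sh w₀ z M g ρ).wn J (w₀ + vv * z) ω) (l + 1) :=
      ⟨_, rfl⟩
    obtain ⟨b, hb⟩ : ∃ b, b = R.B ((G.nd c (n₀ + 1) sh w₀ z M g ρ).wn J (w₀ + vv * z) ω) (l + 1) :=
      ⟨_, rfl⟩
    rw [← ha, ← hb] at h1 ⊢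
    have e6 : a + ((F.T1 (v.B J) ω : ℝ) / 2 ^ (v.B J - (w₀ + vv * z)) -
        F.T1 (w₀ + vv * z) ω) * b + (2 ^ v.B J * F.t ω - F.T1 (v.B J) ω) *
        (b / 2 ^ (v.B J - (w₀ + vv * z))) =
        a + (2 ^ (w₀ + vv * z) * F.t ω - F.T1 (w₀ + vv * z) ω) * b := by
      rw [e5]
      field_simp
      ring
    rw [e6]
    refine h1.trans (div_le_div_of_nonneg_right ?_ (by positivity))
    rw [p1]
    linarith
  · have h1 := h.cht.slp ω one_pos hω (l + 1) (by omega) (by omega) (fun r => x (nmc c r)) (by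
        show x (nmc c 0) = _
        rw [nmc_zero, hx0]
        exact (Pool.TGT.cx_zero F (fun i => c (i - 1)) ω).symm) (fun r hr1 hr2 => by
        obtain ⟨r, rfl⟩ : ∃ r', r = r' + 1 := ⟨r - 1, by omega⟩
        have h2 := hx (some (c r))
        have e1 : (G.nd c (n₀ + 1) sh w₀ z M g ρ).X ω (r + 1) = bt F ω (some (c r)) :=
          Pool.TGT.cx_succ F c ω r
        rw [e1]
        show |x (nmc c (r + 1)) - _| ≤ _
        rw [nmc_succ]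
        exact h2)
    have e1 : (cdG F v G c n₀ sh w₀ z M g ρ i j vv k R).Q ((v.win F).Z ω) l = rename (nmc c)
        (R.Q ((G.nd c (n₀ + 1) sh w₀ z M g ρ).cT J (w₀ + vv * z) i j ω) (l + 1)) :=
      cdG_Q hc ω l
    have e2 : (G.nd c (n₀ + 1) sh w₀ z M g ρ).g i j (l + 1) = g i j l - sh (l + 1) :=
      CDat2.nd2_g _ _ _ _ _ _ _ (Nat.succ_le_succ (Nat.zero_le l))
    have e3 : (G.nd c (n₀ + 1) sh w₀ z M g ρ).X ω = fun r => bt F ω (nmc c r) :=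
      (bt_nmc F c ω).symm
    rw [e1, eval_rename, eval_rename]
    rw [e2, e3] at h1
    refine h1.trans (div_le_div_of_nonneg_right ?_ (by positivity))
    rw [p1]
    linarith

omit hc in
theorem cT_c {ω ω' : F.Ω} (h : (G.nd c (n₀ + 1) sh w₀ z M g ρ).cT J (w₀ + vv * z) i j ω =
    (G.nd c (n₀ + 1) sh w₀ z M g ρ).cT J (w₀ + vv * z) i j ω') :
    (G.nd c (n₀ + 1) sh w₀ z M g ρ).c i j ω = (G.nd c (n₀ + 1) sh w₀ z M g ρ).c i j ω' :=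
  congrArg Prod.fst h

/-- **The entropy of the digits of the heights modulo the direction.** -/
theorem dg_le (h : RawV G c n₀ sh w₀ z M g ρ i j vv t U K (k + 1) R A) {r r' : ℕ} (hr : r ≤ r') {q : F.Ω → ℝ} (hq : IsLaw q) :
    CH q ((cdG F v G c n₀ sh w₀ z M g ρ i j vv k R).dg c (fun l => g i j l - sh (l + 1)) k n₀ r)
      (fun ω : F.Ω => ((v.win F).Z ω, F.T ω)) ≤
    CH q (fun ω : F.Ω =>
        ((G.nd c (n₀ + 1) sh w₀ z M g ρ).ya (n₀ + 1) (k + 1) J w₀ z i j vv R.Q R.ka r' ω,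
          (G.nd c (n₀ + 1) sh w₀ z M g ρ).yn (n₀ + 1) (k + 1) J w₀ z i j vv R.Q R.ka r' ω))
      (fun ω : F.Ω => ((G.nd c (n₀ + 1) sh w₀ z M g ρ).c i j ω, F.T ω)) :=
  dg_le0 (cdG F v G c n₀ sh w₀ z M g ρ i j vv k R) (fun l => g i j l - sh (l + 1)) hr hq
    (fun ω l => (G.nd c (n₀ + 1) sh w₀ z M g ρ).yc J w₀ z i j vv R.Q ω l)
    (fun ω l => R.ka ((G.nd c (n₀ + 1) sh w₀ z M g ρ).cT J (w₀ + vv * z) i j ω) l)
    (fun ω => (G.nd c (n₀ + 1) sh w₀ z M g ρ).c i j ω)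
    (fun ω l => cdG_hgt hc ω l) (fun ω l => cdG_ka hc ω l)
    (fun ω l hl => h.le1 _ _ hl) (fun ω l => rfl) (fun ω => rfl)
    (fun ω ω' e => cT_c (hc ω ω' e))

end

end cell

end Pool.NFT33
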