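import Pool.Agent.H33.NFT.Dat

/-!
# Charts with straight lines and a direction: the data of the images

`CD F v`: a system of polynomials `Q`, a direction `ka` (functions of the side information of the
window) and lines `a + t * b`. `ChI`: the heights `hgt` over the system in the natural units `g` are
near the lines. `nwl`: the lines of the heights modulo the direction (the pivot `k` is left out; the
last one is divided by the size of the direction). `ChI.imh`: they are the lines of an image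
(`ImH`).
-/

set_option autoImplicit false

namespace Pool.NFT33

open Finset Real MvPolynomial
open Pool.Agent.H49.Ent Pool.Agent.H32.Dense Pool.STK Pool.KA Pool.KSAT Pool.K2S Pool.PB Pool.S6C
open Pool.GEN Pool.REX Pool.REX83

variable {m n J : ℕ}

/-- The coordinates without the pivot. -/
def dl (k i : ℕ) : ℕ := if i < k then i else i + 1

theorem dl_ne (k i : ℕ) : dl k i ≠ k := by
  unfold dl
  split_ifs <;> omega

theorem dl_zero {k : ℕ} (hk : 1 ≤ k) : dl k 0 = 0 := by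
  unfold dl
  rw [if_pos (by omega)]

theorem dl_pos {k i : ℕ} (hi : 1 ≤ i) : 1 ≤ dl k i := by
  unfold dl
  split_ifs <;> omega

theorem dl_le {k i n₀ : ℕ} (hi : i < n₀) : dl k i ≤ n₀ := by
  unfold dl
  split_ifs <;> omega

theorem dl_lt {k i n₀ : ℕ} (hi : i + 1 < n₀) : dl k i < n₀ := by
  unfold dl
  split_ifs <;> omega

theorem dl_last {k n₀ : ℕ} (hk : k < n₀) : dl k (n₀ - 1) = n₀ := by
  unfold dl
  rw [if_neg (by omega)]
  omega

/-- **The data of a chart with a direction.** -/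
structure CD (F : Fam m J) (v : Vz m) where
  Q : (v.win F).ζ → ℕ → MvPolynomial (Option (Fin m)) ℝ
  ka : (v.win F).ζ → ℕ → ℝ
  a : ((Fin m → ℝ) × (Fin m → ℝ)) × (v.win F).ζ → ℕ → ℝ
  b : ((Fin m → ℝ) × (Fin m → ℝ)) × (v.win F).ζ → ℕ → ℝ

namespace CD

variable {F : Fam m J} {v : Vz m} (d : CD F v)

/-- The heights over the system, in natural units. -/
noncomputable def hgt (c : ℕ → Fin m) (g : ℕ → ℕ) (ω : F.Ω) (l : ℕ) : ℝ :=
  2 ^ g l * (F.x ω (c l) - eval (bt F ω) (d.Q ((v.win F).Z ω) l))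

/-- The size of the direction. -/
noncomputable def mx (y : (v.win F).ζ) (l : ℕ) : ℝ := max 1 |d.ka y l|

theorem mx_pos (y : (v.win F).ζ) (l : ℕ) : 0 < d.mx y l :=
  lt_of_lt_of_le one_pos (le_max_left _ _)

theorem mx_one (y : (v.win F).ζ) (l : ℕ) : 1 ≤ d.mx y l := le_max_left _ _

theorem ka_mx (y : (v.win F).ζ) (l : ℕ) : |d.ka y l| ≤ d.mx y l := le_max_right _ _

/-- The heights modulo the direction. -/
noncomputable def hm (c : ℕ → Fin m) (g : ℕ → ℕ) (k : ℕ) (ω : F.Ω) (l : ℕ) : ℝ :=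
  (d.hgt c g ω l - d.ka ((v.win F).Z ω) l * d.hgt c g ω k) / d.mx ((v.win F).Z ω) l

/-- The polynomials of the heights modulo the direction. -/
noncomputable def Pi (c : ℕ → Fin m) (g : ℕ → ℕ) (k : ℕ) (y : (v.win F).ζ) (i : Fin n) :
    MvPolynomial (Option (Fin m)) ℝ :=
  MvPolynomial.C (2 ^ g (dl k i) / d.mx y (dl k i)) *
      (MvPolynomial.X (some (c (dl k i))) - d.Q y (dl k i)) -
    MvPolynomial.C (d.ka y (dl k i) * 2 ^ g k / d.mx y (dl k i)) *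
      (MvPolynomial.X (some (c k)) - d.Q y k)

/-- **The new lines.** -/
noncomputable def nwl (c : ℕ → Fin m) (k ρ : ℕ) :
    ((Fin m → ℝ) × (Fin m → ℝ)) × (v.win F).ζ → (Fin n → ℝ) × (Fin n → ℝ) := fun s =>
  (fun i => if (i : ℕ) = 0 then s.1.1 (c 0) else 2 ^ ρ / 2 ^ (J - v.B J) *
      ((d.a s (dl k i) - d.ka s.2 (dl k i) * d.a s k) / d.mx s.2 (dl k i)),
    fun i => if (i : ℕ) = 0 then s.1.2 (c 0) else 2 ^ ρ / 2 ^ (J - v.B J) *
      ((d.b s (dl k i) - d.ka s.2 (dl k i) * d.b s k) / d.mx s.2 (dl k i)))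

/-- The differences modulo the direction. -/
theorem mod_le {y : (v.win F).ζ} {l : ℕ} {p q C : ℝ} (hp : |p| ≤ C) (hq : |q| ≤ C) :
    |(p - d.ka y l * q) / d.mx y l| ≤ 2 * C := by
  have h0 := d.mx_pos y l
  have hC : 0 ≤ C := (abs_nonneg p).trans hp
  rw [abs_div, abs_of_pos h0, div_le_iff₀ h0]
  have h1 : |p - d.ka y l * q| ≤ |p| + |d.ka y l * q| := abs_sub _ _
  rw [abs_mul] at h1
  have h2 : |d.ka y l| * |q| ≤ d.mx y l * C :=
    mul_le_mul (d.ka_mx y l) hq (abs_nonneg _) h0.le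
  have h3 : C * 1 ≤ C * d.mx y l := mul_le_mul_of_nonneg_left (d.mx_one y l) hC
  linarith

theorem eval_Pi (c : ℕ → Fin m) (g : ℕ → ℕ) (k : ℕ) (y : (v.win F).ζ) (i : Fin n)
    (x : Option (Fin m) → ℝ) : eval x (d.Pi c g k y i) =
    (2 ^ g (dl k i) * (x (some (c (dl k i))) - eval x (d.Q y (dl k i))) -
      d.ka y (dl k i) * (2 ^ g k * (x (some (c k)) - eval x (d.Q y k)))) / d.mx y (dl k i) := by
  unfold Pi
  rw [map_sub, map_mul, map_mul, map_sub, map_sub, eval_C, eval_C, eval_X, eval_X]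
  have h0 := (d.mx_pos y (dl k i)).ne'
  field_simp

theorem eval_Pi_bt (c : ℕ → Fin m) (g : ℕ → ℕ) (k : ℕ) (i : Fin n) (ω : F.Ω) :
    eval (bt F ω) (d.Pi c g k ((v.win F).Z ω) i) = d.hm c g k ω (dl k i) := by
  rw [eval_Pi]
  rfl

/-- The form of the last polynomial. -/
theorem Pi_last (c : ℕ → Fin m) (g : ℕ → ℕ) (k : ℕ) (y : (v.win F).ζ) (i : Fin n) :
    d.Pi c g k y i = MvPolynomial.C (2 ^ g (dl k i) / d.mx y (dl k i)) *
      (MvPolynomial.X (some (c (dl k i))) - (d.Q y (dl k i) +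
        MvPolynomial.C (d.ka y (dl k i) * 2 ^ g k / 2 ^ g (dl k i)) *
          (MvPolynomial.X (some (c k)) - d.Q y k))) := by
  unfold Pi
  have h0 := (d.mx_pos y (dl k i)).ne'
  have e1 : d.ka y (dl k i) * 2 ^ g k / d.mx y (dl k i) = 2 ^ g (dl k i) / d.mx y (dl k i) *
      (d.ka y (dl k i) * 2 ^ g k / 2 ^ g (dl k i)) := by
    field_simp
  rw [e1, MvPolynomial.C_mul (a := 2 ^ g (dl k i) / d.mx y (dl k i))]
  ring

theorem deg_Pi {c : ℕ → Fin m} {g : ℕ → ℕ} {k K : ℕ} (hK : 1 ≤ K)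
    (hdeg : ∀ y l, (d.Q y l).totalDegree ≤ K) (y : (v.win F).ζ) (i : Fin n) :
    (d.Pi c g k y i).totalDegree ≤ K := by
  have h1 : ∀ (r : ℝ) (l : ℕ), (MvPolynomial.C r * (MvPolynomial.X (some (c l)) -
      d.Q y l)).totalDegree ≤ K := by
    intro r l
    refine (MvPolynomial.totalDegree_mul _ _).trans ?_
    rw [MvPolynomial.totalDegree_C, zero_add]
    refine (MvPolynomial.totalDegree_sub _ _).trans (max_le ?_ (hdeg y l))
    rw [MvPolynomial.totalDegree_X]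
    exact hK
  exact (MvPolynomial.totalDegree_sub _ _).trans (max_le (h1 _ _) (h1 _ _))

end CD

/-- **Charts with straight lines and a direction.** The coordinates of the base are
`c 0, …, c (n₀ - 1)`, the target is `c n₀`; the pivot is `k`. -/
structure ChI (F : Fam m J) (v : Vz m) (c : ℕ → Fin m) (n₀ k : ℕ) (g : ℕ → ℕ) (K t ρ₁ : ℕ)
    (d : CD F v) (A : F.Ω → Prop) : Prop where
  deg : ∀ y l, (d.Q y l).totalDegree ≤ K
  dep : ∀ y l, ∀ x x' : Option (Fin m) → ℝ, x none = x' none →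
    (∀ j < l, x (some (c j)) = x' (some (c j))) → eval x (d.Q y l) = eval x' (d.Q y l)
  one : ∀ y, d.ka y k = 1
  le1 : ∀ y, ∀ l < n₀, |d.ka y l| ≤ 1
  ka0 : ∀ y, d.ka y 0 = 0
  nat : ∀ ω, A ω → ∀ l ≤ n₀, |d.hgt c g ω l| ≤ 2 ^ t
  bda : ∀ ω, A ω → ∀ l ≤ n₀, |d.a ((v.win F).l ω, (v.win F).Z ω) l| ≤ 2 ^ t
  bdb : ∀ ω, A ω → ∀ l ≤ n₀, |d.b ((v.win F).l ω, (v.win F).Z ω) l| ≤ 2 ^ t
  lin : ∀ ω, A ω → ∀ l ≤ n₀, |d.hgt c g ω l -
    (d.a ((v.win F).l ω, (v.win F).Z ω) l + (v.win F).t ω * d.b ((v.win F).l ω, (v.win F).Z ω) l)|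
      ≤ 2 ^ t / 2 ^ ρ₁
  slp : ∀ ω, A ω → ∀ l ≤ n₀, ∀ x : Option (Fin m) → ℝ, (∀ o, |x o - bt F ω o| ≤ 1 / 2 ^ J) →
    |eval x (d.Q ((v.win F).Z ω) l) - eval (bt F ω) (d.Q ((v.win F).Z ω) l)| ≤
      2 ^ t / 2 ^ (g l + ρ₁)

/-- Charts with straight lines and a direction; the slopes are known at the exact time only. -/
structure Ch0 (F : Fam m J) (v : Vz m) (c : ℕ → Fin m) (n₀ k : ℕ) (g : ℕ → ℕ) (K t ρ₁ : ℕ)
    (d : CD F v) (A : F.Ω → Prop) : Prop where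
  deg : ∀ y l, (d.Q y l).totalDegree ≤ K
  dep : ∀ y l, ∀ x x' : Option (Fin m) → ℝ, x none = x' none →
    (∀ j < l, x (some (c j)) = x' (some (c j))) → eval x (d.Q y l) = eval x' (d.Q y l)
  one : ∀ y, d.ka y k = 1
  le1 : ∀ y, ∀ l < n₀, |d.ka y l| ≤ 1
  ka0 : ∀ y, d.ka y 0 = 0
  nat : ∀ ω, A ω → ∀ l ≤ n₀, |d.hgt c g ω l| ≤ 2 ^ t
  bda : ∀ ω, A ω → ∀ l ≤ n₀, |d.a ((v.win F).l ω, (v.win F).Z ω) l| ≤ 2 ^ t
  bdb : ∀ ω, A ω → ∀ l ≤ n₀, |d.b ((v.win F).l ω, (v.win F).Z ω) l| ≤ 2 ^ t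
  lin : ∀ ω, A ω → ∀ l ≤ n₀, |d.hgt c g ω l -
    (d.a ((v.win F).l ω, (v.win F).Z ω) l + (v.win F).t ω * d.b ((v.win F).l ω, (v.win F).Z ω) l)|
      ≤ 2 ^ t / 2 ^ ρ₁
  slp : ∀ ω, A ω → ∀ l ≤ n₀, ∀ x : Option (Fin m) → ℝ, x none = bt F ω none →
    (∀ o, |x o - bt F ω o| ≤ 1 / 2 ^ J) →
    |eval x (d.Q ((v.win F).Z ω) l) - eval (bt F ω) (d.Q ((v.win F).Z ω) l)| ≤
      2 ^ t / 2 ^ (g l + ρ₁)

section

variable {F : Fam m J} {v : Vz m} {c : ℕ → Fin m} {n₀ k K t ρ₁ : ℕ} {g : ℕ → ℕ} {d : CD F v}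
  {A : F.Ω → Prop}

theorem ChI.ch0 (h : ChI F v c n₀ k g K t ρ₁ d A) : Ch0 F v c n₀ k g K t ρ₁ d A :=
  ⟨h.deg, h.dep, h.one, h.le1, h.ka0, h.nat, h.bda, h.bdb, h.lin,
    fun ω hω l hl x _ hx => h.slp ω hω l hl x hx⟩

theorem Ch0.sub {B : F.Ω → Prop} (h : Ch0 F v c n₀ k g K t ρ₁ d A) (hB : Sub B A) :
    Ch0 F v c n₀ k g K t ρ₁ d B :=
  ⟨h.deg, h.dep, h.one, h.le1, h.ka0, fun ω hω => h.nat ω (hB ω hω),
    fun ω hω => h.bda ω (hB ω hω), fun ω hω => h.bdb ω (hB ω hω), fun ω hω => h.lin ω (hB ω hω),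
    fun ω hω => h.slp ω (hB ω hω)⟩

theorem ChI.sub {B : F.Ω → Prop} (h : ChI F v c n₀ k g K t ρ₁ d A) (hB : Sub B A) :
    ChI F v c n₀ k g K t ρ₁ d B :=
  ⟨h.deg, h.dep, h.one, h.le1, h.ka0, fun ω hω => h.nat ω (hB ω hω),
    fun ω hω => h.bda ω (hB ω hω), fun ω hω => h.bdb ω (hB ω hω), fun ω hω => h.lin ω (hB ω hω),
    fun ω hω => h.slp ω (hB ω hω)⟩

/-- The difference of the polynomials of the heights at near points. -/
theorem ChI.dQ (h : ChI F v c n₀ k g K t ρ₁ d A) {ω : F.Ω} (hω : A ω) {l : ℕ}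
    (hl : l ≤ n₀) {x : Option (Fin m) → ℝ} (hx : ∀ o, |x o - bt F ω o| ≤ 1 / 2 ^ J)
    {ρ : ℕ} (h1 : ρ + t + 5 ≤ ρ₁) (h2 : g l + ρ + 3 ≤ J) :
    |2 ^ g l * (x (some (c l)) - eval x (d.Q ((v.win F).Z ω) l)) - d.hgt c g ω l| ≤
      1 / 2 ^ ρ * (5 / 32) := by
  have e1 : 2 ^ g l * (x (some (c l)) - eval x (d.Q ((v.win F).Z ω) l)) - d.hgt c g ω l =
      2 ^ g l * ((x (some (c l)) - bt F ω (some (c l))) -
        (eval x (d.Q ((v.win F).Z ω) l) - eval (bt F ω) (d.Q ((v.win F).Z ω) l))) := by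
    unfold CD.hgt
    show _ = 2 ^ g l * ((x (some (c l)) - F.x ω (c l)) - _)
    ring
  have h3 := h.slp ω hω l hl x hx
  have h4 := hx (some (c l))
  have p0 : (0 : ℝ) < 2 ^ g l := by positivity
  rw [e1, abs_mul, abs_of_pos p0]
  have h5 := abs_sub (x (some (c l)) - bt F ω (some (c l)))
    (eval x (d.Q ((v.win F).Z ω) l) - eval (bt F ω) (d.Q ((v.win F).Z ω) l))
  have h6 : 2 ^ g l * |(x (some (c l)) - bt F ω (some (c l))) -
      (eval x (d.Q ((v.win F).Z ω) l) - eval (bt F ω) (d.Q ((v.win F).Z ω) l))| ≤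
      2 ^ g l * (1 / 2 ^ J + 2 ^ t / 2 ^ (g l + ρ₁)) :=
    mul_le_mul_of_nonneg_left (by linarith) p0.le
  refine h6.trans ?_
  have h7 : (2 : ℝ) ^ g l * (1 / 2 ^ J) ≤ 1 / 2 ^ ρ * (1 / 8) := by
    have e2 : (2 : ℝ) ^ (g l + ρ + 3) ≤ 2 ^ J := pow_le_pow_right₀ (by norm_num) h2
    rw [pow_add, pow_add] at e2
    rw [mul_one_div, div_mul_div_comm, one_mul, div_le_div_iff₀ (by positivity) (by positivity)]
    linarith
  have h8 : (2 : ℝ) ^ g l * (2 ^ t / 2 ^ (g l + ρ₁)) ≤ 1 / 2 ^ ρ * (1 / 32) := by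
    have e2 : (2 : ℝ) ^ (ρ + t + 5) ≤ 2 ^ ρ₁ := pow_le_pow_right₀ (by norm_num) h1
    rw [pow_add, pow_add] at e2
    have e3 : (2 : ℝ) ^ g l * (2 ^ t / 2 ^ (g l + ρ₁)) = 2 ^ t / 2 ^ ρ₁ := by
      rw [pow_add]
      field_simp
    rw [e3, div_mul_div_comm, one_mul, div_le_div_iff₀ (by positivity) (by positivity)]
    linarith
  rw [mul_add]
  linarith

/-- **The new lines are the lines of an image.** -/
theorem ChI.imh (h : ChI F v c n₀ k g K t ρ₁ d A) {f : Nw v n₀} {ρ k₁ : ℕ}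
    (hf : f J F = d.nwl c k ρ) {κ : Fin n₀} (hκ : (κ : ℕ) = 0) (hK : 1 ≤ K)
    (hkn : k < n₀) (h1 : ρ + t + 5 ≤ ρ₁) (h2 : ∀ l ≤ n₀, g l + ρ + 3 ≤ J)
    (h3 : k₁ + ρ + t + 1 ≤ J - v.B J) :
    ImH F v f (c 0) κ K ρ k₁ (fun y i => d.Pi c g k y i) A := by
  have pt : (0 : ℝ) < 2 ^ t := by positivity
  have hsmall : ∀ {C : ℝ}, C ≤ 2 * 2 ^ t → (2 : ℝ) ^ ρ / 2 ^ (J - v.B J) * C ≤ 1 / 2 ^ k₁ := by
    intro C hC
    have e1 : (2 : ℝ) ^ (k₁ + ρ + t + 1) ≤ 2 ^ (J - v.B J) := pow_le_pow_right₀ (by norm_num) h3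
    rw [pow_add, pow_add, pow_add] at e1
    have e2 : (2 : ℝ) ^ ρ / 2 ^ (J - v.B J) * C ≤ 2 ^ ρ / 2 ^ (J - v.B J) * (2 * 2 ^ t) :=
      mul_le_mul_of_nonneg_left hC (by positivity)
    refine e2.trans ?_
    rw [div_mul_eq_mul_div, div_le_div_iff₀ (by positivity) (by positivity)]
    linarith
  -- the velocities
  have hb : ∀ ω, A ω → ∀ i : Fin n₀, (i : ℕ) ≠ 0 →
      |(f J F ((v.win F).l ω, (v.win F).Z ω)).2 i| ≤ 1 / 2 ^ k₁ := by
    intro ω hω i hi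
    have hi1 : 1 ≤ (i : ℕ) := Nat.one_le_iff_ne_zero.2 hi
    rw [hf]
    show |if (i : ℕ) = 0 then _ else _| ≤ _
    rw [if_neg hi, abs_mul, abs_of_nonneg (by positivity : (0 : ℝ) ≤ 2 ^ ρ / 2 ^ (J - v.B J))]
    refine hsmall ?_
    exact d.mod_le (h.bdb ω hω _ (dl_le i.2)) (h.bdb ω hω k hkn.le)
  have hpk : (1 : ℝ) / 2 ^ k₁ ≤ 1 := by
    rw [div_le_one (by positivity)]
    exact one_le_pow₀ (by norm_num)
  have hd0 : ∀ ω, (winI v f F).d ω κ = (v.win F).d ω (c 0) := by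
    intro ω
    have h4 : (f J F ((v.win F).l ω, (v.win F).Z ω)).2 κ = (v.win F).d ω (c 0) := by
      rw [hf]
      show (if (κ : ℕ) = 0 then _ else _) = _
      rw [if_pos hκ]
      rfl
    have h5 : |(f J F ((v.win F).l ω, (v.win F).Z ω)).2 κ| ≤ 1 := by
      rw [h4]
      exact (v.win F).dir ω (c 0)
    refine (img_d (v.win F) (f J F) h5).trans h4
  refine ⟨fun ω hω => ?_, fun ω hω => hd0 ω, fun y i => d.deg_Pi hK h.deg y i,
    fun ω hω i hi => ?_, fun ω hω i hi x hx => ?_, fun ω hω i hi => ?_⟩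
  · show (f J F ((v.win F).l ω, (v.win F).Z ω)).1 κ = _
    rw [hf]
    show (if (κ : ℕ) = 0 then _ else _) = _
    rw [if_pos hκ]
    rfl
  · have hi0 : (i : ℕ) ≠ 0 := fun h0 => hi (Fin.ext (h0.trans hκ.symm))
    have hi1 : 1 ≤ (i : ℕ) := Nat.one_le_iff_ne_zero.2 hi0
    have hx : (winI v f F).x ω i = (f J F ((v.win F).l ω, (v.win F).Z ω)).1 i +
        (v.win F).t ω * (f J F ((v.win F).l ω, (v.win F).Z ω)).2 i :=
      img_x (v.win F) (f J F) ((hb ω hω i hi0).trans hpk)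
    have e1 : (f J F ((v.win F).l ω, (v.win F).Z ω)).1 i = 2 ^ ρ / 2 ^ (J - v.B J) *
        ((d.a ((v.win F).l ω, (v.win F).Z ω) (dl k i) - d.ka ((v.win F).Z ω) (dl k i) *
          d.a ((v.win F).l ω, (v.win F).Z ω) k) / d.mx ((v.win F).Z ω) (dl k i)) := by
      rw [hf]
      show (if (i : ℕ) = 0 then _ else _) = _
      rw [if_neg hi0]
    have e2 : (f J F ((v.win F).l ω, (v.win F).Z ω)).2 i = 2 ^ ρ / 2 ^ (J - v.B J) *
        ((d.b ((v.win F).l ω, (v.win F).Z ω) (dl k i) - d.ka ((v.win F).Z ω) (dl k i) *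
          d.b ((v.win F).l ω, (v.win F).Z ω) k) / d.mx ((v.win F).Z ω) (dl k i)) := by
      rw [hf]
      show (if (i : ℕ) = 0 then _ else _) = _
      rw [if_neg hi0]
    rw [hx, e1, e2, d.eval_Pi_bt]
    unfold CD.hm
    obtain ⟨s, hs⟩ : ∃ s, s = ((v.win F).l ω, (v.win F).Z ω) := ⟨_, rfl⟩
    have h5 := h.lin ω hω (dl k i) (dl_le i.2)
    have h6 := h.lin ω hω k hkn.le
    rw [← hs] at h5 h6 ⊢
    have e3 : 2 ^ ρ / 2 ^ (J - v.B J) * ((d.a s (dl k i) - d.ka ((v.win F).Z ω) (dl k i) *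
        d.a s k) / d.mx ((v.win F).Z ω) (dl k i)) + (v.win F).t ω * (2 ^ ρ / 2 ^ (J - v.B J) *
        ((d.b s (dl k i) - d.ka ((v.win F).Z ω) (dl k i) * d.b s k) /
          d.mx ((v.win F).Z ω) (dl k i))) - 2 ^ ρ / 2 ^ (J - v.B J) * ((d.hgt c g ω (dl k i) -
        d.ka ((v.win F).Z ω) (dl k i) * d.hgt c g ω k) / d.mx ((v.win F).Z ω) (dl k i)) =
        -(2 ^ ρ / 2 ^ (J - v.B J) * (((d.hgt c g ω (dl k i) - (d.a s (dl k i) +
          (v.win F).t ω * d.b s (dl k i))) - d.ka ((v.win F).Z ω) (dl k i) *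
          (d.hgt c g ω k - (d.a s k + (v.win F).t ω * d.b s k))) /
          d.mx ((v.win F).Z ω) (dl k i))) := by ring
    rw [e3, abs_neg, abs_mul,
      abs_of_nonneg (by positivity : (0 : ℝ) ≤ 2 ^ ρ / 2 ^ (J - v.B J))]
    have h7 := d.mod_le (y := (v.win F).Z ω) (l := dl k i) h5 h6
    refine (mul_le_mul_of_nonneg_left h7 (by positivity)).trans ?_
    have e4 : (2 : ℝ) ^ (ρ + t + 5) ≤ 2 ^ ρ₁ := pow_le_pow_right₀ (by norm_num) h1
    rw [pow_add, pow_add] at e4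
    have e5 : (2 : ℝ) ^ ρ / 2 ^ (J - v.B J) * (2 * (2 ^ t / 2 ^ ρ₁)) =
        1 / 2 ^ (J - v.B J) * (2 ^ ρ * 2 ^ t * 2 / 2 ^ ρ₁) := by
      field_simp
    have e6 : (1 : ℝ) / 2 ^ (J - v.B J + 4) = 1 / 2 ^ (J - v.B J) * (1 / 16) := by
      rw [pow_add]
      field_simp
      norm_num
    rw [e5, e6]
    refine mul_le_mul_of_nonneg_left ?_ (by positivity)
    rw [div_le_div_iff₀ (by positivity) (by positivity)]
    linarith
  · have hi0 : (i : ℕ) ≠ 0 := fun h0 => hi (Fin.ext (h0.trans hκ.symm))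
    have hi1 : 1 ≤ (i : ℕ) := Nat.one_le_iff_ne_zero.2 hi0
    rw [d.eval_Pi_bt, d.eval_Pi]
    unfold CD.hm
    rw [← sub_div]
    have e3 : (2 ^ g (dl k i) * (x (some (c (dl k i))) - eval x (d.Q ((v.win F).Z ω) (dl k i))) -
        d.ka ((v.win F).Z ω) (dl k i) * (2 ^ g k * (x (some (c k)) -
          eval x (d.Q ((v.win F).Z ω) k))) - (d.hgt c g ω (dl k i) -
        d.ka ((v.win F).Z ω) (dl k i) * d.hgt c g ω k)) =
        (2 ^ g (dl k i) * (x (some (c (dl k i))) - eval x (d.Q ((v.win F).Z ω) (dl k i))) -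
          d.hgt c g ω (dl k i)) - d.ka ((v.win F).Z ω) (dl k i) * (2 ^ g k * (x (some (c k)) -
          eval x (d.Q ((v.win F).Z ω) k)) - d.hgt c g ω k) := by ring
    rw [e3]
    have h7 := d.mod_le (y := (v.win F).Z ω) (l := dl k i)
      (h.dQ (l := dl k i) hω (dl_le i.2) hx h1 (h2 _ (dl_le i.2)))
      (h.dQ hω hkn.le hx h1 (h2 _ hkn.le))
    refine (mul_le_mul_of_nonneg_left h7 (by positivity)).trans ?_
    have e4 : (2 : ℝ) ^ ρ * (2 * (1 / 2 ^ ρ * (5 / 32))) = 5 / 16 := by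
      field_simp
      norm_num
    rw [e4]
    norm_num
  · have hi0 : (i : ℕ) ≠ 0 := fun h0 => hi (Fin.ext (h0.trans hκ.symm))
    have h5 := img_d (v.win F) (f J F) ((hb ω hω i hi0).trans hpk)
    have h6 : (winI v f F).d ω i = (f J F ((v.win F).l ω, (v.win F).Z ω)).2 i := h5
    rw [h6]
    exact hb ω hω i hi0

end

end Pool.NFT33
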