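import Pool.Agent.H33.NFT.Alt

/-!
# Full entropy modulo a direction, for a class

`nft_cls`: in a class with exactness of the base behind closed values (`ZmX`), without closed labels
of the target (`NoT`), with a label with few bits and an active coordinate `c 0`, the heights of a
chart modulo a direction have full entropy, in a subclass: the loss is a constant times the defect
`δ` of the numbers and the size `tt` of the heights.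
-/

set_option autoImplicit false

namespace Pool.NFT33

open Finset Real MvPolynomial
open Pool.Agent.H49.Ent Pool.Agent.H32.Dense Pool.STK Pool.KA Pool.KSAT Pool.K2S Pool.PB Pool.GEN
open Pool.S6C Pool.GRD Pool.GRW Pool.TGT Pool.REX Pool.REX83 Pool.FRX Pool.MIC6
open Pool.ORD65
open Pool.SUPA (SA FF)
open Pool.STAT.CLO (Inj)

variable {m n J : ℕ}

theorem NmI.monoC {n₀ : ℕ} {v : Vz m} {g : ℕ → ℕ → ℕ} {t ρ ρ₁ : ℕ → ℕ} {γ : ℕ → ℝ}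
    {tt rr rr₁ q₁ C C' : ℝ} (h : NmI n₀ v g t ρ ρ₁ γ tt rr rr₁ q₁ C) (hC : C ≤ C') :
    NmI n₀ v g t ρ ρ₁ γ tt rr rr₁ q₁ C' :=
  ⟨h.C0.trans hC, fun J l hl => (h.hg J l hl).trans hC, fun J => (h.ht J).trans hC,
    fun J => (h.hρ J).trans hC, fun J => by linarith [h.hρ₁ J], h.t0, h.r0, h.q0, h.e1, h.e2,
    h.e3⟩

/-- The constant of the loss. -/
noncomputable def LNf (N : ℕ) : ℝ := ((N : ℝ) + 1) * (2 * N + 7) + (2 * N + 9)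

/-- **Full entropy of the points of the new lines**, one alternative. -/
theorem nft_one {N : ℕ} (hN : 1 ≤ N) (hFZ : FZX N) {x : ℝ} (hFq : FZQ (N + 1) x)
    {S : PCl m} (hne : S.Ne) {C₀ : ℝ} (hC₀ : 0 ≤ C₀) (htm : TmC S C₀) {v : Vz m} {c : ℕ → Fin m}
    {Λ : ∀ J : ℕ, Fam m J → Type} {lab : ∀ (J : ℕ) (F : Fam m J), F.Ω → Λ J F}
    {g : ℕ → ℕ → ℕ} {t ρ ρ₁ : ℕ → ℕ} {γ : ℕ → ℝ} {tt rr rr₁ q₁ C : ℝ}
    (h : NmI (N + 1) v g t ρ ρ₁ γ tt rr rr₁ q₁ C) {k K : ℕ} (hK : 1 ≤ K) (hk : 1 ≤ k)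
    (hkn : k < N + 1) {d : ∀ (J : ℕ) (F : Fam m J), CD F v}
    (hch : Bas S (fun J F A => ChI F v c (N + 1) k (g J) K (t J) (ρ₁ J) (d J F) A))
    {X₀ w₁ qm : ℝ}
    (hd : ZmD S v (nwC v (N + 1) c k ρ d) c (N + 1) lab X₀ w₁ qm) {idx : ℕ → Fin (N + 1)}
    (hidx : ∀ l < N + 1, (idx l : ℕ) = l)
    {Na : Finset (Fin (N + 1)) → ℝ → ℝ → ℝ} (hNa : ActN (WyI S v (nwC v (N + 1) c k ρ d)) Na)
    {P Q : ℝ} (hP : 0 < P) (hPQ : P < Q) (hQm : Q < qm) (hQ2 : Q < (1 - w₁) / 2)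
    (hact : 0 < FF (Na {idx 0}) Q - FF (Na {idx 0}) P) {PN : ℝ}
    (hno : NoT (WyI S v (nwC v (N + 1) c k ρ d)) idx N (fun _ F => F.Z) PN 0 w₁ qm)
    (hww : 0 < w₁) (hw1 : w₁ < 1) {β sN R₀ : ℝ} (hβ : β * (1 - v.b) = 1 - v.b - (rr + tt))
    {a0 β₀ : ℝ} (hb0 : v.b ≤ a0) (hβ₀ : β₀ * (1 - v.b) = a0 - v.b) (hball : BlC S v (c 0) a0)
    (hs0 : 0 ≤ sN) (hβ0 : 0 ≤ β) (hβ₀β : β₀ ≤ β) (hβ1 : β + sN ≤ 1) (hroom : w₁ + Q < β + sN) {X₁ : ℝ}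
    (hX : X₁ * (1 - v.b) ≤ X₀ - (∑ l ∈ Ico 1 (N + 1), (1 - γ l)) + ((N + 1 - 1 : ℕ) : ℝ) * rr -
      rr - tt)
    (hnum : (1 - β₀) + ((N : ℝ) - 1) * (1 - β) - sN < X₁) (hPN0 : 0 ≤ PN) (hPN : PN < R₀)
    (hR : R₀ ≤ 1 - sN) :
    ∃ S' : PCl m, S'.Ne ∧
      (∀ (τ : ℝ) (J : ℕ) (F : Fam m J) (A : F.Ω → Prop), S'.St τ J F A → S.St τ J F A) ∧
      ∀ ε : ℝ, 0 < ε → Bas S' (fun J F A =>
        (X₁ + (1 - x) * (1 - sN - R₀) - ε) * Real.log 2 * ((J - v.B J : ℕ) : ℝ) ≤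
          CH (Pool.Agent.H49.Ent.cond F.p A True)
            ((d J F).dg c (g J) k (N + 1) (ρ J)) (fun ω : F.Ω => ((v.win F).Z ω, F.T ω)) +
          (((J : ℝ) - g J 0 - ρ J) * Real.log 2 + ((N + 1 : ℕ) : ℝ) * Real.log 7)) := by
  have hpos : ∀ (τ : ℝ) (J : ℕ) (F : Fam m J) (A : F.Ω → Prop), S.St τ J F A →
      0 < Pe F.p A := by
    intro τ J F A h
    by_cases hτ : 0 < τ
    · exact (htm τ J F A hτ h).1
    · exact (htm 1 J F A one_pos (S.mono (by linarith) h)).1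
  obtain ⟨f, hf⟩ : ∃ f, f = nwC v (N + 1) c k ρ d := ⟨_, rfl⟩
  have hκ : ((idx 0 : Fin (N + 1)) : ℕ) = 0 := hidx 0 (by omega)
  have him := imh_cls (ρ := ρ) h hch hκ hK hkn
  have hzx := zmx_img h (by omega) hK hk hkn hch hpos hd hidx hX
  have hsz := sz_cls (ρ := ρ) h hch hκ hK hkn hβ hb0 hβ₀ hball
  rw [← hf] at him hzx hsz hNa hno
  rw [Nat.add_sub_cancel] at hzx
  obtain ⟨S₅, hne₅, hsub₅, hH⟩ := sz_total hN hFZ hFq (wyi_ne (v := v) (f := f) hne)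
    (C₀ := C₀ * (1 / (1 - v.b))) (by
      have := v.b1
      have : 0 < 1 - v.b := by linarith
      positivity) (wyi_tmC hC₀ htm) hidx hsz hzx hNa hP hPQ hQm hQ2 hact hno hww hw1 hs0 hβ0
    hβ₀β hβ1 hroom hnum hPN0 hPN hR
  obtain ⟨J₀, hJ₀⟩ := h.ev
  refine ⟨S.sl (slI v f S₅), slI_ne v f hne₅ hsub₅, fun τ J F A hA => hA.1, fun ε hε => ?_⟩
  have hsl : ∀ (τ : ℝ) (J : ℕ) (F : Fam m J) (A : F.Ω → Prop), (S.sl (slI v f S₅)).St τ J F A →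
      S.St τ J F A := fun τ J F A hA => hA.1
  have k0 := bas_wyi.1 (slI_bas v f (S₁ := S) (hH ε hε))
  have hposB : Bas (S.sl (slI v f S₅)) (fun _ F A => 0 < Pe F.p A) :=
    ⟨1, one_pos, 0, fun J _ F A hA => hpos 1 J F A hA.1⟩
  refine Bas.mono J₀ ((k0.and hposB).and ((hch.sub hsl).and (him.sub hsl))) ?_
  rintro J hJ F A ⟨⟨k1, k3⟩, k4, k5⟩
  obtain ⟨e1, e2, -⟩ := hJ₀ J hJ
  have hq := isLaw_cond F.isLaw k3
  have hA : ∀ ω, 0 < Pool.Agent.H49.Ent.cond F.p A True ω → A ω := fun ω hω => of_condp hω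
  have h1 := k4.out k5 hκ hk hkn (by
    have := e2 0 (Nat.zero_le _)
    omega) hq hA
  refine le_trans ?_ h1
  have h2 : CH (Pool.Agent.H49.Ent.cond F.p A True)
      (fun ω : F.Ω => (winI v f F).X (J - v.B J) ω)
      (fun ω : F.Ω => ((v.win F).Z ω, (v.win F).T ω)) ≤
      CH (Pool.Agent.H49.Ent.cond F.p A True)
      (fun ω : F.Ω => (winI v f F).X (J - v.B J) ω)
      (fun ω : F.Ω => ((v.win F).Z ω, F.T ω)) := by
    refine CH_mono_cond hq.nonneg fun ω ω' _ _ e => ?_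
    have e3 := Prod.ext_iff.1 e
    have eZ : (v.win F).Z ω = (v.win F).Z ω' := e3.1
    have eT : F.T ω % 2 ^ (J - v.B J) = F.T ω' % 2 ^ (J - v.B J) := e3.2
    exact Prod.ext eZ (win_T eZ eT)
  exact le_trans k1 h2

end Pool.NFT33
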