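import Pool.Agent.H33.NFT.Chi
import Pool.Agent.H65.ORD.Cnt

/-!
# Counting with a chart and a direction

`cnt_seq`: the entropy of the base given an integer and balls. `ChI.ball`: the balls of the base,
given the points of the new lines (without the target) and the height of the pivot. `ChI.cnt`: the
entropy of the base given the points of the new lines. `ChI.xb_up`: the entropy of the points of the
new lines of the base. `ChI.out`: the entropy of the digits of the heights modulo the direction,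
from the entropy of the points of the new lines.
-/

set_option autoImplicit false

namespace Pool.NFT33

open Finset Real MvPolynomial
open Pool.Agent.H49.Ent Pool.Agent.H32.Dense Pool.STK Pool.KA Pool.KSAT Pool.K2S Pool.PB Pool.S6C
open Pool.GEN Pool.REX Pool.REX83
open Pool.TUB (lo lo_eq lo_ext seq_up CH_le_dig floor_dist)
open Pool.ORD65 (x_near X_near)

variable {m n J : ℕ}

/-- **The entropy of the base**, given an integer and balls. -/
theorem cnt_seq {F : Fam m J} {c : ℕ → Fin m} {n₀ : ℕ} {G : ℕ → ℕ} {C D : ℝ} (hC : 1 ≤ C)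
    {Γ : Type} (Y : F.Ω → Γ) {q : F.Ω → ℝ} (hq : IsLaw q) {A : F.Ω → Prop}
    (hA : ∀ ω, 0 < q ω → A ω) (hG : ∀ l < n₀, G l ≤ J) (M : F.Ω → ℤ)
    (hM : ∀ ω ω', A ω → A ω' → Y ω = Y ω' → |((M ω - M ω' : ℤ) : ℝ)| ≤ D)
    (hball : ∀ ω ω', A ω → A ω' → Y ω = Y ω' → M ω = M ω' → ∀ l < n₀,
      (∀ j < l, |F.x ω (c j) - F.x ω' (c j)| ≤ 1 / 2 ^ J) →
      |F.x ω (c l) - F.x ω' (c l)| ≤ C / 2 ^ G l) :
    CH q (fun ω (l : Fin n₀) => F.X J ω (c l)) Y ≤ Real.log (2 * D + 1) +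
      (∑ l ∈ range n₀, ((J : ℝ) - G l)) * Real.log 2 + n₀ * Real.log (2 * C + 3) := by
  classical
  obtain ⟨K, hK⟩ : ∃ K, K = Real.log (2 * C + 3) := ⟨_, rfl⟩
  obtain ⟨X, hX⟩ : ∃ X : F.Ω → ℕ → ℤ, X = fun ω l => if l = 0 then M ω else
    F.X J ω (c (l - 1)) := ⟨_, rfl⟩
  have hX0 : ∀ ω, X ω 0 = M ω := fun ω => by rw [hX]; exact if_pos rfl
  have hXs : ∀ ω l, X ω (l + 1) = F.X J ω (c l) := fun ω l => by
    rw [hX]
    simp only
    rw [if_neg (by omega), Nat.add_sub_cancel]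
  obtain ⟨e, he⟩ : ∃ e : ℕ → ℝ, e = fun l => if l = 0 then Real.log (2 * D + 1) else
    ((J : ℝ) - G (l - 1)) * Real.log 2 + K := ⟨_, rfl⟩
  have he0 : e 0 = Real.log (2 * D + 1) := by rw [he]; exact if_pos rfl
  have hes : ∀ l, e (l + 1) = ((J : ℝ) - G l) * Real.log 2 + K := fun l => by
    rw [he]
    simp only
    rw [if_neg (by omega), Nat.add_sub_cancel]
  have h1 := seq_up hq X Y 0 e (n₀ + 1) (Nat.zero_le _) fun l _ hl => by
    rcases Nat.eq_zero_or_pos l with hl0 | hl0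
    · subst hl0
      have e1 : (fun ω => X ω 0) = M := funext hX0
      rw [e1, he0]
      exact CH_le_dig hq _ _ fun ω ω' h1 h2 hWe =>
        hM ω ω' (hA ω h1) (hA ω' h2) (Prod.ext_iff.1 hWe).2
    · obtain ⟨l, rfl⟩ : ∃ l', l = l' + 1 := ⟨l - 1, by omega⟩
      have hln : l < n₀ := by omega
      have e1 : (fun ω => X ω (l + 1)) = fun ω => F.X J ω (c l) := funext fun ω => hXs ω l
      rw [e1, hes]
      have key : CH q (fun ω => F.X J ω (c l)) (fun ω => (lo (l + 1) X ω, Y ω)) ≤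
          Real.log (2 * (C * 2 ^ (J - G l) + 1) + 1) := by
        refine CH_le_dig hq _ _ fun ω ω' h1 h2 hWe => ?_
        have e1 := Prod.ext_iff.1 hWe
        have e2 : M ω = M ω' := by
          rw [← hX0, ← hX0]
          exact lo_eq e1.1 (by omega)
        have e3 : ∀ j < l, F.X J ω (c j) = F.X J ω' (c j) := fun j hj => by
          rw [← hXs, ← hXs]
          exact lo_eq e1.1 (by omega)
        exact X_near F (hG l hln) (hball ω ω' (hA ω h1) (hA ω' h2) e1.2 e2 l hln fun j hj =>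
          x_near F (e3 j hj))
      refine key.trans ?_
      have p1 : (1 : ℝ) ≤ 2 ^ (J - G l) := one_le_pow₀ (by norm_num)
      have h2 : 2 * (C * 2 ^ (J - G l) + 1) + 1 ≤ (2 * C + 3) * 2 ^ (J - G l) := by nlinarith
      refine (Real.log_le_log (by positivity) h2).trans ?_
      rw [Real.log_mul (by positivity) (by positivity), Real.log_pow, Nat.cast_sub (hG l hln), hK]
      linarith
  have h2 : CH q (fun ω (l : Fin n₀) => F.X J ω (c l)) Y ≤
      CH q (lo (n₀ + 1) X) (fun ω => (lo 0 X ω, Y ω)) := by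
    refine le_trans (CH_mono_cond hq.nonneg (W' := Y) (W := fun ω => (lo 0 X ω, Y ω))
      fun ω ω' _ _ e => ?_) (CH_mono_left hq.nonneg fun ω ω' _ _ e => ?_)
    · have e0 : lo 0 X ω = lo 0 X ω' := lo_ext fun l hl => absurd hl (Nat.not_lt_zero l)
      exact Prod.ext e0 e
    · have e1 := (Prod.ext_iff.1 e).1
      funext l
      have hl := l.2
      have e3 := lo_eq e1 (show (l : ℕ) + 1 < n₀ + 1 by omega)
      rwa [hXs, hXs] at e3
  refine h2.trans (h1.trans (le_of_eq ?_))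
  rw [← Finset.range_eq_Ico, Finset.sum_range_succ', he0]
  have hs : ∑ l ∈ range n₀, e (l + 1) = (∑ l ∈ range n₀, ((J : ℝ) - G l)) * Real.log 2 +
      n₀ * K := by
    rw [Finset.sum_congr rfl fun l _ => hes l, Finset.sum_add_distrib, Finset.sum_const,
      Finset.card_range, nsmul_eq_mul, Finset.sum_mul]
  rw [hs, ← hK]
  ring

section

variable {F : Fam m J} {v : Vz m} {c : ℕ → Fin m} {n₀ k K t ρ₁ ρ k₁ : ℕ} {g : ℕ → ℕ} {d : CD F v}
  {A : F.Ω → Prop} {f : Nw v n₀} {κ : Fin n₀}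

/-- The heights modulo the direction at two samples with the same point of the new lines. -/
theorem hm_near (him : ImH F v f (c 0) κ K ρ k₁ (fun y i => d.Pi c g k y i) A) {ω ω' : F.Ω}
    (hω : A ω) (hω' : A ω') {i : Fin n₀} (hi : i ≠ κ) {δ : ℝ}
    (hx : |(winI v f F).x ω i - (winI v f F).x ω' i| ≤ δ) :
    2 ^ ρ * |d.hm c g k ω (dl k i) - d.hm c g k ω' (dl k i)| ≤ 2 ^ (J - v.B J) * δ + 1 / 8 := by
  have h1 := him.near ω hω i hi
  have h2 := him.near ω' hω' i hi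
  rw [d.eval_Pi_bt] at h1 h2
  obtain ⟨P, hP⟩ : ∃ P : ℝ, P = 2 ^ (J - v.B J) := ⟨_, rfl⟩
  have pP : 0 < P := by rw [hP]; positivity
  have e4 : (2 : ℝ) ^ (J - v.B J + 4) = P * 16 := by
    rw [hP, pow_add]
    norm_num
  rw [e4, ← hP] at h1 h2
  rw [← hP]
  obtain ⟨a, ha⟩ : ∃ a, a = d.hm c g k ω (dl k i) := ⟨_, rfl⟩
  obtain ⟨a', ha'⟩ : ∃ a', a' = d.hm c g k ω' (dl k i) := ⟨_, rfl⟩
  rw [← ha] at h1
  rw [← ha'] at h2
  rw [← ha, ← ha']
  have e5 : 1 / (P * 16) = 1 / P / 16 := by field_simp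
  rw [e5] at h1 h2
  have h3 : |2 ^ ρ / P * a - 2 ^ ρ / P * a'| ≤ δ + 1 / P / 8 := by
    rw [abs_le] at h1 h2 hx ⊢
    constructor <;> linarith [h1.1, h1.2, h2.1, h2.2, hx.1, hx.2]
  rw [← mul_sub, abs_mul, abs_of_pos (by positivity : (0 : ℝ) < 2 ^ ρ / P)] at h3
  have h4 : P * (2 ^ ρ / P * |a - a'|) ≤ P * (δ + 1 / P / 8) :=
    mul_le_mul_of_nonneg_left h3 pP.le
  have e6 : P * (2 ^ ρ / P * |a - a'|) = 2 ^ ρ * |a - a'| := by field_simp
  have e7 : P * (δ + 1 / P / 8) = P * δ + 1 / 8 := by field_simp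
  rw [e6, e7] at h4
  exact h4

/-- **The balls of the base**, given the points of the new lines of the base and the height of the
pivot. -/
theorem ChI.ball (h : ChI F v c n₀ k g K t ρ₁ d A)
    (him : ImH F v f (c 0) κ K ρ k₁ (fun y i => d.Pi c g k y i) A) (hκ : (κ : ℕ) = 0)
    (hk : 1 ≤ k) (hkn : k < n₀) (h1 : ρ + t + 5 ≤ ρ₁) {ω ω' : F.Ω} (hω : A ω) (hω' : A ω')
    (hZ : (v.win F).Z ω = (v.win F).Z ω') (hT : F.T ω = F.T ω')
    (hX : ∀ i : Fin n₀, (i : ℕ) + 1 < n₀ →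
      (winI v f F).X (J - v.B J) ω i = (winI v f F).X (J - v.B J) ω' i)
    (hM : 2 ^ ρ * |d.hgt c g ω k - d.hgt c g ω' k| ≤ 1) {l : ℕ} (hl : l < n₀)
    (hj : ∀ j < l, |F.x ω (c j) - F.x ω' (c j)| ≤ 1 / 2 ^ J) :
    |F.x ω (c l) - F.x ω' (c l)| ≤ 4 / 2 ^ (if l = 0 then J else g l + ρ) := by
  classical
  have hB := (v.floor_le J).1
  have pρ : (0 : ℝ) < 2 ^ ρ := by positivity
  by_cases hl0 : l = 0
  · subst hl0
    rw [if_pos rfl]
    have h2 := x_near (winI v f F) (hX κ (by omega))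
    rw [him.x0 hω, him.x0 hω', win_x, win_x] at h2
    have h3 : fl (v.B J) (F.x1 (v.B J) ω) = fl (v.B J) (F.x1 (v.B J) ω') := by
      have a2 : (v.y J F ω, F.c (v.B J) ω) = (v.y J F ω', F.c (v.B J) ω') := hZ
      have a3 : F.c (v.B J) ω = F.c (v.B J) ω' := congrArg Prod.snd a2
      have a4 : (F.T1 (v.B J) ω, fl (v.B J) (F.x1 (v.B J) ω)) =
        (F.T1 (v.B J) ω', fl (v.B J) (F.x1 (v.B J) ω')) := congrArg Prod.fst a3
      exact congrArg Prod.snd a4
    rw [h3] at h2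
    have e1 : (2 : ℝ) ^ v.B J * F.x ω (c 0) - (fl (v.B J) (F.x1 (v.B J) ω') (c 0) : ℝ) -
        (2 ^ v.B J * F.x ω' (c 0) - (fl (v.B J) (F.x1 (v.B J) ω') (c 0) : ℝ)) =
        2 ^ v.B J * (F.x ω (c 0) - F.x ω' (c 0)) := by ring
    rw [e1, abs_mul, abs_of_pos (by positivity : (0 : ℝ) < 2 ^ v.B J)] at h2
    have e2 : (2 : ℝ) ^ J = 2 ^ (J - v.B J) * 2 ^ v.B J := by
      rw [← pow_add, Nat.sub_add_cancel hB]
    rw [e2, le_div_iff₀ (by positivity)]
    rw [le_div_iff₀ (by positivity)] at h2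
    linarith
  · rw [if_neg hl0]
    -- the heights
    have hh : 2 ^ ρ * |d.hgt c g ω l - d.hgt c g ω' l| ≤ 3 := by
      by_cases hlk : l = k
      · rw [hlk]
        linarith
      · obtain ⟨i, hi0, hi⟩ : ∃ i : Fin n₀, (i : ℕ) + 1 < n₀ ∧ dl k i = l := by
          by_cases hlt : l < k
          · exact ⟨⟨l, by omega⟩, by
              show l + 1 < n₀
              omega, by
              show dl k l = l
              unfold dl
              rw [if_pos hlt]⟩
          · exact ⟨⟨l - 1, by omega⟩, by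
              show l - 1 + 1 < n₀
              omega, by
              show dl k (l - 1) = l
              unfold dl
              rw [if_neg (by omega)]
              omega⟩
        have hik : i ≠ κ := by
          intro h0
          rw [h0, hκ, dl_zero hk] at hi
          exact hl0 hi.symm
        have h2 := hm_near him hω hω' hik (x_near (winI v f F) (hX i hi0))
        rw [hi] at h2
        have e1 : (2 : ℝ) ^ (J - v.B J) * (1 / 2 ^ (J - v.B J)) = 1 := by field_simp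
        rw [e1] at h2
        have hmx : ∀ y, d.mx y l = 1 := fun y => max_eq_left (h.le1 y l hl)
        unfold CD.hm at h2
        rw [hmx, hmx, div_one, div_one, ← hZ] at h2
        obtain ⟨a, ha⟩ : ∃ a, a = d.ka ((v.win F).Z ω) l := ⟨_, rfl⟩
        have ha1 : |a| ≤ 1 := by rw [ha]; exact h.le1 _ l hl
        rw [← ha] at h2
        have e2 : d.hgt c g ω l - d.hgt c g ω' l = (d.hgt c g ω l - a * d.hgt c g ω k -
          (d.hgt c g ω' l - a * d.hgt c g ω' k)) + a * (d.hgt c g ω k - d.hgt c g ω' k) := by ring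
        have h3 : |d.hgt c g ω l - d.hgt c g ω' l| ≤ |d.hgt c g ω l - a * d.hgt c g ω k -
          (d.hgt c g ω' l - a * d.hgt c g ω' k)| + 1 * |d.hgt c g ω k - d.hgt c g ω' k| := by
          rw [e2]
          refine (abs_add_le _ _).trans ?_
          rw [abs_mul]
          have := mul_le_mul_of_nonneg_right ha1 (abs_nonneg (d.hgt c g ω k - d.hgt c g ω' k))
          linarith
        have h4 := mul_le_mul_of_nonneg_left h3 pρ.le
        rw [mul_add, one_mul] at h4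
        linarith
    -- the labels
    obtain ⟨x, hx⟩ : ∃ x : Option (Fin m) → ℝ, x = fun o =>
      if o = none ∨ ∃ j < l, o = some (c j) then bt F ω' o else bt F ω o := ⟨_, rfl⟩
    have ht : F.t ω = F.t ω' := by
      unfold Fam.t
      rw [hT]
    have hxn : ∀ o, |x o - bt F ω o| ≤ 1 / 2 ^ J := by
      intro o
      have pJ : (0 : ℝ) ≤ 1 / 2 ^ J := by positivity
      rw [hx]
      simp only
      split_ifs with ho
      · rcases ho with rfl | ⟨j, hjl, rfl⟩
        · show |F.t ω' - F.t ω| ≤ _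
          rw [ht, sub_self, abs_zero]
          exact pJ
        · show |F.x ω' (c j) - F.x ω (c j)| ≤ _
          rw [abs_sub_comm]
          exact hj j hjl
      · rw [sub_self, abs_zero]
        exact pJ
    have h5 := h.slp ω hω l hl.le x hxn
    have h6 : eval x (d.Q ((v.win F).Z ω) l) = eval (bt F ω') (d.Q ((v.win F).Z ω) l) := by
      refine h.dep _ l _ _ ?_ fun j hjl => ?_
      · rw [hx]
        exact if_pos (Or.inl rfl)
      · rw [hx]
        exact if_pos (Or.inr ⟨j, hjl, rfl⟩)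
    rw [h6] at h5
    have h7 : |eval (bt F ω') (d.Q ((v.win F).Z ω) l) - eval (bt F ω) (d.Q ((v.win F).Z ω) l)| ≤
        1 / 2 ^ (g l + ρ) := by
      refine h5.trans ?_
      have e2 : (2 : ℝ) ^ (ρ + t + 5) ≤ 2 ^ ρ₁ := pow_le_pow_right₀ (by norm_num) h1
      rw [pow_add, pow_add] at e2
      rw [pow_add, pow_add, div_le_div_iff₀ (by positivity) (by positivity)]
      have p1 : (0 : ℝ) < 2 ^ g l := by positivity
      have p2 : (0 : ℝ) < 2 ^ ρ * 2 ^ t := by positivity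
      have h8 : (2 : ℝ) ^ t * (2 ^ g l * 2 ^ ρ) = 2 ^ g l * (2 ^ ρ * 2 ^ t) := by ring
      rw [h8, one_mul]
      exact mul_le_mul_of_nonneg_left (by linarith) p1.le
    have e3 : F.x ω (c l) - F.x ω' (c l) = (d.hgt c g ω l - d.hgt c g ω' l) / 2 ^ g l -
        (eval (bt F ω') (d.Q ((v.win F).Z ω) l) - eval (bt F ω) (d.Q ((v.win F).Z ω) l)) := by
      unfold CD.hgt
      rw [← hZ]
      field_simp
      ring
    rw [e3]
    have h9 : |(d.hgt c g ω l - d.hgt c g ω' l) / 2 ^ g l| ≤ 3 / 2 ^ (g l + ρ) := by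
      rw [abs_div, abs_of_pos (by positivity : (0 : ℝ) < 2 ^ g l), pow_add,
        div_le_div_iff₀ (by positivity) (by positivity)]
      calc |d.hgt c g ω l - d.hgt c g ω' l| * (2 ^ g l * 2 ^ ρ) =
          2 ^ g l * (2 ^ ρ * |d.hgt c g ω l - d.hgt c g ω' l|) := by ring
        _ ≤ 2 ^ g l * 3 := mul_le_mul_of_nonneg_left hh (by positivity)
        _ = 3 * 2 ^ g l := by ring
    have h10 := abs_sub ((d.hgt c g ω l - d.hgt c g ω' l) / 2 ^ g l)
      (eval (bt F ω') (d.Q ((v.win F).Z ω) l) - eval (bt F ω) (d.Q ((v.win F).Z ω) l))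
    have e4 : (4 : ℝ) / 2 ^ (g l + ρ) = 3 / 2 ^ (g l + ρ) + 1 / 2 ^ (g l + ρ) := by ring
    rw [e4]
    linarith

/-- **The entropy of the base**, given the points of the new lines of the base. -/
theorem ChI.cnt (h : ChI F v c n₀ k g K t ρ₁ d A)
    (him : ImH F v f (c 0) κ K ρ k₁ (fun y i => d.Pi c g k y i) A) (hκ : (κ : ℕ) = 0)
    (hk : 1 ≤ k) (hkn : k < n₀) (h1 : ρ + t + 5 ≤ ρ₁) (h2 : ∀ l ≤ n₀, g l + ρ + 3 ≤ J)
    {q : F.Ω → ℝ} (hq : IsLaw q) (hA : ∀ ω, 0 < q ω → A ω) {Γ : Type} (Y : F.Ω → Γ)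
    (hY : ∀ ω ω', A ω → A ω' → Y ω = Y ω' → (v.win F).Z ω = (v.win F).Z ω' ∧
      F.T ω = F.T ω' ∧ ∀ i : Fin n₀, (i : ℕ) + 1 < n₀ →
      (winI v f F).X (J - v.B J) ω i = (winI v f F).X (J - v.B J) ω' i) {D : ℝ}
    (hM : ∀ ω ω', A ω → A ω' → Y ω = Y ω' → 2 ^ ρ * |d.hgt c g ω k - d.hgt c g ω' k| ≤ D) :
    CH q (fun ω (l : Fin n₀) => F.X J ω (c l)) Y ≤ Real.log (2 * D + 3) +
      (∑ l ∈ Ico 1 n₀, ((J : ℝ) - g l - ρ)) * Real.log 2 + n₀ * Real.log 11 := by
  have key := cnt_seq (C := 4) (D := D + 1) (by norm_num) Y hq hA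
    (G := fun l => if l = 0 then J else g l + ρ) (fun l hl => by
      by_cases hl0 : l = 0
      · rw [if_pos hl0]
      · rw [if_neg hl0]
        have := h2 l hl.le
        omega)
    (fun ω => ⌊(2 : ℝ) ^ ρ * d.hgt c g ω k⌋) (fun ω ω' hω hω' e => floor_dist (by
      rw [← mul_sub, abs_mul, abs_of_pos (by positivity : (0 : ℝ) < 2 ^ ρ)]
      exact hM ω ω' hω hω' e)) (c := c) (n₀ := n₀) (fun ω ω' hω hω' e eM l hl hj => by
      obtain ⟨y1, y2, y3⟩ := hY ω ω' hω hω' e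
      refine h.ball him hκ hk hkn h1 hω hω' y1 y2 y3 ?_ hl hj
      have h3 := (Int.abs_sub_lt_one_of_floor_eq_floor eM).le
      rw [← mul_sub, abs_mul, abs_of_pos (by positivity : (0 : ℝ) < 2 ^ ρ)] at h3
      exact h3)
  refine key.trans (le_of_eq ?_)
  have e1 : ∑ l ∈ range n₀, ((J : ℝ) - ((if l = 0 then J else g l + ρ : ℕ) : ℝ)) =
      ∑ l ∈ Ico 1 n₀, ((J : ℝ) - g l - ρ) := by
    rw [Finset.range_eq_Ico, Finset.sum_eq_sum_Ico_succ_bot (by omega : 0 < n₀), if_pos rfl,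
      sub_self, zero_add]
    refine Finset.sum_congr rfl fun l hl => ?_
    have := (Finset.mem_Ico.1 hl).1
    rw [if_neg (by omega)]
    push_cast
    ring
  rw [e1]
  have e2 : 2 * (D + 1) + 1 = 2 * D + 3 := by ring
  have e3 : (2 : ℝ) * 4 + 3 = 11 := by norm_num
  rw [e2, e3]

end

end Pool.NFT33
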