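import Pool.Agent.H33.NFT.ActI

/-!
# The images of a family under polynomial maps

`ImH`: the window with new lines `winI v f F` has the coordinate `κ` of the window; the others are
near the values at the sample of polynomials `2 ^ ρ / 2 ^ J' * Pi y i` (`J'`: the resolution of the
window; `y`: the side information of the window) of the exact point. `ImH.a`: the digits of the new
lines. `imh_part`: on a large part of an event the point, the record and the digits of the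
velocities determine the point and the digits of the velocities of the window with new lines.
-/

set_option autoImplicit false

namespace Pool.NFT33

open Finset Real MvPolynomial
open Pool.Agent.H49.Ent Pool.Agent.H32.Dense Pool.STK Pool.KA Pool.KSAT Pool.K2S Pool.PB Pool.S6C
open Pool.GEN Pool.REX Pool.REX83

variable {m n J : ℕ}

/-- **The window with new lines is the image of a polynomial map.** -/
structure ImH (F : Fam m J) (v : Vz m) (f : Nw v n) (c₀ : Fin m) (κ : Fin n) (K ρ k₁ : ℕ)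
    (Pi : (v.win F).ζ → Fin n → MvPolynomial (Option (Fin m)) ℝ) (A : F.Ω → Prop) : Prop where
  zu : ∀ ω, A ω → (winI v f F).u ω κ = (v.win F).u ω c₀
  zd : ∀ ω, A ω → (winI v f F).d ω κ = (v.win F).d ω c₀
  deg : ∀ y i, (Pi y i).totalDegree ≤ K
  near : ∀ ω, A ω → ∀ i, i ≠ κ → |(winI v f F).x ω i -
    2 ^ ρ / 2 ^ (J - v.B J) * eval (bt F ω) (Pi ((v.win F).Z ω) i)| ≤ 1 / 2 ^ (J - v.B J + 4)
  slp : ∀ ω, A ω → ∀ i, i ≠ κ → ∀ b : Option (Fin m) → ℝ, (∀ o, |b o - bt F ω o| ≤ 1 / 2 ^ J) →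
    2 ^ ρ * |eval b (Pi ((v.win F).Z ω) i) - eval (bt F ω) (Pi ((v.win F).Z ω) i)| ≤ 1 / 2
  dsm : ∀ ω, A ω → ∀ i, i ≠ κ → |(winI v f F).d ω i| ≤ 1 / 2 ^ k₁

theorem ImH.sub {F : Fam m J} {v : Vz m} {f : Nw v n} {c₀ : Fin m} {κ : Fin n} {K ρ k₁ : ℕ}
    {Pi : (v.win F).ζ → Fin n → MvPolynomial (Option (Fin m)) ℝ} {A B : F.Ω → Prop}
    (h : ImH F v f c₀ κ K ρ k₁ Pi A) (hB : Sub B A) : ImH F v f c₀ κ K ρ k₁ Pi B :=
  ⟨fun ω hω => h.zu ω (hB ω hω), fun ω hω => h.zd ω (hB ω hω), h.deg,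
    fun ω hω => h.near ω (hB ω hω), fun ω hω => h.slp ω (hB ω hω),
    fun ω hω => h.dsm ω (hB ω hω)⟩

/-- The beginning of the window, from the exact point. -/
theorem x1_near (F : Fam m J) {B : ℕ} (hB : B ≤ J) {ω ω' : F.Ω} (hX : F.X J ω = F.X J ω')
    (hT : F.T ω = F.T ω') (k : Fin m) : |fl B (F.x1 B ω) k - fl B (F.x1 B ω') k| ≤ 49 := by
  have hk : ⌊(2 : ℝ) ^ J * F.x ω k⌋ = ⌊(2 : ℝ) ^ J * F.x ω' k⌋ := congrFun hX k
  have hT1 : F.T1 B ω = F.T1 B ω' := by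
    unfold Fam.T1
    rw [hT]
  have ht : F.t ω = F.t ω' := by
    unfold Fam.t
    rw [hT]
  have a1 : |(2 : ℝ) ^ J * F.x ω k - 2 ^ J * F.x ω' k| < 1 :=
    Int.abs_sub_lt_one_of_floor_eq_floor hk
  have e2 : (2 : ℝ) ^ J = 2 ^ (J - B) * 2 ^ B := by rw [← pow_add, Nat.sub_add_cancel hB]
  have p1 : (1 : ℝ) ≤ 2 ^ (J - B) := one_le_pow₀ (by norm_num)
  have a2 : |(2 : ℝ) ^ B * F.x ω k - 2 ^ B * F.x ω' k| < 1 := by
    have e3 : (2 : ℝ) ^ J * F.x ω k - 2 ^ J * F.x ω' k =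
        2 ^ (J - B) * (2 ^ B * F.x ω k - 2 ^ B * F.x ω' k) := by
      rw [e2]
      ring
    rw [e3, abs_mul, abs_of_pos (by positivity : (0 : ℝ) < 2 ^ (J - B))] at a1
    refine lt_of_le_of_lt ?_ a1
    have h0 := abs_nonneg ((2 : ℝ) ^ B * F.x ω k - 2 ^ B * F.x ω' k)
    nlinarith
  obtain ⟨s, hs⟩ : ∃ s : ℝ, s = 2 ^ B * F.t ω - F.T1 B ω := ⟨_, rfl⟩
  have hs1 : |s| ≤ 1 := by
    have h1 := Nat.div_add_mod (F.T ω) (2 ^ (J - B))
    have h2 : (2 : ℝ) ^ (J - B) * (F.T1 B ω : ℝ) + ((F.T ω % 2 ^ (J - B) : ℕ) : ℝ) = F.T ω := by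
      exact_mod_cast h1
    have h3 : ((F.T ω % 2 ^ (J - B) : ℕ) : ℝ) ≤ 2 ^ (J - B) := by
      exact_mod_cast (Nat.mod_lt (F.T ω) (by positivity : 0 < 2 ^ (J - B))).le
    have h4 : (0 : ℝ) ≤ ((F.T ω % 2 ^ (J - B) : ℕ) : ℝ) := Nat.cast_nonneg _
    have h5 : s = ((F.T ω % 2 ^ (J - B) : ℕ) : ℝ) / 2 ^ (J - B) := by
      rw [hs]
      unfold Fam.t
      rw [← h2, e2]
      field_simp
      ring
    rw [h5, abs_of_nonneg (by positivity), div_le_one (by positivity)]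
    exact h3
  have e3 : ∀ ω₁, F.t ω₁ = F.t ω → F.T1 B ω₁ = F.T1 B ω →
      (2 : ℝ) ^ B * F.x1 B ω₁ k = 2 ^ B * F.x ω₁ k - s * F.d ω₁ k := by
    intro ω₁ h1 h2
    have pB : (2 : ℝ) ^ B ≠ 0 := by positivity
    unfold Fam.x1 Fam.x
    rw [h1, h2, hs]
    field_simp
    ring
  have a3 : |(2 : ℝ) ^ B * F.x1 B ω k - 2 ^ B * F.x1 B ω' k| ≤ 3 := by
    rw [e3 ω rfl rfl, e3 ω' ht.symm hT1.symm]
    have e4 : (2 : ℝ) ^ B * F.x ω k - s * F.d ω k - (2 ^ B * F.x ω' k - s * F.d ω' k) =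
        (2 ^ B * F.x ω k - 2 ^ B * F.x ω' k) - s * (F.d ω k - F.d ω' k) := by ring
    rw [e4]
    have a4 : |s * (F.d ω k - F.d ω' k)| ≤ 1 * 2 := by
      rw [abs_mul]
      refine mul_le_mul hs1 ?_ (abs_nonneg _) zero_le_one
      have b1 := abs_le.1 (F.dir ω k)
      have b2 := abs_le.1 (F.dir ω' k)
      rw [abs_le]
      constructor <;> linarith [b1.1, b1.2, b2.1, b2.2]
    have a5 := abs_sub (2 ^ B * F.x ω k - 2 ^ B * F.x ω' k) (s * (F.d ω k - F.d ω' k))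
    linarith
  have b1 := abs_le.1 a3
  have b2 : ((⌊(2 : ℝ) ^ B * F.x1 B ω k⌋ : ℤ) : ℝ) ≤ 2 ^ B * F.x1 B ω k := Int.floor_le _
  have b3 := Int.lt_floor_add_one ((2 : ℝ) ^ B * F.x1 B ω k)
  have b4 : ((⌊(2 : ℝ) ^ B * F.x1 B ω' k⌋ : ℤ) : ℝ) ≤ 2 ^ B * F.x1 B ω' k := Int.floor_le _
  have b5 := Int.lt_floor_add_one ((2 : ℝ) ^ B * F.x1 B ω' k)
  have key : |((⌊(2 : ℝ) ^ B * F.x1 B ω k⌋ - ⌊(2 : ℝ) ^ B * F.x1 B ω' k⌋ : ℤ) : ℝ)| ≤ 49 := by
    push_cast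
    rw [abs_le]
    constructor <;> linarith [b1.1, b1.2]
  show |⌊(2 : ℝ) ^ B * F.x1 B ω k⌋ - ⌊(2 : ℝ) ^ B * F.x1 B ω' k⌋| ≤ 49
  exact_mod_cast key

/-- The positions in the window. -/
theorem win_x (v : Vz m) (F : Fam m J) (ω : F.Ω) (i : Fin m) : (v.win F).x ω i =
    2 ^ v.B J * F.x ω i - (fl (v.B J) (F.x1 (v.B J) ω) i : ℝ) := by
  have hB := (v.floor_le J).1
  have e1 : (F.T ω : ℝ) = 2 ^ (J - v.B J) * ((F.T ω / 2 ^ (J - v.B J) : ℕ) : ℝ) +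
      ((F.T ω % 2 ^ (J - v.B J) : ℕ) : ℝ) := by
    have h1 := Nat.div_add_mod (F.T ω) (2 ^ (J - v.B J))
    have h2 : ((2 ^ (J - v.B J) * (F.T ω / 2 ^ (J - v.B J)) + F.T ω % 2 ^ (J - v.B J) : ℕ) : ℝ) =
        F.T ω := by
      exact_mod_cast h1
    rw [← h2]
    push_cast
    rfl
  have e2 : (2 : ℝ) ^ J = 2 ^ (J - v.B J) * 2 ^ v.B J := by
    rw [← pow_add, Nat.sub_add_cancel hB]
  show Int.fract (2 ^ v.B J * F.x1 (v.B J) ω i) +
    ((F.T ω % 2 ^ (J - v.B J) : ℕ) : ℝ) / 2 ^ (J - v.B J) * F.d ω i =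
    2 ^ v.B J * (F.u ω i + (F.T ω : ℝ) / 2 ^ J * F.d ω i) -
      (⌊(2 : ℝ) ^ v.B J * F.x1 (v.B J) ω i⌋ : ℝ)
  rw [← Int.self_sub_floor]
  unfold Fam.x1 Fam.T1
  rw [e1, e2]
  field_simp
  ring

section imh

variable {F : Fam m J} {v : Vz m} {f : Nw v n} {c₀ : Fin m} {κ : Fin n} {K ρ k₁ : ℕ}
  {Pi : (v.win F).ζ → Fin n → MvPolynomial (Option (Fin m)) ℝ} {A : F.Ω → Prop}

theorem ImH.x0 (h : ImH F v f c₀ κ K ρ k₁ Pi A) {ω : F.Ω} (hω : A ω) :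
    (winI v f F).x ω κ = (v.win F).x ω c₀ := by
  have h1 : (winI v f F).x ω κ = (winI v f F).u ω κ + (v.win F).t ω * (winI v f F).d ω κ := rfl
  have h2 : (v.win F).x ω c₀ = (v.win F).u ω c₀ + (v.win F).t ω * (v.win F).d ω c₀ := rfl
  rw [h1, h2, h.zu ω hω, h.zd ω hω]

/-- Two samples with the same point: the points of the windows with new lines. -/
theorem ImH.nX (h : ImH F v f c₀ κ K ρ k₁ Pi A) {ω ω' : F.Ω} (hω : A ω) (hω' : A ω')
    (hZ : (v.win F).Z ω = (v.win F).Z ω') (hT : F.T ω = F.T ω') (hX : F.X J ω = F.X J ω')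
    (i : Fin n) :
    |(winI v f F).X (J - v.B J) ω i - (winI v f F).X (J - v.B J) ω' i| ≤ 49 := by
  have hB := (v.floor_le J).1
  have pJ : (0 : ℝ) < 2 ^ J := by positivity
  have ht : F.t ω = F.t ω' := by
    unfold Fam.t
    rw [hT]
  have hx : ∀ l, |F.x ω l - F.x ω' l| ≤ 1 / 2 ^ J := by
    intro l
    have hk : ⌊(2 : ℝ) ^ J * F.x ω l⌋ = ⌊(2 : ℝ) ^ J * F.x ω' l⌋ := congrFun hX l
    have a1 := (Int.abs_sub_lt_one_of_floor_eq_floor hk).le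
    rw [← mul_sub, abs_mul, abs_of_pos pJ] at a1
    rw [le_div_iff₀ pJ]
    linarith
  have key : |(2 : ℝ) ^ (J - v.B J) * (winI v f F).x ω i -
      2 ^ (J - v.B J) * (winI v f F).x ω' i| ≤ 1 := by
    obtain ⟨P, hP⟩ : ∃ P : ℝ, P = 2 ^ (J - v.B J) := ⟨_, rfl⟩
    have pP : 0 < P := by rw [hP]; positivity
    rw [← hP, ← mul_sub, abs_mul, abs_of_pos pP]
    by_cases hi : i = κ
    · subst hi
      rw [h.x0 hω, h.x0 hω', win_x, win_x]
      have h1 : fl (v.B J) (F.x1 (v.B J) ω) = fl (v.B J) (F.x1 (v.B J) ω') := by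
        have h2 : (v.y J F ω, F.c (v.B J) ω) = (v.y J F ω', F.c (v.B J) ω') := hZ
        have h3 : F.c (v.B J) ω = F.c (v.B J) ω' := congrArg Prod.snd h2
        have h4 : (F.T1 (v.B J) ω, fl (v.B J) (F.x1 (v.B J) ω)) =
          (F.T1 (v.B J) ω', fl (v.B J) (F.x1 (v.B J) ω')) := congrArg Prod.fst h3
        exact congrArg Prod.snd h4
      rw [h1]
      have e1 : (2 : ℝ) ^ v.B J * F.x ω c₀ - (fl (v.B J) (F.x1 (v.B J) ω') c₀ : ℝ) -
          (2 ^ v.B J * F.x ω' c₀ - (fl (v.B J) (F.x1 (v.B J) ω') c₀ : ℝ)) =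
          2 ^ v.B J * (F.x ω c₀ - F.x ω' c₀) := by ring
      rw [e1, abs_mul, abs_of_pos (by positivity : (0 : ℝ) < 2 ^ v.B J), ← mul_assoc, hP,
        ← pow_add, Nat.sub_add_cancel hB]
      have := hx c₀
      rw [le_div_iff₀ pJ] at this
      linarith
    · have h1 := h.near ω hω i hi
      have h2 := h.near ω' hω' i hi
      have h3 := h.slp ω hω i hi (bt F ω') (fun o => by
        cases o with
        | none =>
          show |F.t ω' - F.t ω| ≤ _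
          rw [ht, sub_self, abs_zero]
          positivity
        | some l =>
          show |F.x ω' l - F.x ω l| ≤ _
          rw [abs_sub_comm]
          exact hx l)
      rw [← hZ] at h2
      obtain ⟨p, hp⟩ : ∃ p, p = eval (bt F ω) (Pi ((v.win F).Z ω) i) := ⟨_, rfl⟩
      obtain ⟨p', hp'⟩ : ∃ p', p' = eval (bt F ω') (Pi ((v.win F).Z ω) i) := ⟨_, rfl⟩
      rw [← hp, ← hP] at h1
      rw [← hp', ← hP] at h2
      rw [← hp, ← hp'] at h3
      have e4 : (2 : ℝ) ^ (J - v.B J + 4) = P * 16 := by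
        rw [hP, pow_add]
        norm_num
      rw [e4] at h1 h2
      have e5 : 1 / (P * 16) = 1 / P / 16 := by field_simp
      rw [e5] at h1 h2
      have h4 : |2 ^ ρ / P * p' - 2 ^ ρ / P * p| ≤ 1 / P * (1 / 2) := by
        rw [← mul_sub, abs_mul, abs_of_pos (by positivity : (0 : ℝ) < 2 ^ ρ / P)]
        calc 2 ^ ρ / P * |p' - p| = 1 / P * (2 ^ ρ * |p' - p|) := by ring
          _ ≤ 1 / P * (1 / 2) := mul_le_mul_of_nonneg_left h3 (by positivity)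
      have h5 : |(winI v f F).x ω i - (winI v f F).x ω' i| ≤ 1 / P := by
        rw [abs_le] at h1 h2 h4 ⊢
        have pP' : 0 < 1 / P := by positivity
        constructor <;> linarith [h1.1, h1.2, h2.1, h2.2, h4.1, h4.2]
      calc P * |(winI v f F).x ω i - (winI v f F).x ω' i| ≤ P * (1 / P) :=
            mul_le_mul_of_nonneg_left h5 pP.le
        _ = 1 := by field_simp
  rw [abs_le] at key
  have c1 := Int.floor_le ((2 : ℝ) ^ (J - v.B J) * (winI v f F).x ω i)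
  have c2 := Int.lt_floor_add_one ((2 : ℝ) ^ (J - v.B J) * (winI v f F).x ω i)
  have c3 := Int.floor_le ((2 : ℝ) ^ (J - v.B J) * (winI v f F).x ω' i)
  have c4 := Int.lt_floor_add_one ((2 : ℝ) ^ (J - v.B J) * (winI v f F).x ω' i)
  show |⌊(2 : ℝ) ^ (J - v.B J) * (winI v f F).x ω i⌋ -
    ⌊(2 : ℝ) ^ (J - v.B J) * (winI v f F).x ω' i⌋| ≤ 49
  have key2 : |((⌊(2 : ℝ) ^ (J - v.B J) * (winI v f F).x ω i⌋ -
    ⌊(2 : ℝ) ^ (J - v.B J) * (winI v f F).x ω' i⌋ : ℤ) : ℝ)| ≤ 49 := by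
    rw [abs_le]
    push_cast
    constructor <;> linarith [key.1, key.2]
  exact_mod_cast key2

/-- Two samples with the same digits of the velocity of `c₀`. -/
theorem ImH.nD (h : ImH F v f c₀ κ K ρ k₁ Pi A) {ω ω' : F.Ω} (hω : A ω) (hω' : A ω') {k : ℕ}
    (hk : k ≤ k₁) (hD : F.D k ω = F.D k ω') (i : Fin n) :
    |(winI v f F).D k ω i - (winI v f F).D k ω' i| ≤ 49 := by
  by_cases hi : i = κ
  · subst hi
    have h1 : (winI v f F).D k ω i = F.D k ω c₀ := by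
      show ⌊(2 : ℝ) ^ k * (winI v f F).d ω i⌋ = _
      rw [h.zd ω hω]
      rfl
    have h2 : (winI v f F).D k ω' i = F.D k ω' c₀ := by
      show ⌊(2 : ℝ) ^ k * (winI v f F).d ω' i⌋ = _
      rw [h.zd ω' hω']
      rfl
    rw [h1, h2, hD, sub_self, abs_zero]
    norm_num
  · have hb : ∀ ω₁, A ω₁ → |(2 : ℝ) ^ k * (winI v f F).d ω₁ i| ≤ 1 := by
      intro ω₁ h1
      rw [abs_mul, abs_of_pos (by positivity : (0 : ℝ) < 2 ^ k)]
      have h2 := h.dsm ω₁ h1 i hi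
      have h3 : (2 : ℝ) ^ k ≤ 2 ^ k₁ := pow_le_pow_right₀ (by norm_num) hk
      calc (2 : ℝ) ^ k * |(winI v f F).d ω₁ i| ≤ 2 ^ k₁ * (1 / 2 ^ k₁) :=
            mul_le_mul h3 h2 (abs_nonneg _) (by positivity)
        _ = 1 := by field_simp
    have a1 := abs_le.1 (hb ω hω)
    have a2 := abs_le.1 (hb ω' hω')
    have c1 := Int.floor_le ((2 : ℝ) ^ k * (winI v f F).d ω i)
    have c2 := Int.lt_floor_add_one ((2 : ℝ) ^ k * (winI v f F).d ω i)
    have c3 := Int.floor_le ((2 : ℝ) ^ k * (winI v f F).d ω' i)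
    have c4 := Int.lt_floor_add_one ((2 : ℝ) ^ k * (winI v f F).d ω' i)
    show |⌊(2 : ℝ) ^ k * (winI v f F).d ω i⌋ - ⌊(2 : ℝ) ^ k * (winI v f F).d ω' i⌋| ≤ 49
    have key2 : |((⌊(2 : ℝ) ^ k * (winI v f F).d ω i⌋ -
      ⌊(2 : ℝ) ^ k * (winI v f F).d ω' i⌋ : ℤ) : ℝ)| ≤ 49 := by
      rw [abs_le]
      push_cast
      constructor <;> linarith [a1.1, a1.2, a2.1, a2.2]
    exact_mod_cast key2

/-- **The digits of the new lines.** -/
theorem ImH.a (h : ImH F v f c₀ κ K ρ k₁ Pi A) : ImA F v f c₀ κ k₁ A :=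
  ⟨fun ω hω => h.zd ω hω, fun _ _ hω hω' hZ hT hX i => h.nX hω hω' hZ hT hX i,
    fun _ _ hω hω' _ _ _ _ hk hD i => h.nD hω hω' hk hD i⟩

/-- **A large part of the event**, on which the point, the record and the digits of the velocities
determine the point and the digits of the velocities of the window with new lines. -/
theorem imh_part (h : ImH F v f c₀ κ K ρ k₁ Pi A) {kF k : ℕ} (hk : k ≤ k₁) (hkF : k ≤ kF) :
    ∃ B : F.Ω → Prop, Sub B A ∧ Pe F.p A ≤ (99 ^ m * (99 ^ n * 99 ^ n) : ℝ) * Pe F.p B ∧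
      ∀ ω ω', B ω → B ω' → ptr F J ω = ptr F J ω' → v.y J F ω = v.y J F ω' →
        F.D kF ω = F.D kF ω' → ptr (winI v f F) (J - v.B J) ω =
          ptr (winI v f F) (J - v.B J) ω' ∧ (winI v f F).D k ω = (winI v f F).D k ω' := by
  have hB := (v.floor_le J).1
  have h99 : ((2 : ℝ) * (49 : ℕ) + 1) = 99 := by norm_num
  -- the cells
  obtain ⟨B₁, b1, b2, φ₁, b3⟩ := Pool.S6K.exact_label F.isLaw 49 (ptr F J)
    (fun ω => fl (v.B J) (F.x1 (v.B J) ω)) A (fun ω ω' _ _ hp i => by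
      have h1 := Prod.ext_iff.mp hp
      have h2 := Prod.ext_iff.mp h1.2
      exact_mod_cast x1_near F hB h1.1 h2.1 i)
  have hZ : ∀ ω ω', B₁ ω → B₁ ω' → ptr F J ω = ptr F J ω' → v.y J F ω = v.y J F ω' →
      (v.win F).Z ω = (v.win F).Z ω' := by
    intro ω ω' hω hω' hp hy
    have h1 := Prod.ext_iff.mp hp
    have h2 := Prod.ext_iff.mp h1.2
    have hT : F.T ω = F.T ω' := h2.1
    have hx : fl (v.B J) (F.x1 (v.B J) ω) = fl (v.B J) (F.x1 (v.B J) ω') := by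
      rw [b3 ω hω, b3 ω' hω', hp]
    refine Prod.ext hy ?_
    show F.c (v.B J) ω = F.c (v.B J) ω'
    unfold Fam.c
    have c1 : F.T1 (v.B J) ω = F.T1 (v.B J) ω' := by
      unfold Fam.T1
      rw [hT]
    have hZ' : F.Z ω = F.Z ω' := h2.2
    rw [c1, hx, hZ']
  -- the points
  obtain ⟨B₂, b4, b5, φ₂, b6⟩ := Pool.S6K.exact_label F.isLaw 49
    (fun ω => (ptr F J ω, v.y J F ω)) (fun ω => (winI v f F).X (J - v.B J) ω) B₁
    (fun ω ω' hω hω' hp i => by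
      have h0 := Prod.ext_iff.mp hp
      have h1 := Prod.ext_iff.mp h0.1
      have h2 := Prod.ext_iff.mp h1.2
      exact_mod_cast h.nX (b1 ω hω) (b1 ω' hω') (hZ ω ω' hω hω' h0.1 h0.2) h2.1 h1.1 i)
  -- the velocities
  obtain ⟨B₃, b7, b8, φ₃, b9⟩ := Pool.S6K.exact_label F.isLaw 49
    (F.D kF) (fun ω => (winI v f F).D k ω) B₂
    (fun ω ω' hω hω' hp i => by
      have hp' : F.D k ω = F.D k ω' := Pool.STK.B58.fl_fine hkF hp
      exact_mod_cast h.nD (b1 ω (b4 ω hω)) (b1 ω' (b4 ω' hω')) hk hp' i)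
  rw [h99] at b2 b5 b8
  refine ⟨B₃, fun ω hω => b1 ω (b4 ω (b7 ω hω)), ?_, fun ω ω' hω hω' hp hy hD => ⟨?_, ?_⟩⟩
  · have p0 : (0 : ℝ) ≤ 99 ^ m := by positivity
    have p1 : (0 : ℝ) ≤ 99 ^ n := by positivity
    calc Pe F.p A ≤ 99 ^ m * Pe F.p B₁ := b2
      _ ≤ 99 ^ m * (99 ^ n * Pe F.p B₂) := mul_le_mul_of_nonneg_left b5 p0
      _ ≤ 99 ^ m * (99 ^ n * (99 ^ n * Pe F.p B₃)) :=
          mul_le_mul_of_nonneg_left (mul_le_mul_of_nonneg_left b8 p1) p0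
      _ = _ := by ring
  · have h1 := Prod.ext_iff.mp hp
    have h2 := Prod.ext_iff.mp h1.2
    have hT : F.T ω = F.T ω' := h2.1
    have hZ' := hZ ω ω' (b4 ω (b7 ω hω)) (b4 ω' (b7 ω' hω')) hp hy
    have hX : (winI v f F).X (J - v.B J) ω = (winI v f F).X (J - v.B J) ω' := by
      rw [b6 ω (b7 ω hω), b6 ω' (b7 ω' hω'), hp, hy]
    refine Prod.ext hX (Prod.ext ?_ hZ')
    show F.T ω % 2 ^ (J - v.B J) = F.T ω' % 2 ^ (J - v.B J)
    rw [hT]
  · rw [b9 ω hω, b9 ω' hω', hD]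

end imh

end Pool.NFT33
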