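import Pool.Agent.H33.NFT.Plc
import Pool.Agent.H89.NSL.Fld
import Pool.Agent.H89.TGT.NtI
import Pool.Agent.H65.ORD.Zcl

/-!
# The field of full entropy modulo the directions, for the cells of a kit

`PlN`: the facts of the places of a grid. `nft_fix`: full entropy modulo a direction at a place, on
all events of a class. `nft_kit`: the field `NFt` of the cells of a kit.
-/

set_option autoImplicit false

namespace Pool.NFT33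

open Finset Real MvPolynomial Filter
open Pool.Agent.H49.Ent Pool.Agent.H32.Dense Pool.STK Pool.KA Pool.KSAT Pool.K2S Pool.PB
open Pool.STAT Pool.STAT.CLO Pool.GEN Pool.S6C Pool.TGT Pool.SHF33 Pool.MIC6 Pool.GRW Pool.REX
open Pool.REX83 Pool.ORD65
open Pool.EXC33 (ZmQ)
open Pool.SUPA (FF)
open Pool.BFL (Pb)

variable {m : ℕ} {Θ : Type*} {n₀ : ℕ}

theorem pe_pev {J : ℕ} (F : Fam m J) (A : F.Ω → Prop) :
    Pe F.p (fun ω => A ω ∧ 0 < F.p ω) = Pe F.p A := by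
  classical
  rw [Pe_eq, Pe_eq]
  refine Finset.sum_congr rfl fun ω _ => ?_
  rcases (F.isLaw.nonneg ω).eq_or_lt with h0 | h0
  · rw [← h0, ite_self, ite_self]
  · by_cases h : A ω
    · rw [if_pos ⟨h, h0⟩, if_pos h]
    · rw [if_neg fun h1 => h h1.1, if_neg h]

/-- The points of positive weight of an event. -/
theorem pos_ev {S : PCl m} {τ : ℝ} {J : ℕ} {F : Fam m J} {A : F.Ω → Prop} (hA : S.St τ J F A) :
    S.St τ J F (fun ω => A ω ∧ 0 < F.p ω) := by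
  have h1 : S.St (τ + 0) J F (fun ω => A ω ∧ 0 < F.p ω) := by
    refine S.res le_rfl hA (fun ω h => h.1) ?_
    rw [zero_mul, neg_zero, Real.exp_zero, one_mul, pe_pev]
  rwa [add_zero] at h1

theorem cond_pev {J : ℕ} (F : Fam m J) (A : F.Ω → Prop) :
    Pool.Agent.H49.Ent.cond F.p (fun ω => A ω ∧ 0 < F.p ω) True =
      Pool.Agent.H49.Ent.cond F.p A True := by
  classical
  have h1 : law F.p (fun ω => A ω ∧ 0 < F.p ω) True = law F.p A True := pe_pev F A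
  funext ω
  unfold Pool.Agent.H49.Ent.cond
  rw [h1]
  rcases (F.isLaw.nonneg ω).eq_or_lt with h0 | h0
  · rw [← h0, zero_div, ite_self, ite_self]
  · by_cases h : A ω
    · rw [if_pos (eq_true ⟨h, h0⟩), if_pos (eq_true h)]
    · rw [if_neg fun h2 => h (of_eq_true h2).1, if_neg fun h2 => h (of_eq_true h2)]

/-- **The facts of the places** of a grid. -/
structure PlN (Kt : KitP m Θ n₀) (S : PCl m) (K' s₁ : ℕ) (sh : ℕ → ℕ) (N M : ℕ) (θ : ℝ) (p : Θ)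
    (ka ξ : ℝ) (b : ℕ → ℕ → ℕ → ℝ) (e : ℕ → ℕ → ℝ) : Prop where
  zm : ∀ i ≤ M, ∀ j ≤ M, ZmQ Kt S K' s₁ sh N M θ p ka ξ b e i j
  nt : ∀ i ≤ M, ∀ j ≤ M, NtQ Kt S K' s₁ sh N M θ p ξ b e i j
  act : ∃ h₁ : ℝ, ∀ i ≤ M, ∀ j ≤ M, LabFQ Kt S K' s₁ sh N M θ p b e i j
      ((Kt.y p).2 + i * msh (Kt.X p) N M - j * msh (Kt.X p) N M + ξ / 4) h₁ ∧
    Pool.TGT.ActF S (Kt.cs p 0)
      ((Kt.y p).2 + i * msh (Kt.X p) N M - j * msh (Kt.X p) N M + ξ / 4)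
      ((Kt.y p).2 + i * msh (Kt.X p) N M - j * msh (Kt.X p) N M + ξ / 2) h₁

/-- The subclasses with few times. -/
def TmS (S : PCl m) : Prop :=
  ∀ S' : PCl m, S'.Ne →
    (∀ (τ : ℝ) (J : ℕ) (F : Fam m J) (A : F.Ω → Prop), S'.St τ J F A → S.St τ J F A) →
    ∃ (S₁ : PCl m) (C₀ : ℝ), S₁.Ne ∧ (∀ (τ : ℝ) (J : ℕ) (F : Fam m J) (A : F.Ω → Prop),
      S₁.St τ J F A → S'.St τ J F A) ∧ 0 ≤ C₀ ∧ TmC S₁ C₀

/-- **Full entropy modulo a direction, at a place**, on all events of a class. -/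
theorem nft_fix {Nn : ℕ} (hNn : 1 ≤ Nn) (hFZ : FZX Nn) (hFq : Pool.FRX.FZQ (Nn + 1) 0)
    {Kt : KitP m Θ (Nn + 1)} {S : PCl m}
    (hpos : ∀ (τ : ℝ) (J : ℕ) (F : Fam m J) (A : F.Ω → Prop), S.St τ J F A → 0 < Pe F.p A)
    (htm : TmS S) {p : Θ}
    (hinj : Inj (Kt.cs p) (Nn + 1 + 1)) {N M : ℕ} {θ ε T : ℝ} {K' s₁ : ℕ} {sh : ℕ → ℕ}
    (hK' : 1 ≤ K')
    (hcell : CellL (Nn + 1 + 1) (Kt.L p) ε T (Kt.y p) (Kt.X p) (Kt.la p) (Kt.ml p))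
    (hN : 4 ≤ N) (hNT : 4 * (T + 2) ≤ N) (hε0 : 0 ≤ ε) (hε : ε * (64 * (N * (M + 4))) ≤ 1)
    (hθ : 0 < θ) (hθ1 : θ ≤ 1 / 16)
    (hro : (Kt.y p).1 + 2 * (Kt.y p).2 + 2 * Kt.X p < 1) {ka ξ : ℝ}
    (hka : ka ≤ 1) (hξ : 0 < ξ) (hξ1 : ξ ≤ msh (Kt.X p) N M)
    {b : ℕ → ℕ → ℕ → ℝ} {e : ℕ → ℕ → ℝ} (hb : Kt.Near p N M θ b e)
    (hpl : PlN Kt S K' s₁ sh N M θ p ka ξ b e) {i j vv : ℕ}
    (hjv : j < vv) (hv : vv ≤ M) (hi' : i + (vv - j) ≤ M)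
    {t U k Kc : ℕ} (ht : 1 ≤ t) (htU : t + 1 ≤ U) (hUM : U ≤ M) (hk : 1 ≤ k) (hkn : k < Nn + 1)
    (hKc : 1 ≤ Kc) :
    Bas S (fun J F A => ∀ d : DR Kt sh N M θ p b J F,
      (Kt.grid K' s₁ sh p N M θ b e).Ok F d.1 A →
      RawV d.1 (Kt.cs p) (Nn + 1) sh (up (Kt.y p).1 J) (up (msh (Kt.X p) N M) J) M
        (fun i j l => ⌊b i j l * J⌋₊) (Kt.rc p N M θ J F d.1) i j vv t U Kc (k + 1)
        d.2 (fun ω => A ω ∧ 0 < F.p ω) →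
        ((Nn + 1) * U - CNf (Nn + 1) T * (t + ((vv : ℝ) - j))) * msh (Kt.X p) N M *
          Real.log 2 * J - (msh (Kt.X p) N M * Real.log 2) * J ≤
        CH (Pool.Agent.H49.Ent.cond F.p A True)
          (fun ω : F.Ω => ((d.1.nd (Kt.cs p) (Nn + 1 + 1) sh (up (Kt.y p).1 J)
            (up (msh (Kt.X p) N M) J) M (fun i j l => ⌊b i j l * J⌋₊)
            (Kt.rc p N M θ J F d.1)).ya (Nn + 1 + 1) (k + 1) J (up (Kt.y p).1 J)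
              (up (msh (Kt.X p) N M) J) i j vv d.2.Q d.2.ka
              (U * up (msh (Kt.X p) N M) J) ω,
            (d.1.nd (Kt.cs p) (Nn + 1 + 1) sh (up (Kt.y p).1 J)
            (up (msh (Kt.X p) N M) J) M (fun i j l => ⌊b i j l * J⌋₊)
            (Kt.rc p N M θ J F d.1)).yn (Nn + 1 + 1) (k + 1) J (up (Kt.y p).1 J)
              (up (msh (Kt.X p) N M) J) i j vv d.2.Q d.2.ka
              (U * up (msh (Kt.X p) N M) J) ω))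
          (fun ω : F.Ω => ((d.1.nd (Kt.cs p) (Nn + 1 + 1) sh (up (Kt.y p).1 J)
            (up (msh (Kt.X p) N M) J) M (fun i j l => ⌊b i j l * J⌋₊)
            (Kt.rc p N M θ J F d.1)).c i j ω, F.T ω))) := by
  classical
  have hζ0 : 0 < msh (Kt.X p) N M := msh_pos hcell.pos (by omega)
  have hl2 : 0 < Real.log 2 := Real.log_pos one_lt_two
  have hlow := Pool.OWN72.bas_low (S := S) hpos
    (Δ := fun J F => DR Kt sh N M θ p b J F)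
    (hΔ := fun J F => ⟨⟨Classical.choice (Pool.EXC33.gdat_ne F), Classical.choice inferInstance⟩⟩)
    (fun J F d A => (Kt.grid K' s₁ sh p N M θ b e).Ok F d.1 A ∧
      RawV d.1 (Kt.cs p) (Nn + 1) sh (up (Kt.y p).1 J) (up (msh (Kt.X p) N M) J) M
        (fun i j l => ⌊b i j l * J⌋₊) (Kt.rc p N M θ J F d.1) i j vv t U Kc (k + 1) d.2 A)
    (fun J F d A B h hB => ⟨RW.Ok.sub h.1 hB, h.2.sub hB⟩)
    (fun J F d => (fun ω : F.Ω => ((d.1.nd (Kt.cs p) (Nn + 1 + 1) sh (up (Kt.y p).1 J)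
            (up (msh (Kt.X p) N M) J) M (fun i j l => ⌊b i j l * J⌋₊)
            (Kt.rc p N M θ J F d.1)).ya (Nn + 1 + 1) (k + 1) J (up (Kt.y p).1 J)
              (up (msh (Kt.X p) N M) J) i j vv d.2.Q d.2.ka
              (U * up (msh (Kt.X p) N M) J) ω,
            (d.1.nd (Kt.cs p) (Nn + 1 + 1) sh (up (Kt.y p).1 J)
            (up (msh (Kt.X p) N M) J) M (fun i j l => ⌊b i j l * J⌋₊)
            (Kt.rc p N M θ J F d.1)).yn (Nn + 1 + 1) (k + 1) J (up (Kt.y p).1 J)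
              (up (msh (Kt.X p) N M) J) i j vv d.2.Q d.2.ka
              (U * up (msh (Kt.X p) N M) J) ω)))
    (fun J F d => (fun ω : F.Ω => ((d.1.nd (Kt.cs p) (Nn + 1 + 1) sh (up (Kt.y p).1 J)
            (up (msh (Kt.X p) N M) J) M (fun i j l => ⌊b i j l * J⌋₊)
            (Kt.rc p N M θ J F d.1)).c i j ω, F.T ω)))
    (fun J _ _ => ((Nn + 1) * U - CNf (Nn + 1) T * (t + ((vv : ℝ) - j))) * msh (Kt.X p) N M *
          Real.log 2 * J)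
    (C := ((Nn + 1) * U - CNf (Nn + 1) T * (t + ((vv : ℝ) - j))) * msh (Kt.X p) N M *
          Real.log 2) (δ := msh (Kt.X p) N M * Real.log 2) (fun J F d => le_rfl)
    (mul_pos hζ0 hl2) ?_
  · obtain ⟨τ₀, hτ₀, J₀, h1⟩ := hlow
    refine ⟨τ₀, hτ₀, J₀, fun J hJ F A hA d hd hR => ?_⟩
    have h2 := h1 J hJ F _ (pos_ev hA) d ⟨RW.Ok.sub hd fun ω h => h.1, hR⟩
    rw [cond_pev] at h2
    exact h2
  intro S' hne hsub d hd
  obtain ⟨S₁, C₀, hne₁, hsub₁, hC₀, htm₁⟩ := htm S' hne hsub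
  have hs₁ : ∀ (τ : ℝ) (J : ℕ) (F : Fam m J) (A : F.Ω → Prop), S₁.St τ J F A → S.St τ J F A :=
    fun τ J F A hA => hsub τ J F A (hsub₁ τ J F A hA)
  obtain ⟨h₁, hact⟩ := hpl.act
  obtain ⟨hl, ha⟩ := hact _ hi' _ hv
  obtain ⟨S₂, hne₂, hsub₂, hB⟩ := nft_place hNn hFZ hFq hC₀ htm₁ hinj hK' hcell hN hNT hε0 hε hθ
    hθ1 hro hka hξ hξ1 hb hjv hv rfl hi' ht htU hUM hk hkn hKc
    (zmq_sub (hpl.zm _ hi' _ hv) hs₁) (ntq_sub (hpl.nt _ hi' _ hv) hs₁) (labfq_sub hl hs₁)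
    (actF_sub ha hs₁) hne₁ (fun _ _ _ _ hA => hA) (fun τ J F A hA => hd τ J F A (hsub₁ τ J F A hA))
  refine ⟨S₂, hne₂, fun τ J F A hA => hsub₁ τ J F A (hsub₂ τ J F A hA), hB.mono 0 ?_⟩
  intro J _ F A h
  have hJ0 : (0 : ℝ) ≤ J := Nat.cast_nonneg J
  have h1 : 0 ≤ msh (Kt.X p) N M * Real.log 2 / 4 * J := by positivity
  linarith

/-- **The data are valid**, for a law. -/
structure RawQ {J : ℕ} {F : Fam m J} (G : GDat F) (c : ℕ → Fin m) (n₀ : ℕ) (sh : ℕ → ℕ)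
    (w₀ z M : ℕ) (g : ℕ → ℕ → ℕ → ℕ) {Rt : ℕ → ℕ → Type} (ρ : (i j : ℕ) → LnT F → Rt i j)
    (i j vv t U K k : ℕ)
    (R : RawC (G.nd c (n₀ + 1) sh w₀ z M g ρ).Γ (G.nd c (n₀ + 1) sh w₀ z M g ρ).Λ)
    (q : F.Ω → ℝ) : Prop where
  one : ∀ x, R.ka x k = 1
  le1 : ∀ x l, l < n₀ + 1 → |R.ka x l| ≤ 1
  ka1 : ∀ x, R.ka x 1 = 0
  cht : (G.nd c (n₀ + 1) sh w₀ z M g ρ).Cht (n₀ + 1) K J w₀ z i j vv t U q (fun _ => True)
    R.Q R.A R.B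

theorem RawQ.v {J : ℕ} {F : Fam m J} {G : GDat F} {c : ℕ → Fin m} {n₀ : ℕ} {sh : ℕ → ℕ}
    {w₀ z M : ℕ} {g : ℕ → ℕ → ℕ → ℕ} {Rt : ℕ → ℕ → Type} {ρ : (i j : ℕ) → LnT F → Rt i j}
    {i j vv t U K k : ℕ}
    {R : RawC (G.nd c (n₀ + 1) sh w₀ z M g ρ).Γ (G.nd c (n₀ + 1) sh w₀ z M g ρ).Λ}
    {A : F.Ω → Prop}
    (h : RawQ G c n₀ sh w₀ z M g ρ i j vv t U K k R (Pool.Agent.H49.Ent.cond F.p A True)) :
    RawV G c n₀ sh w₀ z M g ρ i j vv t U K k R (fun ω => A ω ∧ 0 < F.p ω) := by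
  have hp : ∀ ω, A ω ∧ 0 < F.p ω → 0 < Pool.Agent.H49.Ent.cond F.p A True ω := fun ω hω =>
    (cond_pos_iff F.isLaw.nonneg A True ω).2 ⟨hω.2, eq_true hω.1⟩
  exact ⟨h.one, h.le1, h.ka1, h.cht.deg, h.cht.var,
    fun ω _ h2 => h.cht.nat ω (hp ω h2) trivial, fun ω _ h2 => h.cht.bdA ω (hp ω h2) trivial,
    fun ω _ h2 => h.cht.bdB ω (hp ω h2) trivial, fun ω _ h2 => h.cht.lin ω (hp ω h2) trivial,
    fun ω _ h2 => h.cht.slp ω (hp ω h2) trivial⟩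

/-- The last inequality. -/
theorem fin_num {n U s C C₁ ζ J z M : ℝ} (hn : 0 ≤ n) (hU0 : 0 ≤ U) (hU : U ≤ M) (hs : 1 ≤ s)
    (hC : 0 ≤ C)
    (hC₁ : C + 2 ≤ C₁) (hζJ : n * M ≤ ζ * J) (hz1 : ζ * J ≤ z) (hz2 : z ≤ ζ * J + 1) :
    n * (U * z) * Real.log 2 - C₁ * (s * z) ≤
      (n * U - C * s) * ζ * Real.log 2 * J - (ζ * Real.log 2) * J := by
  have hl0 : 0 < Real.log 2 := Real.log_pos one_lt_two
  have hl1 : Real.log 2 ≤ 1 := by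
    have := Real.log_two_lt_d9
    linarith
  have hM : 0 ≤ M := hU0.trans hU
  have hζ0 : 0 ≤ ζ * J := (mul_nonneg hn hM).trans hζJ
  have hnU : 0 ≤ n * U := mul_nonneg hn hU0
  have h1 : n * U ≤ ζ * J := (mul_le_mul_of_nonneg_left hU hn).trans hζJ
  have h2 : n * (U * z) * Real.log 2 ≤ n * U * (ζ * J) * Real.log 2 + n * U := by
    have h3 : n * (U * z) ≤ n * U * (ζ * J) + n * U := by
      have := mul_le_mul_of_nonneg_left hz2 hnU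
      linarith
    have h4 := mul_le_mul_of_nonneg_right h3 hl0.le
    have h5 : n * U * Real.log 2 ≤ n * U * 1 := mul_le_mul_of_nonneg_left hl1 hnU
    linarith
  have hs0 : 0 ≤ s := by linarith
  have hz0 : 0 ≤ z := hζ0.trans hz1
  have h6 : (C + 2) * (s * (ζ * J)) ≤ C₁ * (s * z) :=
    mul_le_mul hC₁ (mul_le_mul_of_nonneg_left hz1 hs0) (mul_nonneg hs0 hζ0) (by linarith)
  have h7 : C * (s * (ζ * J)) * Real.log 2 ≤ C * (s * (ζ * J)) * 1 :=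
    mul_le_mul_of_nonneg_left hl1 (mul_nonneg hC (mul_nonneg hs0 hζ0))
  have h8 : (ζ * J) * Real.log 2 ≤ (ζ * J) * 1 := mul_le_mul_of_nonneg_left hl1 hζ0
  have h9 : 1 * (ζ * J) ≤ s * (ζ * J) := mul_le_mul_of_nonneg_right hs hζ0
  have e1 : (n * U - C * s) * ζ * Real.log 2 * J - (ζ * Real.log 2) * J =
      n * U * (ζ * J) * Real.log 2 - C * (s * (ζ * J)) * Real.log 2 - (ζ * J) * Real.log 2 := by
    ring
  rw [e1]
  linarith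

/-- The trivial inequality. -/
theorem fin_triv {n U s C₁ z : ℝ} (hn : 0 ≤ n) (hU0 : 0 ≤ U) (hs : U ≤ s)
    (hC₁ : n ≤ C₁) (hz : 0 ≤ z) : n * (U * z) * Real.log 2 - C₁ * (s * z) ≤ 0 := by
  have hl1 : Real.log 2 ≤ 1 := by
    have := Real.log_two_lt_d9
    linarith
  have h1 : n * (U * z) * Real.log 2 ≤ n * (U * z) * 1 :=
    mul_le_mul_of_nonneg_left hl1 (mul_nonneg hn (mul_nonneg hU0 hz))
  have h2 : n * (U * z) ≤ C₁ * (s * z) :=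
    mul_le_mul hC₁ (mul_le_mul_of_nonneg_right hs hz) (mul_nonneg hU0 hz) (hn.trans hC₁)
  linarith

/-- **Full entropy modulo the directions**: the field of the cells of a kit. -/
theorem nft_kit {I : ℝ → Θ → Prop} (hI : MonoI I) {S : PCl m}
    (hpos : ∀ (τ : ℝ) (J : ℕ) (F : Fam m J) (A : F.Ω → Prop), S.St τ J F A → 0 < Pe F.p A)
    (hF : ∀ k, 1 ≤ k → k ≤ n₀ → FZX k)
    (Kt : KitP m Θ n₀) (hinj : ∀ p, Inj (Kt.cs p) (n₀ + 1)) {T' : ℝ} (hT' : 0 ≤ T')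
    (fcel : ∀ ε' : ℝ, 0 < ε' → EvP I fun p =>
      CellL (n₀ + 1) (Kt.L p) ε' T' (Kt.y p) (Kt.X p) (Kt.la p) (Kt.ml p))
    {K' s₁ : ℕ} {sh : ℕ → ℕ} (hK' : 1 ≤ K') {ka : ℝ} (hka : ka ≤ 1)
    (hz : ∀ M : ℕ, EvQ I fun N θ p => TmS S ∧ ∃ ξ : ℝ, 0 < ξ ∧ ξ ≤ msh (Kt.X p) N M ∧
      (Kt.y p).1 + 2 * (Kt.y p).2 + 2 * Kt.X p < 1 ∧
      ∀ (b : ℕ → ℕ → ℕ → ℝ) (e : ℕ → ℕ → ℝ), Kt.Near p N M θ b e →
        PlN Kt S K' s₁ sh N M θ p ka ξ b e) {Tl : ℕ → Prop} (hTl : ¬ Tl 1) :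
    ∃ C₄ : ℝ, ∀ C₁ : ℝ, C₄ ≤ C₁ → ∀ (M K₂ : ℕ) (ϖ : ℝ), 0 < ϖ →
      EvQ I fun N θ p => Kt.FldN S K' s₁ sh M N θ p fun G J F D q =>
        (Kt.nd p N M θ G F D).NFt Tl G.n J (up G.ϖ J) (up G.ζ J) G.M K₂ C₁ ϖ q := by
  classical
  refine ⟨CNf n₀ T' + 2 + n₀, fun C₁ hC M K₂ ϖ hϖ => ?_⟩
  have hCN : 0 ≤ CNf n₀ T' := by
    unfold CNf LNf
    positivity
  have hn00 : (0 : ℝ) ≤ n₀ := Nat.cast_nonneg n₀
  obtain ⟨N₁, hN₁⟩ := exists_nat_ge (4 * (T' + 2))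
  have key := ((hz M).and hI (KitP.cel_evQ fcel M)).and hI
    (EvQ.self I (max N₁ 4) (θ₀ := 1 / 16) (by norm_num)
      (ε := fun N _ => 1) (fun N _ _ => one_pos))
  refine key.mono ?_
  rintro N θ p ⟨⟨⟨hTm, ξ, hξ, hξ1, hro, hpl⟩, hL⟩, hN, hθ, hθ1, -⟩ b e hnear
  rcases Nat.lt_or_ge n₀ 2 with hn2 | hn2
  · -- no pivots
    refine ⟨1, one_pos, 0, fun J _ F A _ D _ => ?_⟩
    intro i j v t U _ _ _ _ _ k k1 k2 k3
    have k4 : k < n₀ + 1 := k2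
    obtain rfl : k = 1 := by omega
    exact absurd k3 hTl
  obtain ⟨Nn, rfl⟩ : ∃ Nn, n₀ = Nn + 1 := ⟨n₀ - 1, by omega⟩
  have hNn : 1 ≤ Nn := by omega
  have hFZ : FZX Nn := hF Nn hNn (by omega)
  have hFq : Pool.FRX.FZQ (Nn + 1) 0 := fzq_of_fzx (hF (Nn + 1) (by omega) le_rfl)
  obtain ⟨ε, hε⟩ : ∃ ε : ℝ, ε = 1 / (64 * (N * (M + 4)) + 1) := ⟨_, rfl⟩
  rw [← hε] at hL
  have hNN : N₁ ≤ N := (le_max_left _ _).trans hN
  have hN2 : 4 ≤ N := (le_max_right _ _).trans hN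
  have hNT : 4 * (T' + 2) ≤ N := hN₁.trans (by exact_mod_cast hNN)
  have hε0 : 0 < ε := by rw [hε]; positivity
  have hεN : ε * (64 * (N * (M + 4))) ≤ 1 := by
    rw [hε, one_div, inv_mul_le_iff₀ (by positivity)]
    linarith
  have hζ0 : 0 < msh (Kt.X p) N M := msh_pos hL.pos (by omega)
  -- all the numbers
  have hall : Bas S (fun J F A => ∀ a : Fin (M + 1) × Fin (M + 1) × Fin (M + 1) × Fin (M + 1) ×
      Fin (M + 1) × Fin (Nn + 1), ∀ d : DR Kt sh N M θ p b J F,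
      (Kt.grid K' s₁ sh p N M θ b e).Ok F d.1 A →
      ((a.2.1 : ℕ) < a.2.2.1 → (a.1 : ℕ) + ((a.2.2.1 : ℕ) - a.2.1) ≤ M →
      1 ≤ (a.2.2.2.1 : ℕ) → (a.2.2.2.1 : ℕ) + 1 ≤ a.2.2.2.2.1 → 1 ≤ (a.2.2.2.2.2 : ℕ) →
      RawV d.1 (Kt.cs p) (Nn + 1) sh (up (Kt.y p).1 J) (up (msh (Kt.X p) N M) J) M
        (fun i j l => ⌊b i j l * J⌋₊) (Kt.rc p N M θ J F d.1) a.1 a.2.1 a.2.2.1 a.2.2.2.1
        a.2.2.2.2.1 (max K₂ 1) (a.2.2.2.2.2 + 1)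
        d.2 (fun ω => A ω ∧ 0 < F.p ω) →
        ((Nn + 1) * (a.2.2.2.2.1 : ℕ) - CNf (Nn + 1) T' * ((a.2.2.2.1 : ℕ) +
          (((a.2.2.1 : ℕ) : ℝ) - (a.2.1 : ℕ)))) * msh (Kt.X p) N M *
          Real.log 2 * J - (msh (Kt.X p) N M * Real.log 2) * J ≤
        CH (Pool.Agent.H49.Ent.cond F.p A True)
          (fun ω : F.Ω => ((d.1.nd (Kt.cs p) (Nn + 1 + 1) sh (up (Kt.y p).1 J)
            (up (msh (Kt.X p) N M) J) M (fun i j l => ⌊b i j l * J⌋₊)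
            (Kt.rc p N M θ J F d.1)).ya (Nn + 1 + 1) (a.2.2.2.2.2 + 1) J (up (Kt.y p).1 J)
              (up (msh (Kt.X p) N M) J) a.1 a.2.1 a.2.2.1 d.2.Q d.2.ka
              (a.2.2.2.2.1 * up (msh (Kt.X p) N M) J) ω,
            (d.1.nd (Kt.cs p) (Nn + 1 + 1) sh (up (Kt.y p).1 J)
            (up (msh (Kt.X p) N M) J) M (fun i j l => ⌊b i j l * J⌋₊)
            (Kt.rc p N M θ J F d.1)).yn (Nn + 1 + 1) (a.2.2.2.2.2 + 1) J (up (Kt.y p).1 J)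
              (up (msh (Kt.X p) N M) J) a.1 a.2.1 a.2.2.1 d.2.Q d.2.ka
              (a.2.2.2.2.1 * up (msh (Kt.X p) N M) J) ω))
          (fun ω : F.Ω => ((d.1.nd (Kt.cs p) (Nn + 1 + 1) sh (up (Kt.y p).1 J)
            (up (msh (Kt.X p) N M) J) M (fun i j l => ⌊b i j l * J⌋₊)
            (Kt.rc p N M θ J F d.1)).c a.1 a.2.1 ω, F.T ω)))) := by
    refine Bas.fin ?_
    rintro ⟨i, j, v, t, U, k⟩
    by_cases hh : (j : ℕ) < v ∧ (i : ℕ) + ((v : ℕ) - j) ≤ M ∧ 1 ≤ (t : ℕ) ∧ (t : ℕ) + 1 ≤ U ∧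
        1 ≤ (k : ℕ)
    · obtain ⟨c1, c2, c3, c4, c5⟩ := hh
      have h1 := nft_fix hNn hFZ hFq hpos hTm (hinj p) hK' hL hN2 hNT hε0.le hεN hθ hθ1 hro hka hξ
        hξ1 hnear (hpl b e hnear) (i := i) (j := j) (vv := v) (t := t) (U := U) (k := k)
        (Kc := max K₂ 1) c1 (by omega) c2 c3 c4 (by omega) c5 (by omega) (le_max_right _ _)
      exact h1.mono 0 fun J _ F A h2 d hd _ _ _ _ _ hR => h2 d hd hR
    · refine ⟨1, one_pos, 0, fun J _ F A _ D _ c1 c2 c3 c4 c5 => ?_⟩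
      exact absurd ⟨c1, c2, c3, c4, c5⟩ hh
  have hfld : FldW S (Kt.grid K' s₁ sh p N M θ b e) (fun J F D q =>
      ∀ i j v t U k : ℕ, i + 2 * U ≤ M → j < v → v ≤ M → i + (v - j) ≤ M → 1 ≤ t → t + 1 ≤ U →
      1 ≤ k → k < Nn + 1 →
      ∀ R : RawC (D.nd (Kt.cs p) (Nn + 1 + 1) sh (up (Kt.y p).1 J) (up (msh (Kt.X p) N M) J) M
        (fun i j l => ⌊b i j l * J⌋₊) (Kt.rc p N M θ J F D)).Γ
        (D.nd (Kt.cs p) (Nn + 1 + 1) sh (up (Kt.y p).1 J) (up (msh (Kt.X p) N M) J) M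
        (fun i j l => ⌊b i j l * J⌋₊) (Kt.rc p N M θ J F D)).Λ,
      RawQ D (Kt.cs p) (Nn + 1) sh (up (Kt.y p).1 J) (up (msh (Kt.X p) N M) J) M
        (fun i j l => ⌊b i j l * J⌋₊) (Kt.rc p N M θ J F D) i j v t U (max K₂ 1) (k + 1) R q →
        ((Nn + 1) * (U : ℝ) - CNf (Nn + 1) T' * (t + ((v : ℝ) - j))) * msh (Kt.X p) N M *
          Real.log 2 * J - (msh (Kt.X p) N M * Real.log 2) * J ≤
        CH q (fun ω : F.Ω => ((D.nd (Kt.cs p) (Nn + 1 + 1) sh (up (Kt.y p).1 J)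
            (up (msh (Kt.X p) N M) J) M (fun i j l => ⌊b i j l * J⌋₊)
            (Kt.rc p N M θ J F D)).ya (Nn + 1 + 1) (k + 1) J (up (Kt.y p).1 J)
              (up (msh (Kt.X p) N M) J) i j v R.Q R.ka (U * up (msh (Kt.X p) N M) J) ω,
            (D.nd (Kt.cs p) (Nn + 1 + 1) sh (up (Kt.y p).1 J)
            (up (msh (Kt.X p) N M) J) M (fun i j l => ⌊b i j l * J⌋₊)
            (Kt.rc p N M θ J F D)).yn (Nn + 1 + 1) (k + 1) J (up (Kt.y p).1 J)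
              (up (msh (Kt.X p) N M) J) i j v R.Q R.ka (U * up (msh (Kt.X p) N M) J) ω))
          (fun ω : F.Ω => ((D.nd (Kt.cs p) (Nn + 1 + 1) sh (up (Kt.y p).1 J)
            (up (msh (Kt.X p) N M) J) M (fun i j l => ⌊b i j l * J⌋₊)
            (Kt.rc p N M θ J F D)).c i j ω, F.T ω))) := by
    refine Bas.mono 0 hall fun J _ F A h D hD i j v t U k c1 c2 c3 c4 c5 c6 c7 c8 R hR => ?_
    exact h (⟨i, by omega⟩, ⟨j, by omega⟩, ⟨v, by omega⟩, ⟨t, by omega⟩, ⟨U, by omega⟩,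
      ⟨k, by omega⟩) ⟨D, R⟩ hD c2 c4 c5 c6 c7 hR.v
  obtain ⟨J₀, hJ₀⟩ := bgJ hζ0 (((Nn : ℝ) + 1) * M)
  refine Bas.mono J₀ (FldW.ev hpos hfld hϖ) ?_
  intro J hJ F B₀ h D hD i j v t U c1 c2 c3 c4 c5 k k1 k2 k3 Q A B ka' e1 e2 e3 E hE hch
  have c1' : i + 2 * U ≤ M := c1
  have c4' : v ≤ M := c4
  obtain ⟨q, hq⟩ : ∃ q, q = Pool.Agent.H49.Ent.cond F.p B₀ True := ⟨_, rfl⟩
  have hq0 : ∀ ω, 0 ≤ q ω := fun ω => by
    rw [hq]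
    exact cond_nonneg F.isLaw.nonneg B₀ True ω
  rw [← hq] at hch hE ⊢
  have hh := h D hD E (by rw [← hq]; exact hE)
  rw [← hq] at hh
  have hq0' : ∀ ω, 0 ≤ Pool.Agent.H49.Ent.cond q E True ω := fun ω => cond_nonneg hq0 E True ω
  have hz0 : (0 : ℝ) ≤ (up (msh (Kt.X p) N M) J : ℝ) := Nat.cast_nonneg _
  have hU0 : (0 : ℝ) ≤ U := Nat.cast_nonneg U
  have hCn : ((Nn + 1 : ℕ) : ℝ) ≤ C₁ := by linarith
  have hcs : (((t + (v - j) : ℕ) : ℝ) * (up (msh (Kt.X p) N M) J : ℝ)) =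
      ((t : ℝ) + ((v : ℝ) - j)) * (up (msh (Kt.X p) N M) J : ℝ) := by
    rw [Nat.cast_add, Nat.cast_sub (by omega)]
  have hn1 : ((Nn + 1 + 1 - 1 : ℕ) : ℝ) = Nn + 1 := by push_cast; rfl
  show ((Nn + 1 + 1 - 1 : ℕ) * (U * (up (msh (Kt.X p) N M) J : ℝ))) * Real.log 2 -
    C₁ * ((t + (v - j) : ℕ) * (up (msh (Kt.X p) N M) J : ℝ)) ≤ _
  rw [hn1, hcs]
  have hjv : (j : ℝ) + 1 ≤ v := by exact_mod_cast c3
  have ht1 : (1 : ℝ) ≤ t := by exact_mod_cast c5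
  by_cases hA : t + 1 ≤ U ∧ v - j ≤ 2 * U
  · obtain ⟨a1, a2⟩ := hA
    obtain ⟨k, rfl⟩ : ∃ k', k = k' + 1 := ⟨k - 1, by omega⟩
    have k4 : k + 1 < Nn + 1 + 1 := k2
    have k5 : k ≠ 0 := by
      rintro rfl
      exact hTl k3
    have hpq : ∀ ω, 0 < Pool.Agent.H49.Ent.cond q E True ω → 0 < q ω ∧ E ω := by
      intro ω hω
      have h1 := (cond_pos_iff hq0 E True ω).1 hω
      exact ⟨h1.1, of_eq_true h1.2⟩
    have h1 := hh i j v t U k c1 c3 c4 (by omega) c5 a1 (by omega) (by omega) ⟨Q, A, B, ka'⟩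
      ⟨e1, e3, fun x => e2 x 1 (by omega) hTl, ⟨fun c l => (hch.deg c l).trans (le_max_left _ _),
        hch.var, fun ω h1 _ => hch.nat ω (hpq ω h1).1 (hpq ω h1).2,
        fun ω h1 _ => hch.bdA ω (hpq ω h1).1 (hpq ω h1).2,
        fun ω h1 _ => hch.bdB ω (hpq ω h1).1 (hpq ω h1).2,
        fun ω h1 _ => hch.lin ω (hpq ω h1).1 (hpq ω h1).2,
        fun ω h1 _ => hch.slp ω (hpq ω h1).1 (hpq ω h1).2⟩⟩
    refine le_trans ?_ h1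
    have hUM : (U : ℝ) ≤ M := by
      have : U ≤ M := by omega
      exact_mod_cast this
    exact fin_num (by positivity) hU0 hUM (by linarith) hCN (by linarith) (hJ₀ J hJ)
      (up_ge _ J) (up_le hζ0.le J)
  · have h1 : (U : ℝ) ≤ t + ((v : ℝ) - j) := by
      have h2 : U ≤ t + (v - j) := by omega
      have h3 : (U : ℝ) ≤ ((t + (v - j) : ℕ) : ℝ) := by exact_mod_cast h2
      rw [Nat.cast_add, Nat.cast_sub (by omega)] at h3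
      exact h3
    refine (fin_triv (by positivity) hU0 h1 (by push_cast at hCn; exact hCn) hz0).trans ?_
    exact CH_nonneg hq0' _ _

end Pool.NFT33
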