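import Pool.Agent.H33.NFT.Num
import Pool.Agent.H62.OVN.Ovc
import Pool.Agent.H1.GEN.Clx
import Pool.Agent.H56.FRX.Fzq

/-!
# The rates of the last coordinate, from exactness

`fzq_of_fzx`: if the positions of the families of dimension `n` have almost the entropy given by
their numbers (`FZX n`), then the digits of the last coordinate above its number, given the other
coordinates, have the rate one (`FZQ n 0`).
-/

set_option autoImplicit false

namespace Pool.NFT33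

open Finset Real MvPolynomial
open Pool.Agent.H49.Ent Pool.Agent.H32.Dense Pool.STK Pool.KA Pool.KSAT Pool.K2S Pool.PB Pool.S6C
open Pool.GEN Pool.FRX
open Pool.TUB (lo lo_eq lo_ext seq_up CH_le_dig floor_dist)

variable {n J : ℕ}

/-- **The coordinates of a family in the graphs**, given the previous ones and the time. -/
theorem gra_near {K : ℕ} {e : ℝ} {s : Fin n → ℝ} {F : Fam n J} (he0 : 0 ≤ e) (he1 : e ≤ 1)
    (hs1 : ∀ j, s j ≤ 1) {G : F.ζ → Fin n → Fin n → MvPolynomial (Option (Fin n)) ℝ}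
    (h1 : ∀ z j k, (G z j k).totalDegree ≤ K ∧ DepOn (Finset.Iio j) (G z j k))
    (h2 : ∀ ω, 0 < F.p ω → ∀ j k, j ≤ k →
      |F.x ω k - eval (bt F ω) (G (F.Z ω) j k)| ≤ 1 / 2 ^ ⌊(s j - e) * J⌋₊ ∧
      ∀ b : Option (Fin n) → ℝ, (∀ o, |b o - bt F ω o| ≤ 1 / 2 ^ ⌊min (rad s 0 j + e) 1 * J⌋₊) →
        ∀ o, |eval b (pderiv o (G (F.Z ω) j k))| ≤ 2 ^ ⌊e * J⌋₊)
    (j : Fin n) {ω ω' : F.Ω} (hω : 0 < F.p ω) (hω' : 0 < F.p ω') (hZ : F.Z ω = F.Z ω')
    (hT : F.T ω = F.T ω') (hX : ∀ i < j, F.X J ω i = F.X J ω' i) :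
    |F.x ω j - F.x ω' j| ≤ ((n : ℝ) + 3) / 2 ^ ⌊(s j - e) * J⌋₊ := by
  classical
  have hJ0 : (0 : ℝ) ≤ J := Nat.cast_nonneg J
  obtain ⟨g, hg⟩ : ∃ g, g = G (F.Z ω) j j := ⟨_, rfl⟩
  obtain ⟨v, hv⟩ : ∃ v : Option (Fin n) → ℝ, v = fun o => match o with
    | none => 0
    | some i => if i < j then F.x ω' i - F.x ω i else 0 := ⟨_, rfl⟩
  have pJ : (0 : ℝ) < 2 ^ J := by positivity
  have hvJ : ∀ o, |v o| ≤ 1 / 2 ^ J := by
    intro o
    rw [hv]
    cases o with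
    | none =>
      show |(0 : ℝ)| ≤ _
      rw [abs_zero]
      positivity
    | some i =>
      show |if i < j then F.x ω' i - F.x ω i else 0| ≤ _
      split_ifs with hi
      · have h3 := Int.abs_sub_lt_one_of_floor_eq_floor (hX i hi)
        rw [← mul_sub, abs_mul, abs_of_pos pJ] at h3
        rw [abs_sub_comm, le_div_iff₀ pJ]
        linarith
      · rw [abs_zero]
        positivity
  have hfl : ⌊min (rad s 0 j + e) 1 * (J : ℝ)⌋₊ ≤ J := by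
    refine Nat.floor_le_of_le ?_
    have := mul_le_mul_of_nonneg_right (min_le_right (rad s 0 j + e) 1) hJ0
    linarith
  have h3 := Pool.OVN.eval_sub_le g (bt F ω) v (M := 2 ^ ⌊e * (J : ℝ)⌋₊) (δ := 1 / 2 ^ J)
    (by positivity) (fun r hr0 hr1 o => by
      rw [hg]
      refine (h2 ω hω j j le_rfl).2 _ (fun o' => ?_) o
      have e1 : bt F ω o' + r * v o' - bt F ω o' = r * v o' := by ring
      rw [e1, abs_mul, abs_of_nonneg hr0]
      have e2 : r * |v o'| ≤ 1 * (1 / 2 ^ J) :=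
        mul_le_mul hr1 (hvJ o') (abs_nonneg _) zero_le_one
      rw [one_mul] at e2
      refine e2.trans ?_
      exact one_div_le_one_div_of_le (by positivity) (pow_le_pow_right₀ (by norm_num) hfl)) hvJ
  have h4 : eval (bt F ω') g = eval (fun o => bt F ω o + v o) g := by
    rw [hg]
    refine (h1 (F.Z ω) j j).2 _ _ ?_ fun i hi => ?_
    · rw [hv]
      show F.t ω' = F.t ω + 0
      unfold Fam.t
      rw [hT, add_zero]
    · rw [hv]
      show F.x ω' i = F.x ω i + (if i < j then F.x ω' i - F.x ω i else 0)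
      rw [if_pos (Finset.mem_Iio.1 hi)]
      ring
  rw [← h4] at h3
  have a1 := (h2 ω hω j j le_rfl).1
  have a2 := (h2 ω' hω' j j le_rfl).1
  rw [← hZ, ← hg] at a2
  rw [← hg] at a1
  have h5 : ((Fintype.card (Option (Fin n)) : ℕ) : ℝ) * (2 ^ ⌊e * (J : ℝ)⌋₊ * (1 / 2 ^ J)) ≤
      ((n : ℝ) + 1) / 2 ^ ⌊(s j - e) * (J : ℝ)⌋₊ := by
    rw [Fintype.card_option, Fintype.card_fin]
    push_cast
    rw [div_eq_mul_one_div ((n : ℝ) + 1)]
    refine mul_le_mul_of_nonneg_left ?_ (by positivity)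
    rw [mul_one_div, div_le_div_iff₀ (by positivity) (by positivity), one_mul, ← pow_add]
    refine pow_le_pow_right₀ (by norm_num) ?_
    have f1 : (⌊e * (J : ℝ)⌋₊ : ℝ) ≤ e * J := Nat.floor_le (mul_nonneg he0 hJ0)
    rcases le_total 0 (s j - e) with h6 | h6
    · have f2 : (⌊(s j - e) * (J : ℝ)⌋₊ : ℝ) ≤ (s j - e) * J := Nat.floor_le (mul_nonneg h6 hJ0)
      have f3 : s j * (J : ℝ) ≤ 1 * J := mul_le_mul_of_nonneg_right (hs1 j) hJ0
      have : ((⌊e * (J : ℝ)⌋₊ + ⌊(s j - e) * (J : ℝ)⌋₊ : ℕ) : ℝ) ≤ J := by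
        push_cast
        linarith
      exact_mod_cast this
    · have f2 : ⌊(s j - e) * (J : ℝ)⌋₊ = 0 :=
        Nat.floor_of_nonpos (mul_nonpos_of_nonpos_of_nonneg h6 hJ0)
      rw [f2, add_zero]
      have f3 : e * (J : ℝ) ≤ 1 * J := mul_le_mul_of_nonneg_right he1 hJ0
      have : (⌊e * (J : ℝ)⌋₊ : ℝ) ≤ J := by linarith
      exact_mod_cast this
  have h6 : ((n : ℝ) + 3) / 2 ^ ⌊(s j - e) * (J : ℝ)⌋₊ =
      ((n : ℝ) + 1) / 2 ^ ⌊(s j - e) * (J : ℝ)⌋₊ + 1 / 2 ^ ⌊(s j - e) * (J : ℝ)⌋₊ +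
        1 / 2 ^ ⌊(s j - e) * (J : ℝ)⌋₊ := by ring
  rw [h6]
  have h7 := h3.trans h5
  rw [abs_le] at a1 a2 h7 ⊢
  constructor <;> linarith [a1.1, a1.2, a2.1, a2.2, h7.1, h7.2]

/-- The digits of a coordinate in a graph. -/
theorem gra_dig {r P : ℕ} (hPr : P ≤ r) {x x' : ℝ} (h : |x - x'| ≤ ((n : ℝ) + 3) / 2 ^ P) :
    |((⌊(2 : ℝ) ^ r * x⌋ - ⌊(2 : ℝ) ^ r * x'⌋ : ℤ) : ℝ)| ≤ ((n : ℝ) + 3) * 2 ^ (r - P) + 1 := by
  refine floor_dist ?_
  rw [← mul_sub, abs_mul, abs_of_pos (by positivity : (0 : ℝ) < 2 ^ r)]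
  have e1 : (2 : ℝ) ^ r = 2 ^ (r - P) * 2 ^ P := by rw [← pow_add, Nat.sub_add_cancel hPr]
  calc (2 : ℝ) ^ r * |x - x'| ≤ 2 ^ r * (((n : ℝ) + 3) / 2 ^ P) :=
        mul_le_mul_of_nonneg_left h (by positivity)
    _ = ((n : ℝ) + 3) * 2 ^ (r - P) := by
        rw [e1]
        field_simp

theorem log_dig (a r : ℕ) :
    Real.log (2 * (((a : ℝ) + 3) * 2 ^ r + 1) + 1) ≤ r * Real.log 2 + Real.log (2 * a + 9) := by
  have p1 : (1 : ℝ) ≤ 2 ^ r := one_le_pow₀ (by norm_num)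
  have h1 : 2 * (((a : ℝ) + 3) * 2 ^ r + 1) + 1 ≤ (2 * a + 9) * 2 ^ r := by linarith
  refine (Real.log_le_log (by positivity) h1).trans ?_
  rw [Real.log_mul (by positivity) (by positivity), Real.log_pow]
  linarith

/-- **The rates of the last coordinate, from exactness.** -/
theorem fzq_of_fzx {n : ℕ} (hF : FZX n) : FZQ n 0 := by
  classical
  intro ρ al hρ hal g₀ hg₀ s d hsd
  obtain ⟨e₁, he₁, H⟩ := hF (ρ / 4) al (by linarith) hal g₀ hg₀ s d hsd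
  have hn0 : (0 : ℝ) ≤ n := Nat.cast_nonneg n
  obtain ⟨e, he⟩ : ∃ e, e = min e₁ (min 1 (ρ / (4 * (n + 1)))) := ⟨_, rfl⟩
  have he0 : 0 < e := by
    rw [he]
    exact lt_min he₁ (lt_min one_pos (by positivity))
  have hee : e ≤ e₁ := by rw [he]; exact min_le_left _ _
  have he1 : e ≤ 1 := by rw [he]; exact (min_le_right _ _).trans (min_le_left _ _)
  have heρ : (n + 1) * e ≤ ρ / 4 := by
    have h1 : e ≤ ρ / (4 * (n + 1)) := by rw [he]; exact (min_le_right _ _).trans (min_le_right _ _)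
    rw [le_div_iff₀ (by positivity)] at h1
    linarith
  refine ⟨e, he0, fun i hi Q₁ Q₂ hQ1 hQ12 hQ2 K₀ N hN ψ hψ => ?_⟩
  obtain ⟨η, hη, M, J₁, H⟩ := H K₀ N hN ψ hψ
  have hl2 : 0 < Real.log 2 := Real.log_pos one_lt_two
  -- the constants
  obtain ⟨C₂, hC₂⟩ : ∃ C₂ : ℝ, C₂ = (n + 2) * Real.log 2 + (n + 3) * Real.log (2 * n + 9) :=
    ⟨_, rfl⟩
  have hl9 : 0 ≤ Real.log (2 * n + 9) := Real.log_nonneg (by linarith)
  obtain ⟨J₂, hJ₂⟩ := bgJ (a := ρ / 4 * Real.log 2) (by positivity) C₂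
  refine ⟨η, hη, M, max J₁ J₂, fun J hJ G hTm hGd hGra => ?_⟩
  rcases H J ((le_max_left _ _).trans hJ) G hTm hGd (hGra.mono hee) with h | h
  · left
    obtain ⟨l, hl, B, hB, h3⟩ := h
    refine ⟨l, hl, B, hB, ?_⟩
    rcases h3 with h3 | ⟨l', h4, h5, h6⟩
    · exact Or.inl h3
    · exact Or.inr ⟨l', h4, hee.trans h5, h6⟩
  right
  have j2 := hJ₂ J ((le_max_right _ _).trans hJ)
  have hJ0 : (0 : ℝ) ≤ J := Nat.cast_nonneg J
  have hq := G.isLaw
  obtain ⟨Gp, g1, g2⟩ := hGra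
  have hs0 := hsd.s0
  have hs1 := hsd.s1
  have near := gra_near he0.le he1 hs1 g1 g2
  -- the digits of the numbers
  obtain ⟨P, hP⟩ : ∃ P : Fin n → ℕ, P = fun j => ⌊(s j - e) * (J : ℝ)⌋₊ := ⟨_, rfl⟩
  have hPle : ∀ (j : Fin n) {Q : ℝ}, s j ≤ Q → P j ≤ ⌊Q * (J : ℝ)⌋₊ := fun j Q hQ => by
    rw [hP]
    exact Nat.floor_le_floor (mul_le_mul_of_nonneg_right (by linarith) hJ0)
  have hPJ : ∀ j : Fin n, P j ≤ J := fun j => by
    have := hPle j (hs1 j)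
    rwa [one_mul, Nat.floor_natCast] at this
  have hPge : ∀ j : Fin n, (s j - e) * J - 1 ≤ P j := fun j => by
    rw [hP]
    have := Nat.lt_floor_add_one ((s j - e) * (J : ℝ))
    simp only
    linarith
  -- the entropies
  obtain ⟨b, hb⟩ : ∃ b : G.Ω → Fin n → ℤ, b = fun ω => Function.update (G.X J ω) i 0 := ⟨_, rfl⟩
  have hbi : ∀ ω ω', b ω = b ω' → ∀ j, j ≠ i → G.X J ω j = G.X J ω' j := by
    intro ω ω' h0 j hj
    have h1 := congrFun h0 j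
    rw [hb] at h1
    simp only at h1
    rwa [Function.update_of_ne hj, Function.update_of_ne hj] at h1
  have hlast : ∀ j : Fin n, j ≠ i → j < i := fun j hj => by
    rcases lt_trichotomy j i with h1 | h1 | h1
    · exact h1
    · exact absurd h1 hj
    · have h2 : (i : ℕ) < j := h1
      have := j.2
      omega
  have hlt : ∀ j : Fin n, j < i → j ≠ i := fun j hj h0 => absurd hj (by rw [h0]; exact lt_irrefl i)
  -- total
  have t1 : CH G.p (G.X J) G.W ≤ CH G.p (fun ω => (G.X J ω i, b ω)) G.W := by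
    refine CH_mono_left hq.nonneg fun ω ω' _ _ h0 => ?_
    have h1 := Prod.ext_iff.1 (Prod.ext_iff.1 h0).1
    funext j
    by_cases hj : j = i
    · rw [hj]
      exact h1.1
    · exact hbi ω ω' h1.2 j hj
  have t2 : CH G.p (fun ω => (G.X J ω i, b ω)) G.W = CH G.p b G.W +
      CH G.p (fun ω => G.X J ω i) (fun ω => (b ω, G.W ω)) := CH_chain hq.nonneg _ _ _
  obtain ⟨Xl, hXl⟩ : ∃ Xl : G.Ω → ℕ → ℤ, ∀ ω (j : Fin n), Xl ω j = G.X J ω j :=
    ⟨fun ω l => if hl : l < n then G.X J ω ⟨l, hl⟩ else 0, fun ω j => dif_pos j.2⟩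
  -- the base
  have t3 : CH G.p b G.W ≤ ∑ l ∈ range (i : ℕ), (if hl : l < n then
      ((J : ℝ) - P ⟨l, hl⟩) * Real.log 2 + Real.log (2 * n + 9) else 0) := by
    have key := seq_up hq Xl G.W 0
      (fun l => if hl : l < n then ((J : ℝ) - P ⟨l, hl⟩) * Real.log 2 + Real.log (2 * n + 9)
        else 0) (i : ℕ) (Nat.zero_le _) fun l _ hl => ?_
    · rw [Finset.range_eq_Ico]
      refine le_trans ?_ key
      refine (CH_mono_cond hq.nonneg (W' := G.W) (W := fun ω => (lo 0 Xl ω, G.W ω))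
        fun ω ω' _ _ h0 => ?_).trans (CH_mono_left hq.nonneg fun ω ω' _ _ h0 => ?_)
      · have e0 : lo 0 Xl ω = lo 0 Xl ω' := lo_ext fun l hl => absurd hl (Nat.not_lt_zero l)
        exact Prod.ext e0 h0
      · have h1 : lo (i : ℕ) Xl ω = lo (i : ℕ) Xl ω' := (Prod.ext_iff.1 h0).1
        rw [hb]
        funext j
        show Function.update (G.X J ω) i 0 j = Function.update (G.X J ω') i 0 j
        by_cases hj : j = i
        · rw [hj, Function.update_self, Function.update_self]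
        · have h2 := lo_eq h1 (show (j : ℕ) < i from hlast j hj)
          rw [hXl, hXl] at h2
          rw [Function.update_of_ne hj, Function.update_of_ne hj]
          exact h2
    · have hln : l < n := lt_trans hl i.2
      simp only [dif_pos hln]
      refine (CH_le_dig hq _ _ (L := ((n : ℝ) + 3) * 2 ^ (J - P ⟨l, hln⟩) + 1)
        fun ω ω' h1 h2 h0 => ?_).trans ?_
      · have h3 := Prod.ext_iff.1 h0
        have h4 : G.T ω = G.T ω' := (Prod.ext_iff.1 h3.2).1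
        have h5 : G.Z ω = G.Z ω' := (Prod.ext_iff.1 h3.2).2
        have e0 : ∀ ω, Xl ω l = G.X J ω ⟨l, hln⟩ := fun ω => hXl ω ⟨l, hln⟩
        rw [e0, e0]
        refine gra_dig (n := n) (hPJ ⟨l, hln⟩) ?_
        rw [hP]
        refine near ⟨l, hln⟩ h1 h2 h5 h4 fun j hj => ?_
        have h7 : lo l Xl ω = lo l Xl ω' := h3.1
        have h6 := lo_eq h7 (show (j : ℕ) < l from hj)
        rwa [hXl, hXl] at h6
      · refine (log_dig n _).trans (le_of_eq ?_)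
        rw [Nat.cast_sub (hPJ _)]
  -- the last coordinate
  have hq₁ : ⌊Q₁ * (J : ℝ)⌋₊ ≤ ⌊Q₂ * (J : ℝ)⌋₊ :=
    Nat.floor_le_floor (mul_le_mul_of_nonneg_right hQ12 hJ0)
  have hq₂ : ⌊Q₂ * (J : ℝ)⌋₊ ≤ J := Nat.floor_le_of_le (by
    have := mul_le_mul_of_nonneg_right hQ2 hJ0
    linarith)
  have t4 : CH G.p (fun ω => G.X J ω i) (fun ω => (b ω, G.W ω)) ≤
      CH G.p (fun ω => G.X ⌊Q₁ * J⌋₊ ω i) (fun ω => (b ω, G.W ω)) +
      (CH G.p (fun ω => G.X ⌊Q₂ * J⌋₊ ω i) (fun ω => (G.X ⌊Q₁ * J⌋₊ ω i, (b ω, G.W ω))) +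
      CH G.p (fun ω => G.X J ω i) (fun ω => (G.X ⌊Q₂ * J⌋₊ ω i, (G.X ⌊Q₁ * J⌋₊ ω i,
        (b ω, G.W ω))))) := by
    have a1 := CH_le_add hq.nonneg (fun ω => G.X J ω i) (fun ω => G.X ⌊Q₁ * J⌋₊ ω i)
      (fun ω => (b ω, G.W ω))
    have a2 := CH_le_add hq.nonneg (fun ω => G.X J ω i) (fun ω => G.X ⌊Q₂ * J⌋₊ ω i)
      (fun ω => (G.X ⌊Q₁ * J⌋₊ ω i, (b ω, G.W ω)))
    linarith
  have t5 : CH G.p (fun ω => G.X ⌊Q₁ * J⌋₊ ω i) (fun ω => (b ω, G.W ω)) ≤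
      ((⌊Q₁ * (J : ℝ)⌋₊ : ℝ) - P i) * Real.log 2 + Real.log (2 * n + 9) := by
    refine (CH_le_dig hq _ _ (L := ((n : ℝ) + 3) * 2 ^ (⌊Q₁ * (J : ℝ)⌋₊ - P i) + 1)
      fun ω ω' h1 h2 h0 => ?_).trans ?_
    · have h3 := Prod.ext_iff.1 h0
      have h4 : G.T ω = G.T ω' := (Prod.ext_iff.1 h3.2).1
      have h5 : G.Z ω = G.Z ω' := (Prod.ext_iff.1 h3.2).2
      refine gra_dig (n := n) (hPle i hQ1) ?_
      rw [hP]
      exact near i h1 h2 h5 h4 fun j hj => hbi ω ω' h3.1 j (hlt j hj)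
    · refine (log_dig n _).trans (le_of_eq ?_)
      rw [Nat.cast_sub (hPle i hQ1)]
  have t6 : CH G.p (fun ω => G.X J ω i) (fun ω => (G.X ⌊Q₂ * J⌋₊ ω i, (G.X ⌊Q₁ * J⌋₊ ω i,
        (b ω, G.W ω)))) ≤ ((J : ℝ) - ⌊Q₂ * (J : ℝ)⌋₊) * Real.log 2 + Real.log (2 * n + 9) := by
    refine (CH_le_dig hq _ _ (L := ((n : ℝ) + 3) * 2 ^ (J - ⌊Q₂ * (J : ℝ)⌋₊) + 1)
      fun ω ω' _ _ h0 => ?_).trans ?_
    · refine gra_dig (n := n) hq₂ ?_
      have h1 := Int.abs_sub_lt_one_of_floor_eq_floor (Prod.ext_iff.1 h0).1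
      have pq : (0 : ℝ) < 2 ^ ⌊Q₂ * (J : ℝ)⌋₊ := by positivity
      rw [← mul_sub, abs_mul, abs_of_pos pq] at h1
      rw [le_div_iff₀ pq]
      linarith
    · refine (log_dig n _).trans (le_of_eq ?_)
      rw [Nat.cast_sub hq₂]
  -- the conclusion
  have t7 : CH G.p (fun ω => G.X ⌊Q₂ * J⌋₊ ω i) (fun ω => (G.X ⌊Q₁ * J⌋₊ ω i, (b ω, G.W ω))) ≤
      CH G.p (fun ω => G.X ⌊Q₂ * J⌋₊ ω i)
      (fun ω => ((G.X ⌊Q₁ * J⌋₊ ω i, Function.update (G.X J ω) i 0), G.W ω)) := by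
    refine CH_mono_cond hq.nonneg fun ω ω' _ _ h0 => ?_
    have h1 := Prod.ext_iff.1 h0
    have h2 := Prod.ext_iff.1 h1.2
    have h3 : b ω = b ω' := h2.1
    rw [hb] at h3
    exact Prod.ext (Prod.ext h1.1 h3) h2.2
  have hsum : ∑ l ∈ range (i : ℕ), (if hl : l < n then
      ((J : ℝ) - P ⟨l, hl⟩) * Real.log 2 + Real.log (2 * n + 9) else 0) ≤
      ((∑ j, (1 - s j)) - (1 - s i) + n * e) * J * Real.log 2 + n * Real.log 2 +
        n * Real.log (2 * n + 9) := by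
    have h1 : ∀ l ∈ range (i : ℕ), (if hl : l < n then
        ((J : ℝ) - P ⟨l, hl⟩) * Real.log 2 + Real.log (2 * n + 9) else 0) ≤
        (if hl : l < n then (1 - s ⟨l, hl⟩) * J * Real.log 2 else 0) +
          (e * J * Real.log 2 + Real.log 2 + Real.log (2 * n + 9)) := by
      intro l hl
      have hln : l < n := lt_trans (mem_range.1 hl) i.2
      rw [dif_pos hln, dif_pos hln]
      have h2 := hPge ⟨l, hln⟩
      have h3 : ((J : ℝ) - P ⟨l, hln⟩) * Real.log 2 ≤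
          ((1 - s ⟨l, hln⟩) * J + e * J + 1) * Real.log 2 :=
        mul_le_mul_of_nonneg_right (by linarith) hl2.le
      linarith
    refine (Finset.sum_le_sum h1).trans ?_
    rw [Finset.sum_add_distrib, Finset.sum_const, Finset.card_range, nsmul_eq_mul]
    have h2 : ∑ l ∈ range (i : ℕ), (if hl : l < n then (1 - s ⟨l, hl⟩) * (J : ℝ) * Real.log 2
        else 0) = ((∑ j, (1 - s j)) - (1 - s i)) * J * Real.log 2 := by
      have h3 : ∑ j : Fin n, (1 - s j) * (J : ℝ) * Real.log 2 = ∑ l ∈ range n,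
          (if hl : l < n then (1 - s ⟨l, hl⟩) * (J : ℝ) * Real.log 2 else 0) := by
        rw [Finset.sum_range]
        refine Finset.sum_congr rfl fun j _ => ?_
        rw [dif_pos j.2]
      have h4 : n = (i : ℕ) + 1 := hi.symm
      have h5 : ∑ l ∈ range n, (if hl : l < n then (1 - s ⟨l, hl⟩) * (J : ℝ) * Real.log 2 else 0) =
          ∑ l ∈ range (i : ℕ), (if hl : l < n then (1 - s ⟨l, hl⟩) * (J : ℝ) * Real.log 2 else 0) +
            (1 - s i) * J * Real.log 2 := by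
        have h6 : range n = range ((i : ℕ) + 1) := by rw [← h4]
        rw [h6, Finset.sum_range_succ, dif_pos i.2]
      rw [h5] at h3
      rw [sub_mul, sub_mul, Finset.sum_mul, Finset.sum_mul]
      linarith
    rw [h2]
    have h7 : ((i : ℕ) : ℝ) ≤ n := by exact_mod_cast i.2.le
    have h8 : 0 ≤ e * J * Real.log 2 + Real.log 2 + Real.log (2 * n + 9) := by positivity
    have h9 := mul_le_mul_of_nonneg_right h7 h8
    linarith
  have f1 : (⌊Q₁ * (J : ℝ)⌋₊ : ℝ) ≤ Q₁ * J :=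
    Nat.floor_le (mul_nonneg ((hs0 i).trans hQ1) hJ0)
  have f2 : Q₂ * (J : ℝ) < ⌊Q₂ * (J : ℝ)⌋₊ + 1 := Nat.lt_floor_add_one _
  have f3 := hPge i
  have t5' : ((⌊Q₁ * (J : ℝ)⌋₊ : ℝ) - P i) * Real.log 2 ≤
      ((Q₁ - s i + e) * J + 1) * Real.log 2 := mul_le_mul_of_nonneg_right (by linarith) hl2.le
  have t6' : ((J : ℝ) - ⌊Q₂ * (J : ℝ)⌋₊) * Real.log 2 ≤ ((1 - Q₂) * J + 1) * Real.log 2 :=
    mul_le_mul_of_nonneg_right (by linarith) hl2.le
  have f4 : (n + 1) * e * (J * Real.log 2) ≤ ρ / 4 * (J * Real.log 2) :=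
    mul_le_mul_of_nonneg_right heρ (by positivity)
  have f5 : 0 ≤ ρ / 4 * (J * Real.log 2) := by positivity
  rw [hC₂] at j2
  have hall := h.trans (t1.trans (le_of_eq t2))
  refine le_trans ?_ t7
  obtain ⟨R, hR⟩ : ∃ R, R = CH G.p (fun ω => G.X ⌊Q₂ * J⌋₊ ω i)
    (fun ω => (G.X ⌊Q₁ * J⌋₊ ω i, (b ω, G.W ω))) := ⟨_, rfl⟩
  rw [← hR] at t4 ⊢
  linarith

end Pool.NFT33
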