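import Pool.Agent.H83.REC.Exi

/-!
# Windows with new lines

`img F f`: the family with the lines `f (line, side information)` (the velocities are cut at `1`);
the sample space, the time and the side information do not change. `winI v f F`: the window of
`F` with the visible variable `v.y`, with new lines. `WyI S v f`: the class of these families;
`wyiZ v f`: the zoom of classes. `bas_wyi`: base statements.
-/

set_option autoImplicit false

namespace Pool.NFT33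

open Finset Real
open Pool.Agent.H49.Ent Pool.Agent.H32.Dense Pool.STK Pool.KA Pool.KSAT Pool.K2S Pool.PB Pool.S6C
open Pool.GEN Pool.REX Pool.REX83

variable {m n J : ℕ}

/-- **A family with new lines**: a function `f` of the line and of the side information. -/
noncomputable def img (F : Fam m J)
    (f : ((Fin m → ℝ) × (Fin m → ℝ)) × F.ζ → (Fin n → ℝ) × (Fin n → ℝ)) : Fam n J where
  Ω := F.Ω
  ζ := F.ζ
  fin := F.fin
  p := F.p
  u := fun ω => (f (F.l ω, F.Z ω)).1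
  d := fun ω i => max (-1) (min 1 ((f (F.l ω, F.Z ω)).2 i))
  T := F.T
  Z := F.Z
  isLaw := F.isLaw
  dir := fun ω i => abs_le.2 ⟨le_max_left _ _, max_le (by norm_num) (min_le_left _ _)⟩
  tim := F.tim

section fam

variable (F : Fam m J) (f : ((Fin m → ℝ) × (Fin m → ℝ)) × F.ζ → (Fin n → ℝ) × (Fin n → ℝ))

theorem img_l {ω ω' : F.Ω} (h : F.l ω = F.l ω') (hZ : F.Z ω = F.Z ω') :
    (img F f).l ω = (img F f).l ω' := by
  have h1 : (F.l ω, F.Z ω) = (F.l ω', F.Z ω') := Prod.ext h hZ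
  change ((f (F.l ω, F.Z ω)).1, fun i => max (-1 : ℝ) (min 1 ((f (F.l ω, F.Z ω)).2 i))) =
    ((f (F.l ω', F.Z ω')).1, fun i => max (-1 : ℝ) (min 1 ((f (F.l ω', F.Z ω')).2 i)))
  rw [h1]

theorem img_slam {w : ℕ} {ω ω' : F.Ω} (h : slam F w ω = slam F w ω') :
    slam (img F f) w ω = slam (img F f) w ω' := by
  have h0 : F.l ω = F.l ω' := congrArg Prod.fst h
  have h1 := congrArg Prod.snd h
  have h2 : F.Z ω = F.Z ω' := congrArg Prod.fst h1
  exact Prod.ext (img_l F f h0 h2) h1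

/-- The velocities which are not cut. -/
theorem img_d {ω : F.Ω} {i : Fin n} (h : |(f (F.l ω, F.Z ω)).2 i| ≤ 1) :
    (img F f).d ω i = (f (F.l ω, F.Z ω)).2 i := by
  have h2 := abs_le.1 h
  show max (-1) (min 1 ((f (F.l ω, F.Z ω)).2 i)) = _
  rw [min_eq_right h2.2, max_eq_right h2.1]

/-- The positions. -/
theorem img_x {ω : F.Ω} {i : Fin n} (h : |(f (F.l ω, F.Z ω)).2 i| ≤ 1) :
    (img F f).x ω i = (f (F.l ω, F.Z ω)).1 i + F.t ω * (f (F.l ω, F.Z ω)).2 i := by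
  have h1 : (img F f).x ω i = (f (F.l ω, F.Z ω)).1 i + F.t ω * (img F f).d ω i := rfl
  rw [h1, img_d F f h]

/-- The deficit of the time. -/
theorem img_tmQ {q : F.Ω → ℝ} (hq : IsLaw q) {e : ℝ} (h : TmQ F q e) : TmQ (img F f) q e := by
  unfold TmQ at h ⊢
  refine h.trans ?_
  change CH q F.T (fun ω => (F.l ω, F.Z ω)) ≤ CH q F.T (fun ω => ((img F f).l ω, F.Z ω))
  refine CH_mono_cond hq.nonneg fun ω ω' _ _ e => ?_
  have e1 : F.l ω = F.l ω' := congrArg Prod.fst e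
  have e2 : F.Z ω = F.Z ω' := congrArg Prod.snd e
  exact Prod.ext (img_l F f e1 e2) e2

end fam

/-- The new lines of the windows, for all families. -/
abbrev Nw (v : Vz m) (n : ℕ) : Type 1 := ∀ (J : ℕ) (F : Fam m J),
  ((Fin m → ℝ) × (Fin m → ℝ)) × (v.win F).ζ → (Fin n → ℝ) × (Fin n → ℝ)

/-- **The window with new lines.** -/
noncomputable def winI (v : Vz m) (f : Nw v n) (F : Fam m J) : Fam n (J - v.B J) :=
  img (v.win F) (f J F)

/-- The windows with new lines of the families of a class. -/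
inductive WyISt (S : PCl m) (v : Vz m) (f : Nw v n) (τ : ℝ) :
    ∀ (J : ℕ) (F : Fam n J), (F.Ω → Prop) → Prop
  | mk (J : ℕ) (F : Fam m J) (A : F.Ω → Prop) (hS : S.St τ J F A) :
      WyISt S v f τ (J - v.B J) (winI v f F) A

/-- **The class of the windows with new lines.** -/
def WyI (S : PCl m) (v : Vz m) (f : Nw v n) : PCl n where
  St := WyISt S v f
  mono := by
    rintro τ τ' J F A h ⟨J, F, A, hS⟩
    exact ⟨J, F, A, S.mono h hS⟩
  res := by
    rintro τ τ' J F A B h0 ⟨J, F, A, hS⟩ hB hP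
    refine ⟨J, F, B, S.res h0 hS hB (le_trans ?_ hP)⟩
    refine mul_le_mul_of_nonneg_right (Real.exp_le_exp.2 (neg_le_neg ?_)) (Pe_nonneg F.isLaw A)
    refine mul_le_mul_of_nonneg_left ?_ h0
    exact_mod_cast Nat.sub_le _ _

section cls

variable {S S' : PCl m} {v : Vz m} {f : Nw v n}

theorem wyi_mk {τ : ℝ} {F : Fam m J} {A : F.Ω → Prop} (hS : S.St τ J F A) :
    (WyI S v f).St τ (J - v.B J) (winI v f F) A := WyISt.mk J F A hS

theorem wyi_cases {τ : ℝ} {Φ : Stat n} (h : ∀ (J : ℕ) (F : Fam m J) (A : F.Ω → Prop),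
    S.St τ J F A → Φ (J - v.B J) (winI v f F) A) {F : Fam n J} {A : F.Ω → Prop}
    (hA : (WyI S v f).St τ J F A) : Φ J F A := by
  obtain ⟨J, F, A, hS⟩ := hA
  exact h J F A hS

theorem wyi_sub (h : ∀ (τ : ℝ) (J : ℕ) (F : Fam m J) (A : F.Ω → Prop), S'.St τ J F A →
    S.St τ J F A) (τ : ℝ) (J : ℕ) (F : Fam n J) (A : F.Ω → Prop) (hA : (WyI S' v f).St τ J F A) :
    (WyI S v f).St τ J F A :=
  wyi_cases (Φ := fun J F A => (WyI S v f).St τ J F A) (fun J F A hS => wyi_mk (h τ J F A hS)) hA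

theorem wyi_pos (hpos : ∀ (τ : ℝ) (J : ℕ) (F : Fam m J) (A : F.Ω → Prop), S.St τ J F A →
    0 < Pe F.p A) (τ : ℝ) (J : ℕ) (F : Fam n J) (A : F.Ω → Prop)
    (hA : (WyI S v f).St τ J F A) : 0 < Pe F.p A :=
  wyi_cases (Φ := fun _ F A => 0 < Pe F.p A) (fun J F A hS => hpos τ J F A hS) hA

/-- **Base statements.** -/
theorem bas_wyi {Φ : Stat n} :
    Bas (WyI S v f) Φ ↔ Bas S (fun J F A => Φ (J - v.B J) (winI v f F) A) := by
  constructor
  · rintro ⟨τ, hτ, J₁, h⟩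
    have hb1 := v.b1
    have hc : 0 < 1 - v.b := by linarith
    obtain ⟨J₂, hJ₂⟩ := exists_nat_ge (1 / (1 - v.b) * J₁)
    refine ⟨τ, hτ, J₂, fun J hJ F A hA => ?_⟩
    refine h (J - v.B J) ?_ (winI v f F) A (wyi_mk hA)
    have h3 := win_floor v J
    have h4 : (J₂ : ℝ) ≤ J := by exact_mod_cast hJ
    have h5 : 1 / (1 - v.b) * (J₁ : ℝ) ≤ 1 / (1 - v.b) * ((J - v.B J : ℕ) : ℝ) := by linarith
    have h6 : (J₁ : ℝ) ≤ ((J - v.B J : ℕ) : ℝ) := le_of_mul_le_mul_left h5 (by positivity)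
    exact_mod_cast h6
  · rintro ⟨τ, hτ, J₁, h⟩
    refine ⟨τ, hτ, J₁, fun J hJ F A hA => ?_⟩
    exact wyi_cases (S := S) (v := v) (f := f) (τ := τ) (Φ := fun J F A => J₁ ≤ J → Φ J F A)
      (fun J F A hS hJ => h J (hJ.trans (Nat.sub_le _ _)) F A hS) hA hJ

theorem wyi_le {S₁ S₂ : PCl m} (h : S₂.Le S₁) {Φ : Stat n} (hb : Bas (WyI S₁ v f) Φ) :
    Bas (WyI S₂ v f) Φ := by
  obtain ⟨τ₀, hτ₀, h⟩ := h
  obtain ⟨τ, hτ, J₁, hb⟩ := hb
  refine ⟨min τ τ₀, lt_min hτ hτ₀, J₁, fun J hJ F A hA => hb J hJ F A ?_⟩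
  exact wyi_cases (S := S₂) (v := v) (f := f) (τ := min τ τ₀)
    (Φ := fun J F A => (WyI S₁ v f).St τ J F A) (fun J F A hS =>
      wyi_mk (S₁.mono (min_le_left _ _) (h _ (lt_min hτ hτ₀) (min_le_right _ _) J F A hS))) hA

theorem wyi_ne (hS : S.Ne) : (WyI S v f).Ne := by
  intro τ hτ J₁
  have hb1 := v.b1
  have hc : 0 < 1 - v.b := by linarith
  obtain ⟨J₂, hJ₂⟩ := exists_nat_ge (1 / (1 - v.b) * J₁)
  obtain ⟨J, hJ, F, A, hA⟩ := hS τ hτ J₂
  refine ⟨J - v.B J, ?_, winI v f F, A, wyi_mk hA⟩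
  have h3 := win_floor v J
  have h4 : (J₂ : ℝ) ≤ J := by exact_mod_cast hJ
  have h5 : 1 / (1 - v.b) * (J₁ : ℝ) ≤ 1 / (1 - v.b) * ((J - v.B J : ℕ) : ℝ) := by linarith
  have h6 : (J₁ : ℝ) ≤ ((J - v.B J : ℕ) : ℝ) := le_of_mul_le_mul_left h5 (by positivity)
  exact_mod_cast h6

/-- The events and the times. -/
theorem wyi_tmC {C₀ : ℝ} (hC : 0 ≤ C₀) (h : TmC S C₀) :
    TmC (WyI S v f) (C₀ * (1 / (1 - v.b))) := by
  intro τ J F A hτ hA
  refine wyi_cases (S := S) (v := v) (f := f) (τ := τ) (Φ := fun J F A => 0 < Pe F.p A ∧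
    ∀ h : IsLaw (Pool.Agent.H49.Ent.cond F.p A True),
      (F.res A True h).Tm (C₀ * (1 / (1 - v.b)) * τ * J)) ?_ hA
  intro J F A hS
  obtain ⟨h1, h2⟩ := h τ J F A hτ hS
  refine ⟨h1, fun hl => ?_⟩
  have h4 : TmQ F (Pool.Agent.H49.Ent.cond F.p A True) (C₀ * τ * J) := h2 hl
  have h5 := img_tmQ (v.win F) (f J F) hl (win_tm v F hl h4)
  have h6 := win_floor v J
  unfold TmQ at h5
  unfold Fam.Tm
  have h7 : C₀ * τ * (J : ℝ) ≤ C₀ * (1 / (1 - v.b)) * τ * ((J - v.B J : ℕ) : ℝ) := by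
    calc C₀ * τ * (J : ℝ) ≤ C₀ * τ * (1 / (1 - v.b) * ((J - v.B J : ℕ) : ℝ)) :=
          mul_le_mul_of_nonneg_left h6 (mul_nonneg hC hτ.le)
      _ = _ := by ring
  refine le_trans ?_ h5
  linarith

variable (v f)

/-- The families whose windows with new lines are in a class. -/
noncomputable def slI (S' : PCl n) : Sld m where
  P τ J F A := S'.St (1 / (1 - v.b) * τ) (J - v.B J) (winI v f F) A
  mono := by
    intro τ τ' J F A h h1
    have hb1 := v.b1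
    have : 0 < 1 - v.b := by linarith
    exact S'.mono (mul_le_mul_of_nonneg_left h (by positivity)) h1
  res := by
    intro τ τ' J F A B h0 h1 hB hP
    have hb1 := v.b1
    have hc : 0 < 1 - v.b := by linarith
    rw [mul_add]
    refine S'.res (by positivity) h1 hB (le_trans ?_ hP)
    refine mul_le_mul_of_nonneg_right (Real.exp_le_exp.2 (neg_le_neg ?_)) (Pe_nonneg F.isLaw A)
    calc τ' * (J : ℝ) ≤ τ' * (1 / (1 - v.b) * ((J - v.B J : ℕ) : ℝ)) :=
          mul_le_mul_of_nonneg_left (win_floor v J) h0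
      _ = 1 / (1 - v.b) * τ' * ((J - v.B J : ℕ) : ℝ) := by ring

theorem slI_ne {S₁ : PCl m} {S' : PCl n} (hne : S'.Ne)
    (hsub : ∀ (τ : ℝ) (J : ℕ) (F : Fam n J) (A : F.Ω → Prop), S'.St τ J F A →
    (WyI S₁ v f).St τ J F A) : (S₁.sl (slI v f S')).Ne := by
  have hb := v.b0
  have hb1 := v.b1
  have hc : 0 < 1 - v.b := by linarith
  have h1c : 1 ≤ 1 / (1 - v.b) := by
    rw [le_div_iff₀ hc]
    linarith
  intro τ hτ J₁
  obtain ⟨J, hJ, G, A, hA⟩ := hne τ hτ J₁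
  have hA' := hsub τ J G A hA
  have key := wyi_cases (S := S₁) (v := v) (f := f) (τ := τ) (Φ := fun J G A => J₁ ≤ J →
      S'.St τ J G A → ∃ J, J₁ ≤ J ∧ ∃ (F : Fam m J) (A : F.Ω → Prop),
        (S₁.sl (slI v f S')).St τ J F A) (by
    intro J F A hS hJ hA
    refine ⟨J, hJ.trans (Nat.sub_le _ _), F, A, hS, ?_⟩
    refine S'.mono ?_ hA
    calc τ = 1 * τ := (one_mul τ).symm
      _ ≤ 1 / (1 - v.b) * τ := mul_le_mul_of_nonneg_right h1c hτ.le) hA'
  obtain ⟨J, hJ, F, A, h⟩ := key hJ hA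
  exact ⟨J, hJ, F, A, h⟩

theorem slI_bas {S₁ : PCl m} {S' : PCl n} {Φ : Stat n} (hb : Bas S' Φ) :
    Bas (WyI (S₁.sl (slI v f S')) v f) Φ := by
  have hb1 := v.b1
  have hc : 0 < 1 - v.b := by linarith
  obtain ⟨τ, hτ, J₁, hb⟩ := hb
  refine ⟨(1 - v.b) * τ, mul_pos hc hτ, J₁, fun J hJ F A hA => ?_⟩
  refine wyi_cases (S := S₁.sl (slI v f S')) (v := v) (f := f)
    (τ := (1 - v.b) * τ) (Φ := fun J F A => J₁ ≤ J → Φ J F A) ?_ hA hJ
  intro J F A hS hJ
  refine hb _ hJ _ _ ?_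
  have h2 := hS.2
  have h3 : S'.St (1 / (1 - v.b) * ((1 - v.b) * τ)) (J - v.B J) (winI v f F) A := h2
  have e1 : 1 / (1 - v.b) * ((1 - v.b) * τ) = τ := by field_simp
  rwa [e1] at h3

/-- **The windows with new lines**, as a zoom of classes. -/
noncomputable def wyiZ : ZC m n where
  W S := WyI S v f
  sl S' := slI v f S'
  le h _ hb := wyi_le h hb
  ne := wyi_ne
  mono := wyi_sub
  pos := wyi_pos
  slne := slI_ne v f
  slbas := slI_bas v f

end cls

end Pool.NFT33
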