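import Pool.Agent.H33.NFT.Vex
import Pool.Agent.H65.NFT.Rem

/-!
# Full entropy modulo a direction, slopes at the exact time

`nft_ch0`: as `nft_cls`, for charts whose slopes are known at the exact time only.
-/

set_option autoImplicit false

namespace Pool.NFT33

open Finset Real MvPolynomial
open Pool.Agent.H49.Ent Pool.Agent.H32.Dense Pool.STK Pool.KA Pool.KSAT Pool.K2S Pool.PB Pool.GEN
open Pool.S6C Pool.GRD Pool.GRW Pool.TGT Pool.REX Pool.REX83 Pool.FRX Pool.MIC6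
open Pool.ORD65
open Pool.SUPA (SA FF)
open Pool.STAT.CLO (Inj)
open Pool.OWN17 (root_fix)

variable {m n J : ℕ}

/-- **Full entropy modulo a direction, for a class**, slopes at the exact time. -/
theorem nft_ch0 {N : ℕ} (hN : 1 ≤ N) (hFZ : FZX N) {x : ℝ} (hx : 0 ≤ x) (hFq : FZQ (N + 1) x)
    {S : PCl m} (hne : S.Ne) {C₀ : ℝ} (hC₀ : 0 ≤ C₀) (htm : TmC S C₀) {c : ℕ → Fin m}
    (hc : Inj c (N + 2)) {Λ : ∀ J : ℕ, Fam m J → Type}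
    {lab : ∀ (J : ℕ) (F : Fam m J), F.Ω → Λ J F} {X₀ w w₁ qm : ℝ}
    (hzm : ZmX S c (N + 1) lab X₀ w w₁ qm) {PN : ℝ} (hno : NoT S c (N + 1) lab PN w w₁ qm)
    {Ns : Finset (Fin m) → ℝ → ℝ → ℝ} (hNs : ActN S Ns) {P₀ h₁ P Q : ℝ}
    (hbit : Bas S (fun J F A => CH (Pool.Agent.H49.Ent.cond F.p A True) (lab J F)
      (fun ω => (F.D ⌊P₀ * J⌋₊ ω, (F.X J ω, F.W ω))) ≤ h₁ * J))
    (hP0 : 0 < P₀) (hPP : P₀ ≤ P) (hPQ : P < Q) (hQm : Q < qm) (hQ2 : Q < (1 - w₁) / 2)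
    (hact : h₁ / Real.log 2 < FF (Ns {c 0}) Q - FF (Ns {c 0}) P)
    {v : Vz m} {J₁ : ℕ} (hy : ∀ J ≥ J₁, ∀ F : Fam m J, ∃ ψ : Λ J F → v.κ J F,
      ∀ ω, v.y J F ω = ψ (lab J F ω))
    (hwb : w < v.b) (hbw : v.b < w₁) (hw1 : w₁ ≤ 1)
    {g : ℕ → ℕ → ℕ} {t ρ ρ₁ : ℕ → ℕ} {γ : ℕ → ℝ} {tt rr rr₁ q₁ C ε' : ℝ} (hε' : 0 < ε')
    (h : NmI (N + 1) v g (fun J => t J + ⌊ε' * J⌋₊) ρ ρ₁ γ tt rr rr₁ q₁ C) (hQq : Q < q₁)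
    {k K : ℕ} (hK : 1 ≤ K)
    (hk : 1 ≤ k) (hkn : k < N + 1) {d : ∀ (J : ℕ) (F : Fam m J), CD F v}
    (hρ : ∀ J ≥ J₁, ρ₁ J ≤ J - v.B J) (hg : ∀ J ≥ J₁, ∀ l ≤ N + 1, g J l + ρ₁ J ≤ J)
    (hch : Bas S (fun J F A => Ch0 F v c (N + 1) k (g J) K (t J) (ρ₁ J) (d J F) A))
    {a0 : ℝ} (hba : v.b ≤ a0) (ha1 : a0 + rr + tt < 1) (hball : BlC S v (c 0) a0)
    {δ : ℝ} (hδ : 0 < δ) (hb0 : a0 - γ 0 ≤ δ)
    (hX : (1 - a0) + (∑ l ∈ Ico 1 (N + 1), (1 - γ l)) - δ ≤ X₀) (hPN0 : 0 ≤ PN)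
    (hPN : PN ≤ γ (N + 1) + δ) (hwQ : w₁ + Q + rr + tt < 1) :
    ∃ S' : PCl m, S'.Ne ∧
      (∀ (τ : ℝ) (J : ℕ) (F : Fam m J) (A : F.Ω → Prop), S'.St τ J F A → S.St τ J F A) ∧
      ∀ ε : ℝ, 0 < ε → Bas S' (fun J F A =>
        (((N : ℝ) + 1 - x) * rr - LNf N * (δ + tt) - ε) * Real.log 2 * J ≤
          CH (Pool.Agent.H49.Ent.cond F.p A True)
            ((d J F).dg c (g J) k (N + 1) (ρ J))
            (fun ω : F.Ω => ((v.win F).Z ω, F.T ω))) := by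
  have h1 := chi_cls hC₀ htm v hρ hg hch hε'
  obtain ⟨S₁, -, hne₁, hsub₁, hch₁⟩ := root_fix (Δ := fun _ _ => Unit) hne
    (fun J F _ A => ChI F v c (N + 1) k (g J) K (t J + ⌊ε' * J⌋₊) (ρ₁ J) (d J F) A)
    (fun J F _ A B h hB => h.sub hB) (C := 2)
    (Bas.mono 0 h1 fun J _ F A ⟨B, hB, hP, h⟩ => ⟨(), B, hB, hP, h⟩)
  obtain ⟨S₂, hne₂, hsub₂, hH⟩ := nft_cls hN hFZ hx hFq hne₁ hC₀
    (fun τ J F A hτ hA => htm τ J F A hτ (hsub₁ τ J F A hA)) hc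
    (fun S' h1 h2 => hzm S' h1 fun τ J F A hA => hsub₁ τ J F A (h2 τ J F A hA))
    (fun S' h1 h2 => hno S' h1 fun τ J F A hA => hsub₁ τ J F A (h2 τ J F A hA))
    (actN_of_bas (fun Φ hΦ => Bas.sub hsub₁ hΦ) hNs) (Bas.sub hsub₁ hbit) hP0 hPP hPQ hQm hQ2 hact
    hy hwb hbw hw1 h hQq hK hk hkn
    ⟨1, one_pos, 0, fun J _ F A hA => hch₁ 1 J F A hA⟩ hba ha1 (hball.sub hsub₁) hδ hb0 hX hPN0
    hPN hwQ
  exact ⟨S₂, hne₂, fun τ J F A hA => hsub₁ τ J F A (hsub₂ τ J F A hA), hH⟩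

end Pool.NFT33
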