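import Pool.Agent.H33.NFT.Cls

/-!
# Full entropy modulo a direction, for a class: the theorem

`nft_cls`: in a class with exactness of the base behind closed values (`ZmX`), without closed labels
of the target (`NoT`), with a label with few bits and an active coordinate `c 0`, the heights of a
chart modulo a direction have full entropy, in a subclass: the loss is a constant times the defect
`δ` of the numbers and the size `tt` of the heights.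
-/

set_option autoImplicit false

namespace Pool.NFT33

open Finset Real MvPolynomial
open Pool.Agent.H49.Ent Pool.Agent.H32.Dense Pool.STK Pool.KA Pool.KSAT Pool.K2S Pool.PB Pool.GEN
open Pool.S6C Pool.GRD Pool.GRW Pool.TGT Pool.REX Pool.REX83 Pool.FRX Pool.MIC6
open Pool.ORD65
open Pool.SUPA (SA FF)
open Pool.STAT.CLO (Inj)

variable {m n J : ℕ}

/-- **Full entropy modulo a direction, for a class.** -/
theorem nft_cls {N : ℕ} (hN : 1 ≤ N) (hFZ : FZX N) {x : ℝ} (hx : 0 ≤ x) (hFq : FZQ (N + 1) x)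
    {S : PCl m} (hne : S.Ne) {C₀ : ℝ} (hC₀ : 0 ≤ C₀) (htm : TmC S C₀) {c : ℕ → Fin m}
    (hc : Inj c (N + 2)) {Λ : ∀ J : ℕ, Fam m J → Type}
    {lab : ∀ (J : ℕ) (F : Fam m J), F.Ω → Λ J F} {X₀ w w₁ qm : ℝ}
    (hzm : ZmX S c (N + 1) lab X₀ w w₁ qm) {PN : ℝ} (hno : NoT S c (N + 1) lab PN w w₁ qm)
    {Ns : Finset (Fin m) → ℝ → ℝ → ℝ} (hNs : ActN S Ns) {P₀ h₁ P Q : ℝ}
    (hbit : Bas S (fun J F A => CH (Pool.Agent.H49.Ent.cond F.p A True) (lab J F)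
      (fun ω => (F.D ⌊P₀ * J⌋₊ ω, (F.X J ω, F.W ω))) ≤ h₁ * J))
    (hP0 : 0 < P₀) (hPP : P₀ ≤ P) (hPQ : P < Q) (hQm : Q < qm) (hQ2 : Q < (1 - w₁) / 2)
    (hact : h₁ / Real.log 2 < FF (Ns {c 0}) Q - FF (Ns {c 0}) P)
    {v : Vz m} {J₁ : ℕ} (hy : ∀ J ≥ J₁, ∀ F : Fam m J, ∃ ψ : Λ J F → v.κ J F,
      ∀ ω, v.y J F ω = ψ (lab J F ω))
    (hwb : w < v.b) (hbw : v.b < w₁) (hw1 : w₁ ≤ 1)
    {g : ℕ → ℕ → ℕ} {t ρ ρ₁ : ℕ → ℕ} {γ : ℕ → ℝ} {tt rr rr₁ q₁ C : ℝ}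
    (h : NmI (N + 1) v g t ρ ρ₁ γ tt rr rr₁ q₁ C) (hQq : Q < q₁) {k K : ℕ} (hK : 1 ≤ K)
    (hk : 1 ≤ k) (hkn : k < N + 1) {d : ∀ (J : ℕ) (F : Fam m J), CD F v}
    (hch : Bas S (fun J F A => ChI F v c (N + 1) k (g J) K (t J) (ρ₁ J) (d J F) A))
    {a0 : ℝ} (hba : v.b ≤ a0) (ha1 : a0 + rr + tt < 1) (hball : BlC S v (c 0) a0)
    {δ : ℝ} (hδ : 0 < δ) (hb0 : a0 - γ 0 ≤ δ)
    (hX : (1 - a0) + (∑ l ∈ Ico 1 (N + 1), (1 - γ l)) - δ ≤ X₀) (hPN0 : 0 ≤ PN)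
    (hPN : PN ≤ γ (N + 1) + δ) (hwQ : w₁ + Q + rr + tt < 1) :
    ∃ S' : PCl m, S'.Ne ∧
      (∀ (τ : ℝ) (J : ℕ) (F : Fam m J) (A : F.Ω → Prop), S'.St τ J F A → S.St τ J F A) ∧
      ∀ ε : ℝ, 0 < ε → Bas S' (fun J F A =>
        (((N : ℝ) + 1 - x) * rr - LNf N * (δ + tt) - ε) * Real.log 2 * J ≤
          CH (Pool.Agent.H49.Ent.cond F.p A True)
            ((d J F).dg c (g J) k (N + 1) (ρ J))
            (fun ω : F.Ω => ((v.win F).Z ω, F.T ω))) := by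
  classical
  have hpos : ∀ (τ : ℝ) (J : ℕ) (F : Fam m J) (A : F.Ω → Prop), S.St τ J F A →
      0 < Pe F.p A := by
    intro τ J F A h
    by_cases hτ : 0 < τ
    · exact (htm τ J F A hτ h).1
    · exact (htm 1 J F A one_pos (S.mono (by linarith) h)).1
  have hposB : Bas S (fun _ F A => 0 < Pe F.p A) :=
    ⟨1, one_pos, 0, fun J _ F A hA => hpos 1 J F A hA⟩
  have hl2 : 0 < Real.log 2 := Real.log_pos one_lt_two
  have hb1 := v.b1
  have hcb : 0 < 1 - v.b := by linarith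
  have ht0 := h.t0
  have hr0 := h.r0
  obtain ⟨D0, hD0⟩ : ∃ D0, D0 = δ + tt := ⟨_, rfl⟩
  have hD00 : 0 < D0 := by rw [hD0]; linarith
  have hN0 : (1 : ℝ) ≤ N := by exact_mod_cast hN
  by_cases hrr : rr < (2 * N + 7) * D0
  · -- the trivial case
    refine ⟨S, hne, fun _ _ _ _ h => h, fun ε hε => hposB.mono 0 fun J _ F A h3 => ?_⟩
    have hq := isLaw_cond F.isLaw h3
    refine le_trans ?_ (CH_nonneg hq.nonneg _ _)
    have hJ0 : (0 : ℝ) ≤ J := Nat.cast_nonneg J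
    have h4 : ((N : ℝ) + 1 - x) * rr - LNf N * (δ + tt) - ε ≤ 0 := by
      rw [← hD0]
      unfold LNf
      have h5 : 0 ≤ x * rr := mul_nonneg hx hr0
      have h6 : ((N : ℝ) + 1) * rr ≤ ((N : ℝ) + 1) * ((2 * N + 7) * D0) :=
        mul_le_mul_of_nonneg_left hrr.le (by linarith)
      have h7 : 0 ≤ (2 * (N : ℝ) + 9) * D0 := by positivity
      linarith
    have h5 : (((N : ℝ) + 1 - x) * rr - LNf N * (δ + tt) - ε) * (Real.log 2 * J) ≤ 0 :=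
      mul_nonpos_of_nonpos_of_nonneg h4 (by positivity)
    linarith
  push Not at hrr
  -- the numbers
  obtain ⟨th, hth⟩ : ∃ th, th = ((N : ℝ) + 2) * D0 := ⟨_, rfl⟩
  obtain ⟨C', hC'⟩ : ∃ C', C' = C + 1 := ⟨_, rfl⟩
  have h' : NmI (N + 1) v g t ρ ρ₁ γ tt rr rr₁ q₁ C' := h.monoC (by rw [hC']; linarith)
  have hC0 := h.C0
  obtain ⟨θ, hθd⟩ : ∃ θ : ℕ → ℕ, θ = fun J : ℕ => ⌊th * (J : ℝ)⌋₊ := ⟨_, rfl⟩
  have hth0 : 0 ≤ th := by rw [hth]; positivity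
  have hθ1 : ∀ J : ℕ, th * J - C' ≤ θ J := fun J => by
    rw [hθd, hC']
    have := Nat.lt_floor_add_one (th * (J : ℝ))
    simp only
    linarith
  have hθ2 : ∀ J : ℕ, (θ J : ℝ) ≤ th * J := fun J => by
    rw [hθd]
    exact Nat.floor_le (mul_nonneg hth0 (Nat.cast_nonneg J))
  obtain ⟨e, he⟩ : ∃ e, e = ((N : ℝ) + 4) * D0 := ⟨_, rfl⟩
  obtain ⟨PN', hPN'⟩ : ∃ PN', PN' = ((1 - v.b) - rr + e) / (1 - v.b) := ⟨_, rfl⟩
  have hPNm : PN' * (1 - v.b) = (1 - v.b) - rr + e := by rw [hPN']; field_simp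
  obtain ⟨sN, hsN⟩ : ∃ sN, sN = ((N : ℝ) + 2) * D0 / (1 - v.b) := ⟨_, rfl⟩
  have hsNm : sN * (1 - v.b) = ((N : ℝ) + 2) * D0 := by rw [hsN]; field_simp
  obtain ⟨R₀, hR₀⟩ : ∃ R₀, R₀ = PN' + D0 / (1 - v.b) := ⟨_, rfl⟩
  have hR₀m : R₀ * (1 - v.b) = (1 - v.b) - rr + e + D0 := by
    rw [hR₀, add_mul, hPNm]
    field_simp
  obtain ⟨β, hβ⟩ : ∃ β, β = 1 - (rr + tt) / (1 - v.b) := ⟨_, rfl⟩
  have hβm : β * (1 - v.b) = 1 - v.b - (rr + tt) := by
    rw [hβ, sub_mul]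
    field_simp
  obtain ⟨β₀, hβ₀⟩ : ∃ β₀, β₀ = (a0 - v.b) / (1 - v.b) := ⟨_, rfl⟩
  have hβ₀m : β₀ * (1 - v.b) = a0 - v.b := by rw [hβ₀]; field_simp
  obtain ⟨w₁', hw₁'⟩ : ∃ w₁', w₁' = (w₁ - v.b) / (1 - v.b) := ⟨_, rfl⟩
  have hw₁m : (1 - v.b) * w₁' = w₁ - v.b := by rw [hw₁']; field_simp
  obtain ⟨qm', hqm'⟩ : ∃ qm', qm' = min qm q₁ / (1 - v.b) := ⟨_, rfl⟩
  have hqmm : (1 - v.b) * qm' = min qm q₁ := by rw [hqm']; field_simp
  obtain ⟨X₁, hX₁⟩ : ∃ X₁, X₁ = (X₀ - (∑ l ∈ Ico 1 (N + 1), (1 - γ l)) +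
    ((N + 1 - 1 : ℕ) : ℝ) * rr - rr - tt) / (1 - v.b) := ⟨_, rfl⟩
  have hX₁m : X₁ * (1 - v.b) = X₀ - (∑ l ∈ Ico 1 (N + 1), (1 - γ l)) +
    ((N + 1 - 1 : ℕ) : ℝ) * rr - rr - tt := by rw [hX₁]; field_simp
  have hP : 0 < P := hP0.trans_le hPP
  have hQ0 : 0 < Q := hP.trans hPQ
  -- comparison after multiplication
  have hcmp : ∀ {a b : ℝ}, a * (1 - v.b) ≤ b * (1 - v.b) → a ≤ b := fun h =>
    le_of_mul_le_mul_right h hcb
  have hcmp' : ∀ {a b : ℝ}, a * (1 - v.b) < b * (1 - v.b) → a < b := fun h =>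
    lt_of_mul_lt_mul_right h hcb.le
  -- the coordinates
  obtain ⟨idx, hidx⟩ : ∃ idx : ℕ → Fin (N + 1), ∀ l < N + 1, (idx l : ℕ) = l :=
    ⟨fun l => if h : l < N + 1 then ⟨l, h⟩ else 0, fun l hl => by
      show ((if h : l < N + 1 then (⟨l, h⟩ : Fin (N + 1)) else 0 : Fin (N + 1)) : ℕ) = l
      rw [dif_pos hl]⟩
  have hκ : ((idx 0 : Fin (N + 1)) : ℕ) = 0 := hidx 0 (by omega)
  obtain ⟨f, hf⟩ : ∃ f, f = nwC v (N + 1) c k ρ d := ⟨_, rfl⟩
  have him := imh_cls (ρ := ρ) h' hch hκ hK hkn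
  rw [← hf] at him
  -- activity
  have hrec : Bas S (fun J F A => CH (Pool.Agent.H49.Ent.cond F.p A True) (v.y J F)
      (fun ω => (F.D ⌊P₀ * J⌋₊ ω, (F.X J ω, F.W ω))) ≤ h₁ * J) := by
    refine Bas.mono J₁ (hbit.and hposB) ?_
    rintro J hJ F A ⟨h4, h5⟩
    have hq := isLaw_cond F.isLaw h5
    obtain ⟨ψ, hψ⟩ := hy J hJ F
    refine (CH_mono_left hq.nonneg fun ω ω' _ _ e => ?_).trans h4
    rw [hψ, hψ]
    exact congrArg ψ (Prod.ext_iff.1 e).1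
  obtain ⟨S₁, Na, hne₁, hsub₁, hNa, hFF⟩ := act_winI hne hpos hNs v f (c 0) (idx 0) hrec
    (k₁ := q₁) (him.mono 0 fun J _ F A h4 => h4.a) hP0.le hPP hPQ (by
      have := h.e3
      linarith) hQq.le hact
  -- flat or steep
  obtain ⟨S₂, hne₂, hsub₂, halt⟩ := alt_cls hne₁ (fun τ J F A hA => hpos τ J F A (hsub₁ τ J F A hA))
    (fun J F ω => |(d J F).ka ((v.win F).Z ω) (N + 1)|) (fun J => (2 : ℝ) ^ θ J)
  have hs₂ : ∀ (τ : ℝ) (J : ℕ) (F : Fam m J) (A : F.Ω → Prop), S₂.St τ J F A → S.St τ J F A :=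
    fun τ J F A hA => hsub₁ τ J F A (hsub₂ τ J F A hA)
  have hpos₂ : ∀ (τ : ℝ) (J : ℕ) (F : Fam m J) (A : F.Ω → Prop), S₂.St τ J F A →
      0 < Pe F.p A := fun τ J F A hA => hpos τ J F A (hs₂ τ J F A hA)
  have hch₂ := hch.sub hs₂
  have him₂ := him.sub hs₂
  have hkJ : ∀ J : ℕ, q₁ * J - C' ≤ ((⌊q₁ * (J : ℝ)⌋₊ : ℕ) : ℝ) := fun J => by
    rw [hC']
    have := Nat.lt_floor_add_one (q₁ * (J : ℝ))
    linarith
  have hzm₂ : ZmX S₂ c (N + 1) lab X₀ w w₁ qm := fun S' h1 h2 =>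
    hzm S' h1 fun τ J F A hA => hs₂ τ J F A (h2 τ J F A hA)
  have hno₂ : NoT S₂ c (N + 1) lab PN w w₁ qm := fun S' h1 h2 =>
    hno S' h1 fun τ J F A hA => hs₂ τ J F A (h2 τ J F A hA)
  have hzd : ZmD S₂ v f c (N + 1) lab X₀ w₁' qm' := by
    intro S₃ hne₃ hsub₃ wp hwp hwp1 q hq hqq V z z' hcl
    have a1 : (1 - v.b) * wp < (1 - v.b) * w₁' := mul_lt_mul_of_pos_left hwp1 hcb
    have a2 : (1 - v.b) * q < (1 - v.b) * qm' := mul_lt_mul_of_pos_left hqq hcb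
    rw [hqmm] at a2
    exact zmx_down hzm₂ hy hwb hw1 (Pi := fun J F y i => (d J F).Pi c (g J) k y i) him₂ hkJ hne₃
      hsub₃ hwp (by linarith) hq (a2.trans_le (min_le_left _ _)) (a2.trans_le (min_le_right _ _))
      V z z' hcl
  -- no labels of the last coordinate
  have e3 := h.e3
  have hPN'0 : 0 ≤ PN' := hcmp (by
    rw [hPNm, zero_mul, he]
    have : 0 ≤ ((N : ℝ) + 4) * D0 := by positivity
    have := h.q0
    linarith)
  have hrrD : ((N : ℝ) + 4) * D0 + ((N : ℝ) + 3) * D0 ≤ rr := by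
    have : ((N : ℝ) + 4) * D0 + ((N : ℝ) + 3) * D0 = (2 * N + 7) * D0 := by ring
    linarith
  have hND : 0 ≤ (N : ℝ) * D0 := by positivity
  have hPN'1 : PN' ≤ 1 := hcmp (by
    rw [hPNm, one_mul, he]
    linarith)
  have htD : tt < D0 := by rw [hD0]; linarith
  have hδD : δ ≤ D0 := by rw [hD0]; linarith
  have hnoI : NoT (WyI S₂ v f) idx (N + 1 - 1) (fun _ F => F.Z) PN' 0 w₁' qm' := by
    rcases halt with hfl | hst
    · refine not_img (by omega) hc hy f hidx hno₂ hwb (K := K) (ρJ := ρ)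
        (kJ := fun J => ⌊q₁ * (J : ℝ)⌋₊) (αJ := fun J => 2 ^ g J (N + 1) / 2 ^ θ J)
        ((hch₂.and (him₂.and hfl)).mono 0 ?_) (C₁ := 2 * C') (rr := rr) (αe := γ (N + 1) - th)
        (q₁ := q₁) (fun J => ?_) (fun J => ?_) (fun J => ?_) ?_ hw1 ?_ ?_ hPN0 hPN'0 hPN'1 ?_
      · rintro J - F A ⟨k1, k2, k3⟩
        exact ⟨_, _, _, k1.imN k2 (by omega) hK hkn hidx k3⟩
      · have := (abs_le.1 (h'.hρ J)).1
        have := h'.C0
        linarith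
      · have a1 := (abs_le.1 (h'.hg J (N + 1) le_rfl)).1
        have a2 := hθ2 J
        have a3 := h'.C0
        have a4 : (2 : ℝ) ^ g J (N + 1) / 2 ^ θ J =
            (2 : ℝ) ^ ((g J (N + 1) : ℝ) - (θ J : ℝ)) := by
          rw [Real.rpow_sub (by norm_num), Real.rpow_natCast, Real.rpow_natCast]
        rw [a4]
        refine Real.rpow_le_rpow_of_exponent_le (by norm_num) ?_
        linarith
      · have := hkJ J
        have := h'.C0
        linarith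
      · rw [hw₁m]
        linarith
      · rw [hqmm]
        exact min_le_left _ _
      · rw [hqmm]
        exact min_le_right _ _
      · rw [hPNm, he, hth]
        linarith
    · have hno' := no_img h' (by omega) hK hk hkn hch₂ hpos₂ (by rw [hf] at hzd; exact hzd) hidx
        (θ := θ) (th := th) hθ1 hst (a0 := a0) (by linarith) (hball.sub hs₂) (PN := PN')
        (e := rr + tt - th) hPN'0 hPN'1 (by
          rw [hth]
          linarith) (by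
          have a1 : (1 - v.b) * (1 - PN') = (1 - v.b) - PN' * (1 - v.b) := by ring
          rw [a1, hPNm, he, hth]
          linarith) le_rfl (by
          have a1 : ((N + 1 - 2 : ℕ) : ℝ) = N - 1 := by
            rw [show N + 1 - 2 = N - 1 by omega, Nat.cast_sub hN, Nat.cast_one]
          have a2 : ((N + 1 - 1 : ℕ) : ℝ) = N := by rw [Nat.add_sub_cancel]
          rw [a1, a2, hth]
          have a3 : (N : ℝ) * tt ≤ N * D0 := mul_le_mul_of_nonneg_left htD.le (by linarith)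
          have a4 : 1 - a0 + ((N : ℝ) - 1) * (rr + tt) + (rr + tt - (N + 2) * D0) +
              ∑ l ∈ Ico 1 (N + 1), (1 - γ l) - N * rr = (1 - a0 +
              ∑ l ∈ Ico 1 (N + 1), (1 - γ l) - δ) + (N * tt - N * D0) + (δ - 2 * D0) := by ring
          rw [a4]
          linarith)
      rw [← hf] at hno'
      exact hno'
  rw [Nat.add_sub_cancel] at hnoI
  -- the entropy of the points of the new lines
  have hNa₂ : ActN (WyI S₂ v f) Na := actN_of_bas (fun Φ hΦ => Bas.sub (wyi_sub hsub₂) hΦ) hNa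
  have hdv : ∀ {a b : ℝ}, a < b → a / (1 - v.b) < b / (1 - v.b) := fun hab =>
    div_lt_div_of_pos_right hab hcb
  have hdm : ∀ a : ℝ, a / (1 - v.b) * (1 - v.b) = a := fun a => by field_simp
  have hw₁m' : w₁' * (1 - v.b) = w₁ - v.b := by rw [mul_comm]; exact hw₁m
  have hN1 : ((N + 1 - 1 : ℕ) : ℝ) = N := by rw [Nat.add_sub_cancel]
  obtain ⟨S₃, hne₃, hsub₃, hH⟩ := nft_one (x := x) hN hFZ hFq hne₂ hC₀
    (fun τ J F A hτ hA => htm τ J F A hτ (hs₂ τ J F A hA)) h' hK hk hkn hch₂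
    (by rw [hf] at hzd; exact hzd) hidx (by rw [hf] at hNa₂; exact hNa₂)
    (P := P / (1 - v.b)) (Q := Q / (1 - v.b)) (div_pos hP hcb) (hdv hPQ) (by
      rw [hqm']
      exact hdv (lt_min hQm hQq)) (hcmp' (by
      rw [hdm]
      have a1 : (1 - w₁') / 2 * (1 - v.b) = ((1 - v.b) - w₁' * (1 - v.b)) / 2 := by ring
      rw [a1, hw₁m']
      linarith)) hFF (by rw [hf] at hnoI; exact hnoI) (by
      rw [hw₁']
      exact div_pos (by linarith) hcb) (hcmp' (by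
      rw [hw₁m']
      linarith)) hβm (sN := sN) (R₀ := R₀) hba hβ₀m (hball.sub hs₂) (by
      rw [hsN]
      positivity) (hcmp (by
      rw [hβm, zero_mul]
      linarith [h.q0])) (hcmp (by
      rw [hβ₀m, hβm]
      linarith)) (hcmp (by
      rw [add_mul, hβm, hsNm, one_mul]
      linarith)) (hcmp' (by
      rw [add_mul, add_mul, hw₁m', hdm, hβm, hsNm]
      have : 0 ≤ ((N : ℝ) + 2) * D0 := by positivity
      linarith)) hX₁m.le (hcmp' (by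
      have a1 : ((1 - β₀) + ((N : ℝ) - 1) * (1 - β) - sN) * (1 - v.b) = (1 - v.b) -
          β₀ * (1 - v.b) +
          ((N : ℝ) - 1) * ((1 - v.b) - β * (1 - v.b)) - sN * (1 - v.b) := by ring
      rw [a1, hβm, hβ₀m, hsNm, hX₁m, hN1]
      have a3 : (N : ℝ) * tt ≤ N * D0 := mul_le_mul_of_nonneg_left htD.le (by linarith)
      linarith)) hPN'0 (by
      rw [hR₀]
      have : 0 < D0 / (1 - v.b) := div_pos hD00 hcb
      linarith) (hcmp (by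
      rw [sub_mul, one_mul, hR₀m, hsNm, he]
      linarith))
  refine ⟨S₃, hne₃, fun τ J F A hA => hs₂ τ J F A (hsub₃ τ J F A hA), fun ε hε => ?_⟩
  -- the numbers
  obtain ⟨Y, hY⟩ : ∃ Y, Y = X₁ + (1 - x) * (1 - sN - R₀) - ε / 2 := ⟨_, rfl⟩
  have hYm : (((N : ℝ) + 1 - x) * rr - (2 * N + 9) * D0 - ε / 2) + (1 - γ 0 - rr) ≤
      Y * (1 - v.b) := by
    have a1 : Y * (1 - v.b) = X₁ * (1 - v.b) + (1 - x) * ((1 - v.b) - sN * (1 - v.b) -
        R₀ * (1 - v.b)) - ε / 2 * (1 - v.b) := by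
      rw [hY]
      ring
    rw [a1, hX₁m, hsNm, hR₀m, hN1, he]
    have a2 : (1 - x) * ((1 - v.b) - ((N : ℝ) + 2) * D0 - ((1 - v.b) - rr + (N + 4) * D0 + D0)) =
        (1 - x) * rr - (2 * N + 7) * D0 + x * ((2 * N + 7) * D0) := by ring
    have a3 : 0 ≤ x * ((2 * N + 7) * D0) := by positivity
    have a4 : ε / 2 * (1 - v.b) ≤ ε / 2 * 1 :=
      mul_le_mul_of_nonneg_left (by linarith [v.b0]) (by linarith)
    rw [a2]
    rw [hD0] at a3 ⊢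
    linarith
  obtain ⟨C₂, hC₂⟩ : ∃ C₂ : ℝ, C₂ = (|Y| + 2 * C) * Real.log 2 +
    ((N + 1 : ℕ) : ℝ) * Real.log 7 := ⟨_, rfl⟩
  obtain ⟨J₂, hJ₂⟩ := bgJ (a := ε / 2 * Real.log 2) (by positivity) C₂
  refine (hH (ε / 2) (by linarith)).mono J₂ ?_
  intro J hJ F A k1
  rw [← hY] at k1
  have j1 := hJ₂ J hJ
  have hJ0 : (0 : ℝ) ≤ J := Nat.cast_nonneg J
  have a1 := (abs_le.1 (h.hg J 0 (Nat.zero_le _))).1
  have a2 := (abs_le.1 (h.hρ J)).1
  have a3 := wB v J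
  have b1 : Y * ((1 - v.b) * J) - |Y| ≤ Y * ((J - v.B J : ℕ) : ℝ) := by
    rw [wJ]
    have b2 : -(|Y| * 1) ≤ Y * (v.b * J - v.B J) := by
      have b3 : |Y * (v.b * J - v.B J)| ≤ |Y| * 1 := by
        rw [abs_mul]
        refine mul_le_mul_of_nonneg_left ?_ (abs_nonneg _)
        rw [abs_le]
        constructor <;> linarith
      exact (abs_le.1 b3).1
    linarith
  have b4 := mul_le_mul_of_nonneg_right hYm hJ0
  have b5 : ((((N : ℝ) + 1 - x) * rr - (2 * N + 9) * D0 - ε / 2) * J + (1 - γ 0 - rr) * J - |Y|) *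
      Real.log 2 ≤ Y * ((J - v.B J : ℕ) : ℝ) * Real.log 2 :=
    mul_le_mul_of_nonneg_right (by linarith) hl2.le
  have b6 : (((J : ℝ) - g J 0 - ρ J)) * Real.log 2 ≤ ((1 - γ 0 - rr) * J + 2 * C) * Real.log 2 :=
    mul_le_mul_of_nonneg_right (by linarith) hl2.le
  have b7 : LNf N * (δ + tt) * (Real.log 2 * J) ≥ (2 * N + 9) * D0 * (Real.log 2 * J) := by
    refine mul_le_mul_of_nonneg_right ?_ (by positivity)
    rw [← hD0]
    unfold LNf
    have : 0 ≤ ((N : ℝ) + 1) * (2 * N + 7) * D0 := by positivity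
    linarith
  rw [hC₂] at j1
  linarith

end Pool.NFT33
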