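import Pool.Agent.H33.NFT.Out

/-!
# The numbers of a chart in a class

`NmI`: the numbers of the charts of a class are proportional to `J`, up to constants. `imh_cls`: the
new lines are images. `sz_cls`: the new coordinates are small.
-/

set_option autoImplicit false

namespace Pool.NFT33

open Finset Real MvPolynomial
open Pool.Agent.H49.Ent Pool.Agent.H32.Dense Pool.STK Pool.KA Pool.KSAT Pool.K2S Pool.PB Pool.S6C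
open Pool.GEN Pool.REX Pool.REX83

variable {m n J : ℕ}

theorem bgJ {a : ℝ} (ha : 0 < a) (M : ℝ) : ∃ J₀ : ℕ, ∀ J ≥ J₀, M ≤ a * (J : ℝ) := by
  obtain ⟨J₀, hJ₀⟩ := exists_nat_ge (M / a)
  refine ⟨J₀, fun J hJ => ?_⟩
  have h1 : (J₀ : ℝ) ≤ J := by exact_mod_cast hJ
  have h2 := hJ₀.trans h1
  rw [div_le_iff₀ ha] at h2
  linarith

/-- **The numbers of the charts of a class.** -/
structure NmI (n₀ : ℕ) (v : Vz m) (g : ℕ → ℕ → ℕ) (t ρ ρ₁ : ℕ → ℕ) (γ : ℕ → ℝ)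
    (tt rr rr₁ q₁ C : ℝ) : Prop where
  C0 : 0 ≤ C
  hg : ∀ J, ∀ l ≤ n₀, |(g J l : ℝ) - γ l * J| ≤ C
  ht : ∀ J, |(t J : ℝ) - tt * J| ≤ C
  hρ : ∀ J, |(ρ J : ℝ) - rr * J| ≤ C
  hρ₁ : ∀ J, rr₁ * J - C ≤ ρ₁ J
  t0 : 0 ≤ tt
  r0 : 0 ≤ rr
  q0 : 0 < q₁
  e1 : rr + tt < rr₁
  e2 : ∀ l ≤ n₀, γ l + rr < 1
  e3 : q₁ + rr + tt < 1 - v.b

/-- The window of a class. -/
theorem wB (v : Vz m) (J : ℕ) : (v.B J : ℝ) ≤ v.b * J ∧ v.b * J < v.B J + 1 :=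
  ⟨Nat.floor_le (mul_nonneg v.b0 (Nat.cast_nonneg J)), Nat.lt_floor_add_one _⟩

theorem wJ (v : Vz m) (J : ℕ) : ((J - v.B J : ℕ) : ℝ) = J - v.B J :=
  Nat.cast_sub (v.floor_le J).1

section

variable {n₀ : ℕ} {v : Vz m} {g : ℕ → ℕ → ℕ} {t ρ ρ₁ : ℕ → ℕ} {γ : ℕ → ℝ} {tt rr rr₁ q₁ C : ℝ}

/-- The inequalities of the numbers. -/
theorem NmI.ev (h : NmI n₀ v g t ρ ρ₁ γ tt rr rr₁ q₁ C) : ∃ J₀ : ℕ, ∀ J ≥ J₀,
    ρ J + t J + 5 ≤ ρ₁ J ∧ (∀ l ≤ n₀, g J l + ρ J + 3 ≤ J) ∧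
    ⌊q₁ * J⌋₊ + ρ J + t J + 1 ≤ J - v.B J := by
  have h1 := h.e1
  have h3 := h.e3
  obtain ⟨J₁, k1⟩ := bgJ (a := rr₁ - (rr + tt)) (by linarith) (3 * C + 5)
  obtain ⟨J₂, k2⟩ := bgJ (a := 1 - v.b - (q₁ + rr + tt)) (by linarith) (2 * C + 1)
  have k3 : ∃ J₃ : ℕ, ∀ J ≥ J₃, ∀ l ≤ n₀, 2 * C + 3 ≤ (1 - (γ l + rr)) * (J : ℝ) := by
    have h4 : ∀ l : ℕ, ∃ J₃ : ℕ, l ≤ n₀ → ∀ J ≥ J₃, 2 * C + 3 ≤ (1 - (γ l + rr)) * (J : ℝ) := by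
      intro l
      by_cases hl : l ≤ n₀
      · have h5 := h.e2 l hl
        obtain ⟨J₃, h6⟩ := bgJ (a := 1 - (γ l + rr)) (by linarith) (2 * C + 3)
        exact ⟨J₃, fun _ => h6⟩
      · exact ⟨0, fun h' => absurd h' hl⟩
    choose f hf using h4
    refine ⟨(range (n₀ + 1)).sup f, fun J hJ l hl => hf l hl J (le_trans ?_ hJ)⟩
    exact Finset.le_sup (f := f) (mem_range.2 (by omega))
  obtain ⟨J₃, k3⟩ := k3
  refine ⟨max J₁ (max J₂ J₃), fun J hJ => ?_⟩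
  have j1 := k1 J ((le_max_left _ _).trans hJ)
  have j2 := k2 J (((le_max_left _ _).trans (le_max_right _ _)).trans hJ)
  have j3 := k3 J (((le_max_right _ _).trans (le_max_right _ _)).trans hJ)
  have a1 := abs_le.1 (h.ht J)
  have a2 := abs_le.1 (h.hρ J)
  have a3 := h.hρ₁ J
  have hJ0 : (0 : ℝ) ≤ J := Nat.cast_nonneg J
  refine ⟨?_, fun l hl => ?_, ?_⟩
  · have : ((ρ J + t J + 5 : ℕ) : ℝ) ≤ ρ₁ J := by
      push_cast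
      linarith [a1.1, a1.2, a2.1, a2.2]
    exact_mod_cast this
  · have a4 := abs_le.1 (h.hg J l hl)
    have a5 := j3 l hl
    have : ((g J l + ρ J + 3 : ℕ) : ℝ) ≤ J := by
      push_cast
      linarith [a4.1, a4.2, a2.1, a2.2]
    exact_mod_cast this
  · have a4 : (⌊q₁ * (J : ℝ)⌋₊ : ℝ) ≤ q₁ * J :=
      Nat.floor_le (mul_nonneg h.q0.le hJ0)
    have a5 := (wB v J).1
    have : ((⌊q₁ * (J : ℝ)⌋₊ + ρ J + t J + 1 : ℕ) : ℝ) ≤ ((J - v.B J : ℕ) : ℝ) := by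
      rw [wJ]
      push_cast
      linarith [a1.1, a1.2, a2.1, a2.2]
    exact_mod_cast this

/-- The new lines of a class of charts. -/
noncomputable def nwC (v : Vz m) (n : ℕ) (c : ℕ → Fin m) (k : ℕ) (ρ : ℕ → ℕ)
    (d : ∀ (J : ℕ) (F : Fam m J), CD F v) : Nw v n := fun J F => (d J F).nwl c k (ρ J)

variable {c : ℕ → Fin m} {k K : ℕ} {d : ∀ (J : ℕ) (F : Fam m J), CD F v} {S : PCl m}

/-- **The new lines are images.** -/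
theorem imh_cls (h : NmI n₀ v g t ρ ρ₁ γ tt rr rr₁ q₁ C)
    (hch : Bas S (fun J F A => ChI F v c n₀ k (g J) K (t J) (ρ₁ J) (d J F) A)) {κ : Fin n₀}
    (hκ : (κ : ℕ) = 0) (hK : 1 ≤ K) (hkn : k < n₀) :
    Bas S (fun J F A => ImH F v (nwC v n₀ c k ρ d) (c 0) κ K (ρ J) ⌊q₁ * J⌋₊
      (fun y i => (d J F).Pi c (g J) k y i) A) := by
  obtain ⟨J₀, hJ₀⟩ := h.ev
  refine hch.mono J₀ fun J hJ F A h1 => ?_
  obtain ⟨e1, e2, e3⟩ := hJ₀ J hJ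
  exact h1.imh rfl hκ hK hkn e1 e2 e3

/-- The time, from the time behind and the time in the window. -/
theorem win_T {F : Fam m J} {ω ω' : F.Ω} (eZ : (v.win F).Z ω = (v.win F).Z ω')
    (eT : F.T ω % 2 ^ (J - v.B J) = F.T ω' % 2 ^ (J - v.B J)) : F.T ω = F.T ω' := by
  have a2 : (v.y J F ω, F.c (v.B J) ω) = (v.y J F ω', F.c (v.B J) ω') := eZ
  have a3 : F.c (v.B J) ω = F.c (v.B J) ω' := congrArg Prod.snd a2
  have a4 : (F.T1 (v.B J) ω, fl (v.B J) (F.x1 (v.B J) ω)) =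
    (F.T1 (v.B J) ω', fl (v.B J) (F.x1 (v.B J) ω')) := congrArg Prod.fst a3
  have a5 : F.T ω / 2 ^ (J - v.B J) = F.T ω' / 2 ^ (J - v.B J) := congrArg Prod.fst a4
  have b1 := Nat.div_add_mod (F.T ω) (2 ^ (J - v.B J))
  have b2 := Nat.div_add_mod (F.T ω') (2 ^ (J - v.B J))
  rw [← b1, ← b2, a5, eT]

/-- **The first coordinate is known behind.** -/
def BlC (S : PCl m) (v : Vz m) (i : Fin m) (a0 : ℝ) : Prop :=
  ∃ Cb : ℝ, 1 ≤ Cb ∧ Bas S (fun J F A => ∀ ω ω', A ω → A ω' →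
    (v.win F).Z ω = (v.win F).Z ω' → F.T ω = F.T ω' →
      |F.x ω i - F.x ω' i| ≤ Cb / 2 ^ ⌊a0 * J⌋₊)

theorem BlC.sub {S S' : PCl m} {v : Vz m} {i : Fin m} {a0 : ℝ} (h : BlC S v i a0)
    (hs : ∀ (τ : ℝ) (J : ℕ) (F : Fam m J) (A : F.Ω → Prop), S'.St τ J F A → S.St τ J F A) :
    BlC S' v i a0 := by
  obtain ⟨C, h1, h2⟩ := h
  exact ⟨C, h1, h2.sub hs⟩

/-- **The new coordinates are small**, the first one is known behind. -/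
theorem sz_cls (h : NmI n₀ v g t ρ ρ₁ γ tt rr rr₁ q₁ C)
    (hch : Bas S (fun J F A => ChI F v c n₀ k (g J) K (t J) (ρ₁ J) (d J F) A)) {κ : Fin n₀}
    (hκ : (κ : ℕ) = 0) (hK : 1 ≤ K) (hkn : k < n₀) {β : ℝ}
    (hβ : β * (1 - v.b) = 1 - v.b - (rr + tt)) {a0 β₀ : ℝ} (hb0 : v.b ≤ a0)
    (hβ₀ : β₀ * (1 - v.b) = a0 - v.b) (hball : BlC S v (c 0) a0) :
    SzI (WyI S v (nwC v n₀ c k ρ d)) κ β₀ β := by
  have hb1 := v.b1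
  have hc : 0 < 1 - v.b := by linarith
  obtain ⟨Cb, hCb, hball⟩ := hball
  obtain ⟨C₂, hC₂⟩ := exists_nat_ge (2 * C + 2)
  have hβ₀0 : 0 ≤ β₀ := by
    by_contra hcon
    push Not at hcon
    have := mul_neg_of_neg_of_pos hcon hc
    linarith
  obtain ⟨C₃, hC₃⟩ := exists_nat_ge (1 + β₀)
  refine ⟨2 ^ C₂ + Cb * 2 ^ C₃, ?_, bas_wyi.2 ?_⟩
  · have p1 : (1 : ℝ) ≤ 2 ^ C₂ := one_le_pow₀ (by norm_num)
    have p2 : 0 ≤ Cb * 2 ^ C₃ := by positivity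
    linarith
  refine ((hch.and (imh_cls (ρ := ρ) h hch hκ hK hkn)).and hball).mono 0 ?_
  rintro J - F A ⟨⟨h1, h2⟩, h3⟩
  have a5 := wB v J
  have hJ0 : (0 : ℝ) ≤ J := Nat.cast_nonneg J
  refine ⟨fun ω ω' hω hω' eZ eT => ?_, fun ω hω i hi => (h1.size h2 hkn hω hi).trans ?_⟩
  · have eT' := win_T (v := v) (F := F) eZ eT
    rw [h2.x_sub hω hω' eZ, abs_mul, abs_of_pos (by positivity : (0 : ℝ) < 2 ^ v.B J)]
    have h4 := h3 ω ω' hω hω' eZ eT'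
    have h5 : (2 : ℝ) ^ v.B J * |F.x ω (c 0) - F.x ω' (c 0)| ≤
        2 ^ v.B J * (Cb / 2 ^ ⌊a0 * (J : ℝ)⌋₊) := mul_le_mul_of_nonneg_left h4 (by positivity)
    refine h5.trans ?_
    rw [← mul_div_assoc, div_le_div_iff₀ (by positivity) (by positivity)]
    have a6 : (⌊β₀ * ((J - v.B J : ℕ) : ℝ)⌋₊ : ℝ) ≤ β₀ * ((J - v.B J : ℕ) : ℝ) :=
      Nat.floor_le (mul_nonneg hβ₀0 (Nat.cast_nonneg _))
    have a7 : a0 * (J : ℝ) < ⌊a0 * (J : ℝ)⌋₊ + 1 := Nat.lt_floor_add_one _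
    have a8 : β₀ * ((J - v.B J : ℕ) : ℝ) ≤ β₀ * ((1 - v.b) * J + 1) := by
      refine mul_le_mul_of_nonneg_left ?_ hβ₀0
      rw [wJ]
      linarith [a5.2]
    have a9 : β₀ * ((1 - v.b) * J + 1) = (a0 - v.b) * J + β₀ := by
      rw [← hβ₀]
      ring
    have h9 : v.B J + ⌊β₀ * ((J - v.B J : ℕ) : ℝ)⌋₊ ≤ C₃ + ⌊a0 * (J : ℝ)⌋₊ := by
      have : ((v.B J + ⌊β₀ * ((J - v.B J : ℕ) : ℝ)⌋₊ : ℕ) : ℝ) ≤
          ((C₃ + ⌊a0 * (J : ℝ)⌋₊ : ℕ) : ℝ) := by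
        push_cast
        linarith [a5.1]
      exact_mod_cast this
    have h10 : (2 : ℝ) ^ (v.B J + ⌊β₀ * ((J - v.B J : ℕ) : ℝ)⌋₊) ≤
        2 ^ (C₃ + ⌊a0 * (J : ℝ)⌋₊) := pow_le_pow_right₀ (by norm_num) h9
    rw [pow_add, pow_add] at h10
    calc (2 : ℝ) ^ v.B J * Cb * 2 ^ ⌊β₀ * ((J - v.B J : ℕ) : ℝ)⌋₊ =
        Cb * (2 ^ v.B J * 2 ^ ⌊β₀ * ((J - v.B J : ℕ) : ℝ)⌋₊) := by ring
      _ ≤ Cb * (2 ^ C₃ * 2 ^ ⌊a0 * (J : ℝ)⌋₊) :=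
          mul_le_mul_of_nonneg_left h10 (by linarith)
      _ ≤ (2 ^ C₂ + Cb * 2 ^ C₃) * 2 ^ ⌊a0 * (J : ℝ)⌋₊ := by
          have : (0 : ℝ) ≤ 2 ^ C₂ * 2 ^ ⌊a0 * (J : ℝ)⌋₊ := by positivity
          linarith
  · refine le_trans ?_ (div_le_div_of_nonneg_right (by
      have : 0 ≤ Cb * 2 ^ C₃ := by positivity
      linarith : (2 : ℝ) ^ C₂ ≤ 2 ^ C₂ + Cb * 2 ^ C₃) (by positivity))
    rw [div_le_div_iff₀ (by positivity) (by positivity), ← pow_add, ← pow_add]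
    refine pow_le_pow_right₀ (by norm_num) ?_
    have a1 := abs_le.1 (h.ht J)
    have a2 := abs_le.1 (h.hρ J)
    have hβ0 : 0 ≤ β := by
      have h3 := h.e3
      have h4 := h.q0
      by_contra hcon
      push Not at hcon
      have := mul_neg_of_neg_of_pos hcon hc
      linarith
    have a6 : (⌊β * ((J - v.B J : ℕ) : ℝ)⌋₊ : ℝ) ≤ β * ((J - v.B J : ℕ) : ℝ) :=
      Nat.floor_le (mul_nonneg hβ0 (Nat.cast_nonneg _))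
    obtain ⟨J', hJ'⟩ : ∃ J' : ℝ, J' = ((J - v.B J : ℕ) : ℝ) := ⟨_, rfl⟩
    have hJ'1 : (1 - v.b) * J ≤ J' := by
      rw [hJ', wJ]
      linarith [a5.1]
    have a7 : (1 - v.b) * (β * J') = (1 - v.b) * J' - (rr + tt) * J' := by
      calc (1 - v.b) * (β * J') = β * (1 - v.b) * J' := by ring
        _ = _ := by rw [hβ]; ring
    have hrt : 0 ≤ rr + tt := add_nonneg h.r0 h.t0
    have a8 : (rr + tt) * ((1 - v.b) * J) ≤ (rr + tt) * J' := mul_le_mul_of_nonneg_left hJ'1 hrt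
    have a9 : β * J' ≤ J' - (rr + tt) * J := by
      have : (1 - v.b) * (β * J') ≤ (1 - v.b) * (J' - (rr + tt) * J) := by linarith
      exact le_of_mul_le_mul_left this hc
    rw [← hJ'] at a6
    have : ((ρ J + t J + 2 + ⌊β * J'⌋₊ : ℕ) : ℝ) ≤ ((C₂ + (J - v.B J) : ℕ) : ℝ) := by
      push_cast
      rw [← hJ']
      linarith [a1.1, a1.2, a2.1, a2.2]
    have h9 : ρ J + t J + 2 + ⌊β * J'⌋₊ ≤ C₂ + (J - v.B J) := by exact_mod_cast this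
    rw [hJ'] at h9
    exact h9

end

end Pool.NFT33
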