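import Pool.Agent.H33.NFT.Cnt
import Pool.Agent.H33.NFT.Bal

/-!
# The points of the new lines and the digits of the heights

`ChI.size`: the size of the new coordinates. `ChI.xb_up`: the entropy of the points of the new
lines of the base. `ChI.out`: the entropy of the points of the new lines is at most the entropy of
the digits of the heights modulo the direction, up to the digits of `c 0` behind.
-/

set_option autoImplicit false

namespace Pool.NFT33

open Finset Real MvPolynomial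
open Pool.Agent.H49.Ent Pool.Agent.H32.Dense Pool.STK Pool.KA Pool.KSAT Pool.K2S Pool.PB Pool.S6C
open Pool.GEN Pool.REX Pool.REX83
open Pool.TUB (lo lo_eq lo_ext seq_up CH_le_dig floor_dist)
open Pool.ORD65 (x_near X_near)

variable {m n J : ℕ}

/-- The entropy of a vector of integers. -/
theorem vec_up {Ω Γ : Type} [Fintype Ω] {q : Ω → ℝ} (hq : IsLaw q) (X : Ω → ℕ → ℤ) (N : ℕ)
    (Y : Ω → Γ) (L : ℕ → ℝ) (hL : ∀ l < N, ∀ ω ω', 0 < q ω → 0 < q ω' → Y ω = Y ω' →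
      |((X ω l - X ω' l : ℤ) : ℝ)| ≤ L l) :
    CH q (fun ω (l : Fin N) => X ω l) Y ≤ ∑ l ∈ range N, Real.log (2 * L l + 1) := by
  have h1 := seq_up hq X Y 0 (fun l => Real.log (2 * L l + 1)) N (Nat.zero_le _)
    fun l _ hl => CH_le_dig hq _ _ fun ω ω' h1 h2 hWe =>
      hL l hl ω ω' h1 h2 (Prod.ext_iff.1 hWe).2
  refine le_trans ?_ (h1.trans (le_of_eq ?_))
  · refine le_trans (CH_mono_cond hq.nonneg (W' := Y) (W := fun ω => (lo 0 X ω, Y ω))
      fun ω ω' _ _ e => ?_) (CH_mono_left hq.nonneg fun ω ω' _ _ e => ?_)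
    · have e0 : lo 0 X ω = lo 0 X ω' := lo_ext fun l hl => absurd hl (Nat.not_lt_zero l)
      exact Prod.ext e0 e
    · have e1 := (Prod.ext_iff.1 e).1
      funext l
      exact lo_eq e1 l.2
  · rw [Finset.range_eq_Ico]

section

variable {F : Fam m J} {v : Vz m} {c : ℕ → Fin m} {n₀ k K t ρ₁ ρ k₁ : ℕ} {g : ℕ → ℕ} {d : CD F v}
  {A : F.Ω → Prop} {f : Nw v n₀} {κ : Fin n₀}

/-- The heights modulo the direction. -/
theorem ChI.hm_le (h : ChI F v c n₀ k g K t ρ₁ d A) (hkn : k < n₀) {ω : F.Ω} (hω : A ω) {l : ℕ}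
    (hl : l ≤ n₀) : |d.hm c g k ω l| ≤ 2 * 2 ^ t :=
  d.mod_le (h.nat ω hω l hl) (h.nat ω hω k hkn.le)

/-- **The size of the new coordinates.** -/
theorem ChI.size (h : ChI F v c n₀ k g K t ρ₁ d A)
    (him : ImH F v f (c 0) κ K ρ k₁ (fun y i => d.Pi c g k y i) A) (hkn : k < n₀) {ω : F.Ω}
    (hω : A ω) {i : Fin n₀} (hi : i ≠ κ) :
    |(winI v f F).x ω i| ≤ 2 ^ (ρ + t + 2) / 2 ^ (J - v.B J) := by
  have h1 := him.near ω hω i hi
  rw [d.eval_Pi_bt] at h1
  have h2 := h.hm_le hkn hω (dl_le (k := k) i.2)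
  have h3 : |2 ^ ρ / 2 ^ (J - v.B J) * d.hm c g k ω (dl k i)| ≤
      2 ^ ρ / 2 ^ (J - v.B J) * (2 * 2 ^ t) := by
    rw [abs_mul, abs_of_pos (by positivity : (0 : ℝ) < 2 ^ ρ / 2 ^ (J - v.B J))]
    exact mul_le_mul_of_nonneg_left h2 (by positivity)
  have h4 : (winI v f F).x ω i = ((winI v f F).x ω i -
      2 ^ ρ / 2 ^ (J - v.B J) * d.hm c g k ω (dl k i)) +
      2 ^ ρ / 2 ^ (J - v.B J) * d.hm c g k ω (dl k i) := by ring
  rw [h4]
  refine (abs_add_le _ _).trans ?_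
  have e1 : (1 : ℝ) / 2 ^ (J - v.B J + 4) = 1 / 2 ^ (J - v.B J) * (1 / 16) := by
    rw [pow_add]
    field_simp
    norm_num
  rw [e1] at h1
  have e2 : (2 : ℝ) ^ (ρ + t + 2) / 2 ^ (J - v.B J) =
      1 / 2 ^ (J - v.B J) * (2 ^ ρ * 2 ^ t * 4) := by
    rw [pow_add, pow_add]
    ring
  have e3 : (2 : ℝ) ^ ρ / 2 ^ (J - v.B J) * (2 * 2 ^ t) =
      1 / 2 ^ (J - v.B J) * (2 ^ ρ * 2 ^ t * 2) := by ring
  rw [e2]
  rw [e3] at h3
  have p1 : (1 : ℝ) ≤ 2 ^ ρ := one_le_pow₀ (by norm_num)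
  have p2 : (1 : ℝ) ≤ 2 ^ t := one_le_pow₀ (by norm_num)
  have p3 : (1 : ℝ) ≤ 2 ^ ρ * 2 ^ t := one_le_mul_of_one_le_of_one_le p1 p2
  have p4 : (1 : ℝ) / 2 ^ (J - v.B J) * (1 / 16 + 2 ^ ρ * 2 ^ t * 2) ≤
      1 / 2 ^ (J - v.B J) * (2 ^ ρ * 2 ^ t * 4) :=
    mul_le_mul_of_nonneg_left (by linarith) (by positivity)
  linarith

/-- **The coordinate of the window, of two samples.** -/
theorem ImH.x_sub {Pi : (v.win F).ζ → Fin n₀ → MvPolynomial (Option (Fin m)) ℝ}
    (him : ImH F v f (c 0) κ K ρ k₁ Pi A) {ω ω' : F.Ω} (hω : A ω) (hω' : A ω')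
    (eZ : (v.win F).Z ω = (v.win F).Z ω') :
    (winI v f F).x ω κ - (winI v f F).x ω' κ = 2 ^ v.B J * (F.x ω (c 0) - F.x ω' (c 0)) := by
  rw [him.x0 hω, him.x0 hω', win_x, win_x]
  have a1 : fl (v.B J) (F.x1 (v.B J) ω) = fl (v.B J) (F.x1 (v.B J) ω') := by
    have a2 : (v.y J F ω, F.c (v.B J) ω) = (v.y J F ω', F.c (v.B J) ω') := eZ
    have a3 : F.c (v.B J) ω = F.c (v.B J) ω' := congrArg Prod.snd a2
    have a4 : (F.T1 (v.B J) ω, fl (v.B J) (F.x1 (v.B J) ω)) =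
      (F.T1 (v.B J) ω', fl (v.B J) (F.x1 (v.B J) ω')) := congrArg Prod.fst a3
    exact congrArg Prod.snd a4
  rw [a1]
  ring

/-- **The entropy of the points of the new lines of the base.** -/
theorem ChI.xb_up (h : ChI F v c n₀ k g K t ρ₁ d A)
    (him : ImH F v f (c 0) κ K ρ k₁ (fun y i => d.Pi c g k y i) A) (hκ : (κ : ℕ) = 0)
    (hkn : k < n₀) {q : F.Ω → ℝ} (hq : IsLaw q) (hA : ∀ ω, 0 < q ω → A ω) {N : ℕ}
    {idx : ℕ → Fin n₀} (hidx : ∀ l < N, (idx l : ℕ) = l) (hN : 1 ≤ N) {Γ : Type}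
    (Y : F.Ω → Γ) (hY : ∀ ω ω', 0 < q ω → 0 < q ω' → Y ω = Y ω' →
      (v.win F).Z ω = (v.win F).Z ω' ∧ F.T ω = F.T ω') {Cb : ℝ} (hCb : 0 ≤ Cb) {aJ : ℕ}
    (haJ : aJ ≤ J) (hball : ∀ ω ω', A ω → A ω' → (v.win F).Z ω = (v.win F).Z ω' →
      F.T ω = F.T ω' → |F.x ω (c 0) - F.x ω' (c 0)| ≤ Cb / 2 ^ aJ) :
    CH q (fun (ω : F.Ω) (l : Fin N) => (winI v f F).X (J - v.B J) ω (idx l)) Y ≤
      (((J : ℝ) - aJ) + ((N : ℝ) - 1) * ((ρ : ℝ) + t)) * Real.log 2 +
        N * Real.log (2 * Cb + 19) := by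
  have hB := (v.floor_le J).1
  have key := vec_up hq (fun ω l => (winI v f F).X (J - v.B J) ω (idx l)) N Y
    (fun l => if l = 0 then Cb * 2 ^ (J - aJ) + 1 else 2 ^ (ρ + t + 3) + 1)
    fun l hl ω ω' h1 h2 hYe => by
      obtain ⟨P, hP⟩ : ∃ P : ℝ, P = 2 ^ (J - v.B J) := ⟨_, rfl⟩
      have pP : 0 < P := by rw [hP]; positivity
      have hfd : ∀ {D : ℝ}, P * |(winI v f F).x ω (idx l) - (winI v f F).x ω' (idx l)| ≤ D →
          |(((winI v f F).X (J - v.B J) ω (idx l) - (winI v f F).X (J - v.B J) ω' (idx l) : ℤ)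
            : ℝ)| ≤ D + 1 := by
        intro D hD
        refine floor_dist ?_
        rwa [← hP, ← mul_sub, abs_mul, abs_of_pos pP]
      by_cases hl0 : l = 0
      · rw [if_pos hl0]
        have hi : idx l = κ := Fin.ext (by rw [hidx l hl, hl0, hκ])
        refine hfd ?_
        obtain ⟨eZ, eT⟩ := hY ω ω' h1 h2 hYe
        rw [hi, him.x_sub (hA ω h1) (hA ω' h2) eZ, abs_mul,
          abs_of_pos (by positivity : (0 : ℝ) < 2 ^ v.B J)]
        have h5 := hball ω ω' (hA ω h1) (hA ω' h2) eZ eT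
        have e6 : (2 : ℝ) ^ J = P * 2 ^ v.B J := by
          rw [hP, ← pow_add, Nat.sub_add_cancel hB]
        have e7 : (2 : ℝ) ^ J = 2 ^ (J - aJ) * 2 ^ aJ := by
          rw [← pow_add, Nat.sub_add_cancel haJ]
        rw [le_div_iff₀ (by positivity)] at h5
        calc P * (2 ^ v.B J * |F.x ω (c 0) - F.x ω' (c 0)|) =
            2 ^ (J - aJ) * (|F.x ω (c 0) - F.x ω' (c 0)| * 2 ^ aJ) := by
              rw [← mul_assoc, ← e6, e7]
              ring
          _ ≤ 2 ^ (J - aJ) * Cb := mul_le_mul_of_nonneg_left h5 (by positivity)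
          _ = Cb * 2 ^ (J - aJ) := mul_comm _ _
      · rw [if_neg hl0]
        have hi : idx l ≠ κ := fun h0 => hl0 (by rw [← hidx l hl, h0, hκ])
        refine hfd ?_
        have a1 := h.size him hkn (hA ω h1) hi
        have a2 := h.size him hkn (hA ω' h2) hi
        have a3 := abs_sub ((winI v f F).x ω (idx l)) ((winI v f F).x ω' (idx l))
        rw [← hP] at a1 a2
        have e1 : (2 : ℝ) ^ (ρ + t + 3) / P = 2 ^ (ρ + t + 2) / P + 2 ^ (ρ + t + 2) / P := by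
          rw [show ρ + t + 3 = ρ + t + 2 + 1 by ring, pow_succ]
          ring
        have e2 : P * (2 ^ (ρ + t + 3) / P) = 2 ^ (ρ + t + 3) := by field_simp
        rw [← e2]
        refine mul_le_mul_of_nonneg_left ?_ pP.le
        rw [e1]
        linarith
  refine key.trans ?_
  have e0 : ∀ l ∈ range N, Real.log (2 * (if l = 0 then Cb * 2 ^ (J - aJ) + 1 else
      2 ^ (ρ + t + 3) + 1) + 1) ≤ (if l = 0 then (((J : ℝ) - aJ) - (ρ + t)) * Real.log 2 else 0)
        + (((ρ : ℝ) + t) * Real.log 2 + Real.log (2 * Cb + 19)) := by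
    intro l _
    by_cases hl0 : l = 0
    · rw [if_pos hl0, if_pos hl0]
      have p1 : (1 : ℝ) ≤ 2 ^ (J - aJ) := one_le_pow₀ (by norm_num)
      have h2 : 2 * (Cb * 2 ^ (J - aJ) + 1) + 1 ≤ (2 * Cb + 19) * 2 ^ (J - aJ) := by linarith
      refine (Real.log_le_log (by positivity) h2).trans ?_
      rw [Real.log_mul (by positivity) (by positivity), Real.log_pow, Nat.cast_sub haJ]
      linarith
    · rw [if_neg hl0, if_neg hl0]
      have p1 : (1 : ℝ) ≤ 2 ^ (ρ + t) := one_le_pow₀ (by norm_num)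
      have h2 : 2 * ((2 : ℝ) ^ (ρ + t + 3) + 1) + 1 ≤ (2 * Cb + 19) * 2 ^ (ρ + t) := by
        rw [pow_add _ _ 3]
        have p2 : 0 ≤ Cb * 2 ^ (ρ + t) := by positivity
        linarith
      refine (Real.log_le_log (by positivity) h2).trans ?_
      rw [Real.log_mul (by positivity) (by positivity), Real.log_pow]
      push_cast
      linarith
  refine (Finset.sum_le_sum e0).trans (le_of_eq ?_)
  rw [Finset.sum_add_distrib, Finset.sum_ite_eq' (range N) 0, if_pos (mem_range.2 hN),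
    Finset.sum_const, Finset.card_range, nsmul_eq_mul]
  ring

/-- **The digits of the heights modulo the direction.** -/
noncomputable def CD.dg (d : CD F v) (c : ℕ → Fin m) (g : ℕ → ℕ) (k n₀ r : ℕ) (ω : F.Ω) :
    (Fin n₀ → ℤ) × ℤ :=
  (fun l => if (l : ℕ) ≠ k then ⌊(2 : ℝ) ^ r * d.hm c g k ω l⌋ else 0,
    ⌊(2 : ℝ) ^ r * d.hm c g k ω n₀⌋)

/-- **The points of the new lines, from the digits of the heights.** -/
theorem ChI.out (h : ChI F v c n₀ k g K t ρ₁ d A)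
    (him : ImH F v f (c 0) κ K ρ k₁ (fun y i => d.Pi c g k y i) A) (hκ : (κ : ℕ) = 0)
    (hk : 1 ≤ k) (hkn : k < n₀) (hg : g 0 + ρ ≤ J)
    {q : F.Ω → ℝ} (hq : IsLaw q) (hA : ∀ ω, 0 < q ω → A ω) :
    CH q (fun ω : F.Ω => (winI v f F).X (J - v.B J) ω) (fun ω : F.Ω => ((v.win F).Z ω, F.T ω)) ≤
      CH q (d.dg c g k n₀ ρ) (fun ω : F.Ω => ((v.win F).Z ω, F.T ω)) +
        (((J : ℝ) - g 0 - ρ) * Real.log 2 + n₀ * Real.log 7) := by
  classical
  have hB := (v.floor_le J).1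
  have hq0 : ∀ ω, 0 ≤ q ω := hq.nonneg
  obtain ⟨Y, hY⟩ : ∃ Y : F.Ω → (v.win F).ζ × ℕ, Y = fun ω : F.Ω => ((v.win F).Z ω, F.T ω) := ⟨_, rfl⟩
  obtain ⟨X, hX⟩ : ∃ X : F.Ω → Fin n₀ → ℤ, X = fun ω : F.Ω => (winI v f F).X (J - v.B J) ω :=
    ⟨_, rfl⟩
  rw [← hY, ← hX]
  have h1 : CH q X Y ≤ CH q (fun ω => (X ω, d.dg c g k n₀ ρ ω)) Y :=
    CH_mono_left hq0 fun ω ω' _ _ e => by
      have e1 := Prod.ext_iff.1 e
      exact (Prod.ext_iff.1 e1.1).1
  have h2 : CH q (fun ω => (X ω, d.dg c g k n₀ ρ ω)) Y = CH q (d.dg c g k n₀ ρ) Y +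
      CH q X (fun ω => (d.dg c g k n₀ ρ ω, Y ω)) := CH_chain hq0 _ _ _
  have pρ : (0 : ℝ) < 2 ^ ρ := by positivity
  obtain ⟨P, hP⟩ : ∃ P : ℝ, P = 2 ^ (J - v.B J) := ⟨_, rfl⟩
  have pP : 0 < P := by rw [hP]; positivity
  -- the digits
  have hdig : ∀ ω ω', d.dg c g k n₀ ρ ω = d.dg c g k n₀ ρ ω' → ∀ l, l ≤ n₀ → l ≠ k →
      2 ^ ρ * |d.hm c g k ω l - d.hm c g k ω' l| ≤ 1 := by
    intro ω ω' e l hl hlk
    have e0 : ⌊(2 : ℝ) ^ ρ * d.hm c g k ω l⌋ = ⌊(2 : ℝ) ^ ρ * d.hm c g k ω' l⌋ := by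
      by_cases hln : l < n₀
      · have e1 := congrFun (Prod.ext_iff.1 e).1 ⟨l, hln⟩
        unfold CD.dg at e1
        simp only at e1
        rwa [if_pos hlk, if_pos hlk] at e1
      · have e2 : l = n₀ := by omega
        rw [e2]
        exact (Prod.ext_iff.1 e).2
    have e3 := (Int.abs_sub_lt_one_of_floor_eq_floor e0).le
    rwa [← mul_sub, abs_mul, abs_of_pos pρ] at e3
  have h3 : CH q X (fun ω => (d.dg c g k n₀ ρ ω, Y ω)) ≤
      ((J : ℝ) - g 0 - ρ) * Real.log 2 + n₀ * Real.log 7 := by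
    have key := vec_up hq (fun ω l => if hl : l < n₀ then X ω ⟨l, hl⟩ else 0) n₀
      (fun ω => (d.dg c g k n₀ ρ ω, Y ω))
      (fun l => if l = 0 then 2 ^ (J - (g 0 + ρ)) + 1 else 3)
      fun l hl ω ω' h1 h2 hWe => by
        have e1 := Prod.ext_iff.1 hWe
        have e2 : Y ω = Y ω' := e1.2
        rw [hY] at e2
        have e3 := Prod.ext_iff.1 e2
        have eZ : (v.win F).Z ω = (v.win F).Z ω' := e3.1
        have eT : F.T ω = F.T ω' := e3.2
        simp only [dif_pos hl]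
        have hfd : ∀ {D : ℝ}, P * |(winI v f F).x ω ⟨l, hl⟩ - (winI v f F).x ω' ⟨l, hl⟩| ≤ D →
            |((X ω ⟨l, hl⟩ - X ω' ⟨l, hl⟩ : ℤ) : ℝ)| ≤ D + 1 := by
          intro D hD
          rw [hX]
          refine floor_dist ?_
          rwa [← hP, ← mul_sub, abs_mul, abs_of_pos pP]
        by_cases hl0 : l = 0
        · rw [if_pos hl0]
          have hi : (⟨l, hl⟩ : Fin n₀) = κ := Fin.ext (by
            show l = κ
            rw [hl0, hκ])
          refine hfd ?_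
          rw [hi, him.x0 (hA ω h1), him.x0 (hA ω' h2), win_x, win_x]
          have a1 : fl (v.B J) (F.x1 (v.B J) ω) = fl (v.B J) (F.x1 (v.B J) ω') := by
            have a2 : (v.y J F ω, F.c (v.B J) ω) = (v.y J F ω', F.c (v.B J) ω') := eZ
            have a3 : F.c (v.B J) ω = F.c (v.B J) ω' := congrArg Prod.snd a2
            have a4 : (F.T1 (v.B J) ω, fl (v.B J) (F.x1 (v.B J) ω)) =
              (F.T1 (v.B J) ω', fl (v.B J) (F.x1 (v.B J) ω')) := congrArg Prod.fst a3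
            exact congrArg Prod.snd a4
          rw [a1]
          have e4 : (2 : ℝ) ^ v.B J * F.x ω (c 0) - (fl (v.B J) (F.x1 (v.B J) ω') (c 0) : ℝ) -
              (2 ^ v.B J * F.x ω' (c 0) - (fl (v.B J) (F.x1 (v.B J) ω') (c 0) : ℝ)) =
              2 ^ v.B J * (F.x ω (c 0) - F.x ω' (c 0)) := by ring
          rw [e4, abs_mul, abs_of_pos (by positivity : (0 : ℝ) < 2 ^ v.B J)]
          have h5 := hdig ω ω' e1.1 0 (Nat.zero_le _) (by omega)
          have hka : ∀ y, d.ka y 0 = 0 := h.ka0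
          have hmx : ∀ y, d.mx y 0 = 1 := fun y => by
            unfold CD.mx
            rw [hka, abs_zero]
            exact max_eq_left zero_le_one
          unfold CD.hm at h5
          rw [hka, hka, hmx, hmx, zero_mul, zero_mul, sub_zero, sub_zero, div_one, div_one] at h5
          have ht : F.t ω = F.t ω' := by
            unfold Fam.t
            rw [eT]
          have h6 : eval (bt F ω) (d.Q ((v.win F).Z ω) 0) =
              eval (bt F ω') (d.Q ((v.win F).Z ω') 0) := by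
            rw [← eZ]
            exact h.dep _ 0 _ _ ht fun j hj => absurd hj (Nat.not_lt_zero j)
          have e5 : d.hgt c g ω 0 - d.hgt c g ω' 0 = 2 ^ g 0 * (F.x ω (c 0) - F.x ω' (c 0)) := by
            unfold CD.hgt
            rw [h6]
            ring
          rw [e5, abs_mul, abs_of_pos (by positivity : (0 : ℝ) < 2 ^ g 0)] at h5
          have e6 : (2 : ℝ) ^ J = P * 2 ^ v.B J := by
            rw [hP, ← pow_add, Nat.sub_add_cancel hB]
          have e7 : (2 : ℝ) ^ J = 2 ^ (J - (g 0 + ρ)) * (2 ^ g 0 * 2 ^ ρ) := by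
            rw [← pow_add, ← pow_add]
            congr 1
            omega
          have e8 : P * (2 ^ v.B J * |F.x ω (c 0) - F.x ω' (c 0)|) =
              2 ^ (J - (g 0 + ρ)) * (2 ^ ρ * (2 ^ g 0 * |F.x ω (c 0) - F.x ω' (c 0)|)) := by
            rw [← mul_assoc, ← e6, e7]
            ring
          rw [e8]
          calc (2 : ℝ) ^ (J - (g 0 + ρ)) * (2 ^ ρ * (2 ^ g 0 * |F.x ω (c 0) - F.x ω' (c 0)|)) ≤
              2 ^ (J - (g 0 + ρ)) * 1 := mul_le_mul_of_nonneg_left h5 (by positivity)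
            _ = _ := mul_one _
        · rw [if_neg hl0]
          have hi : (⟨l, hl⟩ : Fin n₀) ≠ κ := fun h0 => hl0 (by
            have := congrArg Fin.val h0
            rw [hκ] at this
            exact this)
          have a1 := him.near ω (hA ω h1) _ hi
          have a2 := him.near ω' (hA ω' h2) _ hi
          rw [d.eval_Pi_bt] at a1 a2
          have a3 := hdig ω ω' e1.1 (dl k l) (dl_le hl) (dl_ne k l)
          refine (hfd (D := 2) ?_).trans (by norm_num)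
          have e4 : (2 : ℝ) ^ (J - v.B J + 4) = P * 16 := by
            rw [hP, pow_add]
            norm_num
          rw [e4, ← hP] at a1 a2
          obtain ⟨a, ha⟩ : ∃ a, a = d.hm c g k ω (dl k l) := ⟨_, rfl⟩
          obtain ⟨a', ha'⟩ : ∃ a', a' = d.hm c g k ω' (dl k l) := ⟨_, rfl⟩
          rw [← ha, ← ha'] at a3
          have b1 : |(winI v f F).x ω ⟨l, hl⟩ - 2 ^ ρ / P * a| ≤ 1 / (P * 16) := by
            rw [ha]
            exact a1
          have b2 : |(winI v f F).x ω' ⟨l, hl⟩ - 2 ^ ρ / P * a'| ≤ 1 / (P * 16) := by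
            rw [ha']
            exact a2
          have b3 : |2 ^ ρ / P * a - 2 ^ ρ / P * a'| ≤ 1 / P := by
            rw [← mul_sub, abs_mul, abs_of_pos (by positivity : (0 : ℝ) < 2 ^ ρ / P)]
            calc 2 ^ ρ / P * |a - a'| = 1 / P * (2 ^ ρ * |a - a'|) := by ring
              _ ≤ 1 / P * 1 := mul_le_mul_of_nonneg_left a3 (by positivity)
              _ = _ := mul_one _
          have e5 : 1 / (P * 16) = 1 / P / 16 := by field_simp
          rw [e5] at b1 b2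
          have pP' : 0 < 1 / P := by positivity
          have b4 : |(winI v f F).x ω ⟨l, hl⟩ - (winI v f F).x ω' ⟨l, hl⟩| ≤ 2 * (1 / P) := by
            rw [abs_le] at b1 b2 b3 ⊢
            constructor <;> linarith [b1.1, b1.2, b2.1, b2.2, b3.1, b3.2]
          calc P * |(winI v f F).x ω ⟨l, hl⟩ - (winI v f F).x ω' ⟨l, hl⟩| ≤ P * (2 * (1 / P)) :=
                mul_le_mul_of_nonneg_left b4 pP.le
            _ = 2 := by field_simp
    have e1 : CH q X (fun ω => (d.dg c g k n₀ ρ ω, Y ω)) = CH q (fun ω (l : Fin n₀) =>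
        (fun ω l => if hl : l < n₀ then X ω ⟨l, hl⟩ else 0) ω (l : ℕ))
        (fun ω => (d.dg c g k n₀ ρ ω, Y ω)) := by
      refine congrArg (fun W : F.Ω → Fin n₀ → ℤ => CH q W (fun ω => (d.dg c g k n₀ ρ ω, Y ω))) ?_
      funext ω l
      show X ω l = if hl : (l : ℕ) < n₀ then X ω ⟨l, hl⟩ else 0
      rw [dif_pos l.2]
    rw [e1]
    refine key.trans ?_
    have e0 : ∀ l ∈ range n₀, Real.log (2 * (if l = 0 then (2 : ℝ) ^ (J - (g 0 + ρ)) + 1 else
        3) + 1) ≤ (if l = 0 then (((J : ℝ) - g 0 - ρ)) * Real.log 2 else 0) + Real.log 7 := by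
      intro l _
      by_cases hl0 : l = 0
      · rw [if_pos hl0, if_pos hl0]
        have p1 : (1 : ℝ) ≤ 2 ^ (J - (g 0 + ρ)) := one_le_pow₀ (by norm_num)
        have h2 : 2 * ((2 : ℝ) ^ (J - (g 0 + ρ)) + 1) + 1 ≤ 7 * 2 ^ (J - (g 0 + ρ)) := by linarith
        refine (Real.log_le_log (by positivity) h2).trans ?_
        rw [Real.log_mul (by norm_num) (by positivity), Real.log_pow, Nat.cast_sub hg]
        push_cast
        linarith
      · rw [if_neg hl0, if_neg hl0]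
        norm_num
    refine (Finset.sum_le_sum e0).trans (le_of_eq ?_)
    rw [Finset.sum_add_distrib, Finset.sum_ite_eq' (range n₀) 0, if_pos (mem_range.2 (by omega)),
      Finset.sum_const, Finset.card_range, nsmul_eq_mul]
  linarith

end

end Pool.NFT33
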