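import Pool.Agent.H33.NFT.Kst
import Pool.Agent.H89.NSL.Cht

/-!
# Full entropy modulo a direction, at the places of a kit

`nft_place`: at a place of the grid of a kit, in the subclasses with one datum, the heights of a
chart of the cell modulo a direction have full entropy, up to a constant times `t + (vv - j)` meshes.
-/

set_option autoImplicit false

namespace Pool.NFT33

open Finset Real MvPolynomial
open Pool.Agent.H49.Ent Pool.Agent.H32.Dense Pool.STK Pool.KA Pool.KSAT Pool.K2S Pool.PB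
open Pool.STAT Pool.STAT.CLO Pool.GEN Pool.S6C Pool.TGT Pool.SHF33 Pool.MIC6 Pool.GRW Pool.REX
open Pool.REX83 Pool.ORD65
open Pool.EXC33 (ZmQ)
open Pool.SUPA (FF)

variable {m : ℕ} {Θ : Type*} {n₀ : ℕ}

/-- The data of a grid with a chart of the cell. -/
abbrev DR (Kt : KitP m Θ n₀) (sh : ℕ → ℕ) (N M : ℕ) (θ : ℝ) (p : Θ) (b : ℕ → ℕ → ℕ → ℝ)
    (J : ℕ) (F : Fam m J) : Type :=
  (D : GDat F) × RawC (D.nd (Kt.cs p) (n₀ + 1) sh (up (Kt.y p).1 J) (up (msh (Kt.X p) N M) J) M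
      (fun i j l => ⌊b i j l * J⌋₊) (Kt.rc p N M θ J F D)).Γ
    (D.nd (Kt.cs p) (n₀ + 1) sh (up (Kt.y p).1 J) (up (msh (Kt.X p) N M) J) M
      (fun i j l => ⌊b i j l * J⌋₊) (Kt.rc p N M θ J F D)).Λ

/-- The constant of the loss at the places of a kit. -/
noncomputable def CNf (n₀ : ℕ) (T : ℝ) : ℝ :=
  2 * n₀ + LNf (n₀ - 1) * (n₀ * (T + 2) + 3) + 1

/-- **The levels at two places of a grid with the same number of digits of the direction.** -/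
theorem lev_diff {L : ℕ → ℝ → ℝ → ℝ} {ε T X : ℝ} {y : ℝ × ℝ} {la mu : ℕ → ℝ} {n N M : ℕ}
    (h : CellL n L ε T y X la mu) (hN : 1 ≤ N) (hε : ε * (64 * (N * (M + 4))) ≤ 1)
    {i j i' vv : ℕ} (hi : i ≤ M) (hv : vv ≤ M) (hjv : j < vv)
    (hii : i' + j = i + vv) {l : ℕ} (hl : l < n) :
    L l (y.1 + y.2 + i' * msh X N M) (y.1 + vv * msh X N M) -
      L l (y.1 + y.2 + i * msh X N M) (y.1 + j * msh X N M) ≤
      (T + 1) * ((vv : ℝ) - j) * msh X N M := by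
  obtain ⟨ζ, hζ⟩ : ∃ ζ, ζ = msh X N M := ⟨_, rfl⟩
  have hX := h.pos
  have hζ0 : 0 < ζ := by rw [hζ]; exact msh_pos hX hN
  have e1 : N * ((M + 4) * ζ) = X := by rw [hζ]; exact msh_mul hN
  have hN1 : (1 : ℝ) ≤ N := by exact_mod_cast hN
  have hM0 : (0 : ℝ) ≤ M := Nat.cast_nonneg M
  have hMζ : ((M : ℝ) + 4) * ζ ≤ X := by
    rw [← e1]
    exact le_mul_of_one_le_left (by positivity) hN1
  rw [← hζ]
  have hii' : (i' : ℝ) + j = i + vv := by exact_mod_cast hii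
  have hir : (i : ℝ) ≤ M := by exact_mod_cast hi
  have hvr : (vv : ℝ) ≤ M := by exact_mod_cast hv
  have hjr : (j : ℝ) + 1 ≤ vv := by exact_mod_cast hjv
  have hi0 : (0 : ℝ) ≤ i := Nat.cast_nonneg i
  have hj0 : (0 : ℝ) ≤ j := Nat.cast_nonneg j
  have hdist : ∀ a c : ℝ, |a| ≤ X → |c| ≤ X → dist (y.1 + a, y.2 + c) y ≤ X := by
    intro a c ha hc
    rw [Prod.dist_eq, Real.dist_eq, Real.dist_eq]
    simp only
    rw [add_sub_cancel_left, add_sub_cancel_left]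
    exact max_le ha hc
  have hc : |((i : ℝ) - j) * ζ| ≤ X := by
    rw [abs_mul, abs_of_pos hζ0]
    have h1 : |(i : ℝ) - j| ≤ M + 4 := by
      rw [abs_le]
      constructor <;> linarith
    exact (mul_le_mul_of_nonneg_right h1 hζ0.le).trans hMζ
  have hj : |(j : ℝ) * ζ| ≤ X := by
    rw [abs_mul, abs_of_pos hζ0, abs_of_nonneg hj0]
    exact (mul_le_mul_of_nonneg_right (by linarith) hζ0.le).trans hMζ
  have hvv : |(vv : ℝ) * ζ| ≤ X := by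
    rw [abs_mul, abs_of_pos hζ0, abs_of_nonneg (by linarith)]
    exact (mul_le_mul_of_nonneg_right (by linarith) hζ0.le).trans hMζ
  have a1 := h.aff l hl _ (hdist _ _ hj hc)
  have a2 := h.aff l hl _ (hdist _ _ hvv hc)
  have f1 : Pool.STR.Nw (L l) (y.1 + j * ζ, y.2 + ((i : ℝ) - j) * ζ) =
      L l (y.1 + y.2 + i * ζ) (y.1 + j * ζ) := by
    unfold Pool.STR.Nw
    simp only
    congr 1
    ring
  have f2 : Pool.STR.Nw (L l) (y.1 + vv * ζ, y.2 + ((i : ℝ) - j) * ζ) =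
      L l (y.1 + y.2 + i' * ζ) (y.1 + vv * ζ) := by
    unfold Pool.STR.Nw
    simp only
    congr 1
    have : (i' : ℝ) = i + vv - j := by linarith
    rw [this]
    ring
  rw [f1] at a1
  rw [f2] at a2
  simp only at a1 a2
  rw [abs_le] at a1 a2
  have hεX : ε * X ≤ ζ / 64 := by
    have h1 : ε * X = ε * (64 * (N * (M + 4))) * (ζ / 64) := by
      rw [← e1]
      ring
    rw [h1]
    calc ε * (64 * (N * (M + 4))) * (ζ / 64) ≤ 1 * (ζ / 64) :=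
          mul_le_mul_of_nonneg_right hε (by positivity)
      _ = ζ / 64 := one_mul _
  have hla : la l * (((vv : ℝ) - j) * ζ) ≤ T * (((vv : ℝ) - j) * ζ) :=
    mul_le_mul_of_nonneg_right (h.laT l hl) (mul_nonneg (by linarith) hζ0.le)
  have hjζ : ζ ≤ ((vv : ℝ) - j) * ζ := le_mul_of_one_le_left hζ0.le (by linarith)
  have e2 : (T + 1) * ((vv : ℝ) - j) * ζ = T * (((vv : ℝ) - j) * ζ) + ((vv : ℝ) - j) * ζ := by ring
  rw [e2]
  have e3 : la l * (y.1 + vv * ζ - y.1) + mu l * (y.2 + ((i : ℝ) - j) * ζ - y.2) =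
      la l * (vv * ζ) + mu l * (((i : ℝ) - j) * ζ) := by ring
  have e4 : la l * (y.1 + j * ζ - y.1) + mu l * (y.2 + ((i : ℝ) - j) * ζ - y.2) =
      la l * (j * ζ) + mu l * (((i : ℝ) - j) * ζ) := by ring
  rw [e3] at a2
  rw [e4] at a1
  linarith [a1.1, a1.2, a2.1, a2.2]

/-- **Full entropy modulo a direction, at a place of a kit.** -/
theorem nft_place {Nn : ℕ} (hNn : 1 ≤ Nn) (hFZ : FZX Nn) (hFq : Pool.FRX.FZQ (Nn + 1) 0)
    {Kt : KitP m Θ (Nn + 1)} {S : PCl m} {C₀ : ℝ} (hC₀ : 0 ≤ C₀) (htm : TmC S C₀) {p : Θ}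
    (hinj : Inj (Kt.cs p) (Nn + 1 + 1)) {N M : ℕ} {θ ε T : ℝ} {K' s₁ : ℕ} {sh : ℕ → ℕ}
    (hK' : 1 ≤ K')
    (hcell : CellL (Nn + 1 + 1) (Kt.L p) ε T (Kt.y p) (Kt.X p) (Kt.la p) (Kt.ml p))
    (hN : 4 ≤ N) (hNT : 4 * (T + 2) ≤ N) (hε0 : 0 ≤ ε) (hε : ε * (64 * (N * (M + 4))) ≤ 1)
    (hθ : 0 < θ) (hθ1 : θ ≤ 1 / 16)
    (hro : (Kt.y p).1 + 2 * (Kt.y p).2 + 2 * Kt.X p < 1) {ka ξ : ℝ}
    (hka : ka ≤ 1) (hξ : 0 < ξ) (hξ1 : ξ ≤ msh (Kt.X p) N M)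
    {b : ℕ → ℕ → ℕ → ℝ} {e : ℕ → ℕ → ℝ} (hb : Kt.Near p N M θ b e) {i j vv i' : ℕ}
    (hjv : j < vv) (hv : vv ≤ M) (hii : i' = i + (vv - j)) (hi' : i' ≤ M)
    {t U k Kc : ℕ} (ht : 1 ≤ t) (htU : t + 1 ≤ U) (hUM : U ≤ M) (hk : 1 ≤ k) (hkn : k < Nn + 1)
    (hKc : 1 ≤ Kc)
    (hzm : ZmQ Kt S K' s₁ sh N M θ p ka ξ b e i' vv)
    (hnt : NtQ Kt S K' s₁ sh N M θ p ξ b e i' vv) {h₁ : ℝ}
    (hlab : LabFQ Kt S K' s₁ sh N M θ p b e i' vv
      ((Kt.y p).2 + i' * msh (Kt.X p) N M - vv * msh (Kt.X p) N M + ξ / 4) h₁)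
    (hact : ActF S (Kt.cs p 0)
      ((Kt.y p).2 + i' * msh (Kt.X p) N M - vv * msh (Kt.X p) N M + ξ / 4)
      ((Kt.y p).2 + i' * msh (Kt.X p) N M - vv * msh (Kt.X p) N M + ξ / 2) h₁)
    {S' : PCl m} (hne : S'.Ne)
    (hsub : ∀ (τ : ℝ) (J : ℕ) (F : Fam m J) (A : F.Ω → Prop), S'.St τ J F A → S.St τ J F A)
    {d : ∀ (J : ℕ) (F : Fam m J), DR Kt sh N M θ p b J F}
    (hd : ∀ (τ : ℝ) (J : ℕ) (F : Fam m J) (A : F.Ω → Prop), S'.St τ J F A →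
      (Kt.grid K' s₁ sh p N M θ b e).Ok F (d J F).1 A ∧
      RawV (d J F).1 (Kt.cs p) (Nn + 1) sh (up (Kt.y p).1 J) (up (msh (Kt.X p) N M) J) M
        (fun i j l => ⌊b i j l * J⌋₊) (Kt.rc p N M θ J F (d J F).1) i j vv t U Kc (k + 1)
        (d J F).2 A) :
    ∃ S'' : PCl m, S''.Ne ∧
      (∀ (τ : ℝ) (J : ℕ) (F : Fam m J) (A : F.Ω → Prop), S''.St τ J F A → S'.St τ J F A) ∧
      Bas S'' (fun J F A =>
        ((Nn + 1) * U - CNf (Nn + 1) T * (t + ((vv : ℝ) - j))) * msh (Kt.X p) N M *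
          Real.log 2 * J ≤
        CH (Pool.Agent.H49.Ent.cond F.p A True)
          (fun ω : F.Ω => (((d J F).1.nd (Kt.cs p) (Nn + 1 + 1) sh (up (Kt.y p).1 J)
            (up (msh (Kt.X p) N M) J) M (fun i j l => ⌊b i j l * J⌋₊)
            (Kt.rc p N M θ J F (d J F).1)).ya (Nn + 1 + 1) (k + 1) J (up (Kt.y p).1 J)
              (up (msh (Kt.X p) N M) J) i j vv (d J F).2.Q (d J F).2.ka
              (U * up (msh (Kt.X p) N M) J) ω,
            ((d J F).1.nd (Kt.cs p) (Nn + 1 + 1) sh (up (Kt.y p).1 J)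
            (up (msh (Kt.X p) N M) J) M (fun i j l => ⌊b i j l * J⌋₊)
            (Kt.rc p N M θ J F (d J F).1)).yn (Nn + 1 + 1) (k + 1) J (up (Kt.y p).1 J)
              (up (msh (Kt.X p) N M) J) i j vv (d J F).2.Q (d J F).2.ka
              (U * up (msh (Kt.X p) N M) J) ω))
          (fun ω : F.Ω => (((d J F).1.nd (Kt.cs p) (Nn + 1 + 1) sh (up (Kt.y p).1 J)
            (up (msh (Kt.X p) N M) J) M (fun i j l => ⌊b i j l * J⌋₊)
            (Kt.rc p N M θ J F (d J F).1)).c i j ω, F.T ω))) := by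
  classical
  have hN1 : 1 ≤ N := by omega
  have hX := hcell.pos
  have hs := hcell.sideE (B := 1) (by omega) hN1 hNT (by omega) le_rfl hε0 hε hθ hθ1 hb
  have hiM : i ≤ M := by omega
  have hjM : j ≤ M := by omega
  have hdG : ∀ (τ : ℝ) (J : ℕ) (F : Fam m J) (A : F.Ω → Prop), S'.St τ J F A →
      (Kt.grid K' s₁ sh p N M θ b e).Ok F (d J F).1 A := fun τ J F A h => (hd τ J F A h).1
  obtain ⟨S₂, hne₂, hsub₂, hbit⟩ := hlab S' hne hsub (fun J F => (d J F).1) hdG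
  obtain ⟨S₃, Ns, hne₃, hsub₃, hNs, hFF⟩ := hact S₂ hne₂
    (fun τ J F A h => hsub τ J F A (hsub₂ τ J F A h))
  have hs₃' : ∀ (τ : ℝ) (J : ℕ) (F : Fam m J) (A : F.Ω → Prop), S₃.St τ J F A →
      S'.St τ J F A := fun τ J F A h => hsub₂ τ J F A (hsub₃ τ J F A h)
  have hs₃ : ∀ (τ : ℝ) (J : ℕ) (F : Fam m J) (A : F.Ω → Prop), S₃.St τ J F A → S.St τ J F A :=
    fun τ J F A h => hsub τ J F A (hs₃' τ J F A h)
  have hd₃ : ∀ (τ : ℝ) (J : ℕ) (F : Fam m J) (A : F.Ω → Prop), S₃.St τ J F A →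
      (Kt.grid K' s₁ sh p N M θ b e).Ok F ((fun J F => (d J F).1) J F) A :=
    fun τ J F A h => hdG τ J F A (hs₃' τ J F A h)
  have hpl := placeD_kit hd₃ hi' hv
  have hNζ : N * ((M + 4) * msh (Kt.X p) N M) = Kt.X p := msh_mul hN1
  have hζ0 := hs.ζ0
  have hwin := hs.win
  have htop := hcell.top
  have hdep := hcell.dep
  have hXw := hcell.win
  have hlow := fun l (hl : l < Nn + 1 + 1) => hb.lo i hiM j hjM l hl
  have hup' := fun l (hl : l < Nn + 1 + 1) => hb.up i' hi' vv hv l hl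
  have hlw' := fun l (hl : l < Nn + 1 + 1) => hb.lo i' hi' vv hv l hl
  have hposb := fun l (hl : l < Nn + 1 + 1) => hs.pos i hiM j hjM l hl
  have hposb' := fun l (hl : l < Nn + 1 + 1) => hs.pos i' hi' vv hv l hl
  have he1 := fun l (hl : l < Nn + 1 + 1) => hb.e1 i hiM j hjM l hl
  have he1' := fun l (hl : l < Nn + 1 + 1) => hb.e1 i' hi' vv hv l hl
  have he0 := hb.e0 i hiM j hjM
  have he0' := hb.e0 i' hi' vv hv
  have hld := fun l (hl : l < Nn + 1 + 1) => lev_diff hcell hN1 hε hiM hv hjv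
    (i := i) (j := j) (by omega : i' + j = i + vv) hl
  have hzx := zmx_of (w₁ := (Kt.y p).1 + vv * msh (Kt.X p) N M + ξ) hzm hs₃ hd₃ le_rfl
  have hir : (i' : ℝ) ≤ M := by exact_mod_cast hi'
  have hvr : (vv : ℝ) ≤ M := by exact_mod_cast hv
  have hjr : (j : ℝ) + 1 ≤ vv := by exact_mod_cast hjv
  have hUr : (U : ℝ) ≤ M := by exact_mod_cast hUM
  have htr : (t : ℝ) + 1 ≤ U := by exact_mod_cast htU
  have ht1 : (1 : ℝ) ≤ t := by exact_mod_cast ht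
  have hi0 : (0 : ℝ) ≤ i' := Nat.cast_nonneg i'
  have hj0 : (0 : ℝ) ≤ j := Nat.cast_nonneg j
  have hv0 : (0 : ℝ) ≤ vv := Nat.cast_nonneg vv
  have hNr : (4 : ℝ) ≤ N := by exact_mod_cast hN
  have hM0 : (0 : ℝ) ≤ M := Nat.cast_nonneg M
  have hMX : 4 * ((M + 4) * msh (Kt.X p) N M) ≤ Kt.X p := by
    have h1 : 0 ≤ (M + 4) * msh (Kt.X p) N M := by positivity
    have h2 := mul_le_mul_of_nonneg_right hNr h1
    linarith
  have hiζ : (i' : ℝ) * msh (Kt.X p) N M ≤ M * msh (Kt.X p) N M :=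
    mul_le_mul_of_nonneg_right hir hζ0.le
  have hvζ : (vv : ℝ) * msh (Kt.X p) N M ≤ M * msh (Kt.X p) N M :=
    mul_le_mul_of_nonneg_right hvr hζ0.le
  have hUζ : (U : ℝ) * msh (Kt.X p) N M ≤ M * msh (Kt.X p) N M :=
    mul_le_mul_of_nonneg_right hUr hζ0.le
  have htζ : ((t : ℝ) + 1) * msh (Kt.X p) N M ≤ U * msh (Kt.X p) N M :=
    mul_le_mul_of_nonneg_right htr hζ0.le
  have ht1ζ : 1 * msh (Kt.X p) N M ≤ t * msh (Kt.X p) N M :=
    mul_le_mul_of_nonneg_right ht1 hζ0.le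
  have hjvζ : 1 * msh (Kt.X p) N M ≤ ((vv : ℝ) - j) * msh (Kt.X p) N M :=
    mul_le_mul_of_nonneg_right (by linarith) hζ0.le
  have hMζ0 : 0 ≤ (M : ℝ) * msh (Kt.X p) N M := by positivity
  have hiζ0 : 0 ≤ (i' : ℝ) * msh (Kt.X p) N M := mul_nonneg hi0 hζ0.le
  have hvζ0 : 0 ≤ (vv : ℝ) * msh (Kt.X p) N M := mul_nonneg hv0 hζ0.le
  have hθζ : θ * msh (Kt.X p) N M ≤ 1 / 16 * msh (Kt.X p) N M :=
    mul_le_mul_of_nonneg_right hθ1 hζ0.le
  have hkaζ : ka * msh (Kt.X p) N M ≤ 1 * msh (Kt.X p) N M :=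
    mul_le_mul_of_nonneg_right hka hζ0.le
  have hMX' : 4 * ((M : ℝ) * msh (Kt.X p) N M) + 16 * msh (Kt.X p) N M ≤ Kt.X p := by
    linarith
  have hT0 : 0 ≤ T := (hcell.la0 0 (by omega)).trans (hcell.laT 0 (by omega))
  have hnn : (0 : ℝ) ≤ Nn := Nat.cast_nonneg Nn
  have hwJ := upd (Kt.y p).1 (msh (Kt.X p) N M) hwin hζ0.le vv
  -- the record
  obtain ⟨v, J₁, hvb, hvB, hvy1, hvy2⟩ := vz_ex
    (lab := fun J F => ((d J F).1.cd (Nn + 1 + 1) (Kt.rc p N M θ J F (d J F).1)).lab2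
      (up (Kt.y p).1 J) (up (msh (Kt.X p) N M) J) i' vv) hwJ hpl.1
    (b₁ := (Kt.y p).1 + vv * msh (Kt.X p) N M + ξ / 2) (by linarith) (by linarith) (by linarith)
  have hOk : Bas S₃ (fun J F A => (d J F).1.Ok (Kt.cs p) (Nn + 1 + 1) Kt.K K' s₁ sh
      (up ((Kt.y p).1 + (Kt.y p).2) J) (up (Kt.y p).1 J) (up (msh (Kt.X p) N M) J) M
      (fun i j => ⌊e i j * J⌋₊) (fun i j l => ⌊b i j l * J⌋₊) A) :=
    ⟨1, one_pos, 0, fun J _ F A hA => (hd₃ 1 J F A hA).1⟩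
  have hbl : BlP S₃ (Kt.cs p) (Nn + 1) (fun J F =>
      ((d J F).1.cd (Nn + 1 + 1) (Kt.rc p N M θ J F (d J F).1)).lab2 (up (Kt.y p).1 J)
        (up (msh (Kt.X p) N M) J) i' vv) (1 - Kt.X p / 2) (b i' vv) := by
    refine blp_cls hK' hinj (α := (Kt.y p).1 + (Kt.y p).2) (ϖ := (Kt.y p).1)
      (ζ := msh (Kt.X p) N M) (e := e) hi' hv hOk
      ⟨1, one_pos, 0, fun J _ F A hA => (hpl.2 1 J F A hA).1⟩ (by linarith) hζ0.le
      (by linarith) hposb' he0' (fun l hl => by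
        have := he1' l hl
        linarith)
  have hblc := blc_of (by omega) hbl hvy2
  -- large scales
  have hXU : 0 < Kt.X p - U * msh (Kt.X p) N M := by linarith
  obtain ⟨J₂, hJ₂⟩ := bgJ hXU (U : ℝ)
  have hUup : ∀ J : ℕ, ((U * up (msh (Kt.X p) N M) J : ℕ) : ℝ) ≤ U * msh (Kt.X p) N M * J + U := by
    intro J
    have h1 := mul_le_mul_of_nonneg_left (up_le hζ0.le J) (Nat.cast_nonneg U : (0 : ℝ) ≤ U)
    push_cast
    linarith
  have hρ₁ : ∀ J ≥ J₂, U * up (msh (Kt.X p) N M) J ≤ J - v.B J := by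
    intro J hJ
    have h1 := hJ₂ J hJ
    have h2 := hUup J
    have h3 := (wB v J).1
    rw [hvb] at h3
    have hJ0 : (0 : ℝ) ≤ J := Nat.cast_nonneg J
    have h4 : ((Kt.y p).1 + vv * msh (Kt.X p) N M + ξ / 2) * J ≤ (1 - Kt.X p) * J :=
      mul_le_mul_of_nonneg_right (by linarith) hJ0
    have h5 : ((U * up (msh (Kt.X p) N M) J + v.B J : ℕ) : ℝ) ≤ J := by
      push_cast at h2 ⊢
      linarith
    have h6 : U * up (msh (Kt.X p) N M) J + v.B J ≤ J := by exact_mod_cast h5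
    omega
  have hgJ : ∀ J ≥ J₂, ∀ l ≤ Nn + 1, (⌊b i j l * (J : ℝ)⌋₊ - sh (l + 1)) +
      U * up (msh (Kt.X p) N M) J ≤ J := by
    intro J hJ l hl
    have h1 := hJ₂ J hJ
    have h2 := hUup J
    have hJ0 : (0 : ℝ) ≤ J := Nat.cast_nonneg J
    have h3 : (⌊b i j l * (J : ℝ)⌋₊ : ℝ) ≤ b i j l * J :=
      Nat.floor_le (mul_nonneg (hposb l (by omega)).le hJ0)
    have h4 : b i j l * J ≤ (1 - Kt.X p) * J := by
      refine mul_le_mul_of_nonneg_right ?_ hJ0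
      have := he1 l (by omega)
      linarith
    have h5 : ((⌊b i j l * (J : ℝ)⌋₊ + U * up (msh (Kt.X p) N M) J : ℕ) : ℝ) ≤ J := by
      push_cast at h2 ⊢
      linarith
    have h6 : ⌊b i j l * (J : ℝ)⌋₊ + U * up (msh (Kt.X p) N M) J ≤ J := by exact_mod_cast h5
    omega
  -- the charts
  have hc : ∀ J ≥ max J₁ J₂, ∀ (F : Fam m J) (ω ω' : F.Ω), (v.win F).Z ω = (v.win F).Z ω' →
      ((d J F).1.nd (Kt.cs p) (Nn + 1 + 1) sh (up (Kt.y p).1 J) (up (msh (Kt.X p) N M) J) M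
        (fun i j l => ⌊b i j l * J⌋₊) (Kt.rc p N M θ J F (d J F).1)).cT J
          (up (Kt.y p).1 J + vv * up (msh (Kt.X p) N M) J) i j ω =
      ((d J F).1.nd (Kt.cs p) (Nn + 1 + 1) sh (up (Kt.y p).1 J) (up (msh (Kt.X p) N M) J) M
        (fun i j l => ⌊b i j l * J⌋₊) (Kt.rc p N M θ J F (d J F).1)).cT J
          (up (Kt.y p).1 J + vv * up (msh (Kt.X p) N M) J) i j ω' := by
    intro J hJ F ω ω' h
    have h1 := hvy2 J ((le_max_left _ _).trans hJ) F ω ω' (win_y h)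
    have h2 := (hvB J ((le_max_left _ _).trans hJ)).trans (v.floor_le J).1
    rw [hii] at h1
    exact Pool.NSL89.lab_key (d J F).1 (Kt.cs p) (Nn + 1 + 1) sh (up (Kt.y p).1 J)
      (up (msh (Kt.X p) N M) J) M (fun i j l => ⌊b i j l * J⌋₊)
      (Kt.rc p N M θ J F (d J F).1) hjv.le h2 h1
  have hch : Bas S₃ (fun J F A => Ch0 F v (Kt.cs p) (Nn + 1) k
      (fun l => ⌊b i j l * (J : ℝ)⌋₊ - sh (l + 1)) Kc (t * up (msh (Kt.X p) N M) J + 1)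
      (U * up (msh (Kt.X p) N M) J)
      (cdG F v (d J F).1 (Kt.cs p) (Nn + 1) sh (up (Kt.y p).1 J) (up (msh (Kt.X p) N M) J) M
        (fun i j l => ⌊b i j l * J⌋₊) (Kt.rc p N M θ J F (d J F).1) i j vv k (d J F).2) A) :=
    ⟨1, one_pos, max J₁ J₂, fun J hJ F A hA => ch0_of (hc J hJ F) (hd 1 J F A (hs₃' 1 J F A hA)).2 hk
      (hvB J ((le_max_left _ _).trans hJ))⟩
  -- the numbers
  obtain ⟨Csh, hCsh⟩ : ∃ Csh : ℝ, Csh = ∑ l ∈ range (Nn + 1 + 1), (sh (l + 1) : ℝ) := ⟨_, rfl⟩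
  have hCsh0 : 0 ≤ Csh := by
    rw [hCsh]
    exact Finset.sum_nonneg fun _ _ => Nat.cast_nonneg _
  have hshl : ∀ l < Nn + 1 + 1, (sh (l + 1) : ℝ) ≤ Csh := fun l hl => by
    rw [hCsh]
    exact Finset.single_le_sum (f := fun l => (sh (l + 1) : ℝ))
      (fun _ _ => Nat.cast_nonneg _) (mem_range.2 hl)
  have hU0 : (0 : ℝ) ≤ U := Nat.cast_nonneg U
  have hr0 : 0 ≤ ((U : ℝ) - t - 1) * msh (Kt.X p) N M :=
    mul_nonneg (by linarith) hζ0.le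
  have hNm : NmI (Nn + 1) v (fun J l => ⌊b i j l * (J : ℝ)⌋₊ - sh (l + 1))
      (fun J => (t * up (msh (Kt.X p) N M) J + 1) + ⌊(msh (Kt.X p) N M / 2) * (J : ℝ)⌋₊)
      (fun J => ⌊(((U : ℝ) - t - 1) * msh (Kt.X p) N M) * (J : ℝ)⌋₊)
      (fun J => U * up (msh (Kt.X p) N M) J) (b i j) ((t + 1 / 2) * msh (Kt.X p) N M)
      (((U : ℝ) - t - 1) * msh (Kt.X p) N M) (U * msh (Kt.X p) N M)
      (((Kt.y p).2 + i' * msh (Kt.X p) N M - vv * msh (Kt.X p) N M + ξ / 2) + ξ / 4)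
      (Csh + U + 3) := by
    refine ⟨by linarith, fun J l hl => ?_, fun J => ?_, fun J => ?_, fun J => ?_, by positivity,
      hr0, by linarith, by linarith, fun l hl => ?_, ?_⟩
    · exact (num_g (hposb l (by omega)).le (sh (l + 1)) J).trans
        (by linarith [hshl l (by omega)])
    · have h1 := abs_le.1 (num_t hζ0.le t J)
      have hJ0 : (0 : ℝ) ≤ J := Nat.cast_nonneg J
      have h2 : (⌊(msh (Kt.X p) N M / 2) * (J : ℝ)⌋₊ : ℝ) ≤ (msh (Kt.X p) N M / 2) * J :=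
        Nat.floor_le (by positivity)
      have h3 : (msh (Kt.X p) N M / 2) * (J : ℝ) < ⌊(msh (Kt.X p) N M / 2) * (J : ℝ)⌋₊ + 1 :=
        Nat.lt_floor_add_one _
      push_cast at h1 ⊢
      rw [abs_le]
      constructor <;> linarith [h1.1, h1.2]
    · have hJ0 : (0 : ℝ) ≤ J := Nat.cast_nonneg J
      have h2 : (⌊(((U : ℝ) - t - 1) * msh (Kt.X p) N M) * (J : ℝ)⌋₊ : ℝ) ≤
          (((U : ℝ) - t - 1) * msh (Kt.X p) N M) * J := Nat.floor_le (by positivity)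
      have h3 : (((U : ℝ) - t - 1) * msh (Kt.X p) N M) * (J : ℝ) <
          ⌊(((U : ℝ) - t - 1) * msh (Kt.X p) N M) * (J : ℝ)⌋₊ + 1 := Nat.lt_floor_add_one _
      rw [abs_le]
      constructor <;> linarith
    · have h1 := (abs_le.1 (num_t hζ0.le U J)).1
      linarith
    · have := he1 l (by omega)
      linarith
    · rw [hvb]
      linarith
  have hbitS : Bas S₃ (fun J F A => CH (Pool.Agent.H49.Ent.cond F.p A True)
        (((d J F).1.cd (Nn + 1 + 1) (Kt.rc p N M θ J F (d J F).1)).lab2 (up (Kt.y p).1 J)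
          (up (msh (Kt.X p) N M) J) i' vv)
        (fun ω => (F.D ⌊((Kt.y p).2 + i' * msh (Kt.X p) N M - vv * msh (Kt.X p) N M + ξ / 4) *
          J⌋₊ ω, (F.X J ω, F.W ω))) ≤ h₁ * J) := Bas.sub hsub₃ hbit
  obtain ⟨δ, hδ⟩ : ∃ δ : ℝ, δ = ((Nn + 1) * (T + 2) + 1) * (((vv : ℝ) - j) * msh (Kt.X p) N M) :=
    ⟨_, rfl⟩
  have hdz0 : 0 < ((vv : ℝ) - j) * msh (Kt.X p) N M := by linarith
  have hδ2 : (T + 2) * (((vv : ℝ) - j) * msh (Kt.X p) N M) ≤ δ := by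
    rw [hδ]
    refine mul_le_mul_of_nonneg_right ?_ hdz0.le
    have h1 : 0 ≤ (Nn : ℝ) * (T + 2) := by positivity
    linarith
  have h9 : 2 * (((vv : ℝ) - j) * msh (Kt.X p) N M) ≤
      (T + 2) * (((vv : ℝ) - j) * msh (Kt.X p) N M) :=
    mul_le_mul_of_nonneg_right (by linarith) hdz0.le
  have hδ0 : 0 < δ := by linarith
  have hLl : ∀ l < Nn + 1 + 1,
      Kt.L p l ((Kt.y p).1 + (Kt.y p).2 + i' * msh (Kt.X p) N M)
        ((Kt.y p).1 + vv * msh (Kt.X p) N M) ≤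
      b i j l + θ * msh (Kt.X p) N M + (T + 1) * (((vv : ℝ) - j) * msh (Kt.X p) N M) := by
    intro l hl
    have h1 := hld l hl
    have h2 := hlow l hl
    rw [mul_assoc] at h1
    linarith
  have hTd : (T + 2) * (((vv : ℝ) - j) * msh (Kt.X p) N M) =
      (T + 1) * (((vv : ℝ) - j) * msh (Kt.X p) N M) + ((vv : ℝ) - j) * msh (Kt.X p) N M := by ring
  have hsX : (1 - b i' vv 0) + (∑ l ∈ Ico 1 (Nn + 1), (1 - b i j l)) - δ ≤
      ∑ l ∈ range (Nn + 1), (1 - Kt.L p l ((Kt.y p).1 + (Kt.y p).2 + i' * msh (Kt.X p) N M)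
        ((Kt.y p).1 + vv * msh (Kt.X p) N M)) - ka * msh (Kt.X p) N M := by
    obtain ⟨Lp, hLp⟩ : ∃ Lp : ℕ → ℝ, Lp = fun l =>
      Kt.L p l ((Kt.y p).1 + (Kt.y p).2 + i' * msh (Kt.X p) N M)
        ((Kt.y p).1 + vv * msh (Kt.X p) N M) := ⟨_, rfl⟩
    have h1 : ∑ l ∈ Ico 1 (Nn + 1), (1 - b i j l) ≤ ∑ l ∈ Ico 1 (Nn + 1), ((1 - Lp l) +
        (θ * msh (Kt.X p) N M + (T + 1) * (((vv : ℝ) - j) * msh (Kt.X p) N M))) := by
      refine Finset.sum_le_sum fun l hl => ?_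
      have h2 := hLl l (by have := (Finset.mem_Ico.1 hl).2; omega)
      rw [hLp]
      simp only
      linarith
    rw [Finset.sum_add_distrib, Finset.sum_const, Nat.card_Ico, nsmul_eq_mul,
      Nat.add_sub_cancel] at h1
    have h2 : ∑ l ∈ range (Nn + 1), (1 - Lp l) = (1 - Lp 0) + ∑ l ∈ Ico 1 (Nn + 1), (1 - Lp l) := by
      rw [← Finset.sum_range_add_sum_Ico (fun l => 1 - Lp l) (show 1 ≤ Nn + 1 by omega),
        Finset.sum_range_one]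
    have h3 : ∑ l ∈ range (Nn + 1), (1 - Kt.L p l ((Kt.y p).1 + (Kt.y p).2 +
        i' * msh (Kt.X p) N M) ((Kt.y p).1 + vv * msh (Kt.X p) N M)) =
        ∑ l ∈ range (Nn + 1), (1 - Lp l) := by rw [hLp]
    have h4 : 1 - b i' vv 0 ≤ (1 - Lp 0) + θ * msh (Kt.X p) N M := by
      have := hlw' 0 (by omega)
      rw [hLp]
      simp only
      linarith
    rw [h3, h2, hδ]
    have h5 : ((Nn : ℝ) + 1) * (T + 2) + 1 = Nn * (T + 1) + (Nn + 1) + (T + 1) + 1 := by ring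
    have h6 : (((Nn : ℝ) + 1) * (T + 2) + 1) * (((vv : ℝ) - j) * msh (Kt.X p) N M) =
        Nn * ((T + 1) * (((vv : ℝ) - j) * msh (Kt.X p) N M)) +
        (Nn + 1) * (((vv : ℝ) - j) * msh (Kt.X p) N M) +
        (T + 2) * (((vv : ℝ) - j) * msh (Kt.X p) N M) := by
      rw [h5]
      ring
    rw [h6]
    have h7 : (Nn : ℝ) * (θ * msh (Kt.X p) N M) ≤ Nn * (((vv : ℝ) - j) * msh (Kt.X p) N M) :=
      mul_le_mul_of_nonneg_left (by linarith) hnn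
    have h8 : (Nn : ℝ) * (θ * msh (Kt.X p) N M +
        (T + 1) * (((vv : ℝ) - j) * msh (Kt.X p) N M)) =
        Nn * (θ * msh (Kt.X p) N M) + Nn * ((T + 1) * (((vv : ℝ) - j) * msh (Kt.X p) N M)) := by
      ring
    rw [h8] at h1
    linarith
  have hl0 := hcell.low 0 (by omega) ((Kt.y p).1 + (Kt.y p).2 + i' * msh (Kt.X p) N M)
    ((Kt.y p).1 + vv * msh (Kt.X p) N M) (by linarith) (by linarith) (by linarith)
  have hlN := hcell.low (Nn + 1) (by omega) ((Kt.y p).1 + (Kt.y p).2 + i' * msh (Kt.X p) N M)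
    ((Kt.y p).1 + vv * msh (Kt.X p) N M) (by linarith) (by linarith) (by linarith)
  have hlw0 := hlw' 0 (by omega)
  have hup0 := hup' 0 (by omega)
  have he10 := he1' 0 (by omega)
  have hLl0 := hLl 0 (by omega)
  have hLlN := hLl (Nn + 1) (by omega)
  obtain ⟨S₄, hne₄, hsub₄, hH⟩ := nft_ch0 hNn hFZ le_rfl hFq hne₃ hC₀
    (fun τ J F A hτ h => htm τ J F A hτ (hs₃ τ J F A h)) hinj hzx
    (PN := Kt.L p (Nn + 1) ((Kt.y p).1 + (Kt.y p).2 + i' * msh (Kt.X p) N M)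
        ((Kt.y p).1 + vv * msh (Kt.X p) N M) + msh (Kt.X p) N M / 4)
    (fun S₅ hne₅ hs₅ KQ wp q h1 h2 _ h4 hlb => hnt S₅ hne₅
      (fun τ J F A h => hs₃ τ J F A (hs₅ τ J F A h)) (fun J F => (d J F).1)
      (fun τ J F A h => hd₃ τ J F A (hs₅ τ J F A h)) wp h1 h2 q h4 KQ hlb)
    hNs hbitS (by linarith) le_rfl (by linarith) (by linarith) (by linarith) hFF
    (J₁ := max J₁ J₂) (fun J hJ => hvy1 J ((le_max_left _ _).trans hJ))
    (by rw [hvb]; linarith) (by rw [hvb]; linarith) (by linarith)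
    (ε' := msh (Kt.X p) N M / 2) (by linarith) hNm (by linarith) hKc hk hkn
    (d := fun J F => cdG F v (d J F).1 (Kt.cs p) (Nn + 1) sh (up (Kt.y p).1 J)
      (up (msh (Kt.X p) N M) J) M (fun i j l => ⌊b i j l * J⌋₊) (Kt.rc p N M θ J F (d J F).1)
      i j vv k (d J F).2)
    (fun J hJ => hρ₁ J ((le_max_right _ _).trans hJ))
    (fun J hJ => hgJ J ((le_max_right _ _).trans hJ)) hch
    (by rw [hvb]; linarith) (by linarith) hblc hδ0 (by linarith) hsX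
    (by linarith) (by linarith) (by linarith)
  refine ⟨S₄, hne₄, fun τ J F A h => hs₃' τ J F A (hsub₄ τ J F A h), ?_⟩
  have hRV : Bas S₄ (fun J F A => 0 < Pe F.p A ∧
      RawV (d J F).1 (Kt.cs p) (Nn + 1) sh (up (Kt.y p).1 J) (up (msh (Kt.X p) N M) J) M
        (fun i j l => ⌊b i j l * J⌋₊) (Kt.rc p N M θ J F (d J F).1) i j vv t U Kc (k + 1)
        (d J F).2 A) := ⟨1, one_pos, 0, fun J _ F A hA =>
    ⟨(htm 1 J F A one_pos (hs₃ 1 J F A (hsub₄ 1 J F A hA))).1,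
      (hd 1 J F A (hs₃' 1 J F A (hsub₄ 1 J F A hA))).2⟩⟩
  refine ((hH (msh (Kt.X p) N M) hζ0).and hRV).mono (max J₁ J₂) ?_
  rintro J hJ F A ⟨h, hA0, hR⟩
  have hq := isLaw_cond F.isLaw hA0
  have hJ0 : (0 : ℝ) ≤ J := Nat.cast_nonneg J
  have hrr : ⌊(((U : ℝ) - t - 1) * msh (Kt.X p) N M) * (J : ℝ)⌋₊ ≤
      U * up (msh (Kt.X p) N M) J := by
    have h2 : (⌊(((U : ℝ) - t - 1) * msh (Kt.X p) N M) * (J : ℝ)⌋₊ : ℝ) ≤
        (((U : ℝ) - t - 1) * msh (Kt.X p) N M) * J :=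
      Nat.floor_le (mul_nonneg hr0 hJ0)
    have h3 : (((U : ℝ) - t - 1) * msh (Kt.X p) N M) * J ≤ (U * msh (Kt.X p) N M) * J :=
      mul_le_mul_of_nonneg_right (by linarith) hJ0
    have h4 := mul_le_mul_of_nonneg_left (up_ge (msh (Kt.X p) N M) J) hU0
    have h5 : (⌊(((U : ℝ) - t - 1) * msh (Kt.X p) N M) * (J : ℝ)⌋₊ : ℝ) ≤
        ((U * up (msh (Kt.X p) N M) J : ℕ) : ℝ) := by
      push_cast
      linarith
    exact_mod_cast h5
  refine le_trans ?_ (h.trans (dg_le (hc J hJ F) hR hrr hq))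
  have hl2 : 0 < Real.log 2 := Real.log_pos one_lt_two
  refine mul_le_mul_of_nonneg_right (mul_le_mul_of_nonneg_right ?_ hl2.le) hJ0
  have hLN : 0 ≤ LNf Nn := by
    unfold LNf
    positivity
  obtain ⟨s, hs'⟩ : ∃ s : ℝ, s = (t : ℝ) + ((vv : ℝ) - j) := ⟨_, rfl⟩
  have hs1 : 1 ≤ s := by linarith
  have k1 : ((Nn : ℝ) + 1) * (t + 1) ≤ (Nn + 1) * (2 * s) :=
    mul_le_mul_of_nonneg_left (by linarith) (by linarith)
  have hA0' : 0 ≤ ((Nn : ℝ) + 1) * (T + 2) + 1 := by positivity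
  have k2 : (((Nn : ℝ) + 1) * (T + 2) + 1) * ((vv : ℝ) - j) + (t + 1 / 2) ≤
      (((Nn : ℝ) + 1) * (T + 2) + 3) * s := by
    have k3 : (((Nn : ℝ) + 1) * (T + 2) + 1) * ((vv : ℝ) - j) ≤
        (((Nn : ℝ) + 1) * (T + 2) + 1) * s := mul_le_mul_of_nonneg_left (by linarith) hA0'
    have k4 : (((Nn : ℝ) + 1) * (T + 2) + 3) * s = (((Nn : ℝ) + 1) * (T + 2) + 1) * s + 2 * s := by
      ring
    linarith
  have k5 := mul_le_mul_of_nonneg_left k2 hLN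
  have k6 : ((Nn : ℝ) + 1) * U - CNf (Nn + 1) T * s ≤ ((Nn : ℝ) + 1) * (U - t - 1) -
      LNf Nn * ((((Nn : ℝ) + 1) * (T + 2) + 1) * ((vv : ℝ) - j) + (t + 1 / 2)) - 1 := by
    unfold CNf
    rw [Nat.add_sub_cancel]
    push_cast
    have k7 : (2 * ((Nn : ℝ) + 1) + LNf Nn * ((Nn + 1) * (T + 2) + 3) + 1) * s =
        (Nn + 1) * (2 * s) + LNf Nn * (((Nn + 1) * (T + 2) + 3) * s) + s := by ring
    rw [k7]
    have k8 : ((Nn : ℝ) + 1) * (U - t - 1) = (Nn + 1) * U - (Nn + 1) * (t + 1) := by ring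
    rw [k8]
    linarith
  have k9 := mul_le_mul_of_nonneg_right k6 hζ0.le
  rw [← hs', hδ]
  refine k9.trans (le_of_eq ?_)
  ring

end Pool.NFT33
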