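import Pool.Agent.H33.NFT.Cdn
import Pool.Agent.H33.NFT.Fzq

/-!
# The record of a place

`vz_ex`: a record which is equivalent to a label of a place, at a slightly larger window.
`nm_ev`: the numbers of the charts of a place.
-/

set_option autoImplicit false

namespace Pool.NFT33

open Finset Real MvPolynomial
open Pool.Agent.H49.Ent Pool.Agent.H32.Dense Pool.STK Pool.KA Pool.KSAT Pool.K2S Pool.PB Pool.S6C
open Pool.GEN Pool.REX Pool.REX83 Pool.STAT Pool.STAT.CLO Pool.ORD65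
open Pool.EXC33 (lnV lnV_y)

variable {m J : ℕ}

/-- **A record which is equivalent to a label.** -/
theorem vz_ex {Λ : ∀ J : ℕ, Fam m J → Type} {lab : ∀ (J : ℕ) (F : Fam m J), F.Ω → Λ J F}
    {wJ : ℕ → ℕ} {w C₁ : ℝ} (hwJ : ∀ J, |(wJ J : ℝ) - w * J| ≤ C₁)
    (hline : ∀ (J : ℕ) (F : Fam m J), wJ J ≤ J → ∀ ω ω', slam F (wJ J) ω = slam F (wJ J) ω' →
      lab J F ω = lab J F ω') {b₁ : ℝ} (hw : w < b₁) (hb0 : 0 ≤ b₁) (hb1 : b₁ < 1) :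
    ∃ (v : Vz m) (J₁ : ℕ), v.b = b₁ ∧ (∀ J ≥ J₁, wJ J ≤ v.B J) ∧
      (∀ J ≥ J₁, ∀ F : Fam m J, ∃ ψ : Λ J F → v.κ J F, ∀ ω, v.y J F ω = ψ (lab J F ω)) ∧
      ∀ J ≥ J₁, ∀ (F : Fam m J) (ω ω' : F.Ω), v.y J F ω = v.y J F ω' →
        lab J F ω = lab J F ω' := by
  obtain ⟨J₁, hJ₁⟩ := bgJ (a := b₁ - w) (by linarith) (C₁ + 1 : ℝ)
  have hle : ∀ J ≥ J₁, wJ J ≤ ⌊b₁ * (J : ℝ)⌋₊ := by
    intro J hJ
    have j1 := hJ₁ J hJ
    have a2 := abs_le.1 (hwJ J)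
    have a3 : b₁ * (J : ℝ) < ⌊b₁ * (J : ℝ)⌋₊ + 1 := Nat.lt_floor_add_one _
    have : (wJ J : ℝ) ≤ ⌊b₁ * (J : ℝ)⌋₊ := by linarith
    exact_mod_cast this
  have hyJ : ∀ J ≥ J₁, ∀ F : Fam m J,
      (lnV b₁ hb0 hb1 Λ lab).y J F = fun ω => some (lab J F ω) := by
    intro J hJ F
    refine lnV_y fun ω ω' h => ?_
    have hJ0 : (0 : ℝ) ≤ J := Nat.cast_nonneg J
    have h1 := hle J hJ
    have h2 : ⌊b₁ * (J : ℝ)⌋₊ ≤ J := by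
      refine Nat.floor_le_of_le ?_
      have := mul_le_mul_of_nonneg_right hb1.le hJ0
      linarith
    exact hline J F (h1.trans h2) ω ω' (Pool.EXC33.slam_of h1 h2 h)
  refine ⟨lnV b₁ hb0 hb1 Λ lab, J₁, rfl, hle, fun J hJ F => ⟨some, fun ω => ?_⟩,
    fun J hJ F ω ω' h => ?_⟩
  · rw [hyJ J hJ F]
  · rw [hyJ J hJ F] at h
    exact Option.some.inj h

/-- The ball of the first coordinate. -/
theorem blc_of {S : PCl m} {c : ℕ → Fin m} {n₀ : ℕ} (hn : 1 ≤ n₀)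
    {Λ : ∀ J : ℕ, Fam m J → Type} {lab : ∀ (J : ℕ) (F : Fam m J), F.Ω → Λ J F} {ρR : ℝ}
    {b : ℕ → ℝ} (h : BlP S c n₀ lab ρR b) {v : Vz m} {J₁ : ℕ}
    (hvy : ∀ J ≥ J₁, ∀ (F : Fam m J) (ω ω' : F.Ω), v.y J F ω = v.y J F ω' →
      lab J F ω = lab J F ω') : BlC S v (c 0) (b 0) := by
  obtain ⟨C, hC, h1⟩ := h
  refine ⟨C, hC, h1.mono J₁ fun J hJ F A h2 ω ω' hω hω' hZ hT => ?_⟩
  exact h2 ω ω' hω hω' (hvy J hJ F ω ω' (win_y hZ)) hT 0 hn fun k hk => absurd hk (Nat.not_lt_zero k)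

/-- The digits of a number. -/
theorem num_g {x : ℝ} (hx : 0 ≤ x) (s J : ℕ) : |((⌊x * J⌋₊ - s : ℕ) : ℝ) - x * J| ≤ s + 1 := by
  have hJ0 : (0 : ℝ) ≤ J := Nat.cast_nonneg J
  have h1 : (⌊x * (J : ℝ)⌋₊ : ℝ) ≤ x * J := Nat.floor_le (mul_nonneg hx hJ0)
  have h2 : x * (J : ℝ) < ⌊x * (J : ℝ)⌋₊ + 1 := Nat.lt_floor_add_one _
  have hs : (0 : ℝ) ≤ s := Nat.cast_nonneg s
  rw [abs_le]
  rcases Nat.le_total s ⌊x * (J : ℝ)⌋₊ with h | h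
  · rw [Nat.cast_sub h]
    constructor <;> linarith
  · rw [Nat.sub_eq_zero_of_le h, Nat.cast_zero]
    have h3 : (⌊x * (J : ℝ)⌋₊ : ℝ) ≤ s := by exact_mod_cast h
    have h4 : 0 ≤ x * (J : ℝ) := mul_nonneg hx hJ0
    constructor <;> linarith

/-- The digits of a multiple of the mesh. -/
theorem num_t {ζ : ℝ} (hζ : 0 ≤ ζ) (t J : ℕ) : |((t * up ζ J : ℕ) : ℝ) - t * ζ * J| ≤ t := by
  have h1 := up_ge ζ J
  have h2 := up_le hζ J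
  have ht : (0 : ℝ) ≤ t := Nat.cast_nonneg t
  have h3 := mul_le_mul_of_nonneg_left h1 ht
  have h4 := mul_le_mul_of_nonneg_left h2 ht
  push_cast
  rw [abs_le]
  constructor <;> linarith

end Pool.NFT33
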