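import Pool.Agent.H33.NFT.Num

/-!
# Exactness of the image class, by counting

`ZmD`: exactness of the base of a class, behind closed values of the subclasses of an image class.
`zmx_img`: the base of the image class is exact behind closed values. `no_img`: if the direction is
steep, there are no closed labels of the last coordinate of the image class.
-/

set_option autoImplicit false

namespace Pool.NFT33

open Finset Real MvPolynomial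
open Pool.Agent.H49.Ent Pool.Agent.H32.Dense Pool.STK Pool.KA Pool.KSAT Pool.K2S Pool.PB Pool.GEN
open Pool.S6C Pool.GRD Pool.GRW Pool.TGT Pool.REX Pool.REX83 Pool.MIC6
open Pool.ORD65
open Pool.OWN17 (root_fix)

variable {m n J : ℕ}

/-- **Exactness of the base behind closed values of the image.** -/
def ZmD (S : PCl m) (v : Vz m) (f : Nw v n) (c : ℕ → Fin m) (n₀ : ℕ)
    {Λ : ∀ J : ℕ, Fam m J → Type} (lab : ∀ (J : ℕ) (F : Fam m J), F.Ω → Λ J F)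
    (X₀ w₁ qm : ℝ) : Prop :=
  ∀ S₁ : PCl n, S₁.Ne →
    (∀ (τ : ℝ) (J : ℕ) (F : Fam n J) (A : F.Ω → Prop), S₁.St τ J F A →
      (WyI S v f).St τ J F A) →
  ∀ wp : ℝ, 0 < wp → wp < w₁ → ∀ q : ℝ, 0 < q → q < qm →
  ∀ (V : ∀ J : ℕ, Fam n J → Type)
    (z : ∀ (J : ℕ) (F : Fam n J), PtT F → F.ζ → (Fin n → ℤ) → V J F)
    (z' : ∀ (J : ℕ) (F : Fam n J), LnT F → V J F),
    (∀ (τ : ℝ) (J : ℕ) (F : Fam n J) (A : F.Ω → Prop), S₁.St τ J F A → ∀ ω, A ω →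
      z J F (ptr F J ω) (F.Z ω) (F.D ⌊q * J⌋₊ ω) = z' J F (slam F ⌊wp * J⌋₊ ω)) →
  ∃ (S₂ : PCl m) (q₂ : ℝ), S₂.Ne ∧ 0 < q₂ ∧
    (∀ (τ : ℝ) (J : ℕ) (F : Fam m J) (A : F.Ω → Prop), S₂.St τ J F A → S.St τ J F A) ∧
    (∀ (τ : ℝ) (J : ℕ) (F : Fam m J) (A : F.Ω → Prop), S₂.St τ J F A →
      S₁.St (1 / (1 - v.b) * τ) (J - v.B J) (winI v f F) A) ∧
    (∀ (τ : ℝ) (J : ℕ) (F : Fam m J) (A : F.Ω → Prop), S₂.St τ J F A → ∀ ω ω', A ω → A ω' →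
      F.D ⌊q₂ * J⌋₊ ω = F.D ⌊q₂ * J⌋₊ ω' →
      (winI v f F).D ⌊q * ((J - v.B J : ℕ) : ℝ)⌋₊ ω =
        (winI v f F).D ⌊q * ((J - v.B J : ℕ) : ℝ)⌋₊ ω') ∧
    ∀ ρ : ℝ, 0 < ρ → Bas S₂ (fun J F A => (X₀ - ρ) * Real.log 2 * J ≤
      CH (Pool.Agent.H49.Ent.cond F.p A True) (fun ω (l : Fin n₀) => F.X J ω (c l))
        (fun ω => (lab J F ω, (F.D ⌊q₂ * J⌋₊ ω,
          ((z' (J - v.B J) (winI v f F)
            (slam (winI v f F) ⌊wp * ((J - v.B J : ℕ) : ℝ)⌋₊ ω), (v.win F).Z ω), F.T ω)))))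

/-- The common subclass. -/
theorem int_cls {S₂ : PCl m} {v : Vz m} {f : Nw v n} {S₁ : PCl n} (hne : S₂.Ne)
    (h : ∀ (τ : ℝ) (J : ℕ) (F : Fam m J) (A : F.Ω → Prop), S₂.St τ J F A →
      S₁.St (1 / (1 - v.b) * τ) (J - v.B J) (winI v f F) A) :
    ∃ S₃ : PCl n, S₃.Ne ∧
      (∀ (τ : ℝ) (J : ℕ) (F : Fam n J) (A : F.Ω → Prop), S₃.St τ J F A → S₁.St τ J F A) ∧
      ∀ (τ : ℝ) (J : ℕ) (F : Fam n J) (A : F.Ω → Prop), S₃.St τ J F A →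
        (WyI S₂ v f).St τ J F A := by
  have hb1 := v.b1
  have hb0 := v.b0
  have hc : 0 < 1 - v.b := by linarith
  refine ⟨(WyI S₂ v f).sl ⟨S₁.St, S₁.mono, S₁.res⟩, ?_, fun τ J F A hA => hA.2,
    fun τ J F A hA => hA.1⟩
  intro τ hτ J₁
  obtain ⟨J₂, hJ₂⟩ := exists_nat_ge (1 / (1 - v.b) * J₁)
  obtain ⟨J, hJ, F, A, hA⟩ := hne ((1 - v.b) * τ) (mul_pos hc hτ) J₂
  have h1 : (1 - v.b) * τ ≤ τ := by
    have := mul_nonneg hb0 hτ.le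
    linarith
  refine ⟨J - v.B J, ?_, winI v f F, A, wyi_mk (S₂.mono h1 hA), ?_⟩
  · have h3 := win_floor v J
    have h4 : (J₂ : ℝ) ≤ J := by exact_mod_cast hJ
    have h5 : 1 / (1 - v.b) * (J₁ : ℝ) ≤ 1 / (1 - v.b) * ((J - v.B J : ℕ) : ℝ) := by linarith
    have h6 : (J₁ : ℝ) ≤ ((J - v.B J : ℕ) : ℝ) := le_of_mul_le_mul_left h5 (by positivity)
    exact_mod_cast h6
  · have h2 := h _ _ _ _ hA
    have e1 : 1 / (1 - v.b) * ((1 - v.b) * τ) = τ := by field_simp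
    rw [e1] at h2
    exact h2

section

variable {n₀ : ℕ} {v : Vz m} {g : ℕ → ℕ → ℕ} {t ρ ρ₁ : ℕ → ℕ} {γ : ℕ → ℝ} {tt rr rr₁ q₁ C : ℝ}
  {c : ℕ → Fin m} {k K : ℕ} {d : ∀ (J : ℕ) (F : Fam m J), CD F v} {S : PCl m}

/-- The sum of the numbers of the base. -/
theorem NmI.sum (h : NmI n₀ v g t ρ ρ₁ γ tt rr rr₁ q₁ C) (J : ℕ) :
    (∑ l ∈ Ico 1 n₀, ((J : ℝ) - g J l - ρ J)) ≤
      ((∑ l ∈ Ico 1 n₀, (1 - γ l)) - ((n₀ - 1 : ℕ) : ℝ) * rr) * J +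
        ((n₀ - 1 : ℕ) : ℝ) * (2 * C) := by
  have h1 : ∑ l ∈ Ico 1 n₀, ((J : ℝ) - g J l - ρ J) ≤
      ∑ l ∈ Ico 1 n₀, ((1 - γ l) * J - rr * J + 2 * C) := by
    refine Finset.sum_le_sum fun l hl => ?_
    have a1 := abs_le.1 (h.hg J l (Finset.mem_Ico.1 hl).2.le)
    have a2 := abs_le.1 (h.hρ J)
    linarith [a1.1, a1.2, a2.1, a2.2]
  refine h1.trans (le_of_eq ?_)
  rw [Finset.sum_add_distrib, Finset.sum_sub_distrib, Finset.sum_const, Finset.sum_const,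
    Nat.card_Ico, nsmul_eq_mul, nsmul_eq_mul, ← Finset.sum_mul]
  ring

/-- The entropy of the base, from the points of the new lines of the base. -/
theorem ChI.low {F : Fam m J} {g : ℕ → ℕ} {K t ρ₁ ρ k₁ : ℕ} {d : CD F v} {A : F.Ω → Prop}
    {f : Nw v n₀} {κ : Fin n₀} (h : ChI F v c n₀ k g K t ρ₁ d A)
    (him : ImH F v f (c 0) κ K ρ k₁ (fun y i => d.Pi c g k y i) A) (hκ : (κ : ℕ) = 0)
    (hk : 1 ≤ k) (hkn : k < n₀) (h1 : ρ + t + 5 ≤ ρ₁) (h2 : ∀ l ≤ n₀, g l + ρ + 3 ≤ J)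
    {q : F.Ω → ℝ} (hq : IsLaw q) (hA : ∀ ω, 0 < q ω → A ω) {idx : ℕ → Fin n₀}
    (hidx : ∀ l < n₀, (idx l : ℕ) = l) {Γ : Type} (Y : F.Ω → Γ)
    (hY : ∀ ω ω', A ω → A ω' → Y ω = Y ω' → (v.win F).Z ω = (v.win F).Z ω' ∧
      F.T ω = F.T ω') {D : ℝ}
    (hM : ∀ ω ω', A ω → A ω' → Y ω = Y ω' → (∀ l < n₀ - 1,
      (winI v f F).X (J - v.B J) ω (idx l) = (winI v f F).X (J - v.B J) ω' (idx l)) →
      2 ^ ρ * |d.hgt c g ω k - d.hgt c g ω' k| ≤ D) :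
    CH q (fun ω (l : Fin n₀) => F.X J ω (c l)) Y ≤
      CH q (fun (ω : F.Ω) (l : Fin (n₀ - 1)) => (winI v f F).X (J - v.B J) ω (idx l)) Y +
      (Real.log (2 * D + 3) + (∑ l ∈ Ico 1 n₀, ((J : ℝ) - g l - ρ)) * Real.log 2 +
        n₀ * Real.log 11) := by
  have hq0 : ∀ ω, 0 ≤ q ω := hq.nonneg
  obtain ⟨XJ, hXJ⟩ : ∃ XJ : F.Ω → Fin n₀ → ℤ, XJ = fun ω (l : Fin n₀) => F.X J ω (c l) :=
    ⟨_, rfl⟩
  obtain ⟨XB, hXB⟩ : ∃ XB : F.Ω → Fin (n₀ - 1) → ℤ, XB = fun (ω : F.Ω) (l : Fin (n₀ - 1)) =>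
    (winI v f F).X (J - v.B J) ω (idx l) := ⟨_, rfl⟩
  rw [← hXJ, ← hXB]
  have h3 : CH q XJ Y ≤ CH q (fun ω => (XJ ω, XB ω)) Y :=
    CH_mono_left hq0 fun ω ω' _ _ e => (Prod.ext_iff.1 (Prod.ext_iff.1 e).1).1
  have h4 : CH q (fun ω => (XJ ω, XB ω)) Y = CH q XB Y + CH q XJ (fun ω => (XB ω, Y ω)) :=
    CH_chain hq0 _ _ _
  have hXe : ∀ ω ω', XB ω = XB ω' → ∀ l < n₀ - 1,
      (winI v f F).X (J - v.B J) ω (idx l) = (winI v f F).X (J - v.B J) ω' (idx l) := by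
    intro ω ω' e l hl
    rw [hXB] at e
    exact congrFun e ⟨l, hl⟩
  have h5 := h.cnt him hκ hk hkn h1 h2 hq hA (fun ω => (XB ω, Y ω)) (fun ω ω' hω hω' e => by
      have e1 := Prod.ext_iff.1 e
      obtain ⟨y1, y2⟩ := hY ω ω' hω hω' e1.2
      refine ⟨y1, y2, fun i hi => ?_⟩
      have e2 := hXe ω ω' e1.1 i (by omega)
      have e3 : idx (i : ℕ) = i := Fin.ext (hidx i i.2)
      rwa [e3] at e2)
    (D := D) (fun ω ω' hω hω' e => by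
      have e1 := Prod.ext_iff.1 e
      exact hM ω ω' hω hω' e1.2 (hXe ω ω' e1.1))
  rw [← hXJ] at h5
  linarith

/-- **The base of the image class is exact behind closed values.** -/
theorem zmx_img (h : NmI n₀ v g t ρ ρ₁ γ tt rr rr₁ q₁ C) (hn₀ : 2 ≤ n₀) (hK : 1 ≤ K)
    (hk : 1 ≤ k) (hkn : k < n₀)
    (hch : Bas S (fun J F A => ChI F v c n₀ k (g J) K (t J) (ρ₁ J) (d J F) A))
    (hpos : ∀ (τ : ℝ) (J : ℕ) (F : Fam m J) (A : F.Ω → Prop), S.St τ J F A → 0 < Pe F.p A)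
    {Λ : ∀ J : ℕ, Fam m J → Type} {lab : ∀ (J : ℕ) (F : Fam m J), F.Ω → Λ J F} {X₀ w₁ qm : ℝ}
    (hd : ZmD S v (nwC v n₀ c k ρ d) c n₀ lab X₀ w₁ qm) {idx : ℕ → Fin n₀}
    (hidx : ∀ l < n₀, (idx l : ℕ) = l) {X₁ : ℝ}
    (hX : X₁ * (1 - v.b) ≤ X₀ - (∑ l ∈ Ico 1 n₀, (1 - γ l)) + ((n₀ - 1 : ℕ) : ℝ) * rr -
      rr - tt) :
    ZmX (WyI S v (nwC v n₀ c k ρ d)) idx (n₀ - 1) (fun _ F => F.Z) X₁ 0 w₁ qm := by
  have hb1 := v.b1
  have hc : 0 < 1 - v.b := by linarith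
  have hκ : ((idx 0 : Fin n₀) : ℕ) = 0 := hidx 0 (by omega)
  have him := imh_cls (ρ := ρ) h hch hκ hK hkn
  obtain ⟨J₀, hJ₀⟩ := h.ev
  intro S₁ hne hsub wp hwp hwp1 q hq hqm V z z' hcl
  obtain ⟨S₂, q₂, hne₂, -, hsub₂, hdn, hD, hlow⟩ := hd S₁ hne hsub wp hwp hwp1 q hq hqm V z z' hcl
  obtain ⟨S₃, hne₃, hs₁, hs₂⟩ := int_cls hne₂ hdn
  refine ⟨S₃, hne₃, hs₁, fun ε hε => Bas.sub hs₂ (bas_wyi.2 ?_)⟩
  have hl2 : 0 < Real.log 2 := Real.log_pos one_lt_two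
  -- the constants
  obtain ⟨C₂, hC₂⟩ : ∃ C₂ : ℝ, C₂ = (2 * C + ((n₀ - 1 : ℕ) : ℝ) * (2 * C) + |X₁|) *
    Real.log 2 + Real.log 7 + n₀ * Real.log 11 := ⟨_, rfl⟩
  obtain ⟨J₁, hJ₁⟩ := bgJ (a := (1 - v.b) * ε / 2 * Real.log 2) (by positivity) C₂
  have hDB : Bas S₂ (fun J F A => ∀ ω ω', A ω → A ω' →
      F.D ⌊q₂ * J⌋₊ ω = F.D ⌊q₂ * J⌋₊ ω' →
      (winI v (nwC v n₀ c k ρ d) F).D ⌊q * ((J - v.B J : ℕ) : ℝ)⌋₊ ω =
        (winI v (nwC v n₀ c k ρ d) F).D ⌊q * ((J - v.B J : ℕ) : ℝ)⌋₊ ω') :=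
    ⟨1, one_pos, 0, fun J _ F A hA => hD 1 J F A hA⟩
  have hposB : Bas S₂ (fun _ F A => 0 < Pe F.p A) :=
    ⟨1, one_pos, 0, fun J _ F A hA => hpos 1 J F A (hsub₂ 1 J F A hA)⟩
  refine Bas.mono (max J₀ J₁) ((((hlow ((1 - v.b) * ε / 2) (by positivity)).and hDB).and
    hposB).and ((hch.sub hsub₂).and (him.sub hsub₂))) ?_
  rintro J hJ F A ⟨⟨⟨k1, k2⟩, k3⟩, k4, k5⟩
  obtain ⟨e1, e2, -⟩ := hJ₀ J ((le_max_left _ _).trans hJ)
  have j1 := hJ₁ J ((le_max_right _ _).trans hJ)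
  have hq := isLaw_cond F.isLaw k3
  have hA : ∀ ω, 0 < Pool.Agent.H49.Ent.cond F.p A True ω → A ω := fun ω hω => of_condp hω
  obtain ⟨f, hf⟩ : ∃ f, f = nwC v n₀ c k ρ d := ⟨_, rfl⟩
  rw [← hf] at k1 k2 k5 ⊢
  obtain ⟨W, hW⟩ : ∃ W : F.Ω → V (J - v.B J) (winI v f F), W = fun ω : F.Ω =>
    z' (J - v.B J) (winI v f F) (slam (winI v f F) ⌊wp * ((J - v.B J : ℕ) : ℝ)⌋₊ ω) := ⟨_, rfl⟩
  obtain ⟨DV, hDV⟩ : ∃ DV : F.Ω → Fin n₀ → ℤ, DV = fun ω : F.Ω =>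
    (winI v f F).D ⌊q * ((J - v.B J : ℕ) : ℝ)⌋₊ ω := ⟨_, rfl⟩
  have key : (X₁ - ε) * Real.log 2 * ((J - v.B J : ℕ) : ℝ) ≤
      CH (Pool.Agent.H49.Ent.cond F.p A True)
        (fun (ω : F.Ω) (l : Fin (n₀ - 1)) => (winI v f F).X (J - v.B J) ω (idx l))
        (fun ω : F.Ω => ((v.win F).Z ω, (DV ω, (W ω, (v.win F).T ω)))) := by
    obtain ⟨p, hp⟩ : ∃ p, p = Pool.Agent.H49.Ent.cond F.p A True := ⟨_, rfl⟩
    obtain ⟨Y₀, hY₀⟩ : ∃ Y₀ : F.Ω → Λ J F × ((Fin m → ℤ) × ((V (J - v.B J) (winI v f F) ×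
      (v.win F).ζ) × ℕ)), Y₀ = fun ω => (lab J F ω, (F.D ⌊q₂ * J⌋₊ ω, ((W ω, (v.win F).Z ω),
        F.T ω))) := ⟨_, rfl⟩
    have k1' : (X₀ - (1 - v.b) * ε / 2) * Real.log 2 * J ≤
        CH p (fun ω (l : Fin n₀) => F.X J ω (c l)) Y₀ := by
      rw [hY₀, hW, hp]
      exact k1
    rw [← hp] at hq hA ⊢
    have hY : ∀ ω ω', Y₀ ω = Y₀ ω' → F.D ⌊q₂ * J⌋₊ ω = F.D ⌊q₂ * J⌋₊ ω' ∧ W ω = W ω' ∧
        (v.win F).Z ω = (v.win F).Z ω' ∧ F.T ω = F.T ω' := by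
      intro ω ω' e
      rw [hY₀] at e
      simp only [Prod.mk.injEq] at e
      exact ⟨e.2.1, e.2.2.1.1, e.2.2.1.2, e.2.2.2⟩
    have h1 := k4.low k5 hκ hk hkn e1 e2 hq hA hidx Y₀ (fun ω ω' _ _ e =>
      ⟨(hY ω ω' e).2.2.1, (hY ω ω' e).2.2.2⟩) (D := 2 ^ (ρ J + t J + 1))
      (fun ω ω' hω hω' _ _ => by
        have b1 := k4.nat ω hω k hkn.le
        have b2 := k4.nat ω' hω' k hkn.le
        have b3 := abs_sub ((d J F).hgt c (g J) ω k) ((d J F).hgt c (g J) ω' k)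
        have b4 : (2 : ℝ) ^ (ρ J + t J + 1) = 2 ^ ρ J * (2 * 2 ^ t J) := by
          rw [pow_add, pow_add]
          ring
        rw [b4]
        exact mul_le_mul_of_nonneg_left (by linarith) (by positivity))
    have h2 : CH p (fun (ω : F.Ω) (l : Fin (n₀ - 1)) => (winI v f F).X (J - v.B J) ω (idx l)) Y₀ ≤
        CH p (fun (ω : F.Ω) (l : Fin (n₀ - 1)) => (winI v f F).X (J - v.B J) ω (idx l))
          (fun ω : F.Ω => ((v.win F).Z ω, (DV ω, (W ω, (v.win F).T ω)))) := by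
      refine CH_mono_cond hq.nonneg fun ω ω' x1 x2 e => ?_
      obtain ⟨y1, y2, y3, y4⟩ := hY ω ω' e
      refine Prod.ext y3 (Prod.ext ?_ (Prod.ext y2 ?_))
      · rw [hDV]
        exact k2 ω ω' (hA ω x1) (hA ω' x2) y1
      · show F.T ω % 2 ^ (J - v.B J) = F.T ω' % 2 ^ (J - v.B J)
        rw [y4]
    refine le_trans ?_ h2
    -- the numbers
    have h3 : Real.log (2 * 2 ^ (ρ J + t J + 1) + 3) ≤
        ((ρ J : ℝ) + t J) * Real.log 2 + Real.log 7 := by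
      have p1 : (1 : ℝ) ≤ 2 ^ (ρ J + t J) := one_le_pow₀ (by norm_num)
      have h4 : 2 * (2 : ℝ) ^ (ρ J + t J + 1) + 3 ≤ 7 * 2 ^ (ρ J + t J) := by
        rw [pow_succ]
        linarith
      refine (Real.log_le_log (by positivity) h4).trans ?_
      rw [Real.log_mul (by norm_num) (by positivity), Real.log_pow]
      push_cast
      linarith
    have h5 := mul_le_mul_of_nonneg_right (h.sum J) hl2.le
    have a1 := (abs_le.1 (h.ht J)).2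
    have a2 := (abs_le.1 (h.hρ J)).2
    have h6 : ((ρ J : ℝ) + t J) * Real.log 2 ≤ ((rr + tt) * J + 2 * C) * Real.log 2 :=
      mul_le_mul_of_nonneg_right (by linarith) hl2.le
    have h7 : (X₁ - ε) * ((J - v.B J : ℕ) : ℝ) ≤ (X₁ - ε) * ((1 - v.b) * J) + |X₁| := by
      have b1 := wB v J
      rw [wJ]
      have b2 : X₁ * (v.b * J - v.B J) ≤ |X₁| * 1 :=
        (le_abs_self _).trans (by
          rw [abs_mul]
          refine mul_le_mul_of_nonneg_left ?_ (abs_nonneg _)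
          rw [abs_le]
          constructor <;> linarith)
      have b3 : 0 ≤ ε * (v.b * J - v.B J) := mul_nonneg hε.le (by linarith)
      linarith
    have h8 := mul_le_mul_of_nonneg_right h7 hl2.le
    have hJ0 : (0 : ℝ) ≤ J := Nat.cast_nonneg J
    have h9 : X₁ * (1 - v.b) * J * Real.log 2 ≤ (X₀ - (∑ l ∈ Ico 1 n₀, (1 - γ l)) +
        ((n₀ - 1 : ℕ) : ℝ) * rr - rr - tt) * J * Real.log 2 :=
      mul_le_mul_of_nonneg_right (mul_le_mul_of_nonneg_right hX hJ0) hl2.le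
    rw [hC₂] at j1
    linarith
  subst hW
  subst hDV
  exact key

/-- The height of the pivot, if the direction is steep. -/
theorem steep_le {F : Fam m J} {g : ℕ → ℕ} {K t ρ₁ : ℕ} {d : CD F v} {A : F.Ω → Prop}
    (h : ChI F v c n₀ k g K t ρ₁ d A) {ω ω' : F.Ω} (hω : A ω) (hω' : A ω')
    (hZ : (v.win F).Z ω = (v.win F).Z ω') {θ : ℕ} (hst : 2 ^ θ ≤ |d.ka ((v.win F).Z ω) n₀|) :
    |d.hgt c g ω k - d.hgt c g ω' k| ≤ |d.hm c g k ω n₀ - d.hm c g k ω' n₀| +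
      2 * 2 ^ t / 2 ^ θ := by
  obtain ⟨a, ha⟩ : ∃ a, a = d.ka ((v.win F).Z ω) n₀ := ⟨_, rfl⟩
  have p1 : (1 : ℝ) ≤ 2 ^ θ := one_le_pow₀ (by norm_num)
  rw [← ha] at hst
  have ha0 : 0 < |a| := by linarith
  have hmx : d.mx ((v.win F).Z ω) n₀ = |a| := by
    unfold CD.mx
    rw [← ha]
    exact max_eq_right (by linarith)
  unfold CD.hm
  rw [← hZ, hmx, ← ha]
  obtain ⟨x, hx⟩ : ∃ x, x = d.hgt c g ω k := ⟨_, rfl⟩
  obtain ⟨x', hx'⟩ : ∃ x', x' = d.hgt c g ω' k := ⟨_, rfl⟩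
  obtain ⟨y, hy⟩ : ∃ y, y = d.hgt c g ω n₀ := ⟨_, rfl⟩
  obtain ⟨y', hy'⟩ : ∃ y', y' = d.hgt c g ω' n₀ := ⟨_, rfl⟩
  have b1 := h.nat ω hω n₀ le_rfl
  have b2 := h.nat ω' hω' n₀ le_rfl
  rw [← hy] at b1
  rw [← hy'] at b2
  rw [← hx, ← hx', ← hy, ← hy']
  have e1 : |x - x'| = abs (((y - a * x) / |a| - (y' - a * x') / |a|) - (y - y') / |a|) := by
    have e2 : ((y - a * x) / |a| - (y' - a * x') / |a|) - (y - y') / |a| =
        -(a * (x - x')) / |a| := by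
      field_simp
      ring
    rw [e2, abs_div, abs_neg, abs_mul, abs_abs]
    field_simp
  rw [e1]
  refine (abs_sub _ _).trans ?_
  have e3 : abs ((y - y') / |a|) ≤ 2 * 2 ^ t / 2 ^ θ := by
    rw [abs_div, abs_abs]
    have b3 := abs_sub y y'
    exact div_le_div₀ (by positivity) (by linarith) (by positivity) hst
  linarith

/-- **Steep directions**: there are no closed labels of the last coordinate of the image class. -/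
theorem no_img (h : NmI n₀ v g t ρ ρ₁ γ tt rr rr₁ q₁ C) (hn₀ : 2 ≤ n₀) (hK : 1 ≤ K)
    (hk : 1 ≤ k) (hkn : k < n₀)
    (hch : Bas S (fun J F A => ChI F v c n₀ k (g J) K (t J) (ρ₁ J) (d J F) A))
    (hpos : ∀ (τ : ℝ) (J : ℕ) (F : Fam m J) (A : F.Ω → Prop), S.St τ J F A → 0 < Pe F.p A)
    {Λ : ∀ J : ℕ, Fam m J → Type} {lab : ∀ (J : ℕ) (F : Fam m J), F.Ω → Λ J F} {X₀ w₁ qm : ℝ}
    (hd : ZmD S v (nwC v n₀ c k ρ d) c n₀ lab X₀ w₁ qm) {idx : ℕ → Fin n₀}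
    (hidx : ∀ l < n₀, (idx l : ℕ) = l) {θ : ℕ → ℕ} {th : ℝ} (hθ : ∀ J, th * J - C ≤ θ J)
    (hst : Bas S (fun J F A => ∀ ω, A ω → 2 ^ θ J ≤ |(d J F).ka ((v.win F).Z ω) n₀|))
    {a0 : ℝ} (ha01 : a0 ≤ 1) (hball : BlC S v (c 0) a0)
    {PN e : ℝ} (hPN0 : 0 ≤ PN) (hPN1 : PN ≤ 1) (he0 : 0 ≤ e) (he1 : (1 - v.b) * (1 - PN) ≤ e)
    (he2 : rr + tt - th ≤ e)
    (hX : (1 - a0) + ((n₀ - 2 : ℕ) : ℝ) * (rr + tt) + e + (∑ l ∈ Ico 1 n₀, (1 - γ l)) -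
      ((n₀ - 1 : ℕ) : ℝ) * rr < X₀) :
    NoT (WyI S v (nwC v n₀ c k ρ d)) idx (n₀ - 1) (fun _ F => F.Z) PN 0 w₁ qm := by
  classical
  have hb1 := v.b1
  have hc : 0 < 1 - v.b := by linarith
  have hκ : ((idx 0 : Fin n₀) : ℕ) = 0 := hidx 0 (by omega)
  have him := imh_cls (ρ := ρ) h hch hκ hK hkn
  obtain ⟨J₀, hJ₀⟩ := h.ev
  obtain ⟨Cb, hCb, hball⟩ := hball
  intro S₁ hne hsub K' wp q hwp hwp1 hq hqm hbas
  obtain ⟨S₁', dN, hne', hs', hN⟩ := root_fix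
    (Δ := fun J (F : Fam n₀ J) => NDat F (F.ζ × (Fin n₀ → ℤ))) hne
    (fun J F dd A => Lbr F ((range (n₀ - 1)).image idx) (idx (n₀ - 1)) K' ⌊wp * J⌋₊ ⌊PN * J⌋₊
      (fun ω => (F.Z ω, F.D ⌊q * J⌋₊ ω)) A dd.z dd.z' dd.G)
    (fun J F dd A B h hB => h.sub hB) (C := 1)
    (Bas.mono 0 hbas fun J _ F A ⟨V, z, z', G, h⟩ => ⟨⟨V, z, z', G⟩, A, fun _ h => h,
      (one_mul _).ge, h⟩)
  obtain ⟨S₂, q₂, hne₂, -, hsub₂, hdn, -, hlow⟩ := hd S₁' hne'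
    (fun τ J F A hA => hsub τ J F A (hs' τ J F A hA)) wp hwp hwp1 q hq hqm
    (fun J F => (dN J F).V) (fun J F x y z => (dN J F).z x (y, z)) (fun J F => (dN J F).z')
    (fun τ J F A hA ω hω => (hN τ J F A hA).cls ω hω)
  have hl2 : 0 < Real.log 2 := Real.log_pos one_lt_two
  -- the constants
  obtain ⟨ε, hε⟩ : ∃ ε, ε = (X₀ - ((1 - a0) + ((n₀ - 2 : ℕ) : ℝ) * (rr + tt) + e +
    (∑ l ∈ Ico 1 n₀, (1 - γ l)) - ((n₀ - 1 : ℕ) : ℝ) * rr)) / 2 := ⟨_, rfl⟩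
  have hε0 : 0 < ε := by rw [hε]; linarith
  obtain ⟨C₂, hC₂⟩ : ∃ C₂ : ℝ, C₂ = (1 + ((n₀ - 2 : ℕ) : ℝ) * (2 * C) +
    ((n₀ - 1 : ℕ) : ℝ) * (2 * C) + (3 * C + 3)) * Real.log 2 + Real.log 11 +
    ((n₀ - 1 : ℕ) : ℝ) * Real.log (2 * Cb + 19) + n₀ * Real.log 11 + 1 := ⟨_, rfl⟩
  obtain ⟨J₁, hJ₁⟩ := bgJ (a := ε * Real.log 2) (by positivity) C₂
  have hNB : Bas S₂ (fun J F A => Lbr (winI v (nwC v n₀ c k ρ d) F)
      ((range (n₀ - 1)).image idx) (idx (n₀ - 1)) K' ⌊wp * ((J - v.B J : ℕ) : ℝ)⌋₊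
      ⌊PN * ((J - v.B J : ℕ) : ℝ)⌋₊
      (fun ω => ((winI v (nwC v n₀ c k ρ d) F).Z ω,
        (winI v (nwC v n₀ c k ρ d) F).D ⌊q * ((J - v.B J : ℕ) : ℝ)⌋₊ ω)) A
      (dN (J - v.B J) (winI v (nwC v n₀ c k ρ d) F)).z
      (dN (J - v.B J) (winI v (nwC v n₀ c k ρ d) F)).z'
      (dN (J - v.B J) (winI v (nwC v n₀ c k ρ d) F)).G) :=
    ⟨1, one_pos, 0, fun J _ F A hA => by
      have := hN _ _ _ _ (hdn 1 J F A hA)
      exact this⟩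
  have hposB : Bas S₂ (fun _ F A => 0 < Pe F.p A) :=
    ⟨1, one_pos, 0, fun J _ F A hA => hpos 1 J F A (hsub₂ 1 J F A hA)⟩
  have hfin : Bas S₂ (fun _ _ _ => False) := by
    refine Bas.mono (max J₀ J₁) ((((hlow ε hε0).and hNB).and (hposB.and (hst.sub hsub₂))).and
      ((hch.sub hsub₂).and ((him.sub hsub₂).and (hball.sub hsub₂)))) ?_
    rintro J hJ F A ⟨⟨⟨k1, k2⟩, k3, k6⟩, k4, k5, k7⟩
    obtain ⟨e1, e2, -⟩ := hJ₀ J ((le_max_left _ _).trans hJ)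
    have j1 := hJ₁ J ((le_max_right _ _).trans hJ)
    have hq := isLaw_cond F.isLaw k3
    have hA : ∀ ω, 0 < Pool.Agent.H49.Ent.cond F.p A True ω → A ω := fun ω hω => of_condp hω
    obtain ⟨f, hf⟩ : ∃ f, f = nwC v n₀ c k ρ d := ⟨_, rfl⟩
    rw [← hf] at k1 k2 k5
    obtain ⟨p, hp⟩ : ∃ p, p = Pool.Agent.H49.Ent.cond F.p A True := ⟨_, rfl⟩
    obtain ⟨V₂, hV₂⟩ : ∃ V₂, V₂ = (dN (J - v.B J) (winI v f F)).V := ⟨_, rfl⟩
    obtain ⟨W, hW⟩ : ∃ W : F.Ω → (dN (J - v.B J) (winI v f F)).V, W = fun ω : F.Ω =>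
      (dN (J - v.B J) (winI v f F)).z'
        (slam (winI v f F) ⌊wp * ((J - v.B J : ℕ) : ℝ)⌋₊ ω) := ⟨_, rfl⟩
    obtain ⟨Y₀, hY₀⟩ : ∃ Y₀ : F.Ω → Λ J F × ((Fin m → ℤ) ×
      (((dN (J - v.B J) (winI v f F)).V × (v.win F).ζ) × ℕ)), Y₀ = fun ω =>
      (lab J F ω, (F.D ⌊q₂ * J⌋₊ ω, ((W ω, (v.win F).Z ω), F.T ω))) := ⟨_, rfl⟩
    have k1' : (X₀ - ε) * Real.log 2 * J ≤ CH p (fun ω (l : Fin n₀) => F.X J ω (c l)) Y₀ := by
      rw [hY₀, hW, hp]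
      exact k1
    rw [← hp] at hq hA
    have hY : ∀ ω ω', Y₀ ω = Y₀ ω' → W ω = W ω' ∧
        (v.win F).Z ω = (v.win F).Z ω' ∧ F.T ω = F.T ω' := by
      intro ω ω' e
      rw [hY₀] at e
      simp only [Prod.mk.injEq] at e
      exact ⟨e.2.2.1.1, e.2.2.1.2, e.2.2.2⟩
    obtain ⟨E, hE⟩ : ∃ E : ℕ, E = max (J - v.B J + 1 - ⌊PN * ((J - v.B J : ℕ) : ℝ)⌋₊)
      (ρ J + t J + 1 - θ J) := ⟨_, rfl⟩
    have h1 := k4.low k5 hκ hk hkn e1 e2 hq hA hidx Y₀ (fun ω ω' _ _ e =>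
      ⟨(hY ω ω' e).2.1, (hY ω ω' e).2.2⟩) (D := 2 * 2 ^ E + 1 / 8)
      (fun ω ω' hω hω' e hXB => by
        obtain ⟨y1, y2, y3⟩ := hY ω ω' e
        have hi : idx (n₀ - 1) ≠ idx 0 := fun h0 => by
          have b1 := hidx (n₀ - 1) (by omega)
          rw [h0, hκ] at b1
          omega
        have b1 := lbr_near k2 hω hω' (by
          have y1' := y1
          rw [hW] at y1'
          exact y1') (by
            show F.T ω % 2 ^ (J - v.B J) = F.T ω' % 2 ^ (J - v.B J)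
            rw [y3]) (fun i hi => by
            obtain ⟨l, hl, rfl⟩ := Finset.mem_image.1 hi
            exact hXB l (mem_range.1 hl))
        have b2 := hm_near k5 hω hω' hi b1
        have b3 : dl k ((idx (n₀ - 1) : Fin n₀) : ℕ) = n₀ := by
          rw [hidx _ (by omega)]
          exact dl_last hkn
        rw [b3] at b2
        have b4 := steep_le k4 hω hω' y2 (k6 ω hω)
        have b5 := mul_le_mul_of_nonneg_left b4 (by positivity : (0 : ℝ) ≤ 2 ^ ρ J)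
        have b6 : (2 : ℝ) ^ (J - v.B J) * (2 / 2 ^ ⌊PN * ((J - v.B J : ℕ) : ℝ)⌋₊) ≤ 2 ^ E := by
          rw [← mul_div_assoc, ← pow_succ, div_le_iff₀ (by positivity), ← pow_add]
          refine pow_le_pow_right₀ (by norm_num) ?_
          have := le_max_left (J - v.B J + 1 - ⌊PN * ((J - v.B J : ℕ) : ℝ)⌋₊)
            (ρ J + t J + 1 - θ J)
          rw [← hE] at this
          omega
        have b7 : (2 : ℝ) ^ ρ J * (2 * 2 ^ t J / 2 ^ θ J) ≤ 2 ^ E := by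
          have b8 : (2 : ℝ) ^ ρ J * (2 * 2 ^ t J / 2 ^ θ J) = 2 ^ (ρ J + t J + 1) / 2 ^ θ J := by
            rw [pow_add, pow_add]
            ring
          rw [b8, div_le_iff₀ (by positivity), ← pow_add]
          refine pow_le_pow_right₀ (by norm_num) ?_
          have := le_max_right (J - v.B J + 1 - ⌊PN * ((J - v.B J : ℕ) : ℝ)⌋₊)
            (ρ J + t J + 1 - θ J)
          rw [← hE] at this
          omega
        rw [mul_add] at b5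
        linarith)
    have haJ : ⌊a0 * (J : ℝ)⌋₊ ≤ J := Nat.floor_le_of_le (by
      have := mul_le_mul_of_nonneg_right ha01 (Nat.cast_nonneg (α := ℝ) J)
      rwa [one_mul] at this)
    have h2 := k4.xb_up k5 hκ hkn hq hA (N := n₀ - 1) (idx := idx) (fun l hl => hidx l (by omega))
      (by omega) Y₀ (fun ω ω' _ _ e => ⟨(hY ω ω' e).2.1, (hY ω ω' e).2.2⟩) (Cb := Cb)
      (by linarith) haJ k7
    -- the numbers
    have a1 := abs_le.1 (h.ht J)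
    have a2 := abs_le.1 (h.hρ J)
    have a3 := wB v J
    have a4 : a0 * (J : ℝ) < ⌊a0 * (J : ℝ)⌋₊ + 1 := Nat.lt_floor_add_one _
    have hJ0 : (0 : ℝ) ≤ J := Nat.cast_nonneg J
    have hC0 := h.C0
    have hEr : (E : ℝ) ≤ e * J + (3 * C + 3) := by
      have heJ : 0 ≤ e * J := mul_nonneg he0 hJ0
      rw [hE, Nat.cast_max]
      refine max_le ?_ ?_
      · rcases Nat.le_total (J - v.B J + 1) ⌊PN * ((J - v.B J : ℕ) : ℝ)⌋₊ with h3 | h3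
        · rw [Nat.sub_eq_zero_of_le h3, Nat.cast_zero]
          linarith
        · rw [Nat.cast_sub h3]
          have b1 : PN * ((J - v.B J : ℕ) : ℝ) < ⌊PN * ((J - v.B J : ℕ) : ℝ)⌋₊ + 1 :=
            Nat.lt_floor_add_one _
          push_cast
          rw [wJ] at b1 ⊢
          have b2 : (1 - PN) * ((J : ℝ) - v.B J) ≤ (1 - PN) * ((1 - v.b) * J + 1) :=
            mul_le_mul_of_nonneg_left (by linarith) (by linarith)
          have b3 : (1 - v.b) * (1 - PN) * J ≤ e * J := mul_le_mul_of_nonneg_right he1 hJ0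
          linarith
      · rcases Nat.le_total (ρ J + t J + 1) (θ J) with h3 | h3
        · rw [Nat.sub_eq_zero_of_le h3, Nat.cast_zero]
          linarith
        · rw [Nat.cast_sub h3]
          push_cast
          have b1 := hθ J
          have b3 : (rr + tt - th) * J ≤ e * J := mul_le_mul_of_nonneg_right he2 hJ0
          linarith [a1.1, a1.2, a2.1, a2.2]
    have h3 : Real.log (2 * (2 * 2 ^ E + 1 / 8) + 3) ≤ (E : ℝ) * Real.log 2 + Real.log 11 := by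
      have p1 : (1 : ℝ) ≤ 2 ^ E := one_le_pow₀ (by norm_num)
      have h4 : 2 * (2 * (2 : ℝ) ^ E + 1 / 8) + 3 ≤ 11 * 2 ^ E := by linarith
      refine (Real.log_le_log (by positivity) h4).trans ?_
      rw [Real.log_mul (by norm_num) (by positivity), Real.log_pow]
      linarith
    have h5 := mul_le_mul_of_nonneg_right (h.sum J) hl2.le
    have h6 := mul_le_mul_of_nonneg_right hEr hl2.le
    have e3 : ((n₀ - 1 : ℕ) : ℝ) - 1 = ((n₀ - 2 : ℕ) : ℝ) := by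
      rw [Nat.cast_sub (by omega : 1 ≤ n₀), Nat.cast_sub hn₀]
      push_cast
      ring
    rw [e3] at h2
    have h7 : ((n₀ - 2 : ℕ) : ℝ) * ((ρ J : ℝ) + t J) ≤
        ((n₀ - 2 : ℕ) : ℝ) * ((rr + tt) * J + 2 * C) :=
      mul_le_mul_of_nonneg_left (by linarith [a1.1, a1.2, a2.1, a2.2]) (Nat.cast_nonneg _)
    have h8 : (((J : ℝ) - ⌊a0 * (J : ℝ)⌋₊) + ((n₀ - 2 : ℕ) : ℝ) * ((ρ J : ℝ) + t J)) *
        Real.log 2 ≤
        ((1 - a0) * J + 1 + ((n₀ - 2 : ℕ) : ℝ) * ((rr + tt) * J + 2 * C)) * Real.log 2 :=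
      mul_le_mul_of_nonneg_right (by linarith) hl2.le
    have h9 : (X₀ - ε) * Real.log 2 * J = ((1 - a0) + ((n₀ - 2 : ℕ) : ℝ) * (rr + tt) + e +
      (∑ l ∈ Ico 1 n₀, (1 - γ l)) - ((n₀ - 1 : ℕ) : ℝ) * rr + ε) * Real.log 2 * J := by
      rw [hε]
      ring
    rw [h9] at k1'
    rw [hC₂] at j1
    have h10 := k1'.trans (h1.trans (add_le_add h2 (add_le_add (add_le_add h3 h5) le_rfl)))
    linarith
  obtain ⟨τ, hτ, J₂, hb⟩ := hfin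
  obtain ⟨J, hJ, F, A, hA⟩ := hne₂ τ hτ J₂
  exact hb J hJ F A hA

end

end Pool.NFT33
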